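import Pool.Agent.H57.SM.Basics

set_option autoImplicit false

open MeasureTheory Finset Set
open scoped ENNReal

namespace Pool.Agent.H57.SM

/-- uniform law on `[-e,e]` -/
noncomputable def t25_nu (e : ℝ) : Measure ℝ :=
  (ENNReal.ofReal (2 * e))⁻¹ • volume.restrict (Icc (-e) e)

/-- uniform law on the cube `[-e,e]^n` -/
noncomputable def t25_U (n : ℕ) (e : ℝ) : Measure (Fin n → ℝ) := Measure.pi fun _ => t25_nu e

theorem t25_nu_prob {e : ℝ} (he : 0 < e) : IsProbabilityMeasure (t25_nu e) := by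
  constructor
  rw [t25_nu, Measure.smul_apply, Measure.restrict_apply MeasurableSet.univ, univ_inter,
    Real.volume_Icc, smul_eq_mul, show e - -e = 2 * e by ring]
  exact ENNReal.inv_mul_cancel (by simp; linarith) ENNReal.ofReal_ne_top

theorem t25_U_prob {n : ℕ} {e : ℝ} (he : 0 < e) : IsProbabilityMeasure (t25_U n e) := by
  haveI := t25_nu_prob he
  unfold t25_U
  infer_instance

theorem t25_U_eq {n : ℕ} {e : ℝ} (he : 0 < e) :
    t25_U n e = (ENNReal.ofReal ((2 * e) ^ n))⁻¹ •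
      (volume : Measure (Fin n → ℝ)).restrict {u : Fin n → ℝ | ∀ i, |u i| ≤ e} := by
  haveI := t25_nu_prob he
  refine Measure.pi_eq ?_
  intro s hs
  have hcube : {u : Fin n → ℝ | ∀ i, |u i| ≤ e} = Set.univ.pi fun _ => Icc (-e) e := by
    ext u
    simp only [Set.mem_setOf_eq, Set.mem_univ_pi, Set.mem_Icc, abs_le]
  have hm : MeasurableSet (Set.univ.pi s) := MeasurableSet.univ_pi hs
  rw [Measure.smul_apply, Measure.restrict_apply hm, hcube, ← Set.pi_inter_distrib,
    volume_pi_pi, smul_eq_mul]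
  have h2 : (ENNReal.ofReal ((2 * e) ^ n))⁻¹ = ∏ _i : Fin n, (ENNReal.ofReal (2 * e))⁻¹ := by
    rw [Finset.prod_const, Finset.card_univ, Fintype.card_fin,
      ENNReal.ofReal_pow (by linarith), ENNReal.inv_pow]
  rw [h2, ← Finset.prod_mul_distrib]
  refine Finset.prod_congr rfl fun i _ => ?_
  rw [t25_nu, Measure.smul_apply, Measure.restrict_apply (hs i), smul_eq_mul]

theorem t25_set_meas {n : ℕ} (e : ℝ) :
    MeasurableSet {z : (Fin n → ℝ) × (Fin n → ℝ) | ∀ i, |z.1 i - z.2 i| ≤ e} := by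
  have : {z : (Fin n → ℝ) × (Fin n → ℝ) | ∀ i, |z.1 i - z.2 i| ≤ e} =
      ⋂ i, {z : (Fin n → ℝ) × (Fin n → ℝ) | |z.1 i - z.2 i| ≤ e} := by
    ext z; simp
  rw [this]
  refine MeasurableSet.iInter fun i => ?_
  refine (isClosed_le ?_ continuous_const).measurableSet
  fun_prop

theorem t25_cube_meas {n : ℕ} (e : ℝ) : MeasurableSet {u : Fin n → ℝ | ∀ i, |u i| ≤ e} := by
  have : {u : Fin n → ℝ | ∀ i, |u i| ≤ e} = ⋂ i, {u : Fin n → ℝ | |u i| ≤ e} := by
    ext z; simp
  rw [this]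
  refine MeasurableSet.iInter fun i => ?_
  refine (isClosed_le ?_ continuous_const).measurableSet
  fun_prop

theorem t25_fs_meas {n : ℕ} {μ : Measure (Fin n → ℝ)} [IsProbabilityMeasure μ] (e : ℝ) :
    Measurable (fs μ e) := by
  unfold fs
  refine Measurable.div_const ?_ _
  exact measurable_measure_prodMk_left (t25_set_meas e)

theorem t25_lint {n : ℕ} {μ : Measure (Fin n → ℝ)} [IsProbabilityMeasure μ] {e : ℝ} (he : 0 < e)
    {F : (Fin n → ℝ) → ℝ≥0∞} (hF : Measurable F) :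
    ∫⁻ x, F x ∂(mf (fs μ e)) = ∫⁻ y, ∫⁻ u, F (y + u) ∂(t25_U n e) ∂μ := by
  set c : ℝ≥0∞ := (ENNReal.ofReal ((2 * e) ^ n))⁻¹ with hc
  set D : Set ((Fin n → ℝ) × (Fin n → ℝ)) := {z | ∀ i, |z.1 i - z.2 i| ≤ e} with hD
  have hDm : MeasurableSet D := t25_set_meas e
  have h1 : ∀ x, fs μ e x * F x = ∫⁻ y, c * (D.indicator 1 (x, y) * F x) ∂μ := by
    intro x
    have hm : Measurable fun y => D.indicator (1 : (Fin n → ℝ) × (Fin n → ℝ) → ℝ≥0∞) (x, y) :=
      (measurable_const.indicator hDm).comp measurable_prodMk_left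
    rw [lintegral_const_mul _ (hm.mul_const _), lintegral_mul_const _ hm]
    have h3 : ∫⁻ y, D.indicator (1 : (Fin n → ℝ) × (Fin n → ℝ) → ℝ≥0∞) (x, y) ∂μ =
        μ {y | ∀ i, |x i - y i| ≤ e} := by
      have h4 : (fun y => D.indicator (1 : (Fin n → ℝ) × (Fin n → ℝ) → ℝ≥0∞) (x, y)) =
          {y | ∀ i, |x i - y i| ≤ e}.indicator 1 := by
        funext y
        simp only [Set.indicator, hD, Set.mem_setOf_eq, Pi.one_apply]
      rw [h4, lintegral_indicator_one]
      exact measurable_prodMk_left (t25_set_meas e)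
    rw [h3, fs, ENNReal.div_eq_inv_mul, mul_assoc]
  have h2 : ∫⁻ x, F x ∂(mf (fs μ e)) = ∫⁻ x, ∫⁻ y, c * (D.indicator 1 (x, y) * F x) ∂μ := by
    rw [mf, lintegral_withDensity_eq_lintegral_mul _ (t25_fs_meas e) hF]
    refine lintegral_congr fun x => ?_
    rw [Pi.mul_apply, h1]
  rw [h2, lintegral_lintegral_swap]
  · refine lintegral_congr fun y => ?_
    rw [← lintegral_add_left_eq_self _ y, t25_U_eq he, lintegral_smul_measure]
    have hcm : MeasurableSet {u : Fin n → ℝ | ∀ i, |u i| ≤ e} := t25_cube_meas e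
    have h6 : ∀ u, ((y + u, y) ∈ D) ↔ (∀ i, |u i| ≤ e) := by
      intro u
      rw [hD]
      simp only [Set.mem_setOf_eq, Pi.add_apply, add_sub_cancel_left]
    rw [← lintegral_indicator hcm, smul_eq_mul, ← lintegral_const_mul _ ?_]
    · refine lintegral_congr fun u => ?_
      by_cases hu : ∀ i, |u i| ≤ e
      · rw [Set.indicator_of_mem ((h6 u).2 hu), Set.indicator_of_mem (show u ∈ {u : Fin n → ℝ |
          ∀ i, |u i| ≤ e} from hu), Pi.one_apply, one_mul]
      · rw [Set.indicator_of_notMem (fun h => hu ((h6 u).1 h)),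
          Set.indicator_of_notMem (show u ∉ {u : Fin n → ℝ | ∀ i, |u i| ≤ e} from hu), zero_mul]
    · exact (hF.comp (measurable_const_add y)).indicator hcm
  · refine Measurable.aemeasurable ?_
    refine Measurable.const_mul ?_ _
    exact (measurable_const.indicator hDm).mul (hF.comp measurable_fst)

theorem t25_map {n : ℕ} {μ : Measure (Fin n → ℝ)} [IsProbabilityMeasure μ] {e : ℝ} (he : 0 < e) :
    mf (fs μ e) = (μ.prod (t25_U n e)).map (fun z => z.1 + z.2) := by
  haveI := t25_U_prob (n := n) he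
  refine Measure.ext_of_lintegral _ fun F hF => ?_
  rw [t25_lint he hF, lintegral_map hF (by fun_prop)]
  rw [lintegral_prod]
  exact (hF.comp (by fun_prop)).aemeasurable

theorem t25_nu_Ioo {e : ℝ} (he : 0 < e) (a y : ℝ) :
    t25_nu e {u | |y + u| < a} ≤ ENNReal.ofReal (a / e) := by
  have h1 : {u : ℝ | |y + u| < a} = Ioo (-a - y) (a - y) := by
    ext u
    simp only [Set.mem_setOf_eq, Set.mem_Ioo, abs_lt]
    constructor
    · rintro ⟨h1, h2⟩
      constructor <;> linarith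
    · rintro ⟨h1, h2⟩
      constructor <;> linarith
  rw [h1, t25_nu, Measure.smul_apply, Measure.restrict_apply measurableSet_Ioo, smul_eq_mul]
  calc (ENNReal.ofReal (2 * e))⁻¹ * volume (Ioo (-a - y) (a - y) ∩ Icc (-e) e)
      ≤ (ENNReal.ofReal (2 * e))⁻¹ * volume (Ioo (-a - y) (a - y)) := by
        gcongr
        exact inter_subset_left
    _ = ENNReal.ofReal (a / e) := by
        rw [Real.volume_Ioo, ← ENNReal.ofReal_inv_of_pos (by linarith),
          ← ENNReal.ofReal_mul (by positivity)]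
        congr 1
        field_simp
        ring

theorem t25_pair {n : ℕ} {e : ℝ} (he : 0 < e) {i j : Fin n} (hij : i ≠ j) (a b : ℝ)
    (ha : 0 ≤ a) (y : Fin n → ℝ) :
    t25_U n e {u | |y i + u i| < a ∧ |y j + u j| < b} ≤ ENNReal.ofReal (1 / e ^ 2 * a * b) := by
  haveI := t25_nu_prob he
  set s : Fin n → Set ℝ := fun k => if k = i then {u | |y i + u| < a} else
    if k = j then {u | |y j + u| < b} else Set.univ with hs
  have h1 : {u : Fin n → ℝ | |y i + u i| < a ∧ |y j + u j| < b} ⊆ Set.univ.pi s := by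
    intro u hu k _
    simp only [hs]
    by_cases hk : k = i
    · rw [if_pos hk, hk]; exact hu.1
    · rw [if_neg hk]
      by_cases hk' : k = j
      · rw [if_pos hk', hk']; exact hu.2
      · rw [if_neg hk']; trivial
  refine (measure_mono h1).trans ?_
  rw [t25_U, Measure.pi_pi, Finset.prod_eq_mul i j hij ?_ (by simp) (by simp)]
  · have e1 : s i = {u | |y i + u| < a} := by simp [hs]
    have e2 : s j = {u | |y j + u| < b} := by
      simp only [hs, if_neg hij.symm, if_true]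
    rw [e1, e2]
    refine (mul_le_mul' (t25_nu_Ioo he a (y i)) (t25_nu_Ioo he b (y j))).trans ?_
    rw [← ENNReal.ofReal_mul (by positivity)]
    refine le_of_eq ?_
    congr 1
    field_simp
  · intro k _ hk
    have e3 : s k = Set.univ := by
      simp only [hs]; rw [if_neg hk.1, if_neg hk.2]
    rw [e3, measure_univ]

theorem t25_box {n : ℕ} (x : Fin n → ℝ) (e : ℝ) :
    {y : Fin n → ℝ | ∀ i, |x i - y i| ≤ e} = Set.univ.pi fun i => Icc (x i - e) (x i + e) := by
  ext y
  simp only [Set.mem_setOf_eq, Set.mem_univ_pi, Set.mem_Icc, abs_le]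
  refine forall_congr' fun i => ?_
  constructor
  · rintro ⟨h1, h2⟩
    constructor <;> linarith
  · rintro ⟨h1, h2⟩
    constructor <;> linarith

theorem t25_lc {n : ℕ} {μ : Measure (Fin n → ℝ)} (h : ULC μ) {e : ℝ} (he : 0 < e)
    (x y : Fin n → ℝ) (a b : ℝ) (ha : 0 < a) (hb : 0 < b) (hab : a + b = 1) :
    fs μ e x ^ a * fs μ e y ^ b ≤ fs μ e (fun i => a * x i + b * y i) := by
  set c := (ENNReal.ofReal ((2 * e) ^ n))⁻¹ with hc
  have hc0 : c ≠ 0 := ENNReal.inv_ne_zero.2 ENNReal.ofReal_ne_top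
  have hct : c ≠ ∞ := ENNReal.inv_ne_top.2 (by simpa using (by positivity : 0 < (2 * e) ^ n))
  have hfs : ∀ z, fs μ e z = c * μ {w | ∀ i, |z i - w i| ≤ e} := by
    intro z
    rw [fs, ENNReal.div_eq_inv_mul]
  have hK : ∀ z : Fin n → ℝ, IsCompact {w : Fin n → ℝ | ∀ i, |z i - w i| ≤ e} := by
    intro z
    rw [t25_box]
    exact isCompact_univ_pi fun i => isCompact_Icc
  have h1 := h.lc _ _ (hK x) (hK y) a ⟨ha, by linarith⟩
  have hb' : 1 - a = b := by linarith
  rw [hb'] at h1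
  rw [hfs, hfs, hfs, ENNReal.mul_rpow_of_nonneg _ _ ha.le, ENNReal.mul_rpow_of_nonneg _ _ hb.le,
    mul_mul_mul_comm, ← ENNReal.rpow_add _ _ hc0 hct, hab, ENNReal.rpow_one]
  gcongr
  refine h1.trans (measure_mono ?_)
  rintro z ⟨p, hp, q, hq, rfl⟩ i
  have hp' := hp i
  have hq' := hq i
  calc |a * x i + b * y i - (a * p i + b * q i)| = |a * (x i - p i) + b * (y i - q i)| := by
        congr 1; ring
    _ ≤ |a * (x i - p i)| + |b * (y i - q i)| := abs_add_le _ _
    _ = a * |x i - p i| + b * |y i - q i| := by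
        rw [abs_mul, abs_mul, abs_of_pos ha, abs_of_pos hb]
    _ ≤ a * e + b * e := by gcongr
    _ = e := by rw [← add_mul, hab, one_mul]

theorem t25_ev {n : ℕ} {μ : Measure (Fin n → ℝ)} (h : ULC μ) {e : ℝ}
    (x ε : Fin n → ℝ) (hε : ∀ i, ε i = 1 ∨ ε i = -1) :
    fs μ e (fun i => ε i * x i) = fs μ e x := by
  have h1 := h.sgn (fun i => decide (ε i = 1))
  have h2 : ∀ i, sg (decide (ε i = 1)) = ε i := by
    intro i
    rcases hε i with h' | h'
    · simp [sg, h']
    · rw [h']; norm_num [sg]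
  have hm : MeasurableSet {y : Fin n → ℝ | ∀ i, |ε i * x i - y i| ≤ e} := by
    have := t25_box (fun i => ε i * x i) e
    rw [this]
    exact MeasurableSet.univ_pi fun i => measurableSet_Icc
  have h3 : μ {y : Fin n → ℝ | ∀ i, |ε i * x i - y i| ≤ e} = μ {y | ∀ i, |x i - y i| ≤ e} := by
    conv_lhs => rw [← h1]
    rw [Measure.map_apply (by fun_prop) hm]
    congr 1
    ext y
    simp only [Set.mem_preimage, Set.mem_setOf_eq]
    refine forall_congr' fun i => ?_
    rw [h2 i, ← mul_sub, abs_mul]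
    have : |ε i| = 1 := by rcases hε i with h' | h' <;> rw [h'] <;> simp
    rw [this, one_mul]
  rw [fs, fs, h3]

theorem fs_ud {n : ℕ} {μ : Measure (Fin n → ℝ)} (h : ULC μ) {e : ℝ} (he : 0 < e) :
    UD (fs μ e) := by
  haveI := h.prob
  haveI hU := t25_U_prob (n := n) he
  refine ⟨t25_fs_meas e, ?_, ?_, ?_, ?_⟩
  · intro x y a b ha hb hab
    exact t25_lc h he x y a b ha hb hab
  · intro x ε hε
    exact t25_ev h x ε hε
  · have h1 := t25_lint (μ := μ) he (F := fun _ => 1) measurable_const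
    simpa [mf] using h1
  · refine ⟨1 / e ^ 2, by positivity, fun i j hij a b ha hb => ?_⟩
    have hSm : MeasurableSet {x : Fin n → ℝ | |x i| < a ∧ |x j| < b} :=
      (measurableSet_lt (by fun_prop : Measurable fun x : Fin n → ℝ => |x i|)
        measurable_const).inter
      (measurableSet_lt (by fun_prop : Measurable fun x : Fin n → ℝ => |x j|) measurable_const)
    have h1 := t25_lint (μ := μ) he
      (F := {x : Fin n → ℝ | |x i| < a ∧ |x j| < b}.indicator 1)
      (measurable_one.indicator hSm)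
    rw [lintegral_indicator_one hSm, mf, withDensity_apply _ hSm] at h1
    rw [h1]
    calc ∫⁻ y, ∫⁻ u, {x : Fin n → ℝ | |x i| < a ∧ |x j| < b}.indicator 1 (y + u) ∂(t25_U n e) ∂μ
        ≤ ∫⁻ _y, ENNReal.ofReal (1 / e ^ 2 * a * b) ∂μ := by
          refine lintegral_mono fun y => ?_
          refine le_trans (le_of_eq ?_) (t25_pair he hij a b ha y)
          have hm2 : MeasurableSet {u : Fin n → ℝ | |y i + u i| < a ∧ |y j + u j| < b} :=
            (measurableSet_lt (by fun_prop : Measurable fun u : Fin n → ℝ => |y i + u i|)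
              measurable_const).inter
            (measurableSet_lt (by fun_prop : Measurable fun u : Fin n → ℝ => |y j + u j|)
              measurable_const)
          rw [← lintegral_indicator_one hm2]
          rfl
      _ = ENNReal.ofReal (1 / e ^ 2 * a * b) := by simp

theorem t25_neg {n : ℕ} {e : ℝ} (he : 0 < e) :
    MeasurePreserving (fun u : Fin n → ℝ => -u) (t25_U n e) (t25_U n e) := by
  rw [t25_U_eq he]
  refine MeasurePreserving.smul_measure ?_ _
  have h1 : MeasurePreserving (fun u : Fin n → ℝ => -u) volume volume :=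
    Measure.measurePreserving_neg _
  have h2 := h1.restrict_preimage (t25_cube_meas (n := n) e)
  have h3 : (fun u : Fin n → ℝ => -u) ⁻¹' {u : Fin n → ℝ | ∀ i, |u i| ≤ e} =
      {u : Fin n → ℝ | ∀ i, |u i| ≤ e} := by
    ext u
    simp
  rw [h3] at h2
  exact h2

theorem t25_norm {n : ℕ} {μ : Measure (Fin n → ℝ)} [IsProbabilityMeasure μ] {e : ℝ}
    (he : 0 < e) {p : ℝ≥0∞} (hp : 1 ≤ p) (Y : (Fin n → ℝ) → ℝ) (hYm : Measurable Y)
    (hadd : ∀ y u, Y y + Y y = Y (y + u) + Y (y + -u)) :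
    eLpNorm Y p μ ≤ eLpNorm Y p (mf (fs μ e)) := by
  haveI hU := t25_U_prob (n := n) he
  set P := μ.prod (t25_U n e) with hP
  have h1 : eLpNorm Y p (mf (fs μ e)) =
      eLpNorm (fun z : (Fin n → ℝ) × (Fin n → ℝ) => Y (z.1 + z.2)) p P := by
    rw [t25_map he, eLpNorm_map_measure hYm.aestronglyMeasurable (by fun_prop)]
    rfl
  have h2 : eLpNorm (fun z : (Fin n → ℝ) × (Fin n → ℝ) => Y z.1) p P = eLpNorm Y p μ :=
    eLpNorm_comp_measurePreserving hYm.aestronglyMeasurable measurePreserving_fst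
  have h5 : Measurable fun z : (Fin n → ℝ) × (Fin n → ℝ) => Y (z.1 + z.2) := by
    fun_prop
  have h5' : Measurable fun z : (Fin n → ℝ) × (Fin n → ℝ) => Y (z.1 + -z.2) := by
    fun_prop
  have h4 : MeasurePreserving (fun z : (Fin n → ℝ) × (Fin n → ℝ) => (z.1, -z.2)) P P :=
    (MeasurePreserving.id μ).prod (t25_neg he)
  have h3 : eLpNorm (fun z : (Fin n → ℝ) × (Fin n → ℝ) => Y (z.1 + -z.2)) p P =
      eLpNorm (fun z : (Fin n → ℝ) × (Fin n → ℝ) => Y (z.1 + z.2)) p P := by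
    have h7 := eLpNorm_comp_measurePreserving (p := p) h5.aestronglyMeasurable h4
    rw [← h7]
    rfl
  have h6 : eLpNorm ((fun z : (Fin n → ℝ) × (Fin n → ℝ) => Y (z.1 + z.2)) +
        (fun z : (Fin n → ℝ) × (Fin n → ℝ) => Y (z.1 + -z.2))) p P ≤
      eLpNorm (fun z : (Fin n → ℝ) × (Fin n → ℝ) => Y (z.1 + z.2)) p P +
      eLpNorm (fun z : (Fin n → ℝ) × (Fin n → ℝ) => Y (z.1 + -z.2)) p P :=
    eLpNorm_add_le h5.aestronglyMeasurable h5'.aestronglyMeasurable hp
  have h7 : ((fun z : (Fin n → ℝ) × (Fin n → ℝ) => Y (z.1 + z.2)) +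
        (fun z : (Fin n → ℝ) × (Fin n → ℝ) => Y (z.1 + -z.2))) =
        (2 : ℝ) • (fun z : (Fin n → ℝ) × (Fin n → ℝ) => Y z.1) := by
    funext z
    rw [Pi.add_apply, ← hadd, Pi.smul_apply, smul_eq_mul, two_mul]
  rw [h3, h7, eLpNorm_const_smul, h2, ← two_mul, ← h1] at h6
  have h8 : ‖(2 : ℝ)‖ₑ = 2 := by
    rw [Real.enorm_eq_ofReal (by norm_num)]
    norm_num
  rw [h8] at h6
  exact (ENNReal.mul_le_mul_iff_right (by norm_num) (by norm_num)).1 h6

theorem fs_nrm {n : ℕ} {μ : Measure (Fin n → ℝ)} (h : ULC μ) {e : ℝ} (he : 0 < e) {p : ℝ}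
    (hp : 1 ≤ p) (t : Fin n → ℝ) : nrm μ p t ≤ nrm (mf (fs μ e)) p t := by
  haveI := h.prob
  have hp' : (1 : ℝ≥0∞) ≤ ENNReal.ofReal p := by
    rw [← ENNReal.ofReal_one]
    exact ENNReal.ofReal_le_ofReal hp
  refine t25_norm he hp' (fun x => ∑ i, t i * x i) (by fun_prop) ?_
  intro y u
  rw [← Finset.sum_add_distrib, ← Finset.sum_add_distrib]
  refine Finset.sum_congr rfl fun i _ => ?_
  simp only [Pi.add_apply, Pi.neg_apply]
  ring

theorem t25_U_ae {n : ℕ} {e : ℝ} (he : 0 < e) : ∀ᵐ u ∂(t25_U n e), ∀ i, |u i| ≤ e := by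
  rw [t25_U_eq he]
  refine Measure.ae_smul_measure ?_ _
  exact ae_restrict_mem (t25_cube_meas (n := n) e)

theorem fs_sup {n : ℕ} {μ : Measure (Fin n → ℝ)} (h : ULC μ)
    (hi : ∀ i, Integrable (fun x => x i) μ) {V : Finset (Fin n → ℝ)} (hV : V.Nonempty) :
    ∃ C : ℝ, ∀ e : ℝ, 0 < e → ∫ x, Sup V hV x ∂(mf (fs μ e)) ≤ ∫ x, Sup V hV x ∂μ + C * e := by
  haveI := h.prob
  obtain ⟨C, hC, hb⟩ := Sup_bd hV
  have hint : Integrable (Sup V hV) μ := by
    refine Integrable.mono' (g := fun x => C * ∑ i, |x i|) ?_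
      (Sup_cont hV).aestronglyMeasurable (Filter.Eventually.of_forall fun x => ?_)
    · exact (integrable_finsetSum _ fun i _ => (hi i).abs).const_mul C
    · rw [Real.norm_eq_abs, abs_of_nonneg (Sup_nonneg hV x)]
      exact hb x
  refine ⟨C * n, fun e he => ?_⟩
  haveI hU := t25_U_prob (n := n) he
  have h1 : ∫ x, Sup V hV x ∂(mf (fs μ e)) =
      ∫ z : (Fin n → ℝ) × (Fin n → ℝ), Sup V hV (z.1 + z.2) ∂(μ.prod (t25_U n e)) := by
    rw [t25_map he, integral_map (by fun_prop) (Sup_cont hV).aestronglyMeasurable]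
  have h2 : ∫ z : (Fin n → ℝ) × (Fin n → ℝ), Sup V hV z.1 ∂(μ.prod (t25_U n e)) =
      ∫ x, Sup V hV x ∂μ := by
    have h3 : (μ.prod (t25_U n e)).map Prod.fst = μ := measurePreserving_fst.map_eq
    conv_rhs => rw [← h3]
    rw [integral_map (by fun_prop) (Sup_cont hV).aestronglyMeasurable]
  have h4 : Integrable (fun z : (Fin n → ℝ) × (Fin n → ℝ) => Sup V hV z.1)
      (μ.prod (t25_U n e)) := by
    have h3 : (μ.prod (t25_U n e)).map Prod.fst = μ := measurePreserving_fst.map_eq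
    rw [← h3] at hint
    exact (integrable_map_measure (Sup_cont hV).aestronglyMeasurable (by fun_prop)).1 hint
  have h5 : ∀ᵐ z : (Fin n → ℝ) × (Fin n → ℝ) ∂(μ.prod (t25_U n e)), ∀ i, |z.2 i| ≤ e :=
    measurePreserving_snd.quasiMeasurePreserving.ae (t25_U_ae he)
  rw [h1, ← h2]
  have h6 : ∫ z : (Fin n → ℝ) × (Fin n → ℝ), Sup V hV z.1 ∂(μ.prod (t25_U n e)) + C * n * e =
      ∫ z : (Fin n → ℝ) × (Fin n → ℝ), (Sup V hV z.1 + C * n * e) ∂(μ.prod (t25_U n e)) := by
    rw [integral_add h4 (integrable_const _), integral_const]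
    simp
  rw [h6]
  refine integral_mono_of_nonneg (Filter.Eventually.of_forall fun z => Sup_nonneg hV _)
    (h4.add (integrable_const _)) ?_
  filter_upwards [h5] with z hz
  refine (Sup_add hV z.1 z.2).trans ?_
  gcongr
  refine (hb z.2).trans ?_
  rw [mul_assoc]
  gcongr
  refine (Finset.sum_le_sum fun i _ => hz i).trans ?_
  simp

end Pool.Agent.H57.SM
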