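import Pool.Agent.H57.SM.Scale
import Pool.Agent.H57.SM.Smooth
import Pool.Agent.H57.SM.Mom

/-! Universal Sudakov minoration for unconditional log-concave vectors. -/

set_option autoImplicit false

open MeasureTheory Finset Set
open scoped ENNReal

namespace Pool.Agent.H57.SM

theorem t27_meas {n : ℕ} (t : Fin n → ℝ) : Measurable (fun x : Fin n → ℝ => ∑ i, t i * x i) := by
  fun_prop

theorem t27_memLp {n : ℕ} {μ : Measure (Fin n → ℝ)} (h : ULC μ) (t : Fin n → ℝ) {p : ℝ}
    (hp : 1 ≤ p) : MemLp (fun x => ∑ i, t i * x i) (ENNReal.ofReal p) μ :=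
  ⟨(t27_meas t).aestronglyMeasurable, (ulc_mom h t hp le_rfl).2.lt_top⟩

theorem t27_coord {n : ℕ} {μ : Measure (Fin n → ℝ)} (h : ULC μ) (i : Fin n) :
    Integrable (fun x => x i) μ := by
  have h1 := t27_memLp h (fun j => if j = i then 1 else 0) (le_refl 1)
  have h2 : (fun x : Fin n → ℝ => ∑ j, (if j = i then (1 : ℝ) else 0) * x j) = fun x => x i := by
    funext x
    simp
  rw [h2, ENNReal.ofReal_one] at h1
  exact memLp_one_iff_integrable.1 h1

theorem t27_Sup_int {n : ℕ} {μ : Measure (Fin n → ℝ)} (h : ULC μ) {T : Finset (Fin n → ℝ)}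
    (hT : T.Nonempty) : Integrable (Sup T hT) μ := by
  obtain ⟨C, hC, hb⟩ := Sup_bd hT
  apply Integrable.mono' ((integrable_finsetSum _ fun i _ =>
    (t27_coord h i).abs).const_mul C) (Sup_cont hT).aestronglyMeasurable
  exact Filter.Eventually.of_forall fun x => by
    rw [Real.norm_eq_abs, abs_of_nonneg (Sup_nonneg hT x)]
    exact hb x

theorem t27_nrm {n : ℕ} {μ : Measure (Fin n → ℝ)} (h : ULC μ) (t : Fin n → ℝ) {p : ℝ}
    (hp : 1 ≤ p) :
    nrm μ p t = ENNReal.ofReal ((∫ x, |∑ i, t i * x i| ^ p ∂μ) ^ (1 / p)) := by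
  have h1 := MemLp.eLpNorm_eq_integral_rpow_norm (μ := μ) (p := ENNReal.ofReal p)
    (f := fun x => ∑ i, t i * x i) (by simp; linarith) ENNReal.ofReal_ne_top (t27_memLp h t hp)
  rw [ENNReal.toReal_ofReal (by linarith)] at h1
  unfold nrm
  rw [h1, one_div]
  rfl

theorem t27_small {n : ℕ} {μ : Measure (Fin n → ℝ)} (h : ULC μ) {p A : ℝ} (hp : 1 ≤ p)
    (hp2 : p ≤ 1400) (hA : 0 < A) {V : Finset (Fin n → ℝ)} (hV : V.Nonempty)
    {v w : Fin n → ℝ} (hv : v ∈ V) (hw : w ∈ V)
    (hsep : ENNReal.ofReal A ≤ nrm μ p (fun i => v i - w i)) :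
    A / 56000 ≤ ∫ x, Sup V hV x ∂μ := by
  have h1 := (ulc_mom h (fun i => v i - w i) (le_refl (1 : ℝ)) hp).1
  have h2 : nrm μ 1 (fun i => v i - w i) ≤ ENNReal.ofReal (∫ x, Sup V hV x ∂μ) := by
    rw [t27_nrm h _ (le_refl 1)]
    apply ENNReal.ofReal_le_ofReal
    simp only [Real.rpow_one, div_one]
    have h3 := t27_memLp h (fun i => v i - w i) (le_refl 1)
    rw [ENNReal.ofReal_one] at h3
    apply integral_mono (memLp_one_iff_integrable.1 h3).abs (t27_Sup_int h hV)
    intro x
    simp only []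
    apply abs_le.2
    constructor
    · have := le_Sup hV x hw hv
      have e : ∑ i, (w i - v i) * x i = -∑ i, (v i - w i) * x i := by
        rw [← Finset.sum_neg_distrib]
        exact Finset.sum_congr rfl fun i _ => by ring
      linarith
    · exact le_Sup hV x hv hw
  have h4 : ENNReal.ofReal A ≤ ENNReal.ofReal (40 * p / 1 * ∫ x, Sup V hV x ∂μ) := by
    rw [ENNReal.ofReal_mul (by positivity)]
    exact hsep.trans (h1.trans (by gcongr))
  have h0 : 0 ≤ ∫ x, Sup V hV x ∂μ := integral_nonneg fun x => Sup_nonneg hV x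
  rw [ENNReal.ofReal_le_ofReal_iff (by positivity)] at h4
  rw [div_le_iff₀ (by norm_num)]
  nlinarith

theorem ulc_smp {n : ℕ} {μ : Measure (Fin n → ℝ)} (h : ULC μ) {p A : ℝ} (hp : 1 ≤ p)
    (hA : 0 < A) (V : Finset (Fin n → ℝ)) (hV : V.Nonempty)
    (hsep : ∀ v ∈ V, ∀ w ∈ V, v ≠ w → ENNReal.ofReal A ≤ nrm μ p (fun i => v i - w i))
    (hcard : Real.exp p ≤ V.card) :
    A / 10 ^ 12 ≤ ∫ x, Sup V hV x ∂μ := by
  rcases le_total p 1400 with hp2 | hp2
  · have h1 : 1 < V.card := by
      have h2 : (1 : ℝ) < V.card := by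
        have := Real.add_one_le_exp p
        linarith
      exact_mod_cast h2
    obtain ⟨v, hv, w, hw, hvw⟩ := Finset.one_lt_card.1 h1
    have h3 := t27_small h hp hp2 hA hV hv hw (hsep v hv w hw hvw)
    refine le_trans ?_ h3
    apply div_le_div_of_nonneg_left hA.le (by norm_num) (by norm_num)
  · set p' := p / 140 with hp'
    have hp10 : 10 ≤ p' := by rw [hp']; linarith
    have hsep' : ∀ v ∈ V, ∀ w ∈ V, v ≠ w →
        ENNReal.ofReal (A / 5600) ≤ nrm μ p' (fun i => v i - w i) := by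
      intro v hv w hw hvw
      have h1 := (ulc_mom h (fun i => v i - w i) (q := p') (p := p) (by linarith)
        (by rw [hp']; linarith)).1
      have h2 : 40 * p / p' = 5600 := by
        rw [hp']; field_simp; norm_num
      rw [h2] at h1
      have h3 := (hsep v hv w hw hvw).trans h1
      rw [ENNReal.ofReal_div_of_pos (by norm_num)]
      apply ENNReal.div_le_of_le_mul
      rw [mul_comm]
      exact h3
    have hcard' : Real.exp (140 * p') ≤ V.card := by
      rw [show 140 * p' = p by rw [hp']; ring]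
      exact hcard
    obtain ⟨C, hC⟩ := fs_sup h (t27_coord h) hV
    have h4 : ∀ e : ℝ, 0 < e → A / 5600 / 3000000 ≤ ∫ x, Sup V hV x ∂μ + C * e := by
      intro e he
      refine le_trans ?_ (hC e he)
      apply ud_core (fs_ud h he) hp10 (by positivity) V hV _ hcard'
      intro v hv w hw hvw
      exact (hsep' v hv w hw hvw).trans (fs_nrm h he (by linarith) _)
    have h5 : A / 5600 / 3000000 ≤ ∫ x, Sup V hV x ∂μ := by
      apply le_of_forall_pos_le_add
      intro ε hε
      have h6 := h4 (ε / (|C| + 1)) (by positivity)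
      refine h6.trans ?_
      have h7 : C * (ε / (|C| + 1)) ≤ ε := by
        rw [mul_div_assoc', div_le_iff₀ (by positivity)]
        nlinarith [le_abs_self C, abs_nonneg C]
      linarith
    refine le_trans ?_ h5
    rw [div_div]
    apply div_le_div_of_nonneg_left hA.le (by norm_num) (by norm_num)

end Pool.Agent.H57.SM
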