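import Pool.Agent.H57.SM.Bern

/-! Suprema of linear functionals and their averages over signs. -/

set_option autoImplicit false

open MeasureTheory Finset Set
open scoped ENNReal

namespace Pool.Agent.H57.SM

theorem Sup_le {n : ℕ} {T : Finset (Fin n → ℝ)} (hT : T.Nonempty) {x : Fin n → ℝ} {a : ℝ}
    (h : ∀ v ∈ T, ∀ w ∈ T, ∑ i, (v i - w i) * x i ≤ a) : Sup T hT x ≤ a :=
  Finset.sup'_le _ _ fun v hv => Finset.sup'_le _ _ fun w hw => h v hv w hw

theorem le_Sup {n : ℕ} {T : Finset (Fin n → ℝ)} (hT : T.Nonempty) (x : Fin n → ℝ)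
    {v w : Fin n → ℝ} (hv : v ∈ T) (hw : w ∈ T) : ∑ i, (v i - w i) * x i ≤ Sup T hT x := by
  have h1 : ∑ i, (v i - w i) * x i ≤ T.sup' hT (fun w => ∑ i, (v i - w i) * x i) :=
    Finset.le_sup' (fun w : Fin n → ℝ => ∑ i, (v i - w i) * x i) hw
  have h2 : T.sup' hT (fun w => ∑ i, (v i - w i) * x i) ≤ Sup T hT x :=
    Finset.le_sup' (fun v : Fin n → ℝ => T.sup' hT fun w => ∑ i, (v i - w i) * x i) hv
  exact h1.trans h2

theorem Sup_nonneg {n : ℕ} {T : Finset (Fin n → ℝ)} (hT : T.Nonempty) (x : Fin n → ℝ) :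
    0 ≤ Sup T hT x := by
  obtain ⟨v, hv⟩ := hT
  have := le_Sup ⟨v, hv⟩ x hv hv
  simpa using this

theorem Sup_cont {n : ℕ} {T : Finset (Fin n → ℝ)} (hT : T.Nonempty) : Continuous (Sup T hT) := by
  have h : Sup T hT = T.sup' hT fun v x => T.sup' hT (fun w => ∑ i, (v i - w i) * x i) := by
    funext x
    rw [Finset.sup'_apply]
    rfl
  rw [h]
  apply Continuous.finset_sup'
  intro v _
  have h' : (fun x : Fin n → ℝ => T.sup' hT (fun w => ∑ i, (v i - w i) * x i)) =
      T.sup' hT fun w x => ∑ i, (v i - w i) * x i := by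
    funext x
    rw [Finset.sup'_apply]
  rw [h']
  apply Continuous.finset_sup'
  intro w _
  fun_prop

theorem Sup_add {n : ℕ} {T : Finset (Fin n → ℝ)} (hT : T.Nonempty) (x y : Fin n → ℝ) :
    Sup T hT (fun i => x i + y i) ≤ Sup T hT x + Sup T hT y := by
  apply Sup_le
  intro v hv w hw
  have h1 := le_Sup hT x hv hw
  have h2 := le_Sup hT y hv hw
  calc ∑ i, (v i - w i) * (x i + y i) = ∑ i, (v i - w i) * x i + ∑ i, (v i - w i) * y i := by
        rw [← Finset.sum_add_distrib]
        exact Finset.sum_congr rfl fun i _ => by ring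
    _ ≤ _ := add_le_add h1 h2

theorem Sup_smul {n : ℕ} {T : Finset (Fin n → ℝ)} (hT : T.Nonempty) {c : ℝ} (hc : 0 ≤ c)
    (x : Fin n → ℝ) : Sup T hT (fun i => c * x i) = c * Sup T hT x := by
  apply le_antisymm
  · apply Sup_le
    intro v hv w hw
    calc ∑ i, (v i - w i) * (c * x i) = c * ∑ i, (v i - w i) * x i := by
          rw [Finset.mul_sum]
          exact Finset.sum_congr rfl fun i _ => by ring
      _ ≤ _ := mul_le_mul_of_nonneg_left (le_Sup hT x hv hw) hc
  · rcases hc.eq_or_lt with h | h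
    · rw [← h, zero_mul]
      exact Sup_nonneg _ _
    · rw [← le_div_iff₀' h]
      apply Sup_le
      intro v hv w hw
      rw [le_div_iff₀' h]
      calc c * ∑ i, (v i - w i) * x i = ∑ i, (v i - w i) * (c * x i) := by
            rw [Finset.mul_sum]
            exact Finset.sum_congr rfl fun i _ => by ring
        _ ≤ _ := le_Sup hT _ hv hw

theorem Sup_bd {n : ℕ} {T : Finset (Fin n → ℝ)} (hT : T.Nonempty) :
    ∃ C : ℝ, 0 ≤ C ∧ ∀ x, Sup T hT x ≤ C * ∑ i, |x i| := by
  refine ⟨∑ v ∈ T, ∑ w ∈ T, ∑ i, |v i - w i|, by positivity, ?_⟩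
  intro x
  apply Sup_le
  intro v hv w hw
  have h1 : ∀ i, |v i - w i| ≤ ∑ v ∈ T, ∑ w ∈ T, ∑ i, |v i - w i| := by
    intro i
    calc |v i - w i| ≤ ∑ i, |v i - w i| :=
          Finset.single_le_sum (f := fun i => |v i - w i|) (fun i _ => abs_nonneg _)
            (Finset.mem_univ i)
      _ ≤ ∑ w ∈ T, ∑ i, |v i - w i| :=
          Finset.single_le_sum (f := fun w : Fin n → ℝ => ∑ i, |v i - w i|)
            (fun w _ => by positivity) hw
      _ ≤ _ := Finset.single_le_sum (f := fun v : Fin n → ℝ => ∑ w ∈ T, ∑ i, |v i - w i|)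
            (fun v _ => by positivity) hv
  rw [Finset.mul_sum]
  apply Finset.sum_le_sum
  intro i _
  calc (v i - w i) * x i ≤ |(v i - w i) * x i| := le_abs_self _
    _ = |v i - w i| * |x i| := abs_mul _ _
    _ ≤ _ := mul_le_mul_of_nonneg_right (h1 i) (abs_nonneg _)

theorem Sup_mono_set {n : ℕ} {T T' : Finset (Fin n → ℝ)} (hT : T.Nonempty) (hT' : T'.Nonempty)
    (h : T' ⊆ T) (x : Fin n → ℝ) : Sup T' hT' x ≤ Sup T hT x :=
  Sup_le _ fun _ hv _ hw => le_Sup hT x (h hv) (h hw)

theorem RR_cont {n : ℕ} {T : Finset (Fin n → ℝ)} (hT : T.Nonempty) : Continuous (RR T hT) := by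
  have : RR T hT = fun x => ∑ ε : Fin n → Bool, (∏ i, (1 + sg (ε i) * 0) / 2) *
      Sup T hT (fun i => sg (ε i) * x i) := by
    funext x; rfl
  rw [this]
  apply continuous_finsetSum
  intro ε _
  apply continuous_const.mul
  apply (Sup_cont hT).comp
  fun_prop

theorem RR_nonneg {n : ℕ} {T : Finset (Fin n → ℝ)} (hT : T.Nonempty) (x : Fin n → ℝ) :
    0 ≤ RR T hT x := Eb_nonneg (fun i => by simp) fun ε => Sup_nonneg _ _

/-- domination of a point of the cube by an average over signs -/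
theorem Sup_le_Eb {n : ℕ} {T : Finset (Fin n → ℝ)} (hT : T.Nonempty) (y β : Fin n → ℝ)
    (hβ : ∀ i, |β i| ≤ 1) :
    Sup T hT (fun i => β i * y i) ≤ Eb β (fun η => Sup T hT (fun i => sg (η i) * y i)) := by
  apply Sup_le
  intro v hv w hw
  have h1 := Eb_lin β (fun i => (v i - w i) * y i)
  calc ∑ i, (v i - w i) * (β i * y i) = ∑ i, (v i - w i) * y i * β i :=
        Finset.sum_congr rfl fun i _ => by ring
    _ = Eb β (fun ε => ∑ i, (v i - w i) * y i * sg (ε i)) := h1.symm
    _ ≤ _ := by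
        apply Eb_mono hβ
        intro ε
        have := le_Sup hT (fun i => sg (ε i) * y i) hv hw
        refine le_trans (le_of_eq ?_) this
        exact Finset.sum_congr rfl fun i _ => by ring

/-- contraction principle -/
theorem RR_mono {n : ℕ} {T : Finset (Fin n → ℝ)} (hT : T.Nonempty) {x y : Fin n → ℝ}
    (h : ∀ i, |x i| ≤ |y i|) : RR T hT x ≤ RR T hT y := by
  set θ : Fin n → ℝ := fun i => x i / y i with hθ
  have hθ1 : ∀ i, |θ i| ≤ 1 := by
    intro i
    rw [hθ]
    simp only [abs_div]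
    exact div_le_one_of_le₀ (h i) (abs_nonneg _)
  have hθ2 : ∀ i, x i = θ i * y i := by
    intro i
    rw [hθ]
    by_cases hy : y i = 0
    · have := h i
      rw [hy, abs_zero] at this
      have hx : x i = 0 := abs_eq_zero.1 (le_antisymm this (abs_nonneg _))
      simp [hy, hx]
    · simp only []
      rw [div_mul_cancel₀ _ hy]
  unfold RR
  rw [← Es_comp θ (fun ε => Sup T hT fun i => sg (ε i) * y i)]
  apply Es_mono
  intro ε
  have h1 := Sup_le_Eb hT y (fun i => θ i * sg (ε i)) (fun i => by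
    rw [abs_mul, sg_abs, mul_one]; exact hθ1 i)
  refine le_trans (le_of_eq ?_) h1
  congr 1
  funext i
  rw [hθ2 i]; ring

theorem RR_abs {n : ℕ} {T : Finset (Fin n → ℝ)} (hT : T.Nonempty) (x : Fin n → ℝ) :
    RR T hT (fun i => |x i|) = RR T hT x :=
  le_antisymm (RR_mono hT fun i => by simp) (RR_mono hT fun i => by simp)

theorem RR_smul {n : ℕ} {T : Finset (Fin n → ℝ)} (hT : T.Nonempty) {c : ℝ} (hc : 0 ≤ c)
    (x : Fin n → ℝ) : RR T hT (fun i => c * x i) = c * RR T hT x := by
  unfold RR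
  unfold Es
  rw [← Eb_mul]
  congr 1
  funext ε
  rw [← Sup_smul hT hc]
  congr 1
  funext i
  ring

theorem rdy_coord {n : ℕ} {μ : Measure (Fin n → ℝ)} (h : Rdy μ) (i : Fin n) :
    Integrable (fun x => x i) μ := by
  have := h.prob
  have hm : Measurable (fun x : Fin n → ℝ => x i) := measurable_pi_apply i
  refine ⟨hm.aestronglyMeasurable, ?_⟩
  rw [hasFiniteIntegral_iff_norm]
  have h1 : ∫⁻ x, ENNReal.ofReal ‖x i‖ ∂μ = ∫⁻ t in Ioi (0 : ℝ), μ {x | t ≤ ‖x i‖} := by
    apply lintegral_eq_lintegral_meas_le μ (Filter.Eventually.of_forall fun x => norm_nonneg _)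
    exact hm.norm.aemeasurable
  rw [h1]
  have h2 : ∀ t ∈ Ioi (0 : ℝ), μ {x | t ≤ ‖x i‖} ≤ ENNReal.ofReal (Real.exp (-(1 / 2) * t)) := by
    intro t ht
    have ht0 : (0 : ℝ) < t := ht
    have h3 := h.tail (fun j => if j = i then t else 0) (fun j => by
      split_ifs
      · exact ht0.le
      · exact le_rfl)
    unfold G at h3
    have h4 : {x : Fin n → ℝ | ∀ j, (if j = i then t else 0) ≤ |x j|} = {x | t ≤ ‖x i‖} := by
      ext x
      simp only [mem_ofPred_eq, Real.norm_eq_abs]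
      constructor
      · intro hx
        simpa using hx i
      · intro hx j
        split_ifs with hj
        · rw [hj]; exact hx
        · exact abs_nonneg _
    rw [h4] at h3
    have h5 : ∑ j, (if j = i then t else 0) = t := by simp
    rw [h5] at h3
    rw [← ENNReal.ofReal_toReal (measure_ne_top μ {x : Fin n → ℝ | t ≤ ‖x i‖})]
    apply ENNReal.ofReal_le_ofReal
    refine h3.trans (le_of_eq ?_)
    congr 1
    ring
  refine lt_of_le_of_lt (setLIntegral_mono' measurableSet_Ioi h2) ?_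
  have h6 : IntegrableOn (fun t : ℝ => Real.exp (-(1 / 2) * t)) (Ioi 0) := by
    have := integrableOn_exp_mul_Ioi (a := -(1 / 2 : ℝ)) (by norm_num) 0
    exact this
  have h7 := h6.2
  rw [hasFiniteIntegral_iff_norm] at h7
  refine lt_of_le_of_lt (le_of_eq ?_) h7
  apply lintegral_congr
  intro t
  rw [Real.norm_eq_abs, abs_of_pos (Real.exp_pos _)]

theorem sum_abs_int {n : ℕ} {μ : Measure (Fin n → ℝ)} (h : Rdy μ) :
    Integrable (fun x : Fin n → ℝ => ∑ i, |x i|) μ :=
  integrable_finsetSum _ fun i _ => (rdy_coord h i).abs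

theorem Sup_int {n : ℕ} {μ : Measure (Fin n → ℝ)} (h : Rdy μ) {T : Finset (Fin n → ℝ)}
    (hT : T.Nonempty) : Integrable (Sup T hT) μ := by
  obtain ⟨C, hC, hb⟩ := Sup_bd hT
  apply Integrable.mono' ((sum_abs_int h).const_mul C) (Sup_cont hT).aestronglyMeasurable
  exact Filter.Eventually.of_forall fun x => by
    rw [Real.norm_eq_abs, abs_of_nonneg (Sup_nonneg hT x)]
    exact hb x

theorem sgn_cont {n : ℕ} (ε : Fin n → Bool) :
    Continuous (fun (x : Fin n → ℝ) (i : Fin n) => sg (ε i) * x i) := by fun_prop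

theorem RR_int {n : ℕ} {μ : Measure (Fin n → ℝ)} (h : Rdy μ) {T : Finset (Fin n → ℝ)}
    (hT : T.Nonempty) : Integrable (RR T hT) μ ∧ ∫ x, RR T hT x ∂μ = ∫ x, Sup T hT x ∂μ := by
  have h0 : ∀ ε : Fin n → Bool, Integrable (fun x => Sup T hT fun i => sg (ε i) * x i) μ ∧
      ∫ x, Sup T hT (fun i => sg (ε i) * x i) ∂μ = ∫ x, Sup T hT x ∂μ := by
    intro ε
    have hm : Measurable (fun (x : Fin n → ℝ) (i : Fin n) => sg (ε i) * x i) :=
      (sgn_cont ε).measurable
    have h1 := Sup_int h hT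
    rw [← h.sgn ε] at h1
    refine ⟨h1.comp_measurable hm, ?_⟩
    conv_rhs => rw [← h.sgn ε]
    rw [integral_map hm.aemeasurable (Sup_cont hT).aestronglyMeasurable]
  have h2 : RR T hT = fun x => ∑ ε : Fin n → Bool, (∏ i, (1 + sg (ε i) * 0) / 2) *
      Sup T hT (fun i => sg (ε i) * x i) := by
    funext x; rfl
  refine ⟨?_, ?_⟩
  · rw [h2]
    exact integrable_finsetSum _ fun ε _ => (h0 ε).1.const_mul _
  · rw [h2, integral_finsetSum _ fun ε _ => (h0 ε).1.const_mul _]
    have h3 : ∀ ε : Fin n → Bool, ∫ x, (∏ i, ((1 : ℝ) + sg (ε i) * 0) / 2) *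
        Sup T hT (fun i => sg (ε i) * x i) ∂μ =
        (∏ i : Fin n, ((1 : ℝ) + sg (ε i) * 0) / 2) * ∫ x, Sup T hT x ∂μ := by
      intro ε
      rw [integral_const_mul, (h0 ε).2]
    simp_rw [h3]
    exact Eb_const (fun _ : Fin n => (0 : ℝ)) _

theorem BB_of {n : ℕ} {μ : Measure (Fin n → ℝ)} (h : Rdy μ) {T : Finset (Fin n → ℝ)}
    (hT : T.Nonempty) {S : ℝ} (hS : ∫ x, Sup T hT x ∂μ ≤ S) : BB T (2 * S) := by
  have hp := h.prob
  refine ⟨fun ε => Sup T hT fun i => sg (ε i), fun ε v hv w hw => le_Sup hT _ hv hw, ?_⟩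
  have e1 : Es (fun ε => Sup T hT fun i => sg (ε i)) = RR T hT (fun _ => 1) := by
    unfold RR
    simp
  rw [e1]
  set B : (Fin n → ℝ) → Fin n → ℝ := fun x i => if 1 ≤ |x i| then 1 else 0 with hB
  have hset : ∀ i, MeasurableSet {x : Fin n → ℝ | 1 ≤ |x i|} := by
    intro i
    apply measurableSet_le measurable_const
    exact (measurable_pi_apply i).abs
  have hBm : ∀ i, Measurable (fun x => B x i) := by
    intro i
    exact Measurable.ite (hset i) measurable_const measurable_const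
  have hBmm : Measurable B := measurable_pi_iff.2 hBm
  have hB01 : ∀ x i, 0 ≤ B x i ∧ B x i ≤ 1 ∧ B x i ≤ |x i| := by
    intro x i
    simp only [hB]
    split_ifs with h1
    · exact ⟨by norm_num, le_rfl, h1⟩
    · exact ⟨le_rfl, by norm_num, abs_nonneg _⟩
  have hBi : ∀ i, Integrable (fun x => B x i) μ := by
    intro i
    apply Integrable.mono' (integrable_const (1 : ℝ)) (hBm i).aestronglyMeasurable
    exact Filter.Eventually.of_forall fun x => by
      rw [Real.norm_eq_abs, abs_of_nonneg (hB01 x i).1]; exact (hB01 x i).2.1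
  set π : Fin n → ℝ := fun i => ∫ x, B x i ∂μ with hπ
  have hπ2 : ∀ i, 1 / 2 ≤ π i := by
    intro i
    have h1 : π i = μ.real {x | 1 ≤ |x i|} := by
      simp only [hπ]
      have : (fun x => B x i) = Set.indicator {x : Fin n → ℝ | 1 ≤ |x i|} (fun _ => (1 : ℝ)) := by
        funext x
        simp only [hB, Set.indicator, mem_ofPred_eq]
      rw [this, integral_indicator (hset i)]
      simp
    rw [h1]
    exact h.half i
  have hSm : ∀ ε : Fin n → Bool, Measurable (fun x => Sup T hT fun i => sg (ε i) * B x i) := by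
    intro ε
    apply (Sup_cont hT).measurable.comp
    exact (sgn_cont ε).measurable.comp hBmm
  obtain ⟨C, hC, hCb⟩ := Sup_bd hT
  have hSi : ∀ ε : Fin n → Bool, Integrable (fun x => Sup T hT fun i => sg (ε i) * B x i) μ := by
    intro ε
    apply Integrable.mono' (integrable_const (C * n)) (hSm ε).aestronglyMeasurable
    exact Filter.Eventually.of_forall fun x => by
      rw [Real.norm_eq_abs, abs_of_nonneg (Sup_nonneg hT _)]
      refine (hCb _).trans ?_
      apply mul_le_mul_of_nonneg_left _ hC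
      calc ∑ i, |sg (ε i) * B x i| ≤ ∑ i : Fin n, (1 : ℝ) := by
            apply Finset.sum_le_sum
            intro i _
            rw [abs_mul, sg_abs, one_mul, abs_of_nonneg (hB01 x i).1]
            exact (hB01 x i).2.1
        _ = n := by simp
  -- Jensen
  have hJ : ∀ ε : Fin n → Bool, Sup T hT (fun i => sg (ε i) * π i) ≤
      ∫ x, Sup T hT (fun i => sg (ε i) * B x i) ∂μ := by
    intro ε
    apply Sup_le
    intro v hv w hw
    have h1 : ∑ i, (v i - w i) * (sg (ε i) * π i) =
        ∫ x, ∑ i, (v i - w i) * (sg (ε i) * B x i) ∂μ := by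
      rw [integral_finsetSum]
      · apply Finset.sum_congr rfl
        intro i _
        rw [integral_const_mul, integral_const_mul]
      · intro i _
        exact ((hBi i).const_mul _).const_mul _
    rw [h1]
    apply integral_mono
    · exact integrable_finsetSum _ fun i _ => ((hBi i).const_mul _).const_mul _
    · exact hSi ε
    · intro x
      exact le_Sup hT _ hv hw
  have h2 : RR T hT π ≤ ∫ x, RR T hT (B x) ∂μ := by
    have h3 : ∫ x, RR T hT (B x) ∂μ =
        Es (fun ε => ∫ x, Sup T hT (fun i => sg (ε i) * B x i) ∂μ) := by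
      unfold RR Es Eb
      rw [integral_finsetSum _ fun ε _ => (hSi ε).const_mul _]
      exact Finset.sum_congr rfl fun ε _ => by rw [integral_const_mul]
    rw [h3]
    exact Es_mono fun ε => hJ ε
  have h4 : RR T hT (fun _ => 1 / 2) ≤ RR T hT π := by
    apply RR_mono
    intro i
    rw [abs_of_nonneg (by norm_num : (0 : ℝ) ≤ 1 / 2)]
    exact (hπ2 i).trans (le_abs_self _)
  have h5 : RR T hT (fun _ => 1 / 2) = 1 / 2 * RR T hT (fun _ => 1) := by
    rw [← RR_smul hT (by norm_num)]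
    simp
  have h6 : ∫ x, RR T hT (B x) ∂μ ≤ ∫ x, RR T hT x ∂μ := by
    apply integral_mono
    · have : (fun x => RR T hT (B x)) = fun x => ∑ ε : Fin n → Bool,
          (∏ i, (1 + sg (ε i) * 0) / 2) * Sup T hT (fun i => sg (ε i) * B x i) := by
        funext x; rfl
      rw [this]
      exact integrable_finsetSum _ fun ε _ => (hSi ε).const_mul _
    · exact (RR_int h hT).1
    · intro x
      apply RR_mono
      intro i
      rw [abs_of_nonneg (hB01 x i).1]
      exact (hB01 x i).2.2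
  have h7 := (RR_int h hT).2
  linarith

end Pool.Agent.H57.SM
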