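import Mathlib

/-! Fubini on the orthant (copy of a part of H82/Ten/TenUncPL, by helper82). -/

open MeasureTheory Set
open scoped ENNReal

namespace Pool.Agent.H57.SM.UncA

/-- Fubini for the positive orthant. -/
theorem lint_succ (n : ℕ) {φ : (Fin (n + 1) → ℝ) → ℝ≥0∞} (hφ : Measurable φ) :
    ∫⁻ x in {x : Fin (n + 1) → ℝ | ∀ i, 0 < x i}, φ x =
      ∫⁻ s in Ioi (0 : ℝ), ∫⁻ x in {x : Fin n → ℝ | ∀ i, 0 < x i}, φ (Fin.cons s x) := by
  have hmp := (volume_preserving_piFinSuccAbove (fun _ : Fin (n + 1) => ℝ) 0).symm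
  have hS : MeasurableSet {x : Fin (n + 1) → ℝ | ∀ i, 0 < x i} := by
    have : {x : Fin (n + 1) → ℝ | ∀ i, 0 < x i} = Set.univ.pi fun _ => Ioi 0 := by
      ext x; simp
    rw [this]
    exact MeasurableSet.univ_pi fun _ => measurableSet_Ioi
  have hpre : (MeasurableEquiv.piFinSuccAbove (fun _ : Fin (n + 1) => ℝ) 0).symm ⁻¹'
      {x : Fin (n + 1) → ℝ | ∀ i, 0 < x i} = Ioi (0 : ℝ) ×ˢ {x : Fin n → ℝ | ∀ i, 0 < x i} := by
    ext ⟨s, x⟩
    simp only [mem_preimage, mem_setOf_eq, mem_prod, mem_Ioi]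
    rw [Fin.forall_fin_succ]
    simp [MeasurableEquiv.piFinSuccAbove, Fin.insertNthEquiv]
  have hm : Measurable (fun a => φ ((MeasurableEquiv.piFinSuccAbove
      (fun _ : Fin (n + 1) => ℝ) 0).symm a)) := hφ.comp hmp.measurable
  rw [← hmp.setLIntegral_comp_preimage hS hφ, hpre, Measure.volume_eq_prod,
    ← Measure.prod_restrict, lintegral_prod _ hm.aemeasurable]
  apply lintegral_congr
  intro s
  apply lintegral_congr
  intro x
  congr 1
  simp [MeasurableEquiv.piFinSuccAbove, Fin.insertNthEquiv]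

/-- Fubini for the whole space. -/
theorem lint_succ' (n : ℕ) {φ : (Fin (n + 1) → ℝ) → ℝ≥0∞} (hφ : Measurable φ) :
    ∫⁻ x, φ x = ∫⁻ s : ℝ, ∫⁻ x : Fin n → ℝ, φ (Fin.cons s x) := by
  have hmp := (volume_preserving_piFinSuccAbove (fun _ : Fin (n + 1) => ℝ) 0).symm
  have hm : Measurable (fun a => φ ((MeasurableEquiv.piFinSuccAbove
      (fun _ : Fin (n + 1) => ℝ) 0).symm a)) := hφ.comp hmp.measurable
  rw [← hmp.lintegral_comp hφ, Measure.volume_eq_prod, lintegral_prod _ hm.aemeasurable]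
  apply lintegral_congr
  intro s
  apply lintegral_congr
  intro x
  congr 1
  simp [MeasurableEquiv.piFinSuccAbove, Fin.insertNthEquiv]

theorem measurable_cons (n : ℕ) :
    Measurable (fun p : ℝ × (Fin n → ℝ) => (Fin.cons p.1 p.2 : Fin (n + 1) → ℝ)) := by
  rw [measurable_pi_iff]
  intro i
  refine Fin.cases ?_ (fun j => ?_) i
  · simpa using measurable_fst
  · simp only [Fin.cons_succ]
    fun_prop

theorem lint_even {φ : ℝ → ℝ≥0∞} (hφ : Measurable φ) (he : ∀ s, φ (-s) = φ s) :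
    ∫⁻ s, φ s = 2 * ∫⁻ s in Ioi (0 : ℝ), φ s := by
  have h1 : ∫⁻ s in Iio (0 : ℝ), φ s = ∫⁻ s in Ioi (0 : ℝ), φ s := by
    rw [← (Measure.measurePreserving_neg (volume : Measure ℝ)).setLIntegral_comp_preimage
      measurableSet_Iio hφ]
    have : (Neg.neg ⁻¹' Iio (0 : ℝ)) = Ioi (0 : ℝ) := by
      ext x; simp
    rw [this]
    exact lintegral_congr fun s => he s
  rw [← lintegral_add_compl φ (measurableSet_Ioi : MeasurableSet (Ioi (0 : ℝ)))]
  rw [show (Ioi (0 : ℝ))ᶜ = Iic 0 by ext x; simp, setLIntegral_congr Iio_ae_eq_Iic.symm, h1]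
  ring

/-- The integral of a function which is even in every coordinate. -/
theorem lint_unc (n : ℕ) : ∀ {φ : (Fin n → ℝ) → ℝ≥0∞}, Measurable φ →
    (∀ x, ∀ ε : Fin n → ℝ, (∀ i, ε i = 1 ∨ ε i = -1) → φ (fun i => ε i * x i) = φ x) →
    ∫⁻ x, φ x = 2 ^ n * ∫⁻ x in {x : Fin n → ℝ | ∀ i, 0 < x i}, φ x := by
  induction n with
  | zero =>
    intro φ _ _
    have : {x : Fin 0 → ℝ | ∀ i, 0 < x i} = univ := by
      ext x; simp
    rw [this, Measure.restrict_univ, pow_zero, one_mul]
  | succ n ih =>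
    intro φ hφ he
    rw [lint_succ' n hφ, lint_succ n hφ]
    have hm : ∀ s, Measurable (fun x : Fin n → ℝ => φ (Fin.cons s x)) := fun s =>
      hφ.comp ((measurable_cons n).comp (measurable_const.prodMk measurable_id))
    have h1 : ∀ s, ∫⁻ x : Fin n → ℝ, φ (Fin.cons s x) =
        2 ^ n * ∫⁻ x in {x : Fin n → ℝ | ∀ i, 0 < x i}, φ (Fin.cons s x) := by
      intro s
      apply ih (hm s)
      intro x ε hε
      have h2 := he (Fin.cons s x) (Fin.cons 1 ε) (by
        intro i
        refine Fin.cases ?_ (fun j => ?_) i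
        · left; rfl
        · simpa using hε j)
      rw [← h2]
      congr 1
      funext i
      refine Fin.cases ?_ (fun j => ?_) i
      · simp
      · simp
    simp_rw [h1]
    have hmeas : Measurable (fun s : ℝ =>
        ∫⁻ x in {x : Fin n → ℝ | ∀ i, 0 < x i}, φ (Fin.cons s x)) :=
      Measurable.lintegral_prod_right' (hφ.comp (measurable_cons n))
    rw [lint_even (hmeas.const_mul _), lintegral_const_mul _ hmeas, pow_succ]
    · ring
    · intro s
      congr 1
      apply lintegral_congr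
      intro x
      have h2 := he (Fin.cons s x) (Fin.cons (-1) (fun _ => 1)) (by
        intro i
        refine Fin.cases ?_ (fun j => ?_) i
        · right; rfl
        · left; simp)
      rw [← h2]
      congr 1
      funext i
      refine Fin.cases ?_ (fun j => ?_) i
      · simp
      · simp

end Pool.Agent.H57.SM.UncA
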