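import Pool.Agent.H57.SM.Defs
import Pool.Agent.H57.SM.OrthF
import Pool.Agent.H12.San.PLn

set_option autoImplicit false

open MeasureTheory Finset Set
open scoped ENNReal

namespace Pool.Agent.H57.SM

/-! ## T18 Anti.lean -/


/-- one coordinate -/
theorem t18_one {n : ℕ} {f : (Fin n → ℝ) → ℝ≥0∞} (h : UD f) (y : Fin n → ℝ) (j : Fin n)
    {t : ℝ} (ht : |t| ≤ |y j|) : f y ≤ f (Function.update y j t) := by
  classical
  obtain ⟨θ, hθ1, hθ2, hθ⟩ : ∃ θ : ℝ, -1 ≤ θ ∧ θ ≤ 1 ∧ t = θ * y j := by
    by_cases h0 : y j = 0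
    · refine ⟨0, by norm_num, by norm_num, ?_⟩
      rw [h0, abs_zero] at ht
      rw [zero_mul]
      exact abs_nonpos_iff.mp ht
    · refine ⟨t / y j, ?_, ?_, by field_simp⟩
      · have h1 : |t / y j| ≤ 1 := by
          rw [abs_div]
          exact div_le_one_of_le₀ ht (abs_nonneg _)
        exact (abs_le.mp h1).1
      · have h1 : |t / y j| ≤ 1 := by
          rw [abs_div]
          exact div_le_one_of_le₀ ht (abs_nonneg _)
        exact (abs_le.mp h1).2
  -- the reflected point
  have hr : f (Function.update y j (-y j)) = f y := by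
    rw [← h.ev y (fun i => if i = j then -1 else 1) (by
      intro i
      by_cases hi : i = j
      · right; simp [hi]
      · left; simp [hi])]
    congr 1
    funext i
    by_cases hi : i = j
    · subst hi; simp
    · simp [hi]
  rcases eq_or_lt_of_le hθ1 with h1 | h1
  · have : t = - y j := by rw [hθ, ← h1]; ring
    rw [this, hr]
  rcases eq_or_lt_of_le hθ2 with h2 | h2
  · have : t = y j := by rw [hθ, h2]; ring
    rw [this, Function.update_eq_self]
  have h3 := h.lc y (Function.update y j (-y j)) ((1 + θ) / 2) ((1 - θ) / 2) (by linarith)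
    (by linarith) (by ring)
  rw [hr, ← ENNReal.rpow_add_of_nonneg _ _ (by linarith) (by linarith),
    show (1 + θ) / 2 + (1 - θ) / 2 = 1 by ring, ENNReal.rpow_one] at h3
  convert h3 using 2
  funext i
  by_cases hi : i = j
  · subst hi
    simp only [Function.update_self]
    rw [hθ]; ring
  · simp only [Function.update_of_ne hi]
    ring

theorem ud_anti {n : ℕ} {f : (Fin n → ℝ) → ℝ≥0∞} (h : UD f) {x y : Fin n → ℝ}
    (hxy : ∀ i, |x i| ≤ |y i|) : f y ≤ f x := by
  classical
  have key : ∀ s : Finset (Fin n), f y ≤ f (fun i => if i ∈ s then x i else y i) := by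
    intro s
    induction s using Finset.induction_on with
    | empty => simp
    | insert j s hj ih =>
      refine ih.trans ?_
      have h1 := t18_one h (fun i => if i ∈ s then x i else y i) j (t := x j) (by
        simp only [if_neg hj]
        exact hxy j)
      have h2 : (fun i => if i ∈ insert j s then x i else y i) =
          Function.update (fun i => if i ∈ s then x i else y i) j (x j) := by
        funext i
        by_cases hi : i = j
        · subst hi; simp
        · simp [hi]
      rw [h2]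
      exact h1
  have := key Finset.univ
  simpa using this

/-- functions of `|x|` are integrated over the orthant -/
theorem ud_orth {n : ℕ} {f : (Fin n → ℝ) → ℝ≥0∞} (h : UD f) {F : (Fin n → ℝ) → ℝ≥0∞}
    (hF : Measurable F) :
    ∫⁻ x, F (fun i => |x i|) ∂(mf f) = 2 ^ n * ∫⁻ x in Orth n, F x * f x := by
  have hab : Measurable (fun x : Fin n → ℝ => fun i => |x i|) := by
    rw [measurable_pi_iff]
    intro i
    exact (measurable_pi_apply i).abs
  have hFm : Measurable (fun x : Fin n → ℝ => F (fun i => |x i|)) := hF.comp hab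
  unfold mf
  rw [lintegral_withDensity_eq_lintegral_mul _ h.meas hFm]
  have h1 := UncA.lint_unc n (φ := fun x => f x * F (fun i => |x i|)) (h.meas.mul hFm) (by
    intro x ε hε
    have e1 : (fun i => |ε i * x i|) = fun i => |x i| := by
      funext i
      rw [abs_mul]
      rcases hε i with h2 | h2 <;> rw [h2] <;> simp
    simp only [e1, h.ev x ε hε])
  refine h1.trans ?_
  congr 1
  have hO : MeasurableSet (Orth n) := by
    have : Orth n = Set.univ.pi fun _ => Ioi 0 := by
      ext x; simp [Orth]
    rw [this]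
    exact MeasurableSet.univ_pi fun _ => measurableSet_Ioi
  apply setLIntegral_congr_fun hO
  intro x hx
  have e2 : (fun i => |x i|) = x := by
    funext i
    exact abs_of_pos (hx i)
  simp only [e2]
  exact mul_comm _ _

theorem ud_prob {n : ℕ} {f : (Fin n → ℝ) → ℝ≥0∞} (h : UD f) : IsProbabilityMeasure (mf f) := by
  constructor
  unfold mf
  rw [withDensity_apply _ MeasurableSet.univ, Measure.restrict_univ, h.int]

theorem t18_sgn_mp {n : ℕ} (ε : Fin n → Bool) :
    MeasurePreserving (fun (x : Fin n → ℝ) i => sg (ε i) * x i) volume volume := by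
  have h1 : ∀ i, MeasurePreserving (fun x : ℝ => sg (ε i) * x) volume volume := by
    intro i
    rcases ε i with _ | _
    · have : (fun x : ℝ => sg false * x) = fun x => -x := by
        funext x; simp [sg]
      rw [this]
      exact Measure.measurePreserving_neg volume
    · have : (fun x : ℝ => sg true * x) = id := by
        funext x; simp [sg]
      rw [this]
      exact MeasurePreserving.id volume
  exact volume_preserving_pi h1

theorem ud_sgn {n : ℕ} {f : (Fin n → ℝ) → ℝ≥0∞} (h : UD f) (ε : Fin n → Bool) :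
    (mf f).map (fun x i => sg (ε i) * x i) = mf f := by
  have hmp := t18_sgn_mp ε
  ext A hA
  rw [Measure.map_apply hmp.measurable hA]
  unfold mf
  rw [withDensity_apply _ (hmp.measurable hA), withDensity_apply _ hA,
    ← hmp.setLIntegral_comp_preimage hA h.meas]
  apply lintegral_congr
  intro x
  refine (h.ev x (fun i => sg (ε i)) ?_).symm
  intro i
  rcases ε i with _ | _ <;> simp [sg]

theorem t18_G {n : ℕ} {f : (Fin n → ℝ) → ℝ≥0∞} (h : UD f) (y : Fin n → ℝ) :
    mf f {x | ∀ i, y i ≤ |x i|} =
      2 ^ n * ∫⁻ x, {x : Fin n → ℝ | ∀ i, 0 < x i ∧ y i ≤ x i}.indicator f x := by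
  have hS : MeasurableSet {x : Fin n → ℝ | ∀ i, y i ≤ x i} := by
    have : {x : Fin n → ℝ | ∀ i, y i ≤ x i} = Set.univ.pi fun i => Ici (y i) := by
      ext x
      simp only [Set.mem_setOf_eq, Set.mem_univ_pi, Set.mem_Ici]
    rw [this]
    exact MeasurableSet.univ_pi fun _ => measurableSet_Ici
  have hS' : MeasurableSet {x : Fin n → ℝ | ∀ i, y i ≤ |x i|} := by
    have hab : Measurable (fun x : Fin n → ℝ => fun i => |x i|) := by
      rw [measurable_pi_iff]
      intro i
      exact (measurable_pi_apply i).abs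
    exact hab hS
  have hT : MeasurableSet {x : Fin n → ℝ | ∀ i, 0 < x i ∧ y i ≤ x i} := by
    have : {x : Fin n → ℝ | ∀ i, 0 < x i ∧ y i ≤ x i} =
        Set.univ.pi fun i => Ioi 0 ∩ Ici (y i) := by
      ext x; simp
    rw [this]
    exact MeasurableSet.univ_pi fun _ => measurableSet_Ioi.inter measurableSet_Ici
  have hO : MeasurableSet (Orth n) := by
    have : Orth n = Set.univ.pi fun _ => Ioi 0 := by
      ext x; simp [Orth]
    rw [this]
    exact MeasurableSet.univ_pi fun _ => measurableSet_Ioi
  have h1 := ud_orth h (F := {x : Fin n → ℝ | ∀ i, y i ≤ x i}.indicator 1)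
    (measurable_one.indicator hS)
  have h2 : ∫⁻ x, {x : Fin n → ℝ | ∀ i, y i ≤ x i}.indicator 1 (fun i => |x i|) ∂(mf f) =
      mf f {x | ∀ i, y i ≤ |x i|} := by
    rw [← lintegral_indicator_one hS']
    rfl
  rw [← h2, h1]
  congr 1
  rw [← lintegral_indicator hO]
  apply lintegral_congr
  intro x
  by_cases h3 : ∀ i, 0 < x i ∧ y i ≤ x i
  · rw [indicator_of_mem (show x ∈ {x : Fin n → ℝ | ∀ i, 0 < x i ∧ y i ≤ x i} from h3),
      indicator_of_mem (show x ∈ Orth n from fun i => (h3 i).1),
      indicator_of_mem (show x ∈ {x : Fin n → ℝ | ∀ i, y i ≤ x i} from fun i => (h3 i).2)]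
    simp
  · rw [indicator_of_notMem (show x ∉ {x : Fin n → ℝ | ∀ i, 0 < x i ∧ y i ≤ x i} from h3)]
    by_cases h4 : x ∈ Orth n
    · rw [indicator_of_mem h4, indicator_of_notMem, zero_mul]
      intro h5
      exact h3 fun i => ⟨h4 i, h5 i⟩
    · rw [indicator_of_notMem h4]

theorem ud_conc {n : ℕ} {f : (Fin n → ℝ) → ℝ≥0∞} (h : UD f) (y y' : Fin n → ℝ)
    (hy : ∀ i, 0 ≤ y i) (hy' : ∀ i, 0 ≤ y' i) (a b : ℝ) (ha : 0 < a) (hb : 0 < b)
    (hab : a + b = 1) :
    G (mf f) y ^ a * G (mf f) y' ^ b ≤ G (mf f) (fun i => a * y i + b * y' i) := by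
  have := ud_prob h
  have hT : ∀ y : Fin n → ℝ, MeasurableSet {x : Fin n → ℝ | ∀ i, 0 < x i ∧ y i ≤ x i} := by
    intro y
    have : {x : Fin n → ℝ | ∀ i, 0 < x i ∧ y i ≤ x i} =
        Set.univ.pi fun i => Ioi 0 ∩ Ici (y i) := by
      ext x; simp
    rw [this]
    exact MeasurableSet.univ_pi fun _ => measurableSet_Ioi.inter measurableSet_Ici
  have key := Pool.Agent.H12.San.pln n ha hb hab
    (f := {x : Fin n → ℝ | ∀ i, 0 < x i ∧ y i ≤ x i}.indicator f)
    (g := {x : Fin n → ℝ | ∀ i, 0 < x i ∧ y' i ≤ x i}.indicator f)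
    (h := {x : Fin n → ℝ | ∀ i, 0 < x i ∧ a * y i + b * y' i ≤ x i}.indicator f)
    (h.meas.indicator (hT _)) (h.meas.indicator (hT _)) (h.meas.indicator (hT _)) (by
      intro u v
      by_cases hu : u ∈ {x : Fin n → ℝ | ∀ i, 0 < x i ∧ y i ≤ x i}
      · by_cases hv : v ∈ {x : Fin n → ℝ | ∀ i, 0 < x i ∧ y' i ≤ x i}
        · have hz : (a • u + b • v) ∈
              {x : Fin n → ℝ | ∀ i, 0 < x i ∧ a * y i + b * y' i ≤ x i} := by
            intro i
            have h1 := hu i
            have h2 := hv i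
            simp only [Pi.add_apply, Pi.smul_apply, smul_eq_mul]
            constructor
            · have := mul_pos ha h1.1
              have := mul_pos hb h2.1
              linarith
            · have := mul_le_mul_of_nonneg_left h1.2 ha.le
              have := mul_le_mul_of_nonneg_left h2.2 hb.le
              linarith
          rw [indicator_of_mem hu, indicator_of_mem hv, indicator_of_mem hz]
          exact h.lc u v a b ha hb hab
        · rw [indicator_of_notMem hv, ENNReal.zero_rpow_of_pos hb, mul_zero]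
          exact zero_le
      · rw [indicator_of_notMem hu, ENNReal.zero_rpow_of_pos ha, zero_mul]
        exact zero_le)
  have h2 : (mf f {x | ∀ i, y i ≤ |x i|}) ^ a * (mf f {x | ∀ i, y' i ≤ |x i|}) ^ b ≤
      mf f {x | ∀ i, a * y i + b * y' i ≤ |x i|} := by
    rw [t18_G h, t18_G h, t18_G h, ENNReal.mul_rpow_of_nonneg _ _ ha.le,
      ENNReal.mul_rpow_of_nonneg _ _ hb.le]
    have h3 : (2 ^ n : ℝ≥0∞) ^ a * (2 ^ n : ℝ≥0∞) ^ b = 2 ^ n := by
      rw [← ENNReal.rpow_add_of_nonneg _ _ ha.le hb.le, hab, ENNReal.rpow_one]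
    refine le_trans (le_of_eq ?_) (mul_le_mul_right key (2 ^ n))
    nth_rewrite 3 [← h3]
    ring
  unfold G Measure.real
  rw [ENNReal.toReal_rpow, ENNReal.toReal_rpow, ← ENNReal.toReal_mul]
  exact ENNReal.toReal_mono (measure_ne_top _ _) h2

end Pool.Agent.H57.SM
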