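import Pool.Agent.H57.SM.Defs

/-!
# A coding inequality for words
-/

set_option autoImplicit false

open MeasureTheory Finset Set
open scoped ENNReal

namespace Pool.Agent.H57.SM

section t11

variable {Λ : Type*} [LinearOrder Λ]

/-- tails of the words starting with `x` -/
def t11_tl (x : Λ) (S : Finset (List Λ)) : Finset (List Λ) :=
  (S.filter (fun l => l.head? = some x)).image List.tail

theorem t11_injOn (x : Λ) (S : Finset (List Λ)) :
    Set.InjOn List.tail ((S.filter (fun l => l.head? = some x) : Finset (List Λ)) : Set (List Λ)) := by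
  intro l hl l' hl' h
  have h1 := (Finset.mem_filter.1 (Finset.mem_coe.1 hl)).2
  have h2 := (Finset.mem_filter.1 (Finset.mem_coe.1 hl')).2
  cases l with
  | nil => simp at h1
  | cons a t =>
    cases l' with
    | nil => simp at h2
    | cons b t' =>
      simp only [List.head?_cons, Option.some.injEq] at h1 h2
      simp only [List.tail_cons] at h
      rw [h1, h2, h]

theorem t11_card_tl (x : Λ) (S : Finset (List Λ)) :
    (t11_tl x S).card = (S.filter (fun l => l.head? = some x)).card :=
  Finset.card_image_of_injOn (t11_injOn x S)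

theorem t11_mem_tl {x : Λ} {S : Finset (List Λ)} {t : List Λ} :
    t ∈ t11_tl x S ↔ (x :: t) ∈ S := by
  rw [t11_tl, Finset.mem_image]
  constructor
  · rintro ⟨l, hl, rfl⟩
    rw [Finset.mem_filter] at hl
    cases l with
    | nil => simp at hl
    | cons a t =>
      have h := hl.2
      simp only [List.head?_cons, Option.some.injEq] at h
      rw [List.tail_cons, ← h]
      exact hl.1
  · intro h
    exact ⟨x :: t, Finset.mem_filter.2 ⟨h, rfl⟩, rfl⟩

/-- the product of the transition weights over the letters outside `g` -/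
noncomputable def t11_Q (g : Finset Λ) : List Λ → Finset (List Λ) → ℝ
  | [], _ => 1
  | x :: t, S => (if x ∈ g then 1 else ((t11_tl x S).card : ℝ) / S.card) * t11_Q g t (t11_tl x S)

theorem t11_Q_nil (g : Finset Λ) (S : Finset (List Λ)) : t11_Q g [] S = 1 := rfl

theorem t11_Q_cons (g : Finset Λ) (x : Λ) (t : List Λ) (S : Finset (List Λ)) :
    t11_Q g (x :: t) S =
      (if x ∈ g then 1 else ((t11_tl x S).card : ℝ) / S.card) * t11_Q g t (t11_tl x S) := rfl

theorem t11_Q_pos (g : Finset Λ) : ∀ (l : List Λ) (S : Finset (List Λ)), l ∈ S → 0 < t11_Q g l S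
  | [], S, _ => one_pos
  | x :: t, S, h => by
    rw [t11_Q_cons]
    have h1 : t ∈ t11_tl x S := t11_mem_tl.2 h
    refine mul_pos ?_ (t11_Q_pos g t _ h1)
    split_ifs
    · exact one_pos
    · have h2 : 0 < (t11_tl x S).card := Finset.card_pos.2 ⟨t, h1⟩
      have h3 : 0 < S.card := Finset.card_pos.2 ⟨_, h⟩
      positivity

theorem t11_geom (G : Finset Λ) :
    ∑ x ∈ G, (2 : ℝ) ^ (G.filter (fun y => x < y)).card = 2 ^ G.card - 1 := by
  induction G using Finset.induction_on_min with
  | empty => simp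
  | insert a s hs ih =>
    have ha : a ∉ s := fun h => lt_irrefl _ (hs a h)
    rw [Finset.sum_insert ha, Finset.card_insert_of_notMem ha]
    have h1 : (insert a s).filter (fun y => a < y) = s := by
      ext y
      rw [Finset.mem_filter, Finset.mem_insert]
      constructor
      · rintro ⟨h | h, h2⟩
        · exact absurd (h ▸ h2) (lt_irrefl _)
        · exact h
      · intro h
        exact ⟨Or.inr h, hs y h⟩
    have h2 : ∀ x ∈ s, (insert a s).filter (fun y => x < y) = s.filter (fun y => x < y) := by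
      intro x hx
      rw [Finset.filter_insert, if_neg (not_lt.2 (hs x hx).le)]
    rw [h1, Finset.sum_congr rfl (fun x hx => by rw [h2 x hx]), ih, pow_succ]
    ring

theorem t11_sum (g : Finset Λ) : ∀ (r : ℕ) (S : Finset (List Λ)) (G : Finset Λ),
    (∀ l ∈ S, l.length ≤ r) → (∀ l ∈ S, l.Pairwise (· < ·)) →
    (∀ l ∈ S, ∀ x ∈ l, x ∈ g → x ∈ G) →
    ∑ l ∈ S, t11_Q g l S ≤ 2 ^ (r + G.card) := by
  intro r
  induction r with
  | zero =>
    intro S G hl _ _
    have h1 : S ⊆ {[]} := by
      intro l hlS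
      rw [Finset.mem_singleton]
      exact List.length_eq_zero_iff.1 (Nat.le_zero.1 (hl l hlS))
    have h2 : ∑ l ∈ S, t11_Q g l S = S.card := by
      calc ∑ l ∈ S, t11_Q g l S = ∑ l ∈ S, (1 : ℝ) :=
            Finset.sum_congr rfl (fun l hlS => by rw [Finset.mem_singleton.1 (h1 hlS), t11_Q_nil])
        _ = S.card := by simp
    rw [h2]
    have h3 : S.card ≤ 1 := by simpa using Finset.card_le_card h1
    have h4 : (S.card : ℝ) ≤ 1 := by exact_mod_cast h3
    exact h4.trans (one_le_pow₀ (by norm_num))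
  | succ k ih =>
    intro S G hl hp hG
    rcases S.eq_empty_or_nonempty with rfl | hne
    · simp only [Finset.sum_empty]; positivity
    have hS0 : (0 : ℝ) < S.card := by exact_mod_cast Finset.card_pos.2 hne
    -- the tails
    have htl : ∀ x : Λ, ∑ t ∈ t11_tl x S, t11_Q g t (t11_tl x S) ≤
        if x ∈ g then (if x ∈ G then (2 : ℝ) ^ (k + (G.filter (fun y => x < y)).card) else 0)
          else 2 ^ (k + G.card) := by
      intro x
      have a1 : ∀ t ∈ t11_tl x S, t.length ≤ k := fun t ht => by
        have := hl _ (t11_mem_tl.1 ht)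
        rw [List.length_cons] at this
        omega
      have a2 : ∀ t ∈ t11_tl x S, t.Pairwise (· < ·) := fun t ht =>
        (List.pairwise_cons.1 (hp _ (t11_mem_tl.1 ht))).2
      have a3 : ∀ t ∈ t11_tl x S, ∀ y ∈ t, x < y := fun t ht =>
        (List.pairwise_cons.1 (hp _ (t11_mem_tl.1 ht))).1
      have a4 : ∀ t ∈ t11_tl x S, ∀ y ∈ t, y ∈ g → y ∈ G := fun t ht y hy hyg =>
        hG _ (t11_mem_tl.1 ht) y (List.mem_cons_of_mem _ hy) hyg
      by_cases hx : x ∈ g
      · rw [if_pos hx]
        by_cases hxG : x ∈ G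
        · rw [if_pos hxG]
          exact ih _ _ a1 a2 fun t ht y hy hyg =>
            Finset.mem_filter.2 ⟨a4 t ht y hy hyg, a3 t ht y hy⟩
        · rw [if_neg hxG]
          have : t11_tl x S = ∅ := by
            rw [Finset.eq_empty_iff_forall_notMem]
            intro t ht
            exact hxG (hG _ (t11_mem_tl.1 ht) x List.mem_cons_self hx)
          rw [this, Finset.sum_empty]
      · rw [if_neg hx]
        exact ih _ _ a1 a2 a4
    -- the three parts
    let b2 : Option Λ → ℝ := fun o => o.elim 0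
      (fun x => if x ∈ G then (2 : ℝ) ^ (k + (G.filter (fun y => x < y)).card) else 0)
    let b3 : Option Λ → ℝ := fun o =>
      ((S.filter (fun l => l.head? = o)).card : ℝ) / S.card * 2 ^ (k + G.card)
    have hb2 : ∀ o, 0 ≤ b2 o := by
      intro o
      cases o with
      | none => exact le_rfl
      | some x =>
        change 0 ≤ if x ∈ G then (2 : ℝ) ^ (k + (G.filter (fun y => x < y)).card) else 0
        split_ifs
        · positivity
        · exact le_rfl
    have hb3 : ∀ o, 0 ≤ b3 o := fun o => by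
      change 0 ≤ ((S.filter (fun l => l.head? = o)).card : ℝ) / S.card * 2 ^ (k + G.card)
      positivity
    have key : ∀ o, ∑ l ∈ S.filter (fun l => l.head? = o), t11_Q g l S ≤
        (if o = none then 1 else 0) + b2 o + b3 o := by
      intro o
      cases o with
      | none =>
        have h1 : S.filter (fun l => l.head? = none) ⊆ {[]} := by
          intro l hlS
          rw [Finset.mem_singleton]
          exact List.head?_eq_none_iff.1 (Finset.mem_filter.1 hlS).2
        have h2 : ∑ l ∈ S.filter (fun l => l.head? = none), t11_Q g l S ≤ 1 := by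
          calc ∑ l ∈ S.filter (fun l => l.head? = none), t11_Q g l S
              = ∑ l ∈ S.filter (fun l => l.head? = none), (1 : ℝ) :=
                Finset.sum_congr rfl (fun l hlS => by
                  rw [Finset.mem_singleton.1 (h1 hlS), t11_Q_nil])
            _ = ((S.filter (fun l => l.head? = none)).card : ℝ) := by simp
            _ ≤ 1 := by
                have := Finset.card_le_card h1
                rw [Finset.card_singleton] at this
                exact_mod_cast this
        have := hb2 none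
        have := hb3 none
        rw [if_pos rfl]
        linarith
      | some x =>
        have h1 : ∑ l ∈ S.filter (fun l => l.head? = some x), t11_Q g l S =
            (if x ∈ g then 1 else ((t11_tl x S).card : ℝ) / S.card) *
              ∑ t ∈ t11_tl x S, t11_Q g t (t11_tl x S) := by
          rw [Finset.mul_sum]
          conv_rhs => rw [t11_tl]
          rw [Finset.sum_image (t11_injOn x S)]
          refine Finset.sum_congr rfl fun l hlS => ?_
          have h2 := (Finset.mem_filter.1 hlS).2
          cases l with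
          | nil => simp at h2
          | cons a t =>
            simp only [List.head?_cons, Option.some.injEq] at h2
            rw [List.tail_cons, h2, t11_Q_cons]
            rfl
        have hn : (some x : Option Λ) ≠ none := Option.some_ne_none x
        rw [h1, if_neg hn, zero_add]
        have h2 := htl x
        have h3 := hb2 (some x)
        have h4 := hb3 (some x)
        by_cases hx : x ∈ g
        · rw [if_pos hx] at h2
          rw [if_pos hx, one_mul]
          change _ ≤ b2 (some x) at h2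
          linarith
        · rw [if_neg hx] at h2
          rw [if_neg hx, t11_card_tl]
          have h5 : ((S.filter (fun l => l.head? = some x)).card : ℝ) / S.card *
              ∑ t ∈ t11_tl x S, t11_Q g t (t11_tl x S) ≤ b3 (some x) :=
            mul_le_mul_of_nonneg_left h2 (by positivity)
          linarith
    set O := S.image List.head? with hO
    have hsplit : ∑ l ∈ S, t11_Q g l S =
        ∑ o ∈ O, ∑ l ∈ S.filter (fun l => l.head? = o), t11_Q g l S :=
      (Finset.sum_fiberwise_of_maps_to (fun l hlS => Finset.mem_image_of_mem _ hlS) _).symm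
    have hs1 : ∑ o ∈ O, (if o = none then (1 : ℝ) else 0) ≤ 1 := by
      rw [Finset.sum_ite_eq']
      split_ifs <;> norm_num
    have hs2 : ∑ o ∈ O, b2 o ≤ 2 ^ k * (2 ^ G.card - 1) := by
      have e1 : ∑ o ∈ O, b2 o ≤ ∑ o ∈ O ∪ G.image some, b2 o :=
        Finset.sum_le_sum_of_subset_of_nonneg Finset.subset_union_left fun o _ _ => hb2 o
      have e2 : ∑ o ∈ O ∪ G.image some, b2 o = ∑ o ∈ G.image some, b2 o := by
        symm
        refine Finset.sum_subset Finset.subset_union_right ?_
        intro o _ ho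
        cases o with
        | none => rfl
        | some x =>
          change (if x ∈ G then (2 : ℝ) ^ (k + (G.filter (fun y => x < y)).card) else 0) = 0
          rw [if_neg]
          intro hxG
          exact ho (Finset.mem_image_of_mem _ hxG)
      have e3 : ∑ o ∈ G.image some, b2 o = 2 ^ k * (2 ^ G.card - 1) := by
        rw [Finset.sum_image (fun a _ b _ h => Option.some_injective _ h), ← t11_geom,
          Finset.mul_sum]
        refine Finset.sum_congr rfl fun x hx => ?_
        change (if x ∈ G then (2 : ℝ) ^ (k + (G.filter (fun y => x < y)).card) else 0) = _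
        rw [if_pos hx, pow_add]
      rw [← e3, ← e2]
      exact e1
    have hs3 : ∑ o ∈ O, b3 o = 2 ^ k * 2 ^ G.card := by
      change ∑ o ∈ O, ((S.filter (fun l => l.head? = o)).card : ℝ) / S.card * 2 ^ (k + G.card) = _
      rw [← Finset.sum_mul, ← Finset.sum_div, ← Nat.cast_sum, ← Finset.card_eq_sum_card_image,
        div_self hS0.ne', one_mul, pow_add]
    rw [hsplit]
    calc ∑ o ∈ O, ∑ l ∈ S.filter (fun l => l.head? = o), t11_Q g l S
        ≤ ∑ o ∈ O, ((if o = none then 1 else 0) + b2 o + b3 o) :=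
          Finset.sum_le_sum fun o _ => key o
      _ = ∑ o ∈ O, (if o = none then (1 : ℝ) else 0) + ∑ o ∈ O, b2 o + ∑ o ∈ O, b3 o := by
          rw [Finset.sum_add_distrib, Finset.sum_add_distrib]
      _ ≤ 1 + 2 ^ k * (2 ^ G.card - 1) + 2 ^ k * 2 ^ G.card := by rw [hs3]; linarith
      _ ≤ 2 ^ (k + 1 + G.card) := by
          have h5 : (1 : ℝ) ≤ 2 ^ k := one_le_pow₀ (by norm_num)
          have h6 : (2 : ℝ) ^ (k + 1 + G.card) = 2 * (2 ^ k * 2 ^ G.card) := by
            rw [pow_add, pow_succ]; ring
          rw [h6]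
          nlinarith

theorem t11_R : ∀ (l : List Λ) (S : Finset (List Λ)), l ∈ S →
    1 ≤ t11_Q ∅ l S * S.card
  | [], S, h => by
    rw [t11_Q_nil, one_mul]
    exact_mod_cast Finset.card_pos.2 ⟨_, h⟩
  | x :: t, S, h => by
    have h1 : t ∈ t11_tl x S := t11_mem_tl.2 h
    have h3 : (0 : ℝ) < S.card := by exact_mod_cast Finset.card_pos.2 ⟨_, h⟩
    have h4 := t11_R t _ h1
    rw [t11_Q_cons, if_neg (Finset.notMem_empty x)]
    have h5 : ((t11_tl x S).card : ℝ) / S.card * t11_Q ∅ t (t11_tl x S) * S.card =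
        t11_Q ∅ t (t11_tl x S) * (t11_tl x S).card := by
      field_simp
    rw [h5]
    exact h4

/-- averaging the logarithms -/
theorem t11_log {β : Type*} (Bt : Finset β) (g : β → Finset Λ) (π : β → ℝ)
    (h0 : ∀ b ∈ Bt, 0 ≤ π b) : ∀ (l : List Λ) (S : Finset (List Λ)), l ∈ S →
    (∀ x ∈ l, ∑ b ∈ Bt with x ∉ g b, π b ≤ 1 / 8) →
    1 / 8 * Real.log (t11_Q ∅ l S) ≤ ∑ b ∈ Bt, π b * Real.log (t11_Q (g b) l S)
  | [], S, _, _ => by simp [t11_Q_nil]
  | x :: t, S, h, hx => by
    have h1 : t ∈ t11_tl x S := t11_mem_tl.2 h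
    have h2 : (0 : ℝ) < (t11_tl x S).card := by exact_mod_cast Finset.card_pos.2 ⟨t, h1⟩
    have h3 : (0 : ℝ) < S.card := by exact_mod_cast Finset.card_pos.2 ⟨_, h⟩
    have h4 := t11_log Bt g π h0 t _ h1 fun y hy => hx y (List.mem_cons_of_mem _ hy)
    set ρ : ℝ := ((t11_tl x S).card : ℝ) / S.card with hρ
    have hρ0 : 0 < ρ := div_pos h2 h3
    have hρ1 : ρ ≤ 1 := by
      rw [hρ, div_le_one h3]
      rw [t11_card_tl]
      exact_mod_cast Finset.card_filter_le _ _
    have hlog : Real.log ρ ≤ 0 := Real.log_nonpos hρ0.le hρ1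
    have h5 : Real.log (t11_Q ∅ (x :: t) S) = Real.log ρ + Real.log (t11_Q ∅ t (t11_tl x S)) := by
      rw [t11_Q_cons, if_neg (Finset.notMem_empty x), Real.log_mul hρ0.ne'
        (t11_Q_pos _ _ _ h1).ne']
    have h6 : ∀ b ∈ Bt, π b * Real.log (t11_Q (g b) (x :: t) S) =
        (if x ∉ g b then π b * Real.log ρ else 0) + π b * Real.log (t11_Q (g b) t (t11_tl x S)) := by
      intro b _
      rw [t11_Q_cons]
      by_cases hb : x ∈ g b
      · rw [if_pos hb, one_mul, if_neg (not_not.2 hb), zero_add]
      · rw [if_neg hb, if_pos hb, Real.log_mul hρ0.ne' (t11_Q_pos _ _ _ h1).ne', mul_add]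
    rw [Finset.sum_congr rfl h6, Finset.sum_add_distrib, ← Finset.sum_filter, ← Finset.sum_mul, h5]
    have h7 := hx x List.mem_cons_self
    nlinarith

end t11

theorem coding {α β Λ : Type*} [LinearOrder Λ] (A : Finset α) (hA : A.Nonempty) (Bt : Finset β)
    (w : α → Finset Λ) (g : β → Finset Λ) (r : ℕ) (hw : ∀ a ∈ A, (w a).card ≤ r)
    (hg : ∀ b ∈ Bt, (g b).card ≤ r) (inj : ∀ a ∈ A, ∀ b ∈ A, w a = w b → a = b)
    (π : α → β → ℝ) (hπ0 : ∀ a ∈ A, ∀ b ∈ Bt, 0 ≤ π a b) (hπ1 : ∀ a ∈ A, ∑ b ∈ Bt, π a b = 1)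
    (D : ℝ) (hD : 0 < D) (hπD : ∀ a ∈ A, ∀ b ∈ Bt, π a b * Bt.card ≤ D)
    (hx : ∀ a ∈ A, ∀ x ∈ w a, ∑ b ∈ Bt with x ∉ g b, π a b ≤ 1 / 8) :
    7 / 8 * Real.log A.card ≤ Real.log D + 2 * r := by
  classical
  set S : Finset (List Λ) := A.image (fun a => (w a).sort (· ≤ ·)) with hS
  have hinj : Set.InjOn (fun a => (w a).sort (· ≤ ·)) (A : Set α) := by
    intro a ha b hb hab
    apply inj a ha b hb
    have := congrArg List.toFinset hab
    simpa using this
  have hcard : S.card = A.card := Finset.card_image_of_injOn hinj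
  have hN : (0 : ℝ) < A.card := by exact_mod_cast Finset.card_pos.2 hA
  have hmem : ∀ a ∈ A, (w a).sort (· ≤ ·) ∈ S := fun a ha =>
    Finset.mem_image_of_mem (fun a => (w a).sort (· ≤ ·)) ha
  have hlen : ∀ l ∈ S, l.length ≤ r := by
    intro l hl
    obtain ⟨a, ha, rfl⟩ := Finset.mem_image.1 hl
    rw [Finset.length_sort]
    exact hw a ha
  have hpw : ∀ l ∈ S, l.Pairwise (· < ·) := by
    intro l hl
    obtain ⟨a, ha, rfl⟩ := Finset.mem_image.1 hl
    exact (Finset.sortedLT_sort _).pairwise
  have hBt : Bt.Nonempty := by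
    obtain ⟨a, ha⟩ := hA
    by_contra hcon
    rw [Finset.not_nonempty_iff_eq_empty] at hcon
    have := hπ1 a ha
    rw [hcon, Finset.sum_empty] at this
    exact zero_ne_one this
  have hB0 : (0 : ℝ) < Bt.card := by exact_mod_cast Finset.card_pos.2 hBt
  let q : α → β → ℝ := fun a b => t11_Q (g b) ((w a).sort (· ≤ ·)) S
  have hq0 : ∀ a ∈ A, ∀ b, 0 < q a b := fun a ha b => t11_Q_pos _ _ _ (hmem a ha)
  have hqs : ∀ b ∈ Bt, ∑ a ∈ A, q a b ≤ 4 ^ r := by
    intro b hb
    have h1 := t11_sum (g b) r S (g b) hlen hpw fun _ _ _ _ h => h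
    rw [hS, Finset.sum_image hinj, ← hS] at h1
    refine h1.trans ?_
    have h2 : (4 : ℝ) ^ r = 2 ^ (r + r) := by
      rw [pow_add, ← mul_pow]; norm_num
    rw [h2]
    exact pow_le_pow_right₀ (by norm_num) (Nat.add_le_add_left (hg b hb) r)
  set c : ℝ := D * 4 ^ r / A.card with hc
  have hc0 : 0 < c := by positivity
  -- the tangent line inequality
  have hlog1 : ∀ a ∈ A, ∀ b, Real.log (q a b) ≤ q a b / c - 1 + Real.log c := by
    intro a ha b
    have h1 := Real.log_le_sub_one_of_pos (div_pos (hq0 a ha b) hc0)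
    rw [Real.log_div (hq0 a ha b).ne' hc0.ne'] at h1
    linarith
  have hup : ∑ a ∈ A, ∑ b ∈ Bt, π a b * Real.log (q a b) ≤ A.card * Real.log c := by
    have h1 : ∑ a ∈ A, ∑ b ∈ Bt, π a b * Real.log (q a b) ≤
        ∑ a ∈ A, ∑ b ∈ Bt, (π a b * q a b / c + π a b * (Real.log c - 1)) := by
      refine Finset.sum_le_sum fun a ha => Finset.sum_le_sum fun b hb => ?_
      have := mul_le_mul_of_nonneg_left (hlog1 a ha b) (hπ0 a ha b hb)
      calc _ ≤ _ := this
        _ = _ := by ring
    have h2 : ∑ a ∈ A, ∑ b ∈ Bt, (π a b * q a b / c + π a b * (Real.log c - 1)) =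
        (∑ a ∈ A, ∑ b ∈ Bt, π a b * q a b) / c + A.card * (Real.log c - 1) := by
      simp only [Finset.sum_add_distrib, ← Finset.sum_mul, ← Finset.sum_div]
      congr 1
      rw [Finset.sum_congr rfl hπ1]
      simp
    have h3 : ∑ a ∈ A, ∑ b ∈ Bt, π a b * q a b ≤ D * 4 ^ r := by
      calc ∑ a ∈ A, ∑ b ∈ Bt, π a b * q a b
          ≤ ∑ a ∈ A, ∑ b ∈ Bt, D / Bt.card * q a b := by
            refine Finset.sum_le_sum fun a ha => Finset.sum_le_sum fun b hb => ?_
            refine mul_le_mul_of_nonneg_right ?_ (hq0 a ha b).le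
            rw [le_div_iff₀ hB0]
            exact hπD a ha b hb
        _ = D / Bt.card * ∑ b ∈ Bt, ∑ a ∈ A, q a b := by
            rw [Finset.sum_comm, Finset.mul_sum]
            exact Finset.sum_congr rfl fun b _ => (Finset.mul_sum _ _ _).symm
        _ ≤ D / Bt.card * ∑ b ∈ Bt, (4 : ℝ) ^ r :=
            mul_le_mul_of_nonneg_left (Finset.sum_le_sum hqs) (by positivity)
        _ = D * 4 ^ r := by
            rw [Finset.sum_const, nsmul_eq_mul]
            field_simp
    have h4 : (∑ a ∈ A, ∑ b ∈ Bt, π a b * q a b) / c ≤ A.card := by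
      rw [div_le_iff₀ hc0]
      have : (A.card : ℝ) * c = D * 4 ^ r := by
        rw [hc]; field_simp
      rw [this]
      exact h3
    rw [h2] at h1
    linarith
  have hlow : -(1 / 8) * (A.card * Real.log A.card) ≤
      ∑ a ∈ A, ∑ b ∈ Bt, π a b * Real.log (q a b) := by
    have h1 : ∀ a ∈ A, -(1 / 8) * Real.log A.card ≤ ∑ b ∈ Bt, π a b * Real.log (q a b) := by
      intro a ha
      have h2 := t11_log Bt g (π a) (hπ0 a ha) _ S (hmem a ha) fun x hx' =>
        hx a ha x ((Finset.mem_sort _).1 hx')
      refine le_trans ?_ h2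
      have h3 := t11_R _ S (hmem a ha)
      have h4 := t11_Q_pos ∅ _ S (hmem a ha)
      have h5 := Real.log_nonneg h3
      rw [hcard, Real.log_mul h4.ne' hN.ne'] at h5
      linarith
    calc -(1 / 8) * (A.card * Real.log A.card) = ∑ a ∈ A, -(1 / 8) * Real.log A.card := by
          rw [Finset.sum_const, nsmul_eq_mul]; ring
      _ ≤ _ := Finset.sum_le_sum h1
  have hfin : -(1 / 8) * Real.log A.card ≤ Real.log c := by
    have h1 := hlow.trans hup
    have h2 : A.card * (-(1 / 8) * Real.log A.card) ≤ A.card * Real.log c := by linarith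
    exact le_of_mul_le_mul_left h2 hN
  have hlc : Real.log c = Real.log D + r * Real.log 4 - Real.log A.card := by
    rw [hc, Real.log_div (by positivity) hN.ne', Real.log_mul hD.ne' (by positivity),
      Real.log_pow]
  have h4 : Real.log 4 ≤ 2 := by
    have : Real.log 4 = 2 * Real.log 2 := by
      rw [show (4 : ℝ) = 2 ^ 2 by norm_num, Real.log_pow]; norm_num
    rw [this]
    have := Real.log_two_lt_d9
    linarith
  have hr0 : (0 : ℝ) ≤ r := Nat.cast_nonneg r
  rw [hlc] at hfin
  nlinarith

end Pool.Agent.H57.SM
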