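import Pool.Agent.H57.SM.Defs

/-!
# A minimax step

A bilinear minimax over densities bounded by `B` on a finite set.
-/

set_option autoImplicit false

open MeasureTheory Finset Set
open scoped ENNReal

namespace Pool.Agent.H57.SM

theorem mm {ι : Type*} [Fintype ι] {n : ℕ} (K : Set (Fin n → ℝ)) (hK : Convex ℝ K)
    (hne : K.Nonempty) (f : ι → Fin n → ℝ) (B Δ : ℝ)
    (h : ∀ y ∈ K, ∃ π : ι → ℝ, (∀ j, 0 ≤ π j ∧ π j ≤ B) ∧ ∑ j, π j = 1 ∧
      ∑ j, π j * ∑ i, f j i * y i ≤ Δ) :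
    ∃ π : ι → ℝ, (∀ j, 0 ≤ π j ∧ π j ≤ B) ∧ ∑ j, π j = 1 ∧
      ∀ y ∈ K, ∑ j, π j * ∑ i, f j i * y i ≤ Δ := by
  classical
  by_contra! hcon
  let X : Set (ι → ℝ) := {π | (∀ j, 0 ≤ π j ∧ π j ≤ B) ∧ ∑ j, π j = 1}
  let F : (ι → ℝ) → (Fin n → ℝ) → ℝ := fun π y => ∑ j, π j * ∑ i, f j i * y i
  have hFx : ∀ y, Continuous (fun π => F π y) := fun y => by
    simp only [F]; fun_prop
  have hFy : ∀ π, Continuous (fun y => F π y) := fun π => by
    simp only [F]; fun_prop
  have hFlx : ∀ (a b : ℝ) (π π' : ι → ℝ) (y : Fin n → ℝ),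
      F (a • π + b • π') y = a * F π y + b * F π' y := by
    intro a b π π' y
    simp only [F, Pi.add_apply, Pi.smul_apply, smul_eq_mul, Finset.mul_sum]
    rw [← Finset.sum_add_distrib]
    refine Finset.sum_congr rfl fun j _ => ?_
    rw [← Finset.sum_add_distrib]
    refine Finset.sum_congr rfl fun i _ => ?_
    ring
  have hFly : ∀ (a b : ℝ) (π : ι → ℝ) (y y' : Fin n → ℝ),
      F π (a • y + b • y') = a * F π y + b * F π y' := by
    intro a b π y y'
    simp only [F, Pi.add_apply, Pi.smul_apply, smul_eq_mul, Finset.mul_sum]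
    rw [← Finset.sum_add_distrib]
    refine Finset.sum_congr rfl fun j _ => ?_
    rw [← Finset.sum_add_distrib]
    refine Finset.sum_congr rfl fun i _ => ?_
    ring
  have hXcomp : IsCompact X := by
    have hX : X = Set.Icc (0 : ι → ℝ) (fun _ => B) ∩ {π | ∑ j, π j = 1} := by
      ext π
      simp only [X, Set.mem_ofPred_eq, Set.mem_inter_iff, Set.mem_Icc, Pi.le_def, Pi.zero_apply]
      constructor
      · rintro ⟨h1, h2⟩
        exact ⟨⟨fun j => (h1 j).1, fun j => (h1 j).2⟩, h2⟩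
      · rintro ⟨⟨h1, h2⟩, h3⟩
        exact ⟨fun j => ⟨h1 j, h2 j⟩, h3⟩
    rw [hX]
    exact isCompact_Icc.inter_right (isClosed_eq (by fun_prop) continuous_const)
  have hXconv : Convex ℝ X := by
    intro π hπ π' hπ' a b ha hb hab
    refine ⟨fun j => ?_, ?_⟩
    · simp only [Pi.add_apply, Pi.smul_apply, smul_eq_mul]
      constructor
      · have := mul_nonneg ha (hπ.1 j).1
        have := mul_nonneg hb (hπ'.1 j).1
        linarith
      · have h1 := mul_le_mul_of_nonneg_left (hπ.1 j).2 ha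
        have h2 := mul_le_mul_of_nonneg_left (hπ'.1 j).2 hb
        have : a * B + b * B = B := by rw [← add_mul, hab, one_mul]
        linarith
    · simp only [Pi.add_apply, Pi.smul_apply, smul_eq_mul]
      rw [Finset.sum_add_distrib, ← Finset.mul_sum, ← Finset.mul_sum, hπ.2, hπ'.2]
      linarith
  have hXne : X.Nonempty := by
    obtain ⟨y, hy⟩ := hne
    obtain ⟨π, h1, h2, _⟩ := h y hy
    exact ⟨π, h1, h2⟩
  have hcov : X ⊆ ⋃ y ∈ K, {π | Δ < F π y} := by
    intro π hπ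
    obtain ⟨y, hy, hlt⟩ := hcon π hπ.1 hπ.2
    simp only [Set.mem_iUnion, Set.mem_ofPred_eq]
    exact ⟨y, hy, hlt⟩
  obtain ⟨s, hsK, hsf, hs⟩ := hXcomp.elim_finite_subcover_image
    (fun y _ => isOpen_lt continuous_const (hFx y)) hcov
  have key := Sion.exists_lt_iInf_of_lt_iInf_of_finite (X := X) (Y := K) (f := F) hXne hXcomp
    (fun y _ => (hFx y).lowerSemicontinuous.lowerSemicontinuousOn X)
    (fun y _ => by
      refine ConvexOn.quasiconvexOn ⟨hXconv, ?_⟩
      intro π _ π' _ a b _ _ _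
      simp only [smul_eq_mul]
      exact (hFlx a b π π' y).le)
    hK
    (fun π _ => (hFy π).upperSemicontinuous.upperSemicontinuousOn K)
    (fun π _ => by
      refine ConcaveOn.quasiconcaveOn ⟨hK, ?_⟩
      intro y _ y' _ a b _ _ _
      simp only [smul_eq_mul]
      exact (hFly a b π y y').ge)
    hXconv hsf hsK (t := Δ)
    (fun π hπ => by
      have := hs hπ
      simp only [Set.mem_iUnion, Set.mem_ofPred_eq] at this
      obtain ⟨y, hy, hlt⟩ := this
      exact ⟨y, hy, hlt⟩)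
  obtain ⟨y0, hy0, hlt⟩ := key
  obtain ⟨π, h1, h2, h3⟩ := h y0 hy0
  exact absurd h3 (not_le.2 (hlt π ⟨h1, h2⟩))

end Pool.Agent.H57.SM
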