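import Pool.Agent.H57.SM.Defs
import Pool.Agent.H57.SM.MM
import Pool.Agent.H57.SM.Code

/-!
# The number of bad points
-/

set_option autoImplicit false

open MeasureTheory Finset Set
open scoped ENNReal

namespace Pool.Agent.H57.SM

theorem t12_convex {n : ℕ} {μ : Measure (Fin n → ℝ)} (h : Rdy μ) (s : ℝ) :
    Convex ℝ (KK μ s) := by
  intro y hy y' hy' a b ha hb hab
  have heq : a • y + b • y' = fun i => a * y i + b * y' i := by
    funext i; simp
  rw [heq]
  refine ⟨fun i => ?_, ?_⟩
  · exact add_nonneg (mul_nonneg ha (hy.1 i)) (mul_nonneg hb (hy'.1 i))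
  · rcases ha.eq_or_lt with ha0 | ha0
    · have hb1 : b = 1 := by linarith
      subst hb1
      rw [← ha0]
      simpa using hy'.2
    · rcases hb.eq_or_lt with hb0 | hb0
      · have ha1 : a = 1 := by linarith
        subst ha1
        rw [← hb0]
        simpa using hy.2
      · refine le_trans ?_ (h.conc y y' hy.1 hy'.1 a b ha0 hb0 hab)
        have h1 : Real.exp (-s) ^ a ≤ G μ y ^ a :=
          Real.rpow_le_rpow (Real.exp_pos _).le hy.2 ha
        have h2 : Real.exp (-s) ^ b ≤ G μ y' ^ b :=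
          Real.rpow_le_rpow (Real.exp_pos _).le hy'.2 hb
        have h3 : Real.exp (-s) = Real.exp (-s) ^ a * Real.exp (-s) ^ b := by
          rw [← Real.rpow_add (Real.exp_pos _), hab, Real.rpow_one]
        rw [h3]
        exact mul_le_mul h1 h2 (Real.rpow_nonneg (Real.exp_pos _).le _)
          (Real.rpow_nonneg (measureReal_nonneg) _)

theorem t12_zero {n : ℕ} {μ : Measure (Fin n → ℝ)} (h : Rdy μ) {s : ℝ} (hs : 0 < s) :
    (0 : Fin n → ℝ) ∈ KK μ s := by
  have := h.prob
  refine ⟨fun i => le_rfl, ?_⟩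
  have : G μ (0 : Fin n → ℝ) = 1 := by
    unfold G
    have : {x : Fin n → ℝ | ∀ i, (0 : Fin n → ℝ) i ≤ |x i|} = Set.univ := by
      ext x; simp
    rw [this]
    simp
  rw [this]
  exact Real.exp_le_one_iff.2 (by linarith)

/-- for a bad point there is a law on `V`, of bounded density, for which all profiles fail -/
theorem t12_law {n : ℕ} {μ : Measure (Fin n → ℝ)} (h : Rdy μ) (V : Finset (Fin n → ℝ))
    (u : (Fin n → ℝ) → (Fin n → ℤ)) {s σ : ℝ} (hs : 0 < s) (hV : V.Nonempty)
    (v : Fin n → ℝ) (hb : ¬ Good μ s σ (s / 5) V u v) :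
    ∃ π : (Fin n → ℝ) → ℝ, (∀ w ∈ V, 0 ≤ π w ∧ π w * V.card ≤ Real.exp σ) ∧
      ∑ w ∈ V, π w = 1 ∧
      ∀ y ∈ KK μ s, ∑ w ∈ V, π w * Mw y (u v) (u w) ≤ s / 5 := by
  classical
  have hVc : (0 : ℝ) < V.card := by exact_mod_cast hV.card_pos
  have hbad : ∀ y ∈ KK μ s,
      Real.exp (-σ) * V.card ≤ (({w ∈ V | Mw y (u v) (u w) < s / 5}.card : ℕ) : ℝ) := by
    intro y hy
    by_contra hlt
    exact hb ⟨y, hy, not_le.1 hlt⟩
  obtain ⟨π, hπ, hπ1, hπ2⟩ := mm (ι := {x // x ∈ V}) (KK μ s) (t12_convex h s) ⟨_, t12_zero h hs⟩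
    (fun w i => if u v i = u w.1 i then 0 else |(u v i : ℝ)|) (Real.exp σ / V.card) (s / 5)
    (by
      intro y hy
      set S : Finset (Fin n → ℝ) := {w ∈ V | Mw y (u v) (u w) < s / 5} with hS
      have hSc : Real.exp (-σ) * V.card ≤ (S.card : ℝ) := hbad y hy
      have hSpos : (0 : ℝ) < S.card := lt_of_lt_of_le (mul_pos (Real.exp_pos _) hVc) hSc
      refine ⟨fun w => if w.1 ∈ S then 1 / (S.card : ℝ) else 0, fun w => ?_, ?_, ?_⟩
      · have hle : 1 / (S.card : ℝ) ≤ Real.exp σ / V.card := by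
          rw [div_le_div_iff₀ hSpos hVc, one_mul]
          calc (V.card : ℝ) = Real.exp σ * (Real.exp (-σ) * V.card) := by
                rw [← mul_assoc, ← Real.exp_add]; simp
            _ ≤ Real.exp σ * S.card := mul_le_mul_of_nonneg_left hSc (Real.exp_pos _).le
        beta_reduce
        split_ifs with hw
        · exact ⟨by positivity, hle⟩
        · exact ⟨le_rfl, by positivity⟩
      · rw [Finset.sum_coe_sort V (fun w => if w ∈ S then 1 / (S.card : ℝ) else 0)]
        rw [← Finset.sum_filter]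
        have : {w ∈ V | w ∈ S} = S := by
          ext w; simp only [hS, Finset.mem_filter]; tauto
        rw [this, Finset.sum_const, nsmul_eq_mul]
        field_simp
      · have hM : ∀ w : {x // x ∈ V},
            (if w.1 ∈ S then 1 / (S.card : ℝ) else 0) *
              ∑ i, (if u v i = u w.1 i then 0 else |(u v i : ℝ)|) * y i ≤
            (if w.1 ∈ S then 1 / (S.card : ℝ) else 0) * (s / 5) := by
          intro w
          split_ifs with hw
          · refine mul_le_mul_of_nonneg_left ?_ (by positivity)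
            have h1 : Mw y (u v) (u w.1) < s / 5 := by
              rw [hS, Finset.mem_filter] at hw
              exact hw.2
            have h2 : ∑ i, (if u v i = u w.1 i then 0 else |(u v i : ℝ)|) * y i =
                Mw y (u v) (u w.1) := by
              unfold Mw
              refine Finset.sum_congr rfl fun i _ => ?_
              split_ifs <;> simp
            rw [h2]
            exact h1.le
          · simp
        refine (Finset.sum_le_sum fun w _ => hM w).trans ?_
        rw [← Finset.sum_mul]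
        rw [Finset.sum_coe_sort V (fun w => if w ∈ S then 1 / (S.card : ℝ) else 0)]
        rw [← Finset.sum_filter]
        have : {w ∈ V | w ∈ S} = S := by
          ext w; simp only [hS, Finset.mem_filter]; tauto
        rw [this, Finset.sum_const, nsmul_eq_mul]
        have : (S.card : ℝ) * (1 / S.card) = 1 := by field_simp
        rw [this, one_mul])
  refine ⟨fun w => if hw : w ∈ V then π ⟨w, hw⟩ else 0, fun w hw => ?_, ?_, fun y hy => ?_⟩
  · simp only [hw, dite_true]
    refine ⟨(hπ ⟨w, hw⟩).1, ?_⟩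
    have := (hπ ⟨w, hw⟩).2
    rwa [le_div_iff₀ hVc] at this
  · rw [← Finset.sum_coe_sort V]
    rw [← hπ1]
    refine Finset.sum_congr rfl fun w _ => ?_
    simp [w.2]
  · refine le_trans (le_of_eq ?_) (hπ2 y hy)
    rw [← Finset.sum_coe_sort V]
    refine Finset.sum_congr rfl fun w _ => ?_
    have h1 : (if hw : w.1 ∈ V then π ⟨w.1, hw⟩ else 0) = π w := by simp [w.2]
    beta_reduce
    rw [h1]
    congr 1
    unfold Mw
    refine Finset.sum_congr rfl fun i _ => ?_
    split_ifs <;> simp

/-- number of nonzero coordinates -/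
theorem t12_supp {n : ℕ} (a : Fin n → ℤ) (r : ℕ) (ha : ∑ i, |a i| ≤ (r : ℤ)) :
    ({i | a i ≠ 0} : Finset (Fin n)).card ≤ r := by
  have h1 : ((({i | a i ≠ 0} : Finset (Fin n)).card : ℕ) : ℤ) ≤ ∑ i, |a i| := by
    rw [Finset.card_eq_sum_ones, Nat.cast_sum]
    rw [Finset.sum_filter]
    refine Finset.sum_le_sum fun i _ => ?_
    split_ifs with hi
    · have : 0 < |a i| := abs_pos.2 hi
      push_cast
      omega
    · exact abs_nonneg _
  have := h1.trans ha
  exact_mod_cast this

theorem bad_count {n : ℕ} {μ : Measure (Fin n → ℝ)} (h : Rdy μ) (V : Finset (Fin n → ℝ))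
    (u : (Fin n → ℝ) → (Fin n → ℤ)) {s σ : ℝ} {r : ℕ} (hs : 0 < s) (hσ : 0 < σ)
    (hn : ∀ v ∈ V, ∑ i, |u v i| ≤ (r : ℤ))
    (hsep : ∀ v ∈ V, ∀ w ∈ V, v ≠ w → ∃ y ∈ KK μ s, 4 * s ≤ ∑ i, |(u v i : ℝ) - u w i| * y i)
    (W : Finset (Fin n → ℝ)) (hW : W ⊆ V) (hb : ∀ v ∈ W, ¬ Good μ s σ (s / 5) V u v) :
    (W.card : ℝ) ≤ Real.exp (8 / 7 * (σ + 2 * r)) := by
  classical
  rcases W.eq_empty_or_nonempty with hWe | hWn
  · subst hWe
    simpa using (Real.exp_pos _).le
  have hVn : V.Nonempty := hWn.mono hW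
  have hlaw : ∀ v : Fin n → ℝ, ∃ π : (Fin n → ℝ) → ℝ, v ∈ W →
      (∀ w ∈ V, 0 ≤ π w ∧ π w * V.card ≤ Real.exp σ) ∧ ∑ w ∈ V, π w = 1 ∧
      ∀ y ∈ KK μ s, ∑ w ∈ V, π w * Mw y (u v) (u w) ≤ s / 5 := by
    intro v
    by_cases hv : v ∈ W
    · obtain ⟨π, hπ⟩ := t12_law h V u hs hVn v (hb v hv)
      exact ⟨π, fun _ => hπ⟩
    · exact ⟨0, fun hv' => absurd hv' hv⟩
  choose π hπ using hlaw
  -- probability that the coordinate differs
  set P : (Fin n → ℝ) → Fin n → ℝ := fun v i => ∑ w ∈ V with u w i ≠ u v i, π v w with hP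
  have hP0 : ∀ v ∈ W, ∀ i, 0 ≤ P v i := by
    intro v hv i
    refine Finset.sum_nonneg fun w hw => ?_
    rw [Finset.mem_filter] at hw
    exact ((hπ v hv).1 w hw.1).1
  have hPsum : ∀ v ∈ W, ∀ y ∈ KK μ s, ∑ i, |(u v i : ℝ)| * P v i * y i ≤ s / 5 := by
    intro v hv y hy
    refine le_trans (le_of_eq ?_) ((hπ v hv).2.2 y hy)
    have h1 : ∀ w, π v w * Mw y (u v) (u w) =
        ∑ i, (if u w i ≠ u v i then π v w else 0) * (|(u v i : ℝ)| * y i) := by
      intro w
      unfold Mw
      rw [Finset.mul_sum]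
      refine Finset.sum_congr rfl fun i _ => ?_
      by_cases hi : u w i = u v i
      · simp [hi]
      · have hi' : ¬ u v i = u w i := fun hh => hi hh.symm
        simp only [hi', hi, if_false, ne_eq, not_false_eq_true, if_true]
    simp_rw [h1]
    rw [Finset.sum_comm]
    refine Finset.sum_congr rfl fun i _ => ?_
    rw [← Finset.sum_mul, ← Finset.sum_filter]
    simp only [hP]
    ring
  -- words
  set word : (Fin n → ℝ) → Finset (Fin n ×ₗ ℤ) := fun v =>
    (Finset.univ.filter fun i => u v i ≠ 0 ∧ P v i ≤ 1 / 8).image fun i => toLex (i, u v i)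
    with hword
  set g : (Fin n → ℝ) → Finset (Fin n ×ₗ ℤ) := fun w =>
    (Finset.univ.filter fun i => u w i ≠ 0).image fun i => toLex (i, u w i) with hg
  have hmemword : ∀ v i (z : ℤ), toLex (i, z) ∈ word v ↔ u v i = z ∧ z ≠ 0 ∧ P v i ≤ 1 / 8 := by
    intro v i z
    simp only [hword, Finset.mem_image, Finset.mem_filter, Finset.mem_univ, true_and]
    constructor
    · rintro ⟨j, ⟨h1, h2⟩, h3⟩
      have h4 := toLex.injective h3
      rw [Prod.mk.injEq] at h4
      obtain ⟨rfl, rfl⟩ := h4
      exact ⟨rfl, h1, h2⟩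
    · rintro ⟨rfl, h1, h2⟩
      exact ⟨i, ⟨h1, h2⟩, rfl⟩
  have hmemg : ∀ v i (z : ℤ), toLex (i, z) ∈ g v ↔ u v i = z ∧ z ≠ 0 := by
    intro v i z
    simp only [hg, Finset.mem_image, Finset.mem_filter, Finset.mem_univ, true_and]
    constructor
    · rintro ⟨j, h1, h3⟩
      have h4 := toLex.injective h3
      rw [Prod.mk.injEq] at h4
      obtain ⟨rfl, rfl⟩ := h4
      exact ⟨rfl, h1⟩
    · rintro ⟨rfl, h1⟩
      exact ⟨i, h1, rfl⟩
  have hcard1 : ∀ a ∈ W, (word a).card ≤ r := by
    intro a ha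
    refine Finset.card_image_le.trans ((Finset.card_le_card ?_).trans
      (t12_supp (u a) r (hn a (hW ha))))
    intro i hi
    rw [Finset.mem_filter] at hi ⊢
    exact ⟨hi.1, hi.2.1⟩
  have hcard2 : ∀ b ∈ V, (g b).card ≤ r := by
    intro b hb'
    exact Finset.card_image_le.trans (t12_supp (u b) r (hn b hb'))
  -- heavy coordinates carry little mass
  have hheavy : ∀ v ∈ W, ∀ y ∈ KK μ s,
      ∑ i, (if 1 / 8 < P v i then |(u v i : ℝ)| * y i else 0) ≤ 8 * (s / 5) := by
    intro v hv y hy
    have h1 : ∑ i, (if 1 / 8 < P v i then |(u v i : ℝ)| * y i else 0) ≤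
        ∑ i, 8 * (|(u v i : ℝ)| * P v i * y i) := by
      refine Finset.sum_le_sum fun i _ => ?_
      have hy0 : 0 ≤ y i := hy.1 i
      have ha0 : 0 ≤ |(u v i : ℝ)| * y i := mul_nonneg (abs_nonneg _) hy0
      split_ifs with hi
      · nlinarith [mul_le_mul_of_nonneg_left hi.le ha0]
      · have := hP0 v hv i
        positivity
    refine h1.trans ?_
    rw [← Finset.mul_sum]
    exact mul_le_mul_of_nonneg_left (hPsum v hv y hy) (by norm_num)
  have hinj : ∀ a ∈ W, ∀ b ∈ W, word a = word b → a = b := by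
    intro a ha b hb' hab
    by_contra hne
    obtain ⟨y, hy, hlt⟩ := hsep a (hW ha) b (hW hb') hne
    have h1 : ∑ i, |(u a i : ℝ) - u b i| * y i ≤
        ∑ i, ((if 1 / 8 < P a i then |(u a i : ℝ)| * y i else 0) +
          (if 1 / 8 < P b i then |(u b i : ℝ)| * y i else 0)) := by
      refine Finset.sum_le_sum fun i _ => ?_
      have hy0 : 0 ≤ y i := hy.1 i
      have hA0 : 0 ≤ (if 1 / 8 < P a i then |(u a i : ℝ)| * y i else 0) := by
        split_ifs
        · exact mul_nonneg (abs_nonneg _) hy0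
        · exact le_rfl
      have hB0 : 0 ≤ (if 1 / 8 < P b i then |(u b i : ℝ)| * y i else 0) := by
        split_ifs
        · exact mul_nonneg (abs_nonneg _) hy0
        · exact le_rfl
      by_cases hc1 : u a i ≠ 0 ∧ P a i ≤ 1 / 8
      · have hm : toLex (i, u a i) ∈ word b := by
          rw [← hab, hmemword]
          exact ⟨rfl, hc1⟩
        rw [hmemword] at hm
        have hz : |(u a i : ℝ) - u b i| * y i = 0 := by rw [hm.1]; simp
        rw [hz]
        exact add_nonneg hA0 hB0
      · by_cases hc2 : u b i ≠ 0 ∧ P b i ≤ 1 / 8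
        · have hm : toLex (i, u b i) ∈ word a := by
            rw [hab, hmemword]
            exact ⟨rfl, hc2⟩
          rw [hmemword] at hm
          have hz : |(u a i : ℝ) - u b i| * y i = 0 := by rw [hm.1]; simp
          rw [hz]
          exact add_nonneg hA0 hB0
        · have hA : |(u a i : ℝ)| * y i ≤ (if 1 / 8 < P a i then |(u a i : ℝ)| * y i else 0) := by
            split_ifs with hp
            · exact le_rfl
            · have : u a i = 0 := by
                by_contra h0
                exact hc1 ⟨h0, not_lt.1 hp⟩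
              rw [this]; simp
          have hB : |(u b i : ℝ)| * y i ≤ (if 1 / 8 < P b i then |(u b i : ℝ)| * y i else 0) := by
            split_ifs with hp
            · exact le_rfl
            · have : u b i = 0 := by
                by_contra h0
                exact hc2 ⟨h0, not_lt.1 hp⟩
              rw [this]; simp
          have h3 : |(u a i : ℝ) - u b i| ≤ |(u a i : ℝ)| + |(u b i : ℝ)| := abs_sub _ _
          nlinarith [mul_le_mul_of_nonneg_right h3 hy0]
    rw [Finset.sum_add_distrib] at h1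
    have h2 := hheavy a ha y hy
    have h3 := hheavy b hb' y hy
    linarith
  have key := coding W hWn V word g r hcard1 hcard2 hinj π
    (fun a ha b hb' => ((hπ a ha).1 b hb').1) (fun a ha => (hπ a ha).2.1)
    (Real.exp σ) (Real.exp_pos _) (fun a ha b hb' => ((hπ a ha).1 b hb').2)
    (by
      intro a ha x hx
      obtain ⟨⟨i, z⟩, rfl⟩ := toLex.surjective x
      rw [hmemword] at hx
      obtain ⟨hz, hz0, hp⟩ := hx
      refine le_trans (le_of_eq ?_) hp
      simp only [hP]
      refine Finset.sum_congr ?_ fun _ _ => rfl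
      ext w
      simp only [Finset.mem_filter, hmemg]
      refine and_congr_right fun _ => ?_
      subst hz
      constructor
      · intro hh hh2
        exact hh ⟨hh2, hz0⟩
      · intro hh hh2
        exact hh hh2.1)
  rw [Real.log_exp] at key
  have hWc : (0 : ℝ) < W.card := by exact_mod_cast hWn.card_pos
  rw [← Real.log_le_iff_le_exp hWc]
  linarith

end Pool.Agent.H57.SM
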