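import Pool.Agent.H57.SM.Defs

/-! Expectations over random signs. -/

set_option autoImplicit false

open MeasureTheory Finset Set
open scoped ENNReal

namespace Pool.Agent.H57.SM

theorem sg_true : sg true = 1 := by simp [sg]
theorem sg_false : sg false = -1 := by simp [sg]

theorem sg_sq (b : Bool) : sg b * sg b = 1 := by cases b <;> simp [sg]
theorem sg_abs (b : Bool) : |sg b| = 1 := by cases b <;> simp [sg]

theorem Eb_prod {n : ℕ} (β : Fin n → ℝ) (g : Fin n → Bool → ℝ) :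
    Eb β (fun ε => ∏ i, g i (ε i)) =
      ∏ i, ((1 + β i) / 2 * g i true + (1 - β i) / 2 * g i false) := by
  unfold Eb
  have h1 : ∀ ε : Fin n → Bool, (∏ i, (1 + sg (ε i) * β i) / 2) * ∏ i, g i (ε i) =
      ∏ i, ((1 + sg (ε i) * β i) / 2 * g i (ε i)) := fun ε => (Finset.prod_mul_distrib).symm
  simp_rw [h1]
  rw [← Fintype.piFinset_univ, Finset.sum_prod_piFinset Finset.univ
    (fun i b => (1 + sg b * β i) / 2 * g i b)]
  apply Finset.prod_congr rfl
  intro i _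
  rw [Fintype.sum_bool, sg_true, sg_false]
  ring

theorem Eb_add {n : ℕ} (β : Fin n → ℝ) (F H : (Fin n → Bool) → ℝ) :
    Eb β (fun ε => F ε + H ε) = Eb β F + Eb β H := by
  unfold Eb
  rw [← Finset.sum_add_distrib]
  exact Finset.sum_congr rfl fun ε _ => by ring

theorem Eb_mul {n : ℕ} (β : Fin n → ℝ) (c : ℝ) (F : (Fin n → Bool) → ℝ) :
    Eb β (fun ε => c * F ε) = c * Eb β F := by
  unfold Eb
  rw [Finset.mul_sum]
  exact Finset.sum_congr rfl fun ε _ => by ring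

theorem Eb_sum {n : ℕ} {κ : Type*} (s : Finset κ) (β : Fin n → ℝ) (F : κ → (Fin n → Bool) → ℝ) :
    Eb β (fun ε => ∑ j ∈ s, F j ε) = ∑ j ∈ s, Eb β (F j) := by
  unfold Eb
  rw [Finset.sum_comm]
  exact Finset.sum_congr rfl fun ε _ => by rw [Finset.mul_sum]

theorem Eb_const {n : ℕ} (β : Fin n → ℝ) (c : ℝ) : Eb β (fun _ => c) = c := by
  have h := Eb_prod β (fun _ _ => 1)
  have h1 : Eb β (fun _ => (1 : ℝ)) = 1 := by
    have : (fun ε : Fin n → Bool => ∏ i : Fin n, (1 : ℝ)) = fun _ => 1 := by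
      funext ε; simp
    rw [this] at h
    rw [h]
    apply Finset.prod_eq_one
    intro i _
    ring
  calc Eb β (fun _ => c) = Eb β (fun _ => c * 1) := by simp
    _ = c * Eb β (fun _ => 1) := Eb_mul β c _
    _ = c := by rw [h1, mul_one]

theorem Eb_w_nonneg {n : ℕ} {β : Fin n → ℝ} (hβ : ∀ i, |β i| ≤ 1) (ε : Fin n → Bool) :
    0 ≤ ∏ i, (1 + sg (ε i) * β i) / 2 := by
  apply Finset.prod_nonneg
  intro i _
  have h1 := abs_le.1 (hβ i)
  cases ε i
  · rw [sg_false]; linarith [h1.2]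
  · rw [sg_true]; linarith [h1.1]

theorem Eb_mono {n : ℕ} {β : Fin n → ℝ} (hβ : ∀ i, |β i| ≤ 1) {F H : (Fin n → Bool) → ℝ}
    (h : ∀ ε, F ε ≤ H ε) : Eb β F ≤ Eb β H := by
  unfold Eb
  exact Finset.sum_le_sum fun ε _ => mul_le_mul_of_nonneg_left (h ε) (Eb_w_nonneg hβ ε)

theorem Es_mono {n : ℕ} {F H : (Fin n → Bool) → ℝ} (h : ∀ ε, F ε ≤ H ε) : Es F ≤ Es H :=
  Eb_mono (fun i => by simp) h

theorem Eb_nonneg {n : ℕ} {β : Fin n → ℝ} (hβ : ∀ i, |β i| ≤ 1) {F : (Fin n → Bool) → ℝ}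
    (h : ∀ ε, 0 ≤ F ε) : 0 ≤ Eb β F := by
  have := Eb_mono hβ h
  rwa [Eb_const] at this

theorem Eb_sg {n : ℕ} (β : Fin n → ℝ) (j : Fin n) : Eb β (fun ε => sg (ε j)) = β j := by
  have h := Eb_prod β (fun i b => if i = j then sg b else 1)
  have h1 : (fun ε : Fin n → Bool => ∏ i, (if i = j then sg (ε i) else 1)) =
      fun ε => sg (ε j) := by
    funext ε
    rw [Finset.prod_ite_eq' Finset.univ j (fun i => sg (ε i))]
    simp
  rw [h1] at h
  rw [h, Finset.prod_eq_single j]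
  · simp only [if_true, sg_true, sg_false]; ring
  · intro i _ hij
    simp only [hij, if_false]; ring
  · intro hj
    exact absurd (Finset.mem_univ j) hj

theorem Eb_lin {n : ℕ} (β s : Fin n → ℝ) :
    Eb β (fun ε => ∑ i, s i * sg (ε i)) = ∑ i, s i * β i := by
  rw [Eb_sum Finset.univ β (fun i ε => s i * sg (ε i))]
  apply Finset.sum_congr rfl
  intro i _
  rw [Eb_mul β (s i) (fun ε => sg (ε i)), Eb_sg]

/-- composition of kernels -/
theorem Eb_comp {n : ℕ} (a c β : Fin n → ℝ) (H : (Fin n → Bool) → ℝ) :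
    Eb β (fun ε => Eb (fun i => a i + c i * sg (ε i)) H) = Eb (fun i => a i + c i * β i) H := by
  have h1 : (fun ε : Fin n → Bool => Eb (fun i => a i + c i * sg (ε i)) H) =
      fun ε => ∑ η : Fin n → Bool, H η *
        (∏ i, (1 + sg (η i) * (a i + c i * sg (ε i))) / 2) := by
    funext ε
    unfold Eb
    exact Finset.sum_congr rfl fun η _ => by ring
  rw [h1, Eb_sum Finset.univ β (fun η ε => H η *
        (∏ i, (1 + sg (η i) * (a i + c i * sg (ε i))) / 2))]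
  conv_rhs => unfold Eb
  apply Finset.sum_congr rfl
  intro η _
  rw [Eb_mul β (H η), Eb_prod β (fun i b => (1 + sg (η i) * (a i + c i * sg b)) / 2), mul_comm]
  congr 1
  apply Finset.prod_congr rfl
  intro i _
  rw [sg_true, sg_false]
  ring

theorem Es_comp {n : ℕ} (c : Fin n → ℝ) (H : (Fin n → Bool) → ℝ) :
    Es (fun ε => Eb (fun i => c i * sg (ε i)) H) = Es H := by
  have h := Eb_comp (fun _ => 0) c (fun _ => 0) H
  simp only [zero_add, mul_zero] at h
  exact h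

theorem Es_sg_mul {n : ℕ} (i j : Fin n) :
    Es (fun ε => sg (ε i) * sg (ε j)) = if i = j then 1 else 0 := by
  by_cases hij : i = j
  · subst hij
    simp only [sg_sq, if_true]
    exact Eb_const _ _
  · rw [if_neg hij]
    have h := Eb_prod (fun _ : Fin n => (0 : ℝ)) (fun k b => if k = i ∨ k = j then sg b else 1)
    have h1 : (fun ε : Fin n → Bool => ∏ k, (if k = i ∨ k = j then sg (ε k) else 1)) =
        fun ε => sg (ε i) * sg (ε j) := by
      funext ε
      rw [← Finset.mul_prod_erase Finset.univ _ (Finset.mem_univ i),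
        ← Finset.mul_prod_erase (Finset.univ.erase i) _
          (Finset.mem_erase.2 ⟨fun h => hij h.symm, Finset.mem_univ j⟩)]
      simp only [true_or, or_true, if_true]
      rw [Finset.prod_eq_one, mul_one]
      intro k hk
      rw [Finset.mem_erase, Finset.mem_erase] at hk
      rw [if_neg]
      rintro (h | h)
      · exact hk.2.1 h
      · exact hk.1 h
    rw [h1] at h
    unfold Es
    rw [h]
    apply Finset.prod_eq_zero (Finset.mem_univ i)
    simp only [true_or, if_true, sg_true, sg_false]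
    ring

theorem Es_sq {n : ℕ} (s : Fin n → ℝ) :
    Es (fun ε => (∑ i, s i * sg (ε i)) ^ 2) = ∑ i, s i ^ 2 := by
  have h1 : (fun ε : Fin n → Bool => (∑ i, s i * sg (ε i)) ^ 2) =
      fun ε => ∑ i, ∑ j, (s i * s j) * (sg (ε i) * sg (ε j)) := by
    funext ε
    rw [sq, Finset.sum_mul_sum]
    exact Finset.sum_congr rfl fun i _ => Finset.sum_congr rfl fun j _ => by ring
  rw [h1]
  unfold Es
  rw [Eb_sum Finset.univ _ (fun i ε => ∑ j, (s i * s j) * (sg (ε i) * sg (ε j)))]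
  apply Finset.sum_congr rfl
  intro i _
  rw [Eb_sum Finset.univ _ (fun j ε => (s i * s j) * (sg (ε i) * sg (ε j)))]
  have h2 : ∀ j, Eb (fun _ : Fin n => (0 : ℝ)) (fun ε => (s i * s j) * (sg (ε i) * sg (ε j))) =
      if i = j then s i * s j else 0 := by
    intro j
    rw [Eb_mul]
    have := Es_sg_mul i j
    unfold Es at this
    rw [this]
    split_ifs <;> simp
  simp_rw [h2]
  rw [Finset.sum_ite_eq]
  simp [sq]

/-- change of measure -/
theorem Eb_dens {n : ℕ} (β : Fin n → ℝ) (F : (Fin n → Bool) → ℝ) :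
    (Eb β F) ^ 2 ≤ (∏ i, (1 + β i ^ 2)) * Es (fun ε => F ε ^ 2) := by
  have h0 : ∀ ε : Fin n → Bool, ∏ i : Fin n, ((1 : ℝ) + sg (ε i) * 0) / 2 = (1 / 2) ^ n := by
    intro ε
    simp
  have h1 : Eb β F = ∑ ε : Fin n → Bool,
      (Real.sqrt ((1 / 2) ^ n) * ∏ i, (1 + sg (ε i) * β i)) * (Real.sqrt ((1 / 2) ^ n) * F ε) := by
    unfold Eb
    apply Finset.sum_congr rfl
    intro ε _
    have h2 : Real.sqrt ((1 / 2) ^ n) * Real.sqrt ((1 / 2) ^ n) = ((1 : ℝ) / 2) ^ n :=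
      Real.mul_self_sqrt (by positivity)
    have h3 : ∏ i, (1 + sg (ε i) * β i) / 2 = ((1 : ℝ) / 2) ^ n * ∏ i, (1 + sg (ε i) * β i) := by
      rw [Finset.prod_div_distrib]
      simp only [prod_const, card_univ, Fintype.card_fin]
      rw [div_pow, one_pow]
      ring
    rw [h3]
    calc ((1 : ℝ) / 2) ^ n * (∏ i, (1 + sg (ε i) * β i)) * F ε =
        (Real.sqrt ((1 / 2) ^ n) * Real.sqrt ((1 / 2) ^ n)) *
          ((∏ i, (1 + sg (ε i) * β i)) * F ε) := by rw [h2]; ring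
      _ = _ := by ring
  have h4 : ∑ ε : Fin n → Bool, (Real.sqrt ((1 / 2) ^ n) * ∏ i, (1 + sg (ε i) * β i)) ^ 2 =
      ∏ i, (1 + β i ^ 2) := by
    have h5 := Eb_prod (fun _ : Fin n => (0 : ℝ)) (fun i b => (1 + sg b * β i) ^ 2)
    have h6 : ∏ i, ((1 + (0 : ℝ)) / 2 * (1 + sg true * β i) ^ 2 +
        (1 - 0) / 2 * (1 + sg false * β i) ^ 2) = ∏ i, (1 + β i ^ 2) := by
      apply Finset.prod_congr rfl
      intro i _
      rw [sg_true, sg_false]
      ring
    rw [← h6, ← h5]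
    unfold Eb
    apply Finset.sum_congr rfl
    intro ε _
    simp only []
    rw [mul_pow, Real.sq_sqrt (by positivity), h0 ε, ← Finset.prod_pow]
  have h7 : ∑ ε : Fin n → Bool, (Real.sqrt ((1 / 2) ^ n) * F ε) ^ 2 = Es (fun ε => F ε ^ 2) := by
    unfold Es Eb
    apply Finset.sum_congr rfl
    intro ε _
    rw [mul_pow, Real.sq_sqrt (by positivity), h0 ε]
  rw [h1, ← h4, ← h7]
  exact Finset.sum_mul_sq_le_sq_mul_sq _ _ _

theorem Es_eq {n : ℕ} (F : (Fin n → Bool) → ℝ) : Es F = (1 / 2) ^ n * ∑ ε, F ε := by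
  unfold Es Eb
  rw [Finset.mul_sum]
  apply Finset.sum_congr rfl
  intro ε _
  simp

/-- an odd function of one sign has expectation zero -/
theorem Es_odd {n : ℕ} (j : Fin n) (F : (Fin n → Bool) → ℝ)
    (hF : ∀ ε, F (Function.update ε j (!(ε j))) = -F ε) : Es F = 0 := by
  have hinv : Function.Involutive (fun ε : Fin n → Bool => Function.update ε j (!(ε j))) := by
    intro ε
    simp
  have h1 : ∑ ε, F ε = ∑ ε : Fin n → Bool, F (Function.update ε j (!(ε j))) :=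
    (Equiv.sum_comp hinv.toPerm F).symm
  have h2 : ∑ ε, F ε = 0 := by
    have h3 : ∑ ε : Fin n → Bool, F (Function.update ε j (!(ε j))) = -∑ ε, F ε := by
      rw [← Finset.sum_neg_distrib]
      exact Finset.sum_congr rfl fun ε _ => hF ε
    linarith
  rw [Es_eq, h2, mul_zero]

theorem sg_not (b : Bool) : sg (!b) = -sg b := by cases b <;> simp [sg]

theorem upd_sum {n : ℕ} (s : Fin n → ℝ) {J : Finset (Fin n)} {j : Fin n} (hj : j ∉ J)
    (ε : Fin n → Bool) (b : Bool) :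
    ∑ i ∈ J, s i * sg (Function.update ε j b i) = ∑ i ∈ J, s i * sg (ε i) := by
  apply Finset.sum_congr rfl
  intro i hi
  rw [Function.update_of_ne]
  rintro rfl
  exact hj hi

/-- moments of a Rademacher sum (over a subset of the coordinates) -/
theorem Es_four {n : ℕ} (s : Fin n → ℝ) (J : Finset (Fin n)) :
    Es (fun ε => (∑ i ∈ J, s i * sg (ε i)) ^ 4) ≤ 3 * (∑ i ∈ J, s i ^ 2) ^ 2 ∧
    Es (fun ε => (∑ i ∈ J, s i * sg (ε i)) ^ 2) = ∑ i ∈ J, s i ^ 2 := by
  induction J using Finset.induction_on with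
  | empty =>
    simp only [Finset.sum_empty]
    refine ⟨?_, ?_⟩
    · have : Es (fun _ : Fin n → Bool => (0 : ℝ) ^ 4) = 0 := by
        have := Eb_const (fun _ : Fin n => (0 : ℝ)) ((0 : ℝ) ^ 4)
        unfold Es
        rw [this]; norm_num
      rw [this]; norm_num
    · have := Eb_const (fun _ : Fin n => (0 : ℝ)) ((0 : ℝ) ^ 2)
      unfold Es
      rw [this]; norm_num
  | insert j J hj ih =>
    obtain ⟨ih4, ih2⟩ := ih
    have e1 : Es (fun ε => (∑ i ∈ J, s i * sg (ε i)) * sg (ε j)) = 0 := by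
      apply Es_odd j
      intro ε
      rw [upd_sum s hj, Function.update_self, sg_not]
      ring
    have e3 : Es (fun ε => (∑ i ∈ J, s i * sg (ε i)) ^ 3 * sg (ε j)) = 0 := by
      apply Es_odd j
      intro ε
      rw [upd_sum s hj, Function.update_self, sg_not]
      ring
    have hs2 : ∀ ε : Fin n → Bool, sg (ε j) ^ 2 = 1 := fun ε => by rw [sq, sg_sq]
    have f2 : (fun ε : Fin n → Bool => (∑ i ∈ insert j J, s i * sg (ε i)) ^ 2) =
        fun ε => ((∑ i ∈ J, s i * sg (ε i)) ^ 2 +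
          (2 * s j) * ((∑ i ∈ J, s i * sg (ε i)) * sg (ε j))) + s j ^ 2 := by
      funext ε
      rw [Finset.sum_insert hj]
      have := hs2 ε
      linear_combination (s j ^ 2) * this
    have f4 : (fun ε : Fin n → Bool => (∑ i ∈ insert j J, s i * sg (ε i)) ^ 4) =
        fun ε => (((∑ i ∈ J, s i * sg (ε i)) ^ 4 +
          (4 * s j) * ((∑ i ∈ J, s i * sg (ε i)) ^ 3 * sg (ε j))) +
          (6 * s j ^ 2) * (∑ i ∈ J, s i * sg (ε i)) ^ 2) +
          ((4 * s j ^ 3) * ((∑ i ∈ J, s i * sg (ε i)) * sg (ε j)) + s j ^ 4) := by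
      funext ε
      rw [Finset.sum_insert hj]
      have h := hs2 ε
      linear_combination (6 * s j ^ 2 * (∑ i ∈ J, s i * sg (ε i)) ^ 2 +
        4 * s j ^ 3 * (∑ i ∈ J, s i * sg (ε i)) * sg (ε j) + s j ^ 4 * (sg (ε j) ^ 2 + 1)) * h
    have g2 : Es (fun ε => (∑ i ∈ insert j J, s i * sg (ε i)) ^ 2) =
        ∑ i ∈ insert j J, s i ^ 2 := by
      rw [f2]
      unfold Es at e1 e3 ih2 ih4 ⊢
      rw [Eb_add, Eb_add, Eb_mul, Eb_const, e1, ih2, Finset.sum_insert hj]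
      ring
    refine ⟨?_, g2⟩
    rw [f4]
    unfold Es at e1 e3 ih2 ih4 ⊢
    rw [Eb_add, Eb_add, Eb_add, Eb_add, Eb_mul, Eb_mul, Eb_mul, Eb_const, e1, e3, ih2,
      Finset.sum_insert hj]
    have h0 : 0 ≤ ∑ i ∈ J, s i ^ 2 := Finset.sum_nonneg fun i _ => sq_nonneg _
    nlinarith [sq_nonneg (s j), sq_nonneg (s j ^ 2)]

/-- Khinchine -/
theorem Es_abs {n : ℕ} (s : Fin n → ℝ) :
    ∑ i, s i ^ 2 ≤ 3 * (Es (fun ε => |∑ i, s i * sg (ε i)|)) ^ 2 := by
  set σ := ∑ i, s i ^ 2 with hσ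
  have hσ0 : 0 ≤ σ := Finset.sum_nonneg fun i _ => sq_nonneg _
  rcases hσ0.eq_or_lt with h | hpos
  · rw [← h]; positivity
  obtain ⟨h4, h2⟩ := Es_four s Finset.univ
  rw [← hσ] at h4 h2
  set m := Es (fun ε => |∑ i, s i * sg (ε i)|) with hm
  have hm0 : 0 ≤ m := Eb_nonneg (fun i => by simp) fun ε => abs_nonneg _
  -- for every `c > 0`: `y² ≤ (1/3)(2 c |y| + y⁴ / c²)`
  have key : ∀ c : ℝ, 0 < c → σ ≤ (2 / 3 * c) * m + (1 / (3 * c ^ 2)) * (3 * σ ^ 2) := by
    intro c hc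
    have hp : ∀ y : ℝ, y ^ 2 ≤ (2 / 3 * c) * |y| + (1 / (3 * c ^ 2)) * y ^ 4 := by
      intro y
      have h1 : y ^ 2 = |y| ^ 2 := (sq_abs y).symm
      have h1' : y ^ 4 = |y| ^ 4 := by
        rw [show y ^ 4 = (y ^ 2) ^ 2 by ring, h1]; ring
      have ha : 0 ≤ |y| := abs_nonneg y
      rw [h1, h1']
      have h3 : 0 ≤ |y| * (|y| - c) ^ 2 * (|y| + 2 * c) := by positivity
      rw [show (2 / 3 * c) * |y| + (1 / (3 * c ^ 2)) * |y| ^ 4 =
        (2 * c ^ 3 * |y| + |y| ^ 4) / (3 * c ^ 2) by field_simp, le_div_iff₀ (by positivity)]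
      nlinarith [h3]
    have hs : Es (fun ε => (∑ i, s i * sg (ε i)) ^ 2) ≤
        Es (fun ε => (2 / 3 * c) * |∑ i, s i * sg (ε i)| +
          (1 / (3 * c ^ 2)) * (∑ i, s i * sg (ε i)) ^ 4) := Es_mono fun ε => hp _
    rw [h2] at hs
    unfold Es at hs hm h4
    rw [Eb_add, Eb_mul, Eb_mul, ← hm] at hs
    refine hs.trans ?_
    gcongr
  have h5 := key (Real.sqrt (3 * σ)) (by positivity)
  rw [Real.sq_sqrt (by positivity)] at h5
  have h6 : 1 / (3 * (3 * σ)) * (3 * σ ^ 2) = σ / 3 := by field_simp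
  rw [h6] at h5
  have h7 : σ ≤ Real.sqrt (3 * σ) * m := by linarith
  have h8 : σ ^ 2 ≤ (3 * σ) * m ^ 2 := by
    calc σ ^ 2 ≤ (Real.sqrt (3 * σ) * m) ^ 2 := by
          apply pow_le_pow_left₀ hσ0 h7
      _ = (3 * σ) * m ^ 2 := by rw [mul_pow, Real.sq_sqrt (by positivity)]
  nlinarith

theorem BB_mono {n : ℕ} {T T' : Finset (Fin n → ℝ)} (h : T' ⊆ T) {R : ℝ} (hB : BB T R) :
    BB T' R := by
  obtain ⟨H, h1, h2⟩ := hB
  exact ⟨H, fun ε v hv w hw => h1 ε v (h hv) w (h hw), h2⟩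

end Pool.Agent.H57.SM
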