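import Pool.Agent.H57.SM.Bern

/-! T15: the Bernoulli comparison at one point. -/

set_option autoImplicit false

open MeasureTheory Finset Set
open scoped ENNReal

namespace Pool.Agent.H57.SM

private theorem t15_le_Sup {n : ℕ} {T : Finset (Fin n → ℝ)} (hT : T.Nonempty) (x : Fin n → ℝ)
    {v w : Fin n → ℝ} (hv : v ∈ T) (hw : w ∈ T) : ∑ i, (v i - w i) * x i ≤ Sup T hT x := by
  unfold Sup
  refine le_trans ?_ (Finset.le_sup' _ hv)
  exact Finset.le_sup' (fun w : Fin n → ℝ => ∑ i, (v i - w i) * x i) hw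

private theorem t15_Es {n : ℕ} (F : (Fin n → Bool) → ℝ) : 2 ^ n * Es F = ∑ ε, F ε := by
  unfold Es Eb
  rw [Finset.mul_sum]
  refine Finset.sum_congr rfl (fun ε _ => ?_)
  have h1 : ∏ i : Fin n, (1 + sg (ε i) * 0) / 2 = (1 / 2 : ℝ) ^ n := by
    simp
  rw [h1, ← mul_assoc, ← mul_pow]
  norm_num

private theorem t15_card {n : ℕ} (m : Fin n → ℤ) (r : ℕ) (hm : ∑ i, |m i| ≤ (r : ℤ)) :
    (Finset.univ.filter (fun i => m i ≠ 0)).card ≤ r := by
  have h1 : ((Finset.univ.filter (fun i => m i ≠ 0)).card : ℤ) ≤ ∑ i, |m i| := by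
    rw [Finset.card_filter]
    push_cast
    refine Finset.sum_le_sum (fun i _ => ?_)
    split_ifs with h
    · exact Int.one_le_abs h
    · exact abs_nonneg _
  exact_mod_cast h1.trans hm

theorem bern_pt {n : ℕ} {V : Finset (Fin n → ℝ)} (hV : V.Nonempty) {x : Fin n → ℝ}
    (hx : ∀ i, 0 ≤ x i) {S : ℝ} (hS : 0 < S) (hR : RR V hV x ≤ 2 * S)
    (D : Finset (Fin n → ℝ)) (hD : D ⊆ V) (hDn : D.Nonempty) (u : (Fin n → ℝ) → (Fin n → ℤ))
    (r : ℕ) (hn : ∀ v ∈ V, ∑ i, |u v i| ≤ (r : ℤ))
    (hd : ∀ v ∈ V, ∀ w ∈ V, ∀ i, 0 ≤ ((u v i : ℝ) - u w i) * (v i - w i)) :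
    ∃ D' ⊆ D, D'.Nonempty ∧ (D.card : ℝ) * (3 / 4) ≤ 2 ^ r * D'.card ∧
      ∀ v ∈ D', ∀ w ∈ D',
        ∑ i, (if u v i = 0 ↔ u w i = 0 then 0 else |v i - w i| * x i) ≤ 16 * S := by
  classical
  obtain ⟨H, hHd⟩ : ∃ H : (Fin n → Bool) → ℝ, H = fun ε => Sup V hV fun i => sg (ε i) * x i :=
    ⟨_, rfl⟩
  have hH : ∀ ε, ∀ v ∈ V, ∀ w ∈ V, ∑ i, (v i - w i) * x i * sg (ε i) ≤ H ε := by
    intro ε v hv w hw
    rw [hHd]
    refine le_trans (le_of_eq ?_) (t15_le_Sup hV (fun i => sg (ε i) * x i) hv hw)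
    exact Finset.sum_congr rfl (fun i _ => by ring)
  have hH0 : ∀ ε, 0 ≤ H ε := by
    intro ε
    obtain ⟨v, hv⟩ := hV
    have := hH ε v hv v hv
    simpa using this
  have hmean : Es H ≤ 2 * S := by
    rw [hHd]; exact hR
  obtain ⟨c, hc⟩ : ∃ c : (Fin n → ℝ) → Fin n → ℝ, c = fun v i => if u v i = 0 then 1 else 0 :=
    ⟨_, rfl⟩
  have hc01 : ∀ v i, |c v i| ≤ 1 := by
    intro v i; rw [hc]; simp only; split_ifs <;> simp
  obtain ⟨Hc, hHc⟩ : ∃ Hc : (Fin n → ℝ) → (Fin n → Bool) → ℝ,
      Hc = fun v ε => Eb (fun i => 0 + c v i * sg (ε i)) H := ⟨_, rfl⟩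
  have hβ : ∀ v (ε : Fin n → Bool), ∀ i, |0 + c v i * sg (ε i)| ≤ 1 := by
    intro v ε i
    rw [zero_add, abs_mul, sg_abs, mul_one]
    exact hc01 v i
  have hHc0 : ∀ v ε, 0 ≤ Hc v ε := by
    intro v ε
    have h1 := Eb_mono (hβ v ε) (F := fun _ => 0) (H := H) hH0
    rw [Eb_const] at h1
    rw [hHc]; exact h1
  have hHcle : ∀ v ε, ∀ v' ∈ V, ∀ w' ∈ V,
      ∑ i, (v' i - w' i) * x i * (0 + c v i * sg (ε i)) ≤ Hc v ε := by
    intro v ε v' hv' w' hw'
    have h1 := Eb_mono (hβ v ε) (F := fun η => ∑ i, ((v' i - w' i) * x i) * sg (η i)) (H := H)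
      (fun η => hH η v' hv' w' hw')
    rw [Eb_lin] at h1
    rw [hHc]; exact h1
  have hHcmean : ∀ v, Es (Hc v) ≤ 2 * S := by
    intro v
    have h1 := Eb_comp (fun _ => 0) (c v) (fun _ => 0) H
    have h2 : Es (Hc v) = Es H := by
      unfold Es
      rw [hHc]
      refine h1.trans ?_
      congr 1
      funext i
      simp
    rw [h2]; exact hmean
  have hHcdep : ∀ v (ε ε' : Fin n → Bool), (∀ i, u v i = 0 → ε i = ε' i) →
      Hc v ε = Hc v ε' := by
    intro v ε ε' h
    rw [hHc]
    simp only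
    congr 1
    funext i
    rw [hc]
    simp only
    by_cases hi : u v i = 0
    · rw [h i hi]
    · simp [hi]
  -- the events
  obtain ⟨B, hB⟩ : ∃ B : (Fin n → ℝ) → Finset (Fin n → Bool),
      B = fun v => Finset.univ.filter (fun ε => Hc v ε ≤ 8 * S) := ⟨_, rfl⟩
  obtain ⟨E, hE⟩ : ∃ E : (Fin n → ℝ) → Finset (Fin n → Bool),
      E = fun v => Finset.univ.filter (fun ε =>
        (∀ i, u v i ≠ 0 → ε i = decide (0 < u v i)) ∧ Hc v ε ≤ 8 * S) := ⟨_, rfl⟩
  have hBcard : ∀ v, 3 / 4 * (2 : ℝ) ^ n ≤ (B v).card := by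
    intro v
    have h1 : ∑ ε, Hc v ε ≤ 2 ^ n * (2 * S) := by
      rw [← t15_Es]
      exact mul_le_mul_of_nonneg_left (hHcmean v) (by positivity)
    have h2 : ((B v)ᶜ.card : ℝ) * (8 * S) ≤ ∑ ε, Hc v ε := by
      calc ((B v)ᶜ.card : ℝ) * (8 * S) = ∑ _ε ∈ (B v)ᶜ, 8 * S := by
            rw [Finset.sum_const, nsmul_eq_mul]
        _ ≤ ∑ ε ∈ (B v)ᶜ, Hc v ε := by
            refine Finset.sum_le_sum (fun ε hε => ?_)
            rw [Finset.mem_compl, hB] at hε
            simp only [Finset.mem_filter, Finset.mem_univ, true_and, not_le] at hε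
            exact hε.le
        _ ≤ ∑ ε, Hc v ε :=
            Finset.sum_le_sum_of_subset_of_nonneg (Finset.subset_univ _)
              (fun ε _ _ => hHc0 v ε)
    have h3 : ((B v).card : ℝ) + (B v)ᶜ.card = 2 ^ n := by
      have h4 : (B v).card + (B v)ᶜ.card = 2 ^ n := by
        rw [Finset.card_add_card_compl, Fintype.card_fun, Fintype.card_bool, Fintype.card_fin]
      exact_mod_cast h4
    have h5 : ((B v)ᶜ.card : ℝ) * 8 ≤ 2 ^ n * 2 := by
      have h6 : (((B v)ᶜ.card : ℝ) * 8) * S ≤ (2 ^ n * 2) * S := by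
        calc (((B v)ᶜ.card : ℝ) * 8) * S = ((B v)ᶜ.card : ℝ) * (8 * S) := by ring
          _ ≤ 2 ^ n * (2 * S) := h2.trans h1
          _ = _ := by ring
      exact le_of_mul_le_mul_right h6 hS
    linarith
  have hEcard : ∀ v ∈ V, (B v).card ≤ 2 ^ r * (E v).card := by
    intro v hv
    obtain ⟨f, hf⟩ : ∃ f : (Fin n → Bool) → Fin n → Bool,
      f = fun ε i => if u v i = 0 then ε i else decide (0 < u v i) := ⟨_, rfl⟩
    have h1 : (B v).card ≤ 2 ^ r * ((B v).image f).card := by
      refine Finset.card_le_mul_card_image _ _ (fun a _ => ?_)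
      have h2 : ((B v).filter (fun ε => f ε = a)) ⊆
          Fintype.piFinset (fun i => if u v i = 0 then {a i} else Finset.univ) := by
        intro ε hε
        rw [Finset.mem_filter] at hε
        rw [Fintype.mem_piFinset]
        intro i
        by_cases hi : u v i = 0
        · rw [if_pos hi, Finset.mem_singleton, ← hε.2, hf]
          simp [hi]
        · rw [if_neg hi]; exact Finset.mem_univ _
      refine (Finset.card_le_card h2).trans ?_
      rw [Fintype.card_piFinset]
      have h3 : ∏ i, (if u v i = 0 then ({a i} : Finset Bool) else Finset.univ).card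
          = 2 ^ (Finset.univ.filter (fun i => u v i ≠ 0)).card := by
        rw [Finset.card_filter, ← Finset.prod_pow_eq_pow_sum]
        refine Finset.prod_congr rfl (fun i _ => ?_)
        by_cases hi : u v i = 0
        · simp [hi]
        · simp [hi]
      rw [h3]
      exact Nat.pow_le_pow_right (by norm_num) (t15_card _ r (hn v hv))
    refine h1.trans (Nat.mul_le_mul_left _ (Finset.card_le_card ?_))
    intro a ha
    rw [Finset.mem_image] at ha
    obtain ⟨ε, hε, rfl⟩ := ha
    rw [hB] at hε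
    simp only [Finset.mem_filter, Finset.mem_univ, true_and] at hε
    rw [hE]
    simp only [Finset.mem_filter, Finset.mem_univ, true_and]
    refine ⟨fun i hi => by rw [hf]; simp [hi], ?_⟩
    rw [hHcdep v (f ε) ε (fun i hi => by rw [hf]; simp [hi])]
    exact hε
  have hEr : ∀ v ∈ V, 3 / 4 * (2 : ℝ) ^ n ≤ 2 ^ r * (E v).card := by
    intro v hv
    refine (hBcard v).trans ?_
    exact_mod_cast hEcard v hv
  obtain ⟨ε, -, hε⟩ : ∃ ε ∈ (Finset.univ : Finset (Fin n → Bool)),
      (D.card : ℝ) * (3 / 4) ≤ 2 ^ r * ((D.filter (fun v => ε ∈ E v)).card : ℝ) := by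
    refine Finset.exists_le_of_sum_le Finset.univ_nonempty ?_
    rw [Finset.sum_const, Finset.card_univ, Fintype.card_fun, Fintype.card_bool,
      Fintype.card_fin, nsmul_eq_mul, ← Finset.mul_sum]
    have h1 : ∑ ε : Fin n → Bool, ((D.filter (fun v => ε ∈ E v)).card : ℝ)
        = ∑ v ∈ D, ((E v).card : ℝ) := by
      have h2 : ∑ ε : Fin n → Bool, (D.filter (fun v => ε ∈ E v)).card
        = ∑ v ∈ D, (E v).card := by
        simp only [Finset.card_filter]
        rw [Finset.sum_comm]
        refine Finset.sum_congr rfl (fun v _ => ?_)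
        rw [← Finset.card_filter, Finset.filter_mem_eq_inter, Finset.univ_inter]
      exact_mod_cast h2
    rw [h1, Finset.mul_sum]
    calc ((2 ^ n : ℕ) : ℝ) * ((D.card : ℝ) * (3 / 4)) = ∑ _v ∈ D, 3 / 4 * (2 : ℝ) ^ n := by
          rw [Finset.sum_const, nsmul_eq_mul]; push_cast; ring
      _ ≤ ∑ v ∈ D, 2 ^ r * ((E v).card : ℝ) := Finset.sum_le_sum (fun v hv => hEr v (hD hv))
  refine ⟨D.filter (fun v => ε ∈ E v), Finset.filter_subset _ _, ?_, hε, ?_⟩
  · rw [← Finset.card_pos]
    by_contra hcon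
    have h0 : (D.filter (fun v => ε ∈ E v)).card = 0 := by omega
    rw [h0] at hε
    have h1 : (0 : ℝ) < D.card := by exact_mod_cast Finset.card_pos.mpr hDn
    simp at hε
    linarith
  · intro v hv w hw
    rw [Finset.mem_filter] at hv hw
    obtain ⟨hvD, hvE⟩ := hv
    obtain ⟨hwD, hwE⟩ := hw
    rw [hE] at hvE hwE
    simp only [Finset.mem_filter, Finset.mem_univ, true_and] at hvE hwE
    have h1 := (hHcle w ε v (hD hvD) w (hD hwD)).trans hwE.2
    have h2 := (hHcle v ε w (hD hwD) v (hD hvD)).trans hvE.2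
    have h3 : ∑ i, (if u v i = 0 ↔ u w i = 0 then 0 else |v i - w i| * x i)
        ≤ ∑ i, ((v i - w i) * x i * (0 + c w i * sg (ε i))
          + (w i - v i) * x i * (0 + c v i * sg (ε i))) := by
      refine Finset.sum_le_sum (fun i _ => ?_)
      have hdi := hd v (hD hvD) w (hD hwD) i
      by_cases hvi : u v i = 0 <;> by_cases hwi : u w i = 0
      · rw [if_pos (by simp [hvi, hwi])]
        rw [hc]; simp only [hvi, hwi, if_true]
        apply le_of_eq; ring
      · rw [if_neg (by simp [hvi, hwi])]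
        rw [hc]; simp only [hvi, hwi, if_true, if_false]
        have he := hwE.1 i hwi
        rw [hvi] at hdi
        rcases lt_or_gt_of_ne hwi with hlt | hgt
        · have hsg : sg (ε i) = -1 := by
            rw [he]; simp [sg, not_lt.mpr hlt.le]
          have hwneg : (u w i : ℝ) < 0 := by exact_mod_cast hlt
          have hs : 0 ≤ v i - w i := by
            by_contra hcon
            push Not at hcon
            have : ((0 : ℤ) : ℝ) - u w i > 0 := by push_cast; linarith
            nlinarith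
          rw [hsg, abs_of_nonneg hs]
          apply le_of_eq; ring
        · have hsg : sg (ε i) = 1 := by
            rw [he]; simp [sg, hgt]
          have hwpos : (0 : ℝ) < (u w i : ℝ) := by exact_mod_cast hgt
          have hs : v i - w i ≤ 0 := by
            by_contra hcon
            push Not at hcon
            have : ((0 : ℤ) : ℝ) - u w i < 0 := by push_cast; linarith
            nlinarith
          rw [hsg, abs_of_nonpos hs]
          apply le_of_eq; ring
      · rw [if_neg (by simp [hvi, hwi])]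
        rw [hc]; simp only [hvi, hwi, if_true, if_false]
        have he := hvE.1 i hvi
        rw [hwi] at hdi
        rcases lt_or_gt_of_ne hvi with hlt | hgt
        · have hsg : sg (ε i) = -1 := by
            rw [he]; simp [sg, not_lt.mpr hlt.le]
          have hvneg : (u v i : ℝ) < 0 := by exact_mod_cast hlt
          have hs : v i - w i ≤ 0 := by
            by_contra hcon
            push Not at hcon
            have : (u v i : ℝ) - ((0 : ℤ) : ℝ) < 0 := by push_cast; linarith
            nlinarith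
          rw [hsg, abs_of_nonpos hs]
          apply le_of_eq; ring
        · have hsg : sg (ε i) = 1 := by
            rw [he]; simp [sg, hgt]
          have hvpos : (0 : ℝ) < (u v i : ℝ) := by exact_mod_cast hgt
          have hs : 0 ≤ v i - w i := by
            by_contra hcon
            push Not at hcon
            have : (u v i : ℝ) - ((0 : ℤ) : ℝ) > 0 := by push_cast; linarith
            nlinarith
          rw [hsg, abs_of_nonneg hs]
          apply le_of_eq; ring
      · rw [if_pos (by simp [hvi, hwi])]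
        rw [hc]; simp only [hvi, hwi, if_false]
        apply le_of_eq; ring
    rw [Finset.sum_add_distrib] at h3
    linarith

end Pool.Agent.H57.SM
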