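import Pool.Agent.H57.SM.Defs

set_option autoImplicit false

open MeasureTheory Finset Set
open scoped ENNReal

namespace Pool.Agent.H57.SM

theorem t02_geo (S : Finset ℤ) (h : Set.InjOn Int.natAbs (S : Set ℤ)) :
    ∑ v ∈ S, (1 / 2 : ℝ) ^ v.natAbs ≤ 2 := by
  calc ∑ v ∈ S, (1 / 2 : ℝ) ^ v.natAbs = ∑ m ∈ S.image Int.natAbs, (1 / 2 : ℝ) ^ m :=
        (Finset.sum_image h).symm
    _ ≤ ∑' m : ℕ, (1 / 2 : ℝ) ^ m :=
        Summable.sum_le_tsum _ (fun _ _ => by positivity) summable_geometric_two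
    _ = 2 := tsum_geometric_two

theorem t02_geo4 (S : Finset ℤ) : ∑ v ∈ S, (1 / 2 : ℝ) ^ v.natAbs ≤ 4 := by
  rw [← Finset.sum_filter_add_sum_filter_not S (fun v => 0 ≤ v)]
  have h1 : ∑ v ∈ S with 0 ≤ v, (1 / 2 : ℝ) ^ v.natAbs ≤ 2 := by
    apply t02_geo
    intro a ha b hb hab
    simp only [coe_filter, mem_ofPred_eq] at ha hb
    omega
  have h2 : ∑ v ∈ S with ¬ 0 ≤ v, (1 / 2 : ℝ) ^ v.natAbs ≤ 2 := by
    apply t02_geo
    intro a ha b hb hab
    simp only [coe_filter, mem_ofPred_eq] at ha hb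
    omega
  linarith

theorem t02_one {α : Type*} (T : Finset α) (hT : T.Nonempty) (f : α → ℤ) :
    ∃ v : ℤ, ({a ∈ T | f a = v}).Nonempty ∧
      (T.card : ℝ) ≤ 4 * 2 ^ v.natAbs * (({a ∈ T | f a = v}.card : ℕ) : ℝ) := by
  by_contra hcon
  push Not at hcon
  have hc : (T.card : ℝ) = ∑ v ∈ T.image f, (({a ∈ T | f a = v}.card : ℕ) : ℝ) := by
    rw [← Nat.cast_sum]
    exact congrArg _ (Finset.card_eq_sum_card_image f T)
  have hne : (T.image f).Nonempty := hT.image f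
  have hlt : ∑ v ∈ T.image f, (({a ∈ T | f a = v}.card : ℕ) : ℝ) <
      ∑ v ∈ T.image f, (T.card : ℝ) / 4 * (1 / 2 : ℝ) ^ v.natAbs := by
    apply Finset.sum_lt_sum_of_nonempty hne
    intro v hv
    obtain ⟨a, ha, hav⟩ := Finset.mem_image.1 hv
    have h1 := hcon v ⟨a, by simp [ha, hav]⟩
    have hp : (0 : ℝ) < 2 ^ v.natAbs := by positivity
    rw [one_div, inv_pow]
    rw [div_mul_eq_mul_div, lt_div_iff₀ (by norm_num : (0 : ℝ) < 4), ← div_eq_mul_inv,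
      lt_div_iff₀ hp]
    nlinarith
  have h4 := t02_geo4 (T.image f)
  rw [← Finset.mul_sum] at hlt
  have hTc : (0 : ℝ) < T.card := by exact_mod_cast hT.card_pos
  nlinarith

theorem t02_aux {α : Type*} {n : ℕ} (k : α → Fin n → ℤ) (J : Finset (Fin n)) :
    ∀ T : Finset α, T.Nonempty → ∃ T' ⊆ T, T'.Nonempty ∧
      (∀ a ∈ T', ∀ b ∈ T', ∀ i ∈ J, k a i = k b i) ∧
      ∀ a ∈ T', (T.card : ℝ) ≤ 4 ^ J.card * 2 ^ (∑ i ∈ J, (k a i).natAbs) * T'.card := by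
  classical
  induction J using Finset.induction_on with
  | empty =>
    intro T hT
    exact ⟨T, Finset.Subset.refl _, hT, by simp, by simp⟩
  | insert i J hi ih =>
    intro T hT
    obtain ⟨v, hv, hcard⟩ := t02_one T hT (fun a => k a i)
    obtain ⟨T', hsub, hne, hag, hc⟩ := ih _ hv
    refine ⟨T', fun a ha => (Finset.mem_filter.1 (hsub ha)).1, hne, ?_, ?_⟩
    · intro a ha b hb j hj
      rcases Finset.mem_insert.1 hj with rfl | hj
      · rw [(Finset.mem_filter.1 (hsub ha)).2, (Finset.mem_filter.1 (hsub hb)).2]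
      · exact hag a ha b hb j hj
    · intro a ha
      have h1 := hc a ha
      have h2 : k a i = v := (Finset.mem_filter.1 (hsub ha)).2
      rw [Finset.sum_insert hi, Finset.card_insert_of_notMem hi, h2, pow_succ, pow_add]
      have h3 : (0 : ℝ) ≤ 4 * 2 ^ v.natAbs := by positivity
      calc (T.card : ℝ) ≤ 4 * 2 ^ v.natAbs * (({a ∈ T | k a i = v}.card : ℕ) : ℝ) := hcard
        _ ≤ 4 * 2 ^ v.natAbs * (4 ^ J.card * 2 ^ (∑ i ∈ J, (k a i).natAbs) * T'.card) :=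
            mul_le_mul_of_nonneg_left h1 h3
        _ = _ := by ring

theorem pigeon {α : Type*} {n : ℕ} (J : Finset (Fin n)) (T : Finset α) (hT : T.Nonempty)
    (k : α → Fin n → ℤ) (M : ℕ) (h : ∀ a ∈ T, ∑ i ∈ J, |k a i| ≤ M) :
    ∃ T' ⊆ T, T'.Nonempty ∧ (T.card : ℝ) ≤ 2 ^ (M + 2 * J.card) * T'.card ∧
      ∀ a ∈ T', ∀ b ∈ T', ∀ i ∈ J, k a i = k b i := by
  obtain ⟨T', hsub, hne, hag, hc⟩ := t02_aux k J T hT
  refine ⟨T', hsub, hne, ?_, hag⟩
  obtain ⟨a, ha⟩ := hne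
  refine (hc a ha).trans ?_
  have h1 : ∑ i ∈ J, (k a i).natAbs ≤ M := by
    have h2 := h a (hsub ha)
    have h3 : ∑ i ∈ J, |k a i| = ((∑ i ∈ J, (k a i).natAbs : ℕ) : ℤ) := by
      push_cast
      rfl
    rw [h3] at h2
    exact_mod_cast h2
  have h4 : (4 : ℝ) ^ J.card = 2 ^ (2 * J.card) := by
    rw [pow_mul]; norm_num
  rw [h4, ← pow_add]
  have h5 : (2 : ℝ) ^ (2 * J.card + ∑ i ∈ J, (k a i).natAbs) ≤ 2 ^ (M + 2 * J.card) :=
    pow_le_pow_right₀ (by norm_num) (by omega)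
  exact mul_le_mul_of_nonneg_right h5 (by positivity)

end Pool.Agent.H57.SM
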