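import Pool.Agent.H57.SM.Basics

/-!
# A point of the level set which dominates many profiles
-/

set_option autoImplicit false

open MeasureTheory Finset Set
open scoped ENNReal

namespace Pool.Agent.H57.SM

theorem t14_near_meas {n : ℕ} {Q : Set (Fin n → ℝ)} (hQ : MeasurableSet Q) (k : ℕ) :
    MeasurableSet {x : Fin n → ℝ | Near Q k x} := by
  have h1 : {x : Fin n → ℝ | Near Q k x} = ⋃ I : Finset (Fin n), ⋃ _ : I.card ≤ k,
      (fun x : Fin n → ℝ => fun i => if i ∈ I then (0 : ℝ) else |x i| / 20) ⁻¹' Q := by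
    ext x
    simp only [Set.mem_iUnion, exists_prop, Set.mem_preimage]
    exact Iff.rfl
  rw [h1]
  refine MeasurableSet.iUnion fun I => MeasurableSet.iUnion fun _ => ?_
  refine hQ.preimage ?_
  rw [measurable_pi_iff]
  intro i
  by_cases hi : i ∈ I
  · simp only [if_pos hi]
    exact measurable_const
  · simp only [if_neg hi]
    exact (measurable_pi_apply i).abs.div_const 20

theorem t14_ev_meas {n : ℕ} (y : Fin n → ℝ) :
    MeasurableSet {x : Fin n → ℝ | ∀ i, y i ≤ |x i|} := by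
  have h1 : {x : Fin n → ℝ | ∀ i, y i ≤ |x i|} = ⋂ i, {x : Fin n → ℝ | y i ≤ |x i|} := by
    ext x
    simp
  rw [h1]
  exact MeasurableSet.iInter fun i => measurableSet_le measurable_const (measurable_pi_apply i).abs

theorem t14_num {s : ℝ} {k : ℕ} (hk : s / 4 + 4 ≤ k) :
    (2 : ℝ) ^ 20 * Real.exp (-4 * (k + 1)) ≤ Real.exp (-s) / 2 := by
  have h1 : Real.exp (-4 * (k + 1)) ≤ Real.exp (-s) * Real.exp (-20) := by
    rw [← Real.exp_add]
    apply Real.exp_le_exp.2
    linarith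
  have h2 : (2 : ℝ) ^ 20 * Real.exp (-20) ≤ 1 / 2 := by
    have h3 : Real.exp 20 = Real.exp 1 ^ 20 := by rw [← Real.exp_nat_mul]; norm_num
    have h4 : (2.7 : ℝ) < Real.exp 1 := lt_trans (by norm_num) Real.exp_one_gt_d9
    have h5 : (2.7 : ℝ) ^ 20 ≤ Real.exp 1 ^ 20 := pow_le_pow_left₀ (by norm_num) h4.le 20
    rw [Real.exp_neg, h3, ← div_eq_mul_inv, div_le_iff₀ (by positivity)]
    refine le_trans ?_ (mul_le_mul_of_nonneg_left h5 (by norm_num))
    norm_num
  have h3 := Real.exp_pos (-s)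
  nlinarith [Real.exp_pos (-20)]

theorem exists_z {n : ℕ} {μ : Measure (Fin n → ℝ)} (h : Rdy μ) {V : Finset (Fin n → ℝ)}
    (hV : V.Nonempty) {S s : ℝ} (hS : 0 < S) (hint : ∫ x, Sup V hV x ∂μ ≤ S)
    (D : Finset (Fin n → ℝ)) (hD : D.Nonempty) (yy : (Fin n → ℝ) → (Fin n → ℝ))
    (hy : ∀ v ∈ D, yy v ∈ KK μ s) (k : ℕ) (hk : s / 4 + 4 ≤ k) :
    ∃ z : Fin n → ℝ, (∀ i, 0 ≤ z i) ∧
      (∃ I : Finset (Fin n), I.card ≤ k ∧
        RR V hV (fun i => if i ∈ I then 0 else z i / 20) ≤ 2 * S) ∧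
      Real.exp (-s) / 2 * D.card ≤ (({v ∈ D | ∀ i, yy v i ≤ z i}.card : ℕ) : ℝ) := by
  classical
  have hprob := h.prob
  set Q : Set (Fin n → ℝ) := {x | RR V hV x ≤ 2 * S} with hQdef
  have hQm : MeasurableSet Q := (isClosed_le (RR_cont hV) continuous_const).measurableSet
  have hQD : Down Q := by
    intro x hx y hxy
    change RR V hV y ≤ 2 * S
    refine (RR_mono hV fun i => ?_).trans hx
    rw [abs_of_nonneg (hxy i).1, abs_of_nonneg ((hxy i).1.trans (hxy i).2)]
    exact (hxy i).2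
  have hQ2 : 1 / 2 ≤ μ.real {x | (fun i => |x i|) ∈ Q} := by
    have e1 : {x : Fin n → ℝ | (fun i => |x i|) ∈ Q} = Q := by
      ext x
      change RR V hV (fun i => |x i|) ≤ 2 * S ↔ RR V hV x ≤ 2 * S
      rw [RR_abs]
    rw [e1]
    obtain ⟨hi, hie⟩ := RR_int h hV
    have h1 := mul_meas_ge_le_integral_of_nonneg (μ := μ)
      (Filter.Eventually.of_forall (RR_nonneg hV)) hi (2 * S)
    have h2 : μ.real Qᶜ ≤ μ.real {x | 2 * S ≤ RR V hV x} := by
      refine measureReal_mono ?_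
      intro x hx
      have hx' : ¬ (RR V hV x ≤ 2 * S) := hx
      exact (not_le.1 hx').le
    have h3 : μ.real Qᶜ = 1 - μ.real Q := by
      rw [measureReal_compl hQm, probReal_univ]
    have h4 : 2 * S * μ.real {x | 2 * S ≤ RR V hV x} ≤ S := by
      refine h1.trans ?_
      rw [hie]
      exact hint
    have h5 : μ.real {x | 2 * S ≤ RR V hV x} ≤ 1 / 2 := by
      by_contra hcon
      push Not at hcon
      nlinarith
    linarith
  have hrat := (h.rat Q hQm hQD hQ2 k).trans (t14_num hk)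
  set N : Set (Fin n → ℝ) := {x | Near Q k x} with hN
  have hNm : MeasurableSet N := t14_near_meas hQm k
  let E : (Fin n → ℝ) → Set (Fin n → ℝ) := fun v => {x | ∀ i, yy v i ≤ |x i|}
  have hEm : ∀ v, MeasurableSet (E v) := fun v => t14_ev_meas (yy v)
  have hEN : ∀ v ∈ D, Real.exp (-s) / 2 ≤ μ.real (E v ∩ N) := by
    intro v hv
    have h1 : Real.exp (-s) ≤ μ.real (E v) := (hy v hv).2
    have h2 : μ.real (E v) ≤ μ.real (E v ∩ N) + μ.real {x | ¬ Near Q k x} := by
      refine (measureReal_mono ?_).trans (measureReal_union_le _ _)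
      intro x hx
      by_cases hxN : Near Q k x
      · exact Or.inl ⟨hx, hxN⟩
      · exact Or.inr hxN
    linarith
  let F : (Fin n → ℝ) → ℝ := fun x => ∑ v ∈ D, (E v ∩ N).indicator (fun _ => (1 : ℝ)) x
  have hF : ∀ v ∈ D, Integrable ((E v ∩ N).indicator (fun _ : Fin n → ℝ => (1 : ℝ))) μ :=
    fun v _ => (integrable_const 1).indicator ((hEm v).inter hNm)
  have hFi : Integrable F μ := integrable_finsetSum D hF
  have hFe : ∫ x, F x ∂μ = ∑ v ∈ D, μ.real (E v ∩ N) := by
    rw [integral_finsetSum D hF]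
    refine Finset.sum_congr rfl fun v _ => ?_
    rw [integral_indicator ((hEm v).inter hNm), setIntegral_const, smul_eq_mul, mul_one]
  have hlow : Real.exp (-s) / 2 * D.card ≤ ∫ x, F x ∂μ := by
    rw [hFe]
    calc Real.exp (-s) / 2 * D.card = ∑ v ∈ D, Real.exp (-s) / 2 := by
          rw [Finset.sum_const, nsmul_eq_mul]; ring
      _ ≤ _ := Finset.sum_le_sum hEN
  obtain ⟨x, hx⟩ := exists_integral_le hFi
  have hFx := hlow.trans hx
  have hD0 : (0 : ℝ) < D.card := by exact_mod_cast Finset.card_pos.2 hD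
  have hpos : 0 < F x := lt_of_lt_of_le (by positivity) hFx
  have hxN : x ∈ N := by
    by_contra hcon
    have : F x = 0 := Finset.sum_eq_zero fun v _ =>
      Set.indicator_of_notMem (fun hm => hcon hm.2) _
    linarith
  obtain ⟨I, hI, hIQ⟩ := hxN
  refine ⟨fun i => |x i|, fun i => abs_nonneg _, ⟨I, hI, hIQ⟩, ?_⟩
  have hFc : F x ≤ (({v ∈ D | ∀ i, yy v i ≤ |x i|}.card : ℕ) : ℝ) := by
    rw [Finset.card_filter, Nat.cast_sum]
    refine Finset.sum_le_sum fun v _ => ?_
    by_cases hv : ∀ i, yy v i ≤ |x i|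
    · rw [if_pos hv]
      refine Set.indicator_le_self' (fun _ _ => zero_le_one) x |>.trans ?_
      simp
    · rw [if_neg hv, Set.indicator_of_notMem (fun hm => hv hm.1)]
      simp
  exact hFx.trans hFc

end Pool.Agent.H57.SM
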