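import Pool.Agent.H57.SM.Berp
import Pool.Agent.H57.SM.Pig
import Pool.Agent.H57.SM.Zex

/-! T16: there are few good points. -/

set_option autoImplicit false

open MeasureTheory Finset Set
open scoped ENNReal

namespace Pool.Agent.H57.SM

private theorem t16_card {n : ℕ} (m : Fin n → ℤ) (r : ℕ) (hm : ∑ i, |m i| ≤ (r : ℤ)) :
    (Finset.univ.filter (fun i => m i ≠ 0)).card ≤ r := by
  have h1 : ((Finset.univ.filter (fun i => m i ≠ 0)).card : ℤ) ≤ ∑ i, |m i| := by
    rw [Finset.card_filter]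
    push_cast
    refine Finset.sum_le_sum (fun i _ => ?_)
    split_ifs with h
    · exact Int.one_le_abs h
    · exact abs_nonneg _
  exact_mod_cast h1.trans hm

private theorem t16_two_pow (m : ℕ) : (2 : ℝ) ^ m ≤ Real.exp (0.7 * m) := by
  have h2 : (2 : ℝ) ≤ Real.exp 0.7 := by
    have h3 : Real.log 2 ≤ 0.7 := by
      have := Real.log_two_lt_d9
      linarith
    calc (2 : ℝ) = Real.exp (Real.log 2) := (Real.exp_log (by norm_num)).symm
      _ ≤ _ := Real.exp_le_exp.mpr h3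
  calc (2 : ℝ) ^ m ≤ (Real.exp 0.7) ^ m := pow_le_pow_left₀ (by norm_num) h2 m
    _ = Real.exp (m * 0.7) := (Real.exp_nat_mul _ _).symm
    _ = _ := by rw [mul_comm]

private theorem t16_num {p : ℝ} (hp : 10 ≤ p) {m : ℕ} (hm : (m : ℝ) ≤ 2.8 * p + 10) :
    16 * (2 : ℝ) ^ m ≤ 3 * Real.exp (4 * p) := by
  have h1 : (16 : ℝ) ≤ 3 * Real.exp 2 := by
    have h2 : (2.7 : ℝ) ≤ Real.exp 1 := by
      have := Real.exp_one_gt_d9
      linarith
    have h3 : Real.exp 2 = Real.exp 1 * Real.exp 1 := by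
      rw [← Real.exp_add]; norm_num
    rw [h3]
    nlinarith
  calc 16 * (2 : ℝ) ^ m ≤ (3 * Real.exp 2) * Real.exp (0.7 * m) :=
        mul_le_mul h1 (t16_two_pow m) (by positivity) (by positivity)
    _ = 3 * Real.exp (2 + 0.7 * m) := by rw [Real.exp_add]; ring
    _ ≤ 3 * Real.exp (4 * p) := by
        refine mul_le_mul_of_nonneg_left (Real.exp_le_exp.mpr ?_) (by norm_num)
        linarith

theorem good_few {n : ℕ} {μ : Measure (Fin n → ℝ)} (h : Rdy μ) {V : Finset (Fin n → ℝ)}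
    (hV : V.Nonempty) (u : (Fin n → ℝ) → (Fin n → ℤ)) {p A S : ℝ} (hp : 10 ≤ p) (hA : 0 < A)
    (hS : 0 < S) (hSA : 500000 * S ≤ A) (hint : ∫ x, Sup V hV x ∂μ ≤ S)
    (hn : ∀ v ∈ V, ∑ i, |u v i| ≤ (⌊p / 5⌋₊ : ℤ))
    (hd : ∀ v ∈ V, ∀ w ∈ V, ∀ i, A / (512 * p) * |(u v i : ℝ) - u w i| ≤ |v i - w i| ∧
        0 ≤ ((u v i : ℝ) - u w i) * (v i - w i))
    (D : Finset (Fin n → ℝ)) (hD : D ⊆ V)
    (hg : ∀ v ∈ D, Good μ (4 * p) (8 * p) (4 * p / 5) V u v) :
    2 * (D.card : ℝ) < V.card := by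
  classical
  by_contra hcon
  have hcard : (V.card : ℝ) ≤ 2 * D.card := not_lt.mp hcon
  have hVpos : (0 : ℝ) < V.card := by exact_mod_cast Finset.card_pos.mpr hV
  have hDpos : (0 : ℝ) < D.card := by linarith
  have hDn : D.Nonempty := Finset.card_pos.mp (by exact_mod_cast hDpos)
  have hp0 : (0 : ℝ) < p := by linarith
  have hex : ∀ v ∈ D, ∃ y, y ∈ KK μ (4 * p) ∧
      (({w ∈ V | Mw y (u v) (u w) < 4 * p / 5}.card : ℕ) : ℝ) < Real.exp (-(8 * p)) * V.card := by
    intro v hv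
    obtain ⟨y, hy, hy2⟩ := hg v hv
    exact ⟨y, hy, hy2⟩
  choose! yy hyK hyc using hex
  obtain ⟨k, hk⟩ : ∃ k : ℕ, k = ⌈p⌉₊ + 4 := ⟨_, rfl⟩
  have hk1 : 4 * p / 4 + 4 ≤ (k : ℝ) := by
    rw [hk]; push_cast
    have := Nat.le_ceil p
    linarith
  have hk2 : (k : ℝ) ≤ p + 5 := by
    rw [hk]; push_cast
    have := Nat.ceil_lt_add_one hp0.le
    linarith
  obtain ⟨r, hr⟩ : ∃ r : ℕ, r = ⌊p / 5⌋₊ := ⟨_, rfl⟩
  have hr1 : (r : ℝ) ≤ p / 5 := by
    rw [hr]; exact Nat.floor_le (by positivity)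
  rw [← hr] at hn
  obtain ⟨z, hz0, ⟨I0, hI0, hRR⟩, hz⟩ := exists_z h hV hS hint D hDn yy hyK k hk1
  obtain ⟨D2, hD2⟩ : ∃ D2, D2 = {v ∈ D | ∀ i, yy v i ≤ z i} := ⟨_, rfl⟩
  rw [← hD2] at hz
  have hD2sub : D2 ⊆ D := by rw [hD2]; exact Finset.filter_subset _ _
  have hD2pos : (0 : ℝ) < D2.card := lt_of_lt_of_le (by positivity) hz
  have hD2n : D2.Nonempty := Finset.card_pos.mp (by exact_mod_cast hD2pos)
  obtain ⟨x, hx⟩ : ∃ x : Fin n → ℝ, x = fun i => if i ∈ I0 then 0 else z i / 20 := ⟨_, rfl⟩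
  rw [← hx] at hRR
  have hx0 : ∀ i, 0 ≤ x i := by
    intro i; rw [hx]; simp only
    split_ifs
    · exact le_rfl
    · have := hz0 i; positivity
  obtain ⟨D3, hD3sub, hD3n, hD3c, hD3⟩ := bern_pt hV hx0 hS hRR D2 (hD2sub.trans hD) hD2n u r hn
    (fun v hv w hw i => (hd v hv w hw i).2)
  obtain ⟨b, hb⟩ := hD3n
  have hD3V : D3 ⊆ V := hD3sub.trans (hD2sub.trans hD)
  obtain ⟨T, hT⟩ : ∃ T, T = I0 ∪ Finset.univ.filter (fun i => u b i ≠ 0) := ⟨_, rfl⟩
  have hTc : T.card ≤ k + r := by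
    rw [hT]
    exact (Finset.card_union_le _ _).trans (Nat.add_le_add hI0 (t16_card _ r (hn b (hD3V hb))))
  have hMr : ∀ a ∈ D3, ∑ i ∈ T, |u a i| ≤ (r : ℤ) := by
    intro a ha
    refine le_trans ?_ (hn a (hD3V ha))
    exact Finset.sum_le_sum_of_subset_of_nonneg (Finset.subset_univ _) (fun i _ _ => abs_nonneg _)
  obtain ⟨D4, hD4sub, hD4n, hD4c, hD4⟩ := pigeon T D3 ⟨b, hb⟩ u r hMr
  obtain ⟨v, hv⟩ := hD4n
  have hvD : v ∈ D := hD2sub (hD3sub (hD4sub hv))
  have hvV : v ∈ V := hD hvD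
  -- the weights are small
  have hM : ∀ w ∈ D4, Mw (yy v) (u v) (u w) < 4 * p / 5 := by
    intro w hw
    have hyz : ∀ i, yy v i ≤ z i := by
      have hv2 := hD3sub (hD4sub hv)
      rw [hD2, Finset.mem_filter] at hv2
      exact hv2.2
    have hy0 : ∀ i, 0 ≤ yy v i := (hyK v hvD).1
    have hb16 := hD3 v (hD4sub hv) b hb
    have h1 : Mw (yy v) (u v) (u w)
        ≤ ∑ i, (20 * (512 * p / A)) *
          (if u v i = 0 ↔ u b i = 0 then 0 else |v i - b i| * x i) := by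
      unfold Mw
      refine Finset.sum_le_sum (fun i _ => ?_)
      have hnn : (0 : ℝ) ≤ (20 * (512 * p / A)) *
          (if u v i = 0 ↔ u b i = 0 then 0 else |v i - b i| * x i) := by
        split_ifs
        · simp
        · have := hx0 i; positivity
      by_cases huv : u v i = u w i
      · rw [if_pos huv]; exact hnn
      rw [if_neg huv]
      have hiT : i ∉ T := fun hiT => huv (hD4 v hv w hw i hiT)
      have hiI0 : i ∉ I0 := fun hi => hiT (by rw [hT]; exact Finset.mem_union_left _ hi)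
      have hub : u b i = 0 := by
        by_contra hne
        exact hiT (by rw [hT]; exact Finset.mem_union_right _ (by simp [hne]))
      by_cases huvi : u v i = 0
      · have h00 : |((u v i : ℤ) : ℝ)| * yy v i = 0 := by rw [huvi]; simp
        rw [h00]; exact hnn
      · rw [if_neg (by simp [huvi, hub])]
        have hdi := (hd v hvV b (hD3V hb) i).1
        rw [hub] at hdi
        have hdi' : A / (512 * p) * |(u v i : ℝ)| ≤ |v i - b i| := by simpa using hdi
        have hxi : x i = z i / 20 := by rw [hx]; simp [hiI0]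
        have hz20 : z i = 20 * x i := by rw [hxi]; ring
        have hyi : yy v i ≤ 20 * x i := hz20 ▸ hyz i
        have hu' : |(u v i : ℝ)| ≤ (512 * p / A) * |v i - b i| := by
          have h5 := mul_le_mul_of_nonneg_left hdi' (by positivity : (0 : ℝ) ≤ 512 * p / A)
          calc |(u v i : ℝ)| = 512 * p / A * (A / (512 * p) * |(u v i : ℝ)|) := by
                field_simp
            _ ≤ _ := h5
        calc |(u v i : ℝ)| * yy v i ≤ ((512 * p / A) * |v i - b i|) * (20 * x i) :=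
              mul_le_mul hu' hyi (hy0 i) (by positivity)
          _ = _ := by ring
    rw [← Finset.mul_sum] at h1
    calc Mw (yy v) (u v) (u w) ≤ (20 * (512 * p / A)) * (16 * S) :=
          h1.trans (mul_le_mul_of_nonneg_left hb16 (by positivity))
      _ = 163840 * p * (S / A) := by ring
      _ ≤ 163840 * p * (1 / 500000) := by
          refine mul_le_mul_of_nonneg_left ?_ (by positivity)
          rw [div_le_div_iff₀ hA (by norm_num)]
          linarith
      _ < 4 * p / 5 := by linarith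
  have hD4V : D4 ⊆ {w ∈ V | Mw (yy v) (u v) (u w) < 4 * p / 5} := by
    intro w hw
    rw [Finset.mem_filter]
    exact ⟨hD3V (hD4sub hw), hM w hw⟩
  have hup : (D4.card : ℝ) < Real.exp (-(8 * p)) * V.card := by
    refine lt_of_le_of_lt ?_ (hyc v hvD)
    exact_mod_cast Finset.card_le_card hD4V
  -- lower bound
  obtain ⟨m, hm⟩ : ∃ m : ℕ, m = r + (r + 2 * (k + r)) := ⟨_, rfl⟩
  have hmr : (m : ℝ) ≤ 2.8 * p + 10 := by
    rw [hm]; push_cast; linarith
  have hnum := t16_num hp hmr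
  have hD3c' : (D3.card : ℝ) ≤ 2 ^ (r + 2 * (k + r)) * D4.card := by
    refine hD4c.trans (mul_le_mul_of_nonneg_right ?_ (by positivity))
    exact pow_le_pow_right₀ (by norm_num) (by omega)
  have h1 : (D2.card : ℝ) * (3 / 4) ≤ 2 ^ m * D4.card := by
    calc (D2.card : ℝ) * (3 / 4) ≤ 2 ^ r * D3.card := hD3c
      _ ≤ 2 ^ r * (2 ^ (r + 2 * (k + r)) * D4.card) :=
          mul_le_mul_of_nonneg_left hD3c' (by positivity)
      _ = 2 ^ m * D4.card := by rw [hm, pow_add 2 r (r + 2 * (k + r))]; ring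
  have h2 : 3 * Real.exp (-(4 * p)) * V.card ≤ 16 * 2 ^ m * D4.card := by
    have h3 : Real.exp (-(4 * p)) * D.card ≤ 2 * D2.card := by linarith
    have h4 : Real.exp (-(4 * p)) * V.card ≤ Real.exp (-(4 * p)) * (2 * D.card) :=
      mul_le_mul_of_nonneg_left hcard (by positivity)
    linarith
  have h5 : (16 * 2 ^ m * D4.card : ℝ) < 16 * 2 ^ m * (Real.exp (-(8 * p)) * V.card) :=
    mul_lt_mul_of_pos_left hup (by positivity)
  have h6 : 16 * 2 ^ m * (Real.exp (-(8 * p)) * V.card)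
      ≤ 3 * Real.exp (4 * p) * (Real.exp (-(8 * p)) * V.card) :=
    mul_le_mul_of_nonneg_right hnum (by positivity)
  have h7 : 3 * Real.exp (4 * p) * (Real.exp (-(8 * p)) * V.card)
      = 3 * Real.exp (-(4 * p)) * V.card := by
    have : Real.exp (-(4 * p)) = Real.exp (4 * p) * Real.exp (-(8 * p)) := by
      rw [← Real.exp_add]; congr 1; ring
    rw [this]; ring
  linarith

end Pool.Agent.H57.SM
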