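import Pool.Agent.H57.SM.Defs

set_option autoImplicit false

open MeasureTheory Finset Set
open scoped ENNReal

namespace Pool.Agent.H57.SM

/-- the shift of the rounding -/
noncomputable def t09_th (b : Bool) : ℝ := if b then 1 / 4 else 0

/-- odd rounding -/
noncomputable def t09_r (b : Bool) (w : ℝ) : ℤ :=
  if 0 ≤ w then ⌊w + t09_th b⌋ else -⌊-w + t09_th b⌋

/-- `|w|` is far from the break points of the rounding -/
def t09_good (b : Bool) (w : ℝ) : Prop :=
  ∀ m : ℤ, 1 ≤ m → 1 / 8 ≤ |(|w| - (m - t09_th b))|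

private theorem t09_th0 (b : Bool) : 0 ≤ t09_th b := by
  unfold t09_th; split_ifs <;> norm_num

private theorem t09_th1 (b : Bool) : t09_th b ≤ 1 / 4 := by
  unfold t09_th; split_ifs <;> norm_num

private theorem t09_bd (b : Bool) (w : ℝ) (hg : t09_good b w) :
    (1 ≤ t09_r b w → (t09_r b w : ℝ) - t09_th b + 1 / 8 ≤ w ∧
      w ≤ t09_r b w + 7 / 8 - t09_th b) ∧
    (t09_r b w = 0 → -(7 / 8 - t09_th b) ≤ w ∧ w ≤ 7 / 8 - t09_th b) ∧
    (t09_r b w ≤ -1 → (t09_r b w : ℝ) - 7 / 8 + t09_th b ≤ w ∧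
      w ≤ t09_r b w + t09_th b - 1 / 8) := by
  have h0 := t09_th0 b
  have h1 := t09_th1 b
  by_cases hw : 0 ≤ w
  · have hr : t09_r b w = ⌊w + t09_th b⌋ := by unfold t09_r; rw [if_pos hw]
    set u : ℤ := ⌊w + t09_th b⌋ with hu
    have hu0 : 0 ≤ u := Int.floor_nonneg.mpr (by linarith)
    have f1 : (u : ℝ) ≤ w + t09_th b := Int.floor_le _
    have f2 : w + t09_th b < u + 1 := Int.lt_floor_add_one _
    have g1 := hg (u + 1) (by linarith)
    rw [abs_of_nonneg hw] at g1
    push_cast at g1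
    have g2 : w ≤ u + 7 / 8 - t09_th b := by
      rw [abs_of_neg (by linarith)] at g1
      linarith
    rw [hr]
    refine ⟨fun h => ⟨?_, g2⟩, fun h => ?_, fun h => ?_⟩
    · have g3 := hg u h
      rw [abs_of_nonneg hw, abs_of_nonneg (by linarith)] at g3
      linarith
    · rw [h] at g2
      push_cast at g2
      constructor <;> linarith
    · exfalso; linarith
  · have hw' : w < 0 := not_le.mp hw
    have hr : t09_r b w = -⌊-w + t09_th b⌋ := by unfold t09_r; rw [if_neg hw]
    set k : ℤ := ⌊-w + t09_th b⌋ with hk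
    have hk0 : 0 ≤ k := Int.floor_nonneg.mpr (by linarith)
    have f1 : (k : ℝ) ≤ -w + t09_th b := Int.floor_le _
    have f2 : -w + t09_th b < k + 1 := Int.lt_floor_add_one _
    have g1 := hg (k + 1) (by linarith)
    rw [abs_of_neg hw'] at g1
    push_cast at g1
    have g2 : -w ≤ k + 7 / 8 - t09_th b := by
      rw [abs_of_neg (by linarith)] at g1
      linarith
    rw [hr]
    push_cast
    refine ⟨fun h => ?_, fun h => ?_, fun h => ⟨by linarith, ?_⟩⟩
    · exfalso; linarith
    · have hk1 : k = 0 := by linarith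
      rw [hk1] at g2
      push_cast at g2
      constructor <;> linarith
    · have g3 := hg k (by linarith)
      rw [abs_of_neg hw', abs_of_nonneg (by linarith)] at g3
      linarith

private theorem t09_lt (b : Bool) {w w' : ℝ} (hg : t09_good b w) (hg' : t09_good b w')
    (h : t09_r b w < t09_r b w') :
    ((t09_r b w' : ℝ) - t09_r b w) / 4 ≤ w' - w := by
  have h0 := t09_th0 b
  have h1 := t09_th1 b
  obtain ⟨a1, a2, a3⟩ := t09_bd b w hg
  obtain ⟨b1, b2, b3⟩ := t09_bd b w' hg'
  set u := t09_r b w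
  set u' := t09_r b w'
  have hd : (u : ℝ) + 1 ≤ u' := by exact_mod_cast h
  rcases lt_trichotomy u 0 with hu | hu | hu
  · have hu1 : u ≤ -1 := by omega
    have := (a3 hu1).2
    rcases lt_trichotomy u' 0 with hv | hv | hv
    · have hv1 : u' ≤ -1 := by omega
      have := (b3 hv1).1
      linarith
    · have h2 := (b2 hv).1
      have h3 : (u' : ℝ) = 0 := by exact_mod_cast hv
      rw [h3] at hd ⊢
      linarith
    · have hv1 : 1 ≤ u' := by omega
      have h2 := (b1 hv1).1
      have h3 : (1 : ℝ) ≤ u' := by exact_mod_cast hv1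
      have h4 : (u : ℝ) ≤ -1 := by exact_mod_cast hu1
      linarith
  · have h2 := (a2 hu).2
    have h3 : (u : ℝ) = 0 := by exact_mod_cast hu
    have hv1 : 1 ≤ u' := by omega
    have h4 := (b1 hv1).1
    rw [h3] at hd ⊢
    linarith
  · have hu1 : 1 ≤ u := by omega
    have hv1 : 1 ≤ u' := by omega
    have h2 := (a1 hu1).2
    have h4 := (b1 hv1).1
    linarith

private theorem t09_pair (b : Bool) {w w' : ℝ} (hg : t09_good b w) (hg' : t09_good b w') :
    |(t09_r b w : ℝ) - t09_r b w'| / 4 ≤ |w - w'| ∧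
      0 ≤ ((t09_r b w : ℝ) - t09_r b w') * (w - w') := by
  rcases lt_trichotomy (t09_r b w) (t09_r b w') with h | h | h
  · have h1 := t09_lt b hg hg' h
    have h2 : (t09_r b w : ℝ) < t09_r b w' := by exact_mod_cast h
    rw [abs_of_neg (by linarith), abs_of_neg (by linarith)]
    constructor
    · linarith
    · nlinarith
  · rw [h]; simp
  · have h1 := t09_lt b hg' hg h
    have h2 : (t09_r b w' : ℝ) < t09_r b w := by exact_mod_cast h
    rw [abs_of_pos (by linarith), abs_of_pos (by linarith)]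
    constructor
    · linarith
    · nlinarith

private theorem t09_near (b : Bool) (w : ℝ) : |w - t09_r b w| ≤ 1 := by
  have h0 := t09_th0 b
  have h1 := t09_th1 b
  by_cases hw : 0 ≤ w
  · have hr : t09_r b w = ⌊w + t09_th b⌋ := by unfold t09_r; rw [if_pos hw]
    have f1 := Int.floor_le (w + t09_th b)
    have f2 := Int.lt_floor_add_one (w + t09_th b)
    rw [hr, abs_le]
    constructor <;> linarith
  · have hr : t09_r b w = -⌊-w + t09_th b⌋ := by unfold t09_r; rw [if_neg hw]
    have f1 := Int.floor_le (-w + t09_th b)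
    have f2 := Int.lt_floor_add_one (-w + t09_th b)
    rw [hr, abs_le]
    push_cast
    constructor <;> linarith

private theorem t09_size (b : Bool) (w : ℝ) :
    |(t09_r b w : ℝ)| ≤ if 1 / 2 ≤ |w| then 4 / 3 * |w| else 0 := by
  have h0 := t09_th0 b
  have h1 := t09_th1 b
  have key : ∀ x : ℝ, 0 ≤ x → |((⌊x + t09_th b⌋ : ℤ) : ℝ)| ≤
      if 1 / 2 ≤ x then 4 / 3 * x else 0 := by
    intro x hx
    have hk0 : 0 ≤ ⌊x + t09_th b⌋ := Int.floor_nonneg.mpr (by linarith)
    have f1 := Int.floor_le (x + t09_th b)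
    rcases eq_or_lt_of_le hk0 with h | h
    · rw [← h]
      split_ifs
      · simp; exact hx
      · simp
    · have h2 : (1 : ℝ) ≤ ⌊x + t09_th b⌋ := by exact_mod_cast h
      rw [if_pos (by linarith), abs_of_pos (by linarith)]
      linarith
  by_cases hw : 0 ≤ w
  · have hr : t09_r b w = ⌊w + t09_th b⌋ := by unfold t09_r; rw [if_pos hw]
    rw [hr, abs_of_nonneg hw]
    exact key w hw
  · have hw' : w < 0 := not_le.mp hw
    have hr : t09_r b w = -⌊-w + t09_th b⌋ := by unfold t09_r; rw [if_neg hw]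
    rw [hr, abs_of_neg hw', Int.cast_neg, abs_neg]
    exact key (-w) (by linarith)

private theorem t09_small (b : Bool) {w : ℝ} (hw : |w| < 1 / 2) : t09_good b w := by
  intro m hm
  have h1 := t09_th1 b
  have h2 : (1 : ℝ) ≤ m := by exact_mod_cast hm
  rw [abs_of_neg (by linarith)]
  linarith

private theorem t09_exists (w : ℝ) : ∃ b : Bool, t09_good b w := by
  by_cases h : t09_good false w
  · exact ⟨false, h⟩
  · refine ⟨true, ?_⟩
    unfold t09_good at h
    push Not at h
    obtain ⟨m, hm, h2⟩ := h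
    have e0 : t09_th false = 0 := by simp [t09_th]
    have e1 : t09_th true = 1 / 4 := by simp [t09_th]
    rw [e0, sub_zero, abs_lt] at h2
    intro k hk
    rw [e1]
    by_cases hkm : k ≤ m
    · have h3 : (k : ℝ) ≤ m := by exact_mod_cast hkm
      rw [abs_of_pos (by linarith)]
      linarith
    · have h3 : (m : ℝ) + 1 ≤ k := by
        have : m + 1 ≤ k := by omega
        exact_mod_cast this
      rw [abs_of_neg (by linarith)]
      linarith

open Classical in
private theorem t09_count {n : ℕ} (w : Fin n → ℝ) (m : ℕ)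
    (hm : (Finset.univ.filter fun i => 1 / 2 ≤ |w i|).card ≤ m) :
    (2 : ℝ) ^ n ≤ 2 ^ m *
      ((Finset.univ.filter fun θ : Fin n → Bool => ∀ i, t09_good (θ i) (w i)).card : ℕ) := by
  classical
  set L : Finset (Fin n) := Finset.univ.filter fun i => 1 / 2 ≤ |w i| with hL
  choose b hb using fun i => t09_exists (w i)
  let S : Finset (Fin n → Bool) :=
    Fintype.piFinset fun i => if i ∈ L then {b i} else Finset.univ
  have hS : S ⊆ Finset.univ.filter fun θ : Fin n → Bool => ∀ i, t09_good (θ i) (w i) := by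
    intro θ hθ
    rw [Finset.mem_filter]
    refine ⟨Finset.mem_univ _, fun i => ?_⟩
    have h1 := (Fintype.mem_piFinset.mp hθ) i
    by_cases hi : i ∈ L
    · rw [if_pos hi, Finset.mem_singleton] at h1
      rw [h1]; exact hb i
    · have h2 : |w i| < 1 / 2 := by
        by_contra hc
        exact hi (Finset.mem_filter.mpr ⟨Finset.mem_univ _, not_lt.mp hc⟩)
      exact t09_small _ h2
  have hcard : (2 : ℝ) ^ L.card * (S.card : ℝ) = 2 ^ n := by
    have h1 : (S.card : ℝ) = ∏ i : Fin n, (if i ∈ L then (1 : ℝ) else 2) := by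
      have : S.card = ∏ i : Fin n, (if i ∈ L then 1 else 2) := by
        rw [Fintype.card_piFinset]
        refine Finset.prod_congr rfl fun i _ => ?_
        by_cases hi : i ∈ L
        · simp [hi]
        · simp [hi]
      rw [this]
      push_cast
      rfl
    have h2 : (2 : ℝ) ^ L.card = ∏ i : Fin n, (if i ∈ L then (2 : ℝ) else 1) := by
      rw [Finset.prod_ite_mem, Finset.univ_inter, Finset.prod_const]
    rw [h1, h2, ← Finset.prod_mul_distrib]
    have h3 : ∀ i : Fin n, (if i ∈ L then (2 : ℝ) else 1) * (if i ∈ L then (1 : ℝ) else 2) = 2 := by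
      intro i; split_ifs <;> norm_num
    simp_rw [h3]
    simp
  calc (2 : ℝ) ^ n = 2 ^ L.card * (S.card : ℝ) := hcard.symm
    _ ≤ 2 ^ m * ((Finset.univ.filter fun θ : Fin n → Bool =>
          ∀ i, t09_good (θ i) (w i)).card : ℕ) := by
        refine mul_le_mul ?_ ?_ (Nat.cast_nonneg _) (by positivity)
        · exact pow_le_pow_right₀ (by norm_num) hm
        · exact_mod_cast Finset.card_le_card hS

theorem round_ex {n : ℕ} {μ : Measure (Fin n → ℝ)} (V : Finset (Fin n → ℝ)) (hV : V.Nonempty)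
    (c : Fin n → ℝ) {p A ρ : ℝ} (hp : 10 ≤ p) (hA : 0 < A) (hρ : 0 < ρ) (hρA : 10000 * ρ ≤ A)
    (htail : ∀ y ∈ KK μ (4 * p), ∑ i, y i ≤ 8 * p)
    (hc : ∀ v ∈ V, ∑ i, phi (p / ρ * (v i - c i)) ≤ p)
    (hsep : ∀ v ∈ V, ∀ w ∈ V, v ≠ w → ∃ y ∈ KK μ (4 * p), A / 4 ≤ ∑ i, |v i - w i| * y i) :
    ∃ V' ⊆ V, ∃ u : (Fin n → ℝ) → (Fin n → ℤ),
      (V.card : ℝ) ≤ 2 ^ ⌊p / 5⌋₊ * V'.card ∧
      (∀ v ∈ V', ∑ i, |u v i| ≤ (⌊p / 5⌋₊ : ℤ)) ∧
      (∀ v ∈ V', ∀ w ∈ V', ∀ i, A / (512 * p) * |(u v i : ℝ) - u w i| ≤ |v i - w i| ∧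
        0 ≤ ((u v i : ℝ) - u w i) * (v i - w i)) ∧
      (∀ v ∈ V', ∀ w ∈ V', v ≠ w →
        ∃ y ∈ KK μ (4 * p), 16 * p ≤ ∑ i, |(u v i : ℝ) - u w i| * y i) := by
  classical
  have hp0 : 0 < p := by linarith
  set m : ℕ := ⌊p / 5⌋₊ with hm
  have hm1 : p / 10 ≤ (m : ℝ) := by
    have := Nat.lt_floor_add_one (p / 5)
    rw [← hm] at this
    linarith
  let g : ℝ := A / (128 * p)
  have hg : 0 < g := by positivity
  let W : (Fin n → ℝ) → Fin n → ℝ := fun v i => (v i - c i) / g
  have hvW : ∀ v w : Fin n → ℝ, ∀ i, v i - w i = g * (W v i - W w i) := by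
    intro v w i
    simp only [W]
    field_simp
    ring
  let L : (Fin n → ℝ) → Finset (Fin n) := fun v => Finset.univ.filter fun i => 1 / 2 ≤ |W v i|
  have hLsum : ∀ v ∈ V, ∑ i ∈ L v, |W v i| ≤ 256 / 10000 * p := by
    intro v hv
    have h1 : ∀ i ∈ L v, A / (128 * ρ) * |W v i| ≤ 2 * phi (p / ρ * (v i - c i)) := by
      intro i hi
      have hi2 : 1 / 2 ≤ |W v i| := (Finset.mem_filter.mp hi).2
      have e1 : |p / ρ * (v i - c i)| = A / (128 * ρ) * |W v i| := by
        have : p / ρ * (v i - c i) = A / (128 * ρ) * W v i := by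
          simp only [W, g]
          field_simp
        rw [this, abs_mul, abs_of_pos (by positivity)]
      have e2 : (1 : ℝ) ≤ A / (128 * ρ) * |W v i| := by
        have : (2 : ℝ) ≤ A / (128 * ρ) := by
          rw [le_div_iff₀ (by positivity)]
          linarith
        nlinarith
      set x : ℝ := A / (128 * ρ) * |W v i| with hx
      unfold phi
      rw [← sq_abs (p / ρ * (v i - c i)), e1]
      have : x / 2 ≤ x ^ 2 / (1 + x) := by
        rw [div_le_div_iff₀ (by norm_num) (by linarith)]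
        nlinarith
      linarith
    have h2 : A / (128 * ρ) * ∑ i ∈ L v, |W v i| ≤ 2 * p := by
      calc A / (128 * ρ) * ∑ i ∈ L v, |W v i| = ∑ i ∈ L v, A / (128 * ρ) * |W v i| := by
            rw [Finset.mul_sum]
        _ ≤ ∑ i ∈ L v, 2 * phi (p / ρ * (v i - c i)) := Finset.sum_le_sum h1
        _ = 2 * ∑ i ∈ L v, phi (p / ρ * (v i - c i)) := by rw [Finset.mul_sum]
        _ ≤ 2 * ∑ i, phi (p / ρ * (v i - c i)) := by
            refine mul_le_mul_of_nonneg_left ?_ (by norm_num)
            refine Finset.sum_le_sum_of_subset_of_nonneg (Finset.subset_univ _) fun i _ _ => ?_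
            unfold phi
            have := abs_nonneg (p / ρ * (v i - c i))
            positivity
        _ ≤ 2 * p := by have := hc v hv; linarith
    have h3 : 10000 / 128 ≤ A / (128 * ρ) := by
      rw [div_le_div_iff₀ (by norm_num) (by positivity)]
      nlinarith
    have h4 : 0 ≤ ∑ i ∈ L v, |W v i| := Finset.sum_nonneg fun i _ => abs_nonneg _
    have h5 : 10000 / 128 * ∑ i ∈ L v, |W v i| ≤ 2 * p :=
      (mul_le_mul_of_nonneg_right h3 h4).trans h2
    linarith
  have hLcard : ∀ v ∈ V, (L v).card ≤ m := by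
    intro v hv
    have h1 : ((L v).card : ℝ) * (1 / 2) ≤ ∑ i ∈ L v, |W v i| := by
      have := Finset.card_nsmul_le_sum (L v) (fun i => |W v i|) (1 / 2)
        fun i hi => (Finset.mem_filter.mp hi).2
      simpa [nsmul_eq_mul] using this
    have h2 := hLsum v hv
    have : ((L v).card : ℝ) ≤ m := by linarith
    exact_mod_cast this
  -- averaging over the shifts
  obtain ⟨θ, hθ⟩ : ∃ θ : Fin n → Bool, (V.card : ℝ) ≤
      2 ^ m * ((V.filter fun v => ∀ i, t09_good (θ i) (W v i)).card : ℕ) := by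
    have hsum : ∑ _θ : Fin n → Bool, (V.card : ℝ) ≤ ∑ θ : Fin n → Bool,
        2 ^ m * (((V.filter fun v => ∀ i, t09_good (θ i) (W v i)).card : ℕ) : ℝ) := by
      have e1 : ∑ θ : Fin n → Bool,
          2 ^ m * (((V.filter fun v => ∀ i, t09_good (θ i) (W v i)).card : ℕ) : ℝ) =
          ∑ v ∈ V, 2 ^ m * (((Finset.univ.filter fun θ : Fin n → Bool =>
            ∀ i, t09_good (θ i) (W v i)).card : ℕ) : ℝ) := by
        simp_rw [Finset.card_filter]
        push_cast
        simp_rw [Finset.mul_sum]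
        exact Finset.sum_comm
      rw [e1, Finset.sum_const, Finset.card_univ]
      have e2 : (Fintype.card (Fin n → Bool) : ℝ) = 2 ^ n := by
        simp
      rw [nsmul_eq_mul, e2]
      calc (2 : ℝ) ^ n * V.card = ∑ _v ∈ V, (2 : ℝ) ^ n := by
            rw [Finset.sum_const, nsmul_eq_mul, mul_comm]
        _ ≤ _ := Finset.sum_le_sum fun v hv => t09_count (W v) m (hLcard v hv)
    obtain ⟨θ, _, h⟩ := Finset.exists_le_of_sum_le Finset.univ_nonempty hsum
    exact ⟨θ, h⟩
  refine ⟨V.filter fun v => ∀ i, t09_good (θ i) (W v i), Finset.filter_subset _ _,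
    fun v i => t09_r (θ i) (W v i), hθ, ?_, ?_, ?_⟩
  · intro v hv
    have hvV := (Finset.mem_filter.mp hv).1
    have h1 : ∑ i, |(t09_r (θ i) (W v i) : ℝ)| ≤ m := by
      calc ∑ i, |(t09_r (θ i) (W v i) : ℝ)|
          ≤ ∑ i, (if 1 / 2 ≤ |W v i| then 4 / 3 * |W v i| else 0) :=
            Finset.sum_le_sum fun i _ => t09_size (θ i) (W v i)
        _ = 4 / 3 * ∑ i ∈ L v, |W v i| := by
            rw [← Finset.sum_filter, Finset.mul_sum]
        _ ≤ m := by
            have := hLsum v hvV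
            linarith
    have h2 : ((∑ i, |t09_r (θ i) (W v i)| : ℤ) : ℝ) ≤ ((m : ℤ) : ℝ) := by
      push_cast
      exact h1
    exact_mod_cast h2
  · intro v hv w hw i
    have h1 := (Finset.mem_filter.mp hv).2 i
    have h2 := (Finset.mem_filter.mp hw).2 i
    obtain ⟨h3, h4⟩ := t09_pair (θ i) h1 h2
    rw [hvW v w i]
    constructor
    · rw [abs_mul, abs_of_pos hg]
      have e1 : A / (512 * p) * |(t09_r (θ i) (W v i) : ℝ) - t09_r (θ i) (W w i)| =
          g * (|(t09_r (θ i) (W v i) : ℝ) - t09_r (θ i) (W w i)| / 4) := by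
        simp only [g]
        field_simp
        ring
      rw [e1]
      exact mul_le_mul_of_nonneg_left h3 hg.le
    · have e1 : ((t09_r (θ i) (W v i) : ℝ) - t09_r (θ i) (W w i)) * (g * (W v i - W w i)) =
          g * (((t09_r (θ i) (W v i) : ℝ) - t09_r (θ i) (W w i)) * (W v i - W w i)) := by ring
      rw [e1]
      exact mul_nonneg hg.le h4
  · intro v hv w hw hvw
    obtain ⟨y, hy, hy2⟩ := hsep v (Finset.mem_filter.mp hv).1 w (Finset.mem_filter.mp hw).1 hvw
    refine ⟨y, hy, ?_⟩
    have h8 := htail y hy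
    have hy0 := hy.1
    have h1 : ∑ i, |v i - w i| * y i ≤
        g * (∑ i, |(t09_r (θ i) (W v i) : ℝ) - t09_r (θ i) (W w i)| * y i + 2 * ∑ i, y i) := by
      have e2 : (2 : ℝ) * ∑ i, y i = ∑ i, 2 * y i := Finset.mul_sum _ _ _
      rw [e2, ← Finset.sum_add_distrib, Finset.mul_sum]
      refine Finset.sum_le_sum fun i _ => ?_
      rw [hvW v w i, abs_mul, abs_of_pos hg]
      have a1 := t09_near (θ i) (W v i)
      have a2 := t09_near (θ i) (W w i)
      have a3 : |W v i - W w i| ≤
          |(t09_r (θ i) (W v i) : ℝ) - t09_r (θ i) (W w i)| + 2 := by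
        have e : W v i - W w i = (W v i - t09_r (θ i) (W v i)) +
            (((t09_r (θ i) (W v i) : ℝ) - t09_r (θ i) (W w i)) -
              (W w i - t09_r (θ i) (W w i))) := by ring
        rw [e]
        have b1 := abs_add_le (W v i - t09_r (θ i) (W v i))
          (((t09_r (θ i) (W v i) : ℝ) - t09_r (θ i) (W w i)) - (W w i - t09_r (θ i) (W w i)))
        have b2 := abs_sub ((t09_r (θ i) (W v i) : ℝ) - t09_r (θ i) (W w i))
          (W w i - t09_r (θ i) (W w i))
        linarith
      have := hy0 i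
      calc g * |W v i - W w i| * y i ≤
          g * (|(t09_r (θ i) (W v i) : ℝ) - t09_r (θ i) (W w i)| + 2) * y i := by gcongr
        _ = _ := by ring
    have h2 : A / 4 ≤ g * (∑ i, |(t09_r (θ i) (W v i) : ℝ) - t09_r (θ i) (W w i)| * y i +
        16 * p) := by
      refine (hy2.trans h1).trans (mul_le_mul_of_nonneg_left ?_ hg.le)
      linarith
    have h3 : A / 4 = g * (32 * p) := by
      simp only [g]
      field_simp
      ring
    rw [h3] at h2
    have h4 := le_of_mul_le_mul_left h2 hg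
    linarith

end Pool.Agent.H57.SM
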