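import Pool.Agent.H57.SM.Cosh

/-!
# T06: vectors with small coordinates
-/

set_option autoImplicit false

open MeasureTheory Finset Set
open scoped ENNReal

namespace Pool.Agent.H57.SM

private lemma t06_inv_le {x : ℝ} (h0 : 0 ≤ x) (h1 : x ≤ 1 / 2) :
    (1 - x)⁻¹ ≤ Real.exp (2 * x) := by
  have hpos : 0 < 1 - x := by linarith
  have h2 : 1 ≤ (1 - x) * (1 + 2 * x) := by nlinarith
  have h3 : 1 + 2 * x ≤ Real.exp (2 * x) := by
    have := Real.add_one_le_exp (2 * x)
    linarith
  rw [inv_le_iff_one_le_mul₀ hpos]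
  nlinarith

private lemma t06_pow {p lam : ℝ} (hp : 1 ≤ p) (hl : 0 < lam) (y : ℝ) :
    |y| ^ p ≤ 2 * (p / lam * Real.exp (-1)) ^ p * Real.cosh (lam * y) := by
  have hp0 : 0 < p := by linarith
  have h1 : |y| ≤ p / lam * Real.exp (-1) * Real.exp (lam * |y| / p) := by
    have h2 := Real.add_one_le_exp (lam * |y| / p - 1)
    have h3 : lam * |y| / p ≤ Real.exp (lam * |y| / p - 1) := by linarith
    have h4 : |y| = p / lam * (lam * |y| / p) := by field_simp
    rw [mul_assoc, ← Real.exp_add]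
    calc |y| = p / lam * (lam * |y| / p) := h4
      _ ≤ p / lam * Real.exp (-1 + lam * |y| / p) := by
        rw [show -1 + lam * |y| / p = lam * |y| / p - 1 by ring]
        exact mul_le_mul_of_nonneg_left h3 (by positivity)
  have h5 : |y| ^ p ≤ (p / lam * Real.exp (-1) * Real.exp (lam * |y| / p)) ^ p :=
    Real.rpow_le_rpow (abs_nonneg _) h1 hp0.le
  rw [Real.mul_rpow (by positivity) (by positivity), ← Real.exp_mul] at h5
  rw [div_mul_cancel₀ _ hp0.ne'] at h5
  have h6 : Real.exp (lam * |y|) ≤ 2 * Real.cosh (lam * y) := by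
    have : Real.cosh (lam * y) = Real.cosh (lam * |y|) := by
      rw [← Real.cosh_abs (lam * y), abs_mul, abs_of_pos hl]
    rw [this, Real.cosh_eq]
    have := Real.exp_pos (-(lam * |y|))
    linarith
  have h7 : 0 ≤ (p / lam * Real.exp (-1)) ^ p := by positivity
  nlinarith

theorem far {n : ℕ} {μ : Measure (Fin n → ℝ)} (h : Rdy μ) {p A : ℝ} (hp : 1 ≤ p) (hA : 0 < A)
    (t : Fin n → ℝ) (ht : ∀ i, 25 * p * |t i| ≤ A) (ht2 : 512 * p * ∑ i, t i ^ 2 ≤ A ^ 2) :
    nrm μ p t ≤ ENNReal.ofReal (A / 4) := by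
  have := h.prob
  have hp0 : 0 < p := by linarith
  set lam : ℝ := 8 * p / A with hlam
  have hl : 0 < lam := by positivity
  have hlt : ∀ i, |lam * t i| ≤ 8 / 25 := by
    intro i
    rw [abs_mul, abs_of_pos hl, hlam, div_mul_eq_mul_div, div_le_iff₀ hA]
    nlinarith [ht i]
  have hsq : ∀ i, 4 * (lam * t i) ^ 2 ≤ 1 / 2 := by
    intro i
    have h1 := hlt i
    have : (lam * t i) ^ 2 = |lam * t i| ^ 2 := (sq_abs _).symm
    rw [this]
    nlinarith [abs_nonneg (lam * t i)]
  have hc := cosh_bd h (fun i => lam * t i) (fun i => lt_of_le_of_lt (hlt i) (by norm_num))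
  have hprod : ∏ i, (1 - 4 * (lam * t i) ^ 2)⁻¹ ≤ Real.exp p := by
    calc ∏ i, (1 - 4 * (lam * t i) ^ 2)⁻¹ ≤ ∏ i, Real.exp (2 * (4 * (lam * t i) ^ 2)) := by
          refine Finset.prod_le_prod (fun i _ => inv_nonneg.2 (by linarith [hsq i])) fun i _ => ?_
          exact t06_inv_le (by positivity) (hsq i)
      _ = Real.exp (∑ i, 2 * (4 * (lam * t i) ^ 2)) := (Real.exp_sum _ _).symm
      _ ≤ Real.exp p := by
          refine Real.exp_le_exp.2 ?_
          have e : ∑ i, 2 * (4 * (lam * t i) ^ 2) = 8 * lam ^ 2 * ∑ i, t i ^ 2 := by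
            rw [Finset.mul_sum]
            refine Finset.sum_congr rfl fun i _ => ?_
            ring
          rw [e, hlam, div_pow, mul_div_assoc', div_mul_eq_mul_div, div_le_iff₀ (by positivity)]
          nlinarith
  have hp1 : ENNReal.ofReal p ≠ 0 := by
    rw [Ne, ENNReal.ofReal_eq_zero, not_le]
    exact hp0
  unfold nrm
  rw [eLpNorm_eq_lintegral_rpow_enorm_toReal hp1 ENNReal.ofReal_ne_top, ENNReal.toReal_ofReal hp0.le]
  have hint : ∫⁻ x, ‖∑ i, t i * x i‖ₑ ^ p ∂μ ≤ ENNReal.ofReal (A / 4) ^ p := by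
    calc ∫⁻ x, ‖∑ i, t i * x i‖ₑ ^ p ∂μ
        ≤ ∫⁻ x, ENNReal.ofReal (2 * (p / lam * Real.exp (-1)) ^ p) *
            ENNReal.ofReal (Real.cosh (∑ i, lam * t i * x i)) ∂μ := by
          refine lintegral_mono fun x => ?_
          rw [← ENNReal.ofReal_mul (by positivity), ← ofReal_norm,
            ENNReal.ofReal_rpow_of_nonneg (norm_nonneg _) hp0.le, Real.norm_eq_abs]
          refine ENNReal.ofReal_le_ofReal ?_
          have := t06_pow hp hl (∑ i, t i * x i)
          rw [Finset.mul_sum] at this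
          simp_rw [← mul_assoc] at this
          simpa [mul_assoc] using this
      _ = ENNReal.ofReal (2 * (p / lam * Real.exp (-1)) ^ p) *
            ∫⁻ x, ENNReal.ofReal (Real.cosh (∑ i, lam * t i * x i)) ∂μ := by
          rw [lintegral_const_mul]
          exact ENNReal.measurable_ofReal.comp (Real.continuous_cosh.measurable.comp (by fun_prop))
      _ ≤ ENNReal.ofReal (2 * (p / lam * Real.exp (-1)) ^ p) * ENNReal.ofReal (Real.exp p) := by
          gcongr
          exact hc.trans (ENNReal.ofReal_le_ofReal hprod)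
      _ = ENNReal.ofReal (2 * (A / 8) ^ p) := by
          rw [← ENNReal.ofReal_mul (by positivity)]
          congr 1
          have e1 : p / lam = A / 8 := by
            rw [hlam]
            field_simp
          have e2 : Real.exp p = (Real.exp 1) ^ p := by
            rw [← Real.exp_mul, one_mul]
          rw [e1, e2, mul_assoc, ← Real.mul_rpow (by positivity) (by positivity), mul_assoc,
            ← Real.exp_add]
          norm_num
      _ ≤ ENNReal.ofReal (A / 4) ^ p := by
          rw [ENNReal.ofReal_rpow_of_nonneg (by positivity) hp0.le]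
          refine ENNReal.ofReal_le_ofReal ?_
          have e3 : A / 4 = 2 * (A / 8) := by ring
          rw [e3, Real.mul_rpow (by norm_num) (by positivity)]
          have h2 : (2 : ℝ) ≤ 2 ^ p := by
            calc (2 : ℝ) = 2 ^ (1 : ℝ) := (Real.rpow_one 2).symm
              _ ≤ 2 ^ p := Real.rpow_le_rpow_of_exponent_le (by norm_num) hp
          exact mul_le_mul_of_nonneg_right h2 (by positivity)
  calc (∫⁻ x, ‖∑ i, t i * x i‖ₑ ^ p ∂μ) ^ (1 / p) ≤ (ENNReal.ofReal (A / 4) ^ p) ^ (1 / p) :=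
        ENNReal.rpow_le_rpow hint (by positivity)
    _ = ENNReal.ofReal (A / 4) := by
        rw [← ENNReal.rpow_mul, mul_one_div_cancel hp0.ne', ENNReal.rpow_one]

end Pool.Agent.H57.SM
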