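import Pool.Agent.H57.SM.Defs

set_option autoImplicit false

open MeasureTheory Finset Set
open scoped ENNReal

namespace Pool.Agent.H57.SM

/-- sums of products over functions `ι → ℕ` -/
private theorem t07_tsum_pi {ι : Type*} [Fintype ι] [DecidableEq ι] (a : ι → ℕ → ℝ≥0∞) :
    ∑' k : ι → ℕ, ∏ i, a i (k i) ≤ ∏ i, ∑' j, a i j := by
  classical
  rw [ENNReal.tsum_eq_iSup_sum]
  refine iSup_le fun s => ?_
  let N : ℕ := (s.sup fun k => Finset.univ.sup k) + 1
  have hs : s ⊆ Fintype.piFinset (fun _ : ι => Finset.range N) := by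
    intro k hk
    rw [Fintype.mem_piFinset]
    intro i
    rw [Finset.mem_range]
    have h1 : k i ≤ Finset.univ.sup k := Finset.le_sup (f := k) (Finset.mem_univ i)
    have h2 : Finset.univ.sup k ≤ s.sup fun k => Finset.univ.sup k :=
      Finset.le_sup (f := fun k : ι → ℕ => Finset.univ.sup k) hk
    exact Nat.lt_succ_of_le (h1.trans h2)
  calc ∑ k ∈ s, ∏ i, a i (k i)
      ≤ ∑ k ∈ Fintype.piFinset (fun _ : ι => Finset.range N), ∏ i, a i (k i) :=
        Finset.sum_le_sum_of_subset hs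
    _ = ∏ i : ι, ∑ j ∈ Finset.range N, a i j :=
        (Finset.prod_univ_sum (fun _ : ι => Finset.range N) a).symm
    _ ≤ ∏ i : ι, ∑' j, a i j := Finset.prod_le_prod' fun i _ => ENNReal.sum_le_tsum _

private theorem t07_G0 {n : ℕ} {μ : Measure (Fin n → ℝ)} (h : Rdy μ) :
    G μ (fun _ => 0) = 1 := by
  have := h.prob
  have : {x : Fin n → ℝ | ∀ i, (0 : ℝ) ≤ |x i|} = Set.univ := by
    ext x; simp
  rw [G, this]
  simp

private theorem t07_G_nonneg {n : ℕ} (μ : Measure (Fin n → ℝ)) (y : Fin n → ℝ) :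
    0 ≤ G μ y := measureReal_nonneg

/-- the orthant tail at a point with large `Σ |t_i| y_i` -/
private theorem t07_G {n : ℕ} {μ : Measure (Fin n → ℝ)} (h : Rdy μ) {p A : ℝ} (hp : 0 < p)
    (hA : 0 < A) (t : Fin n → ℝ) (hy : ∀ y ∈ KK μ (4 * p), ∑ i, |t i| * y i < A / 4)
    (y : Fin n → ℝ) (y0 : ∀ i, 0 ≤ y i) (hM : A / 4 ≤ ∑ i, |t i| * y i) :
    G μ y ≤ Real.exp (-(16 * p * (∑ i, |t i| * y i) / A)) := by
  set m : ℝ := ∑ i, |t i| * y i with hm
  have hm0 : 0 < m := lt_of_lt_of_le (by linarith) hM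
  set l : ℝ := 4 * m / A with hl
  have hl1 : 1 ≤ l := by
    rw [hl, le_div_iff₀ hA]; linarith
  have hl0 : 0 < l := by linarith
  have hlt : G μ (fun i => y i / l) < Real.exp (-(4 * p)) := by
    by_contra hcon
    have hmem : (fun i => y i / l) ∈ KK μ (4 * p) :=
      ⟨fun i => div_nonneg (y0 i) hl0.le, not_lt.mp hcon⟩
    have h1 := hy _ hmem
    have h2 : ∑ i, |t i| * (y i / l) = m / l := by
      rw [hm, Finset.sum_div]
      exact Finset.sum_congr rfl fun i _ => by ring
    rw [h2] at h1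
    have h3 : m / l = A / 4 := by
      rw [hl]; field_simp
    linarith
  rcases eq_or_lt_of_le hl1 with h1 | h1
  · have hyy : (fun i => y i / l) = y := by
      funext i; rw [← h1, div_one]
    rw [hyy] at hlt
    refine hlt.le.trans (le_of_eq ?_)
    congr 1
    have : 4 * m = A := by
      have := h1.symm
      rw [hl, div_eq_one_iff_eq hA.ne'] at this
      exact this
    rw [← this]
    field_simp
    ring
  · have ha : 0 < 1 / l := by positivity
    have hb : 0 < 1 - 1 / l := by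
      rw [sub_pos, div_lt_one hl0]; exact h1
    have hc := h.conc y (fun _ => 0) y0 (fun _ => le_refl _) (1 / l) (1 - 1 / l) ha hb (by ring)
    rw [t07_G0 h, Real.one_rpow, mul_one] at hc
    have he : (fun i => 1 / l * y i + (1 - 1 / l) * 0) = fun i => y i / l := by
      funext i; ring
    rw [he] at hc
    have hlt2 : G μ y ^ (1 / l) < Real.exp (-(4 * p)) := lt_of_le_of_lt hc hlt
    have h3 : (G μ y ^ (1 / l)) ^ l ≤ (Real.exp (-(4 * p))) ^ l :=
      Real.rpow_le_rpow (Real.rpow_nonneg (t07_G_nonneg μ y) _) hlt2.le hl0.le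
    rw [← Real.rpow_mul (t07_G_nonneg μ y), one_div_mul_cancel hl0.ne', Real.rpow_one,
      ← Real.exp_mul] at h3
    refine h3.trans (le_of_eq ?_)
    congr 1
    rw [hl]
    field_simp
    ring

private theorem t07_G2 {n : ℕ} {μ : Measure (Fin n → ℝ)} (h : Rdy μ) {p A : ℝ} (hp : 0 < p)
    (hA : 0 < A) (t : Fin n → ℝ) (hy : ∀ y ∈ KK μ (4 * p), ∑ i, |t i| * y i < A / 4)
    (y : Fin n → ℝ) (y0 : ∀ i, 0 ≤ y i) (hM : A / 4 ≤ ∑ i, |t i| * y i) :
    (∑ i, |t i| * y i) ^ p * G μ y ≤
      ((A / 4) ^ p * Real.exp (-(2 * p))) * ∏ i, Real.exp (-(y i / 4)) := by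
  set m : ℝ := ∑ i, |t i| * y i with hm
  have hm0 : 0 < m := lt_of_lt_of_le (by linarith) hM
  have h1 := t07_G h hp hA t hy y y0 hM
  have h2 := h.tail y y0
  rw [← hm] at h1
  have hG0 := t07_G_nonneg μ y
  -- geometric mean
  have h3 : G μ y ≤ Real.exp (-(8 * p * m / A)) * Real.exp (-((∑ i, y i) / 4)) := by
    have hsq : G μ y ^ 2 ≤ (Real.exp (-(8 * p * m / A)) * Real.exp (-((∑ i, y i) / 4))) ^ 2 := by
      have e1 : (Real.exp (-(8 * p * m / A)) * Real.exp (-((∑ i, y i) / 4))) ^ 2 =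
          Real.exp (-(16 * p * m / A)) * Real.exp (-(∑ i, y i) / 2) := by
        rw [← Real.exp_add, ← Real.exp_add, ← Real.exp_nat_mul]
        congr 1
        push_cast
        ring
      rw [e1, sq]
      exact mul_le_mul h1 h2 hG0 (Real.exp_pos _).le
    exact le_of_sq_le_sq hsq (by positivity)
  have h4 : m ^ p * Real.exp (-(8 * p * m / A)) ≤ (A / 4) ^ p * Real.exp (-(2 * p)) := by
    set s : ℝ := 4 * m / A with hs
    have hs1 : 1 ≤ s := by
      rw [hs, le_div_iff₀ hA]; linarith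
    have hms : m = A / 4 * s := by
      rw [hs]; field_simp
    have e1 : 8 * p * m / A = 2 * p * s := by
      rw [hs]; field_simp; ring
    have hA4 : (0 : ℝ) ≤ A / 4 := by linarith
    rw [e1, hms, Real.mul_rpow hA4 (by linarith), mul_assoc]
    refine mul_le_mul_of_nonneg_left ?_ (Real.rpow_nonneg hA4 _)
    have e2 : s ≤ Real.exp (s - 1) := by
      have := Real.add_one_le_exp (s - 1)
      linarith
    have e3 : s ^ p ≤ Real.exp (p * (s - 1)) := by
      have := Real.rpow_le_rpow (by linarith) e2 hp.le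
      rwa [← Real.exp_mul, mul_comm (s - 1) p] at this
    calc s ^ p * Real.exp (-(2 * p * s))
        ≤ Real.exp (p * (s - 1)) * Real.exp (-(2 * p * s)) :=
          mul_le_mul_of_nonneg_right e3 (Real.exp_pos _).le
      _ = Real.exp (p * (s - 1) + -(2 * p * s)) := (Real.exp_add _ _).symm
      _ ≤ Real.exp (-(2 * p)) := by
          apply Real.exp_le_exp.mpr
          nlinarith
  have h5 : Real.exp (-((∑ i, y i) / 4)) = ∏ i, Real.exp (-(y i / 4)) := by
    rw [← Real.exp_sum, Finset.sum_neg_distrib, Finset.sum_div]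
  calc m ^ p * G μ y
      ≤ m ^ p * (Real.exp (-(8 * p * m / A)) * Real.exp (-((∑ i, y i) / 4))) :=
        mul_le_mul_of_nonneg_left h3 (Real.rpow_nonneg hm0.le _)
    _ = (m ^ p * Real.exp (-(8 * p * m / A))) * Real.exp (-((∑ i, y i) / 4)) := by ring
    _ ≤ ((A / 4) ^ p * Real.exp (-(2 * p))) * Real.exp (-((∑ i, y i) / 4)) :=
        mul_le_mul_of_nonneg_right h4 (Real.exp_pos _).le
    _ = _ := by rw [h5]

private theorem t07_geo : ∑' j : ℕ, ENNReal.ofReal (Real.exp (-((j : ℝ) / 4))) ≤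
    ENNReal.ofReal (Real.exp 2) := by
  set q : ℝ := Real.exp (-(1 / 4)) with hq
  have hq0 : 0 ≤ q := (Real.exp_pos _).le
  have hq1 : q ≤ 4 / 5 := by
    have h1 : (5 : ℝ) / 4 ≤ Real.exp (1 / 4) := by
      have := Real.add_one_le_exp (1 / 4 : ℝ)
      linarith
    rw [hq, Real.exp_neg]
    calc (Real.exp (1 / 4))⁻¹ ≤ (5 / 4 : ℝ)⁻¹ := inv_anti₀ (by norm_num) h1
      _ = 4 / 5 := by norm_num
  have hterm : ∀ j : ℕ, Real.exp (-((j : ℝ) / 4)) = q ^ j := by
    intro j
    rw [hq, ← Real.exp_nat_mul]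
    congr 1
    ring
  have hsum : Summable fun j : ℕ => q ^ j := summable_geometric_of_lt_one hq0 (by linarith)
  have h2 : ∑' j : ℕ, ENNReal.ofReal (Real.exp (-((j : ℝ) / 4))) =
      ENNReal.ofReal (∑' j : ℕ, q ^ j) := by
    rw [ENNReal.ofReal_tsum_of_nonneg (fun j => pow_nonneg hq0 j) hsum]
    exact tsum_congr fun j => by rw [hterm j]
  rw [h2, tsum_geometric_of_lt_one hq0 (by linarith)]
  apply ENNReal.ofReal_le_ofReal
  have h3 : (1 - q)⁻¹ ≤ 5 := by
    have : (1 / 5 : ℝ) ≤ 1 - q := by linarith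
    calc (1 - q)⁻¹ ≤ (1 / 5 : ℝ)⁻¹ := inv_anti₀ (by norm_num) this
      _ = 5 := by norm_num
  have h4 : (5 : ℝ) ≤ Real.exp 2 := by
    have h5 : (2.7 : ℝ) < Real.exp 1 := by
      have := Real.exp_one_gt_d9
      linarith
    have h6 : Real.exp 2 = Real.exp 1 * Real.exp 1 := by
      rw [← Real.exp_add]; norm_num
    rw [h6]
    nlinarith
  linarith

theorem near {n : ℕ} {μ : Measure (Fin n → ℝ)} (h : Rdy μ) {p A : ℝ} (hp : 10 ≤ p) (hA : 0 < A)
    (t : Fin n → ℝ) (I : Finset (Fin n)) (hI : ∀ i, i ∉ I → t i = 0) (hI2 : 20 * (I.card : ℝ) ≤ p)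
    (h1 : ∑ i, |t i| ≤ A / 500) (hy : ∀ y ∈ KK μ (4 * p), ∑ i, |t i| * y i < A / 4) :
    nrm μ p t ≤ ENNReal.ofReal (A / 2) := by
  classical
  have := h.prob
  have hp0 : 0 < p := by linarith
  -- the majorant
  let y : (Fin n → ℕ) → Fin n → ℝ := fun k i => (k i : ℝ)
  let M : (Fin n → ℕ) → ℝ := fun k => ∑ i, |t i| * y k i
  let E : (Fin n → ℕ) → Set (Fin n → ℝ) := fun k => {x | ∀ i, y k i ≤ |x i|}
  have hM0 : ∀ k, 0 ≤ M k := fun k =>
    Finset.sum_nonneg fun i _ => mul_nonneg (abs_nonneg _) (Nat.cast_nonneg _)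
  have hEm : ∀ k, MeasurableSet (E k) := by
    intro k
    have : E k = ⋂ i, {x : Fin n → ℝ | y k i ≤ |x i|} := by
      ext x; simp [E]
    rw [this]
    exact MeasurableSet.iInter fun i =>
      measurableSet_le measurable_const (measurable_pi_apply i).abs
  have hEG : ∀ k, μ (E k) = ENNReal.ofReal (G μ (y k)) := by
    intro k
    rw [G, measureReal_def, ENNReal.ofReal_toReal (measure_ne_top _ _)]
  let c : (Fin n → ℕ) → ℝ≥0∞ := fun k =>
    if (∀ i, i ∉ I → k i = 0) ∧ A / 4 ≤ M k then ENNReal.ofReal (M k ^ p) else 0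
  let a : Fin n → ℕ → ℝ≥0∞ := fun i j =>
    if i ∈ I then ENNReal.ofReal (Real.exp (-((j : ℝ) / 4))) else if j = 0 then 1 else 0
  have hca : ∀ k, c k * μ (E k) ≤
      ENNReal.ofReal ((A / 4) ^ p * Real.exp (-(2 * p))) * ∏ i, a i (k i) := by
    intro k
    by_cases hk : (∀ i, i ∉ I → k i = 0) ∧ A / 4 ≤ M k
    · have e1 : c k = ENNReal.ofReal (M k ^ p) := if_pos hk
      have e2 : ∏ i, a i (k i) = ENNReal.ofReal (∏ i, Real.exp (-(y k i / 4))) := by
        rw [ENNReal.ofReal_prod_of_nonneg fun i _ => (Real.exp_pos _).le]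
        refine Finset.prod_congr rfl fun i _ => ?_
        by_cases hi : i ∈ I
        · simp only [a, hi, if_true, y]
        · have := hk.1 i hi
          simp [a, hi, y, this]
      rw [e1, e2, hEG k, ← ENNReal.ofReal_mul (Real.rpow_nonneg (hM0 k) _),
        ← ENNReal.ofReal_mul (by positivity)]
      exact ENNReal.ofReal_le_ofReal
        (t07_G2 h hp0 hA t hy (y k) (fun i => Nat.cast_nonneg _) hk.2)
    · have e1 : c k = 0 := if_neg hk
      rw [e1, zero_mul]
      exact bot_le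
  have hsum : ∑' k, c k * μ (E k) ≤ ENNReal.ofReal ((A / 4) ^ p) := by
    calc ∑' k, c k * μ (E k)
        ≤ ∑' k : Fin n → ℕ,
            ENNReal.ofReal ((A / 4) ^ p * Real.exp (-(2 * p))) * ∏ i, a i (k i) :=
          ENNReal.tsum_le_tsum hca
      _ = ENNReal.ofReal ((A / 4) ^ p * Real.exp (-(2 * p))) *
            ∑' k : Fin n → ℕ, ∏ i, a i (k i) := ENNReal.tsum_mul_left
      _ ≤ ENNReal.ofReal ((A / 4) ^ p * Real.exp (-(2 * p))) * ∏ i, ∑' j, a i j := by
          gcongr
          exact t07_tsum_pi a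
      _ ≤ ENNReal.ofReal ((A / 4) ^ p * Real.exp (-(2 * p))) *
            ∏ i, (if i ∈ I then ENNReal.ofReal (Real.exp 2) else 1) := by
          gcongr with i _
          by_cases hi : i ∈ I
          · simp only [a, hi, if_true]
            exact t07_geo
          · simp only [a, hi, if_false]
            rw [tsum_eq_single 0 (fun j hj => if_neg hj)]
            simp
      _ = ENNReal.ofReal ((A / 4) ^ p * Real.exp (-(2 * p))) *
            ENNReal.ofReal (Real.exp 2) ^ I.card := by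
          congr 1
          rw [Finset.prod_ite_mem, Finset.univ_inter, Finset.prod_const]
      _ = ENNReal.ofReal ((A / 4) ^ p * Real.exp (-(2 * p)) * Real.exp 2 ^ I.card) := by
          rw [← ENNReal.ofReal_pow (Real.exp_pos _).le, ← ENNReal.ofReal_mul (by positivity)]
      _ ≤ ENNReal.ofReal ((A / 4) ^ p) := by
          apply ENNReal.ofReal_le_ofReal
          rw [mul_assoc]
          have hA4 : (0 : ℝ) ≤ (A / 4) ^ p := Real.rpow_nonneg (by linarith) _
          have : Real.exp (-(2 * p)) * Real.exp 2 ^ I.card ≤ 1 := by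
            rw [← Real.exp_nat_mul, ← Real.exp_add]
            apply Real.exp_le_one_iff.mpr
            nlinarith
          nlinarith
  -- the pointwise bound
  have hpt : ∀ x : Fin n → ℝ, ENNReal.ofReal (|∑ i, t i * x i| ^ p) ≤
      ENNReal.ofReal ((3 / 2) ^ p) *
        (ENNReal.ofReal ((A / 4) ^ p) + ∑' k, (E k).indicator (fun _ => c k) x) := by
    intro x
    let k : Fin n → ℕ := fun i => if i ∈ I then ⌊|x i|⌋₊ else 0
    have hk0 : ∀ i, i ∉ I → k i = 0 := fun i hi => if_neg hi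
    have hxE : x ∈ E k := by
      intro i
      by_cases hi : i ∈ I
      · simp only [y, k, hi, if_true]
        exact Nat.floor_le (abs_nonneg _)
      · simp only [y, k, hi, if_false, Nat.cast_zero]
        exact abs_nonneg _
    have hY : |∑ i, t i * x i| ≤ M k + A / 500 := by
      calc |∑ i, t i * x i| ≤ ∑ i, |t i * x i| := Finset.abs_sum_le_sum_abs _ _
        _ ≤ ∑ i, (|t i| * y k i + |t i|) := by
            refine Finset.sum_le_sum fun i _ => ?_
            rw [abs_mul]
            by_cases hi : i ∈ I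
            · simp only [y, k, hi, if_true]
              have := (Nat.lt_floor_add_one |x i|).le
              nlinarith [abs_nonneg (t i)]
            · rw [hI i hi]; simp
        _ = M k + ∑ i, |t i| := Finset.sum_add_distrib
        _ ≤ M k + A / 500 := by linarith
    have h32 : (0 : ℝ) ≤ (3 / 2 : ℝ) ^ p := Real.rpow_nonneg (by norm_num) _
    by_cases hMk : A / 4 ≤ M k
    · have e1 : |∑ i, t i * x i| ≤ 3 / 2 * M k := by linarith
      have e2 : |∑ i, t i * x i| ^ p ≤ (3 / 2) ^ p * M k ^ p := by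
        rw [← Real.mul_rpow (by norm_num) (hM0 k)]
        exact Real.rpow_le_rpow (abs_nonneg _) e1 hp0.le
      calc ENNReal.ofReal (|∑ i, t i * x i| ^ p)
          ≤ ENNReal.ofReal ((3 / 2) ^ p * M k ^ p) := ENNReal.ofReal_le_ofReal e2
        _ = ENNReal.ofReal ((3 / 2) ^ p) * ENNReal.ofReal (M k ^ p) :=
            ENNReal.ofReal_mul h32
        _ = ENNReal.ofReal ((3 / 2) ^ p) * (E k).indicator (fun _ => c k) x := by
            rw [Set.indicator_of_mem hxE]
            simp only [c]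
            rw [if_pos ⟨hk0, hMk⟩]
        _ ≤ ENNReal.ofReal ((3 / 2) ^ p) *
              (ENNReal.ofReal ((A / 4) ^ p) + ∑' k, (E k).indicator (fun _ => c k) x) := by
            gcongr
            refine le_trans ?_ le_add_self
            exact ENNReal.le_tsum (f := fun k => (E k).indicator (fun _ => c k) x) k
    · have e1 : |∑ i, t i * x i| ≤ 3 / 2 * (A / 4) := by linarith
      have e2 : |∑ i, t i * x i| ^ p ≤ (3 / 2) ^ p * (A / 4) ^ p := by
        rw [← Real.mul_rpow (by norm_num) (by linarith)]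
        exact Real.rpow_le_rpow (abs_nonneg _) e1 hp0.le
      calc ENNReal.ofReal (|∑ i, t i * x i| ^ p)
          ≤ ENNReal.ofReal ((3 / 2) ^ p * (A / 4) ^ p) := ENNReal.ofReal_le_ofReal e2
        _ = ENNReal.ofReal ((3 / 2) ^ p) * ENNReal.ofReal ((A / 4) ^ p) :=
            ENNReal.ofReal_mul h32
        _ ≤ ENNReal.ofReal ((3 / 2) ^ p) *
              (ENNReal.ofReal ((A / 4) ^ p) + ∑' k, (E k).indicator (fun _ => c k) x) := by
            gcongr
            exact le_self_add
  -- integrate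
  have hint : ∫⁻ x, ENNReal.ofReal (|∑ i, t i * x i| ^ p) ∂μ ≤
      ENNReal.ofReal ((A / 2) ^ p) := by
    have hmeas : ∀ k, Measurable ((E k).indicator (fun _ => c k)) := fun k =>
      measurable_const.indicator (hEm k)
    calc ∫⁻ x, ENNReal.ofReal (|∑ i, t i * x i| ^ p) ∂μ
        ≤ ∫⁻ x, ENNReal.ofReal ((3 / 2) ^ p) *
          (ENNReal.ofReal ((A / 4) ^ p) + ∑' k, (E k).indicator (fun _ => c k) x) ∂μ :=
          lintegral_mono hpt
      _ = ENNReal.ofReal ((3 / 2) ^ p) *
          ∫⁻ x, (ENNReal.ofReal ((A / 4) ^ p) + ∑' k, (E k).indicator (fun _ => c k) x) ∂μ := by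
          rw [lintegral_const_mul']
          exact ENNReal.ofReal_ne_top
      _ = ENNReal.ofReal ((3 / 2) ^ p) *
          (ENNReal.ofReal ((A / 4) ^ p) + ∑' k, c k * μ (E k)) := by
          rw [lintegral_add_left measurable_const, lintegral_const, measure_univ, mul_one,
            lintegral_tsum fun k => (hmeas k).aemeasurable]
          congr 3
          funext k
          rw [lintegral_indicator (hEm k), setLIntegral_const]
      _ ≤ ENNReal.ofReal ((3 / 2) ^ p) *
          (ENNReal.ofReal ((A / 4) ^ p) + ENNReal.ofReal ((A / 4) ^ p)) := by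
          gcongr
      _ = ENNReal.ofReal ((3 / 2) ^ p * ((A / 4) ^ p + (A / 4) ^ p)) := by
          have hA4 : (0 : ℝ) ≤ (A / 4) ^ p := Real.rpow_nonneg (by linarith) _
          rw [← ENNReal.ofReal_add hA4 hA4,
            ← ENNReal.ofReal_mul (Real.rpow_nonneg (by norm_num) _)]
      _ ≤ ENNReal.ofReal ((A / 2) ^ p) := by
          apply ENNReal.ofReal_le_ofReal
          have e0 : A / 2 = 3 / 2 * (A / 4) * (4 / 3) := by ring
          have hA4 : (0 : ℝ) ≤ A / 4 := by linarith
          have e2 : (2 : ℝ) ≤ (4 / 3 : ℝ) ^ p := by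
            calc (2 : ℝ) ≤ (4 / 3 : ℝ) ^ (10 : ℕ) := by norm_num
              _ = (4 / 3 : ℝ) ^ (10 : ℝ) := by
                  rw [← Real.rpow_natCast]; norm_num
              _ ≤ (4 / 3 : ℝ) ^ p := Real.rpow_le_rpow_of_exponent_le (by norm_num) hp
          rw [e0, Real.mul_rpow (by positivity) (by norm_num), Real.mul_rpow (by norm_num) hA4]
          have e3 : 0 ≤ (3 / 2 : ℝ) ^ p * (A / 4) ^ p := by positivity
          nlinarith
  rw [nrm, eLpNorm_eq_lintegral_rpow_enorm_toReal (by simpa using hp0) ENNReal.ofReal_ne_top,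
    ENNReal.toReal_ofReal hp0.le]
  have e1 : ∀ x : Fin n → ℝ, ‖∑ i, t i * x i‖ₑ ^ p = ENNReal.ofReal (|∑ i, t i * x i| ^ p) := by
    intro x
    rw [Real.enorm_eq_ofReal_abs, ENNReal.ofReal_rpow_of_nonneg (abs_nonneg _) hp0.le]
  simp_rw [e1]
  calc (∫⁻ x, ENNReal.ofReal (|∑ i, t i * x i| ^ p) ∂μ) ^ (1 / p)
      ≤ (ENNReal.ofReal ((A / 2) ^ p)) ^ (1 / p) :=
        ENNReal.rpow_le_rpow hint (by positivity)
    _ = ENNReal.ofReal (A / 2) := by
        rw [ENNReal.ofReal_rpow_of_nonneg (Real.rpow_nonneg (by linarith) _) (by positivity),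
          ← Real.rpow_mul (by linarith), mul_one_div_cancel hp0.ne', Real.rpow_one]

end Pool.Agent.H57.SM
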