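import Pool.Agent.H57.SM.Defs
import Pool.Agent.H57.SM.Far
import Pool.Agent.H57.SM.NearP

set_option autoImplicit false

open MeasureTheory Finset Set
open scoped ENNReal

namespace Pool.Agent.H57.SM

private theorem t08_phi_nonneg (x : ℝ) : 0 ≤ phi x := by
  unfold phi
  have := abs_nonneg x
  positivity

private theorem t08_phi_mul (x : ℝ) : phi x * (1 + |x|) = |x| ^ 2 := by
  unfold phi
  have := abs_nonneg x
  rw [sq_abs]
  field_simp

theorem step2 {n : ℕ} {μ : Measure (Fin n → ℝ)} (h : Rdy μ) {p A ρ : ℝ} (hp : 10 ≤ p)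
    (hA : 0 < A) (hρ : 0 < ρ) (hρA : 1000 * ρ ≤ A) (t : Fin n → ℝ)
    (ht : ∑ i, phi (p / ρ * t i) ≤ p) (hN : ENNReal.ofReal A ≤ nrm μ p t) :
    ∃ y ∈ KK μ (4 * p), A / 4 ≤ ∑ i, |t i| * y i := by
  classical
  by_contra hcon
  push Not at hcon
  have hp0 : 0 < p := by linarith
  let I : Finset (Fin n) := Finset.univ.filter fun i => A < 25 * p * |t i|
  let x : Fin n → ℝ := fun i => p / ρ * |t i|
  have hpr : 0 < p / ρ := div_pos hp0 hρ
  have hx0 : ∀ i, 0 ≤ x i := fun i => mul_nonneg hpr.le (abs_nonneg _)
  have hxa : ∀ i, |p / ρ * t i| = x i := by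
    intro i
    rw [abs_mul, abs_of_pos hpr]
  have htx : ∀ i, |t i| = ρ / p * x i := by
    intro i
    simp only [x]
    field_simp
  -- large coordinates
  have hbig : ∀ i ∈ I, 40 ≤ x i := by
    intro i hi
    have h1 : A < 25 * p * |t i| := (Finset.mem_filter.mp hi).2
    have h2 : 1000 * ρ < 25 * (ρ * x i) := by
      have : 25 * (ρ * x i) = 25 * p * |t i| := by
        simp only [x]; field_simp
      rw [this]; linarith
    nlinarith
  have hphi : ∀ i ∈ I, x i ≤ 2 * phi (p / ρ * t i) := by
    intro i hi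
    have h1 := hbig i hi
    have h2 := t08_phi_mul (p / ρ * t i)
    rw [hxa i] at h2
    have h3 := t08_phi_nonneg (p / ρ * t i)
    nlinarith
  have hIsum : ∑ i ∈ I, x i ≤ 2 * p := by
    calc ∑ i ∈ I, x i ≤ ∑ i ∈ I, 2 * phi (p / ρ * t i) := Finset.sum_le_sum hphi
      _ = 2 * ∑ i ∈ I, phi (p / ρ * t i) := by rw [Finset.mul_sum]
      _ ≤ 2 * ∑ i, phi (p / ρ * t i) := by
          refine mul_le_mul_of_nonneg_left ?_ (by norm_num)
          exact Finset.sum_le_sum_of_subset_of_nonneg (Finset.subset_univ _)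
            fun i _ _ => t08_phi_nonneg _
      _ ≤ 2 * p := by linarith
  have hIcard : 20 * (I.card : ℝ) ≤ p := by
    have h1 : (I.card : ℝ) * 40 ≤ ∑ i ∈ I, x i := by
      have := Finset.card_nsmul_le_sum I x 40 hbig
      simpa [nsmul_eq_mul] using this
    linarith
  -- the two parts
  let t1 : Fin n → ℝ := fun i => if i ∈ I then 0 else t i
  let t2 : Fin n → ℝ := fun i => if i ∈ I then t i else 0
  have hfar : nrm μ p t1 ≤ ENNReal.ofReal (A / 4) := by
    refine far h (by linarith) hA t1 ?_ ?_
    · intro i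
      by_cases hi : i ∈ I
      · simp only [t1, hi, if_true, abs_zero, mul_zero]; exact hA.le
      · simp only [t1, hi, if_false]
        by_contra hc
        exact hi (Finset.mem_filter.mpr ⟨Finset.mem_univ _, not_le.mp hc⟩)
    · have h1 : ∀ i, t1 i ^ 2 ≤ (ρ / p) ^ 2 * ((1 + A / (25 * ρ)) * phi (p / ρ * t i)) := by
        intro i
        have h3 := t08_phi_nonneg (p / ρ * t i)
        by_cases hi : i ∈ I
        · simp only [t1, hi, if_true]
          have : 0 ≤ (ρ / p) ^ 2 * ((1 + A / (25 * ρ)) * phi (p / ρ * t i)) := by positivity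
          simpa using this
        · simp only [t1, hi, if_false]
          have h2 := t08_phi_mul (p / ρ * t i)
          rw [hxa i] at h2
          have h4 : x i ≤ A / (25 * ρ) := by
            have h5 : 25 * p * |t i| ≤ A := by
              by_contra hc
              exact hi (Finset.mem_filter.mpr ⟨Finset.mem_univ _, not_le.mp hc⟩)
            rw [le_div_iff₀ (by positivity)]
            have : x i * (25 * ρ) = 25 * p * |t i| := by
              simp only [x]; field_simp
            rw [this]; exact h5
          have h6 : t i ^ 2 = (ρ / p) ^ 2 * x i ^ 2 := by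
            rw [← sq_abs (t i), htx i]; ring
          rw [h6, ← h2]
          refine mul_le_mul_of_nonneg_left ?_ (by positivity)
          rw [mul_comm]
          exact mul_le_mul_of_nonneg_right (by linarith) h3
      have h2 : ∑ i, t1 i ^ 2 ≤ (ρ / p) ^ 2 * ((1 + A / (25 * ρ)) * p) := by
        calc ∑ i, t1 i ^ 2
            ≤ ∑ i, (ρ / p) ^ 2 * ((1 + A / (25 * ρ)) * phi (p / ρ * t i)) :=
              Finset.sum_le_sum fun i _ => h1 i
          _ = (ρ / p) ^ 2 * ((1 + A / (25 * ρ)) * ∑ i, phi (p / ρ * t i)) := by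
              rw [← Finset.mul_sum, ← Finset.mul_sum]
          _ ≤ _ := by
              refine mul_le_mul_of_nonneg_left ?_ (by positivity)
              exact mul_le_mul_of_nonneg_left ht (by positivity)
      calc 512 * p * ∑ i, t1 i ^ 2
          ≤ 512 * p * ((ρ / p) ^ 2 * ((1 + A / (25 * ρ)) * p)) :=
            mul_le_mul_of_nonneg_left h2 (by positivity)
        _ = 512 * (ρ ^ 2 + ρ * A / 25) := by field_simp
        _ ≤ A ^ 2 := by nlinarith
  have hnear : nrm μ p t2 ≤ ENNReal.ofReal (A / 2) := by
    refine near h hp hA t2 I ?_ hIcard ?_ ?_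
    · intro i hi
      simp only [t2, hi, if_false]
    · have h1 : ∑ i, |t2 i| = ∑ i ∈ I, |t i| := by
        have : ∀ i, |t2 i| = if i ∈ I then |t i| else 0 := by
          intro i
          by_cases hi : i ∈ I
          · simp only [t2, hi, if_true]
          · simp only [t2, hi, if_false, abs_zero]
        simp_rw [this]
        rw [Finset.sum_ite_mem, Finset.univ_inter]
      rw [h1]
      calc ∑ i ∈ I, |t i| = ρ / p * ∑ i ∈ I, x i := by
            rw [Finset.mul_sum]
            exact Finset.sum_congr rfl fun i _ => htx i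
        _ ≤ ρ / p * (2 * p) := mul_le_mul_of_nonneg_left hIsum (by positivity)
        _ = 2 * ρ := by field_simp
        _ ≤ A / 500 := by linarith
    · intro y hy
      refine lt_of_le_of_lt ?_ (hcon y hy)
      refine Finset.sum_le_sum fun i _ => ?_
      have hy0 : 0 ≤ y i := hy.1 i
      by_cases hi : i ∈ I
      · simp only [t2, hi, if_true]; exact le_refl _
      · simp only [t2, hi, if_false, abs_zero, zero_mul]
        exact mul_nonneg (abs_nonneg _) hy0
  have hadd : nrm μ p t ≤ nrm μ p t1 + nrm μ p t2 := by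
    unfold nrm
    have h1 : (fun z : Fin n → ℝ => ∑ i, t i * z i) =
        (fun z : Fin n → ℝ => ∑ i, t1 i * z i) + fun z => ∑ i, t2 i * z i := by
      funext z
      rw [Pi.add_apply, ← Finset.sum_add_distrib]
      refine Finset.sum_congr rfl fun i _ => ?_
      by_cases hi : i ∈ I
      · simp only [t1, t2, hi, if_true]; ring
      · simp only [t1, t2, hi, if_false]; ring
    have hm : ∀ s : Fin n → ℝ, AEStronglyMeasurable (fun z : Fin n → ℝ => ∑ i, s i * z i) μ := by
      intro s
      exact (Continuous.aestronglyMeasurable (by fun_prop))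
    rw [h1]
    refine eLpNorm_add_le (hm t1) (hm t2) ?_
    rw [← ENNReal.ofReal_one]
    exact ENNReal.ofReal_le_ofReal (by linarith)
  have hfin : ENNReal.ofReal A ≤ ENNReal.ofReal (A / 4 + A / 2) := by
    rw [ENNReal.ofReal_add (by linarith) (by linarith)]
    exact (hN.trans hadd).trans (add_le_add hfar hnear)
  have := (ENNReal.ofReal_le_ofReal_iff (by linarith)).mp hfin
  linarith

end Pool.Agent.H57.SM
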