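import Pool.Agent.H57.SM.Loc
import Pool.Agent.H57.SM.Step2
import Pool.Agent.H57.SM.Round
import Pool.Agent.H57.SM.Bad
import Pool.Agent.H57.SM.GoodC

/-! The main counting theorem for laws with the properties `Rdy`. -/

set_option autoImplicit false

open MeasureTheory Finset Set
open scoped ENNReal

namespace Pool.Agent.H57.SM

theorem t17_phi_sub (a b : ℝ) : phi ((a - b) / 4) ≤ (phi a + phi b) / 2 := by
  have ha : 0 ≤ |a| := abs_nonneg a
  have hb : 0 ≤ |b| := abs_nonneg b
  have hab : |a - b| ≤ |a| + |b| := abs_sub a b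
  have hab0 : 0 ≤ |a - b| := abs_nonneg _
  -- monotone in |x|
  have h1 : phi ((a - b) / 4) ≤ ((|a| + |b|) / 4) ^ 2 / (1 + (|a| + |b|) / 4) := by
    unfold phi
    rw [abs_div, abs_of_pos (by norm_num : (0 : ℝ) < 4)]
    have h2 : ((a - b) / 4) ^ 2 = (|a - b| / 4) ^ 2 := by rw [div_pow, div_pow, sq_abs]
    rw [h2]
    rw [div_le_div_iff₀ (by positivity) (by positivity)]
    set X := |a - b| / 4
    set Y := (|a| + |b|) / 4
    have hX : 0 ≤ X := by positivity
    have hXY : X ≤ Y := by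
      simp only [X, Y]; linarith
    have hY : 0 ≤ Y := hX.trans hXY
    have e : Y ^ 2 * (1 + X) - X ^ 2 * (1 + Y) = (Y - X) * (Y + X + X * Y) := by ring
    have : 0 ≤ (Y - X) * (Y + X + X * Y) := by
      apply mul_nonneg (by linarith) (by positivity)
    linarith
  refine h1.trans ?_
  unfold phi
  have h3 : a ^ 2 = |a| ^ 2 := (sq_abs a).symm
  have h4 : b ^ 2 = |b| ^ 2 := (sq_abs b).symm
  rw [h3, h4]
  set x := |a|
  set y := |b|
  rw [div_add_div _ _ (by positivity) (by positivity), div_div, div_le_div_iff₀ (by positivity) (by positivity)]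
  have hxy : 0 ≤ x * y := by positivity
  have e1 : 0 ≤ x * x := by positivity
  have e2 : 0 ≤ y * y := by positivity
  nlinarith [mul_nonneg hxy ha, mul_nonneg hxy hb, mul_nonneg e1 ha, mul_nonneg e2 hb,
    sq_nonneg (x - y), mul_nonneg ha (sq_nonneg (x - y)), mul_nonneg hb (sq_nonneg (x - y)),
    mul_nonneg hxy (sq_nonneg (x - y)), mul_nonneg hxy hxy, mul_nonneg e1 e1, mul_nonneg e2 e2,
    mul_nonneg (mul_nonneg hxy hxy) ha, mul_nonneg (mul_nonneg hxy hxy) hb,
    mul_nonneg (mul_nonneg e1 hxy) hb, mul_nonneg (mul_nonneg e2 hxy) ha,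
    mul_nonneg (mul_nonneg e1 hxy) ha, mul_nonneg (mul_nonneg e2 hxy) hb]

theorem core {n : ℕ} {μ : Measure (Fin n → ℝ)} (h : Rdy μ) {p A : ℝ} (hp : 10 ≤ p) (hA : 0 < A)
    (V : Finset (Fin n → ℝ)) (hV : V.Nonempty)
    (hsep : ∀ v ∈ V, ∀ w ∈ V, v ≠ w → ENNReal.ofReal A ≤ nrm μ p (fun i => v i - w i))
    (hcard : Real.exp (140 * p) ≤ V.card) :
    A / 3000000 ≤ ∫ x, Sup V hV x ∂μ := by
  classical
  by_contra hlt
  push Not at hlt
  have hprob := h.prob
  set S : ℝ := A / 3000000 with hSdef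
  have hS : 0 < S := by positivity
  have hint : ∫ x, Sup V hV x ∂μ ≤ S := hlt.le
  have hp0 : 0 < p := by linarith
  have hBB := BB_of h hV hint
  obtain ⟨c, V1, hV1, hc1, hphi⟩ := loc V hV (R := 2 * S) (q := p) (by positivity) (by linarith) hBB
  have hVc : (0 : ℝ) < V.card := by exact_mod_cast hV.card_pos
  have hV1c : (0 : ℝ) < V1.card := lt_of_lt_of_le (by positivity) hc1
  have hV1n : V1.Nonempty := by
    rw [← Finset.card_pos]; exact_mod_cast hV1c
  have hphi' : ∀ t ∈ V1, ∑ i, phi (p / (200 * S) * (t i - c i)) ≤ p := by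
    intro t ht
    have := hphi t ht
    rwa [show (100 * (2 * S)) = 200 * S by ring] at this
  have hpair : ∀ v ∈ V1, ∀ w ∈ V1, ∑ i, phi (p / (800 * S) * (v i - w i)) ≤ p := by
    intro v hv w hw
    have h1 := hphi' v hv
    have h2 := hphi' w hw
    calc ∑ i, phi (p / (800 * S) * (v i - w i)) ≤
        ∑ i, (phi (p / (200 * S) * (v i - c i)) + phi (p / (200 * S) * (w i - c i))) / 2 := by
          apply Finset.sum_le_sum
          intro i _
          have := t17_phi_sub (p / (200 * S) * (v i - c i)) (p / (200 * S) * (w i - c i))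
          refine le_trans (le_of_eq ?_) this
          congr 1
          field_simp
          ring
      _ = (∑ i, phi (p / (200 * S) * (v i - c i)) + ∑ i, phi (p / (200 * S) * (w i - c i))) / 2 := by
          rw [← Finset.sum_add_distrib, Finset.sum_div]
      _ ≤ p := by linarith
  have hsep1 : ∀ v ∈ V1, ∀ w ∈ V1, v ≠ w →
      ∃ y ∈ KK μ (4 * p), A / 4 ≤ ∑ i, |v i - w i| * y i := by
    intro v hv w hw hvw
    exact step2 h hp hA (ρ := 800 * S) (by positivity) (by rw [hSdef]; linarith)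
      (fun i => v i - w i) (hpair v hv w hw) (hsep v (hV1 hv) w (hV1 hw) hvw)
  have htail : ∀ y ∈ KK μ (4 * p), ∑ i, y i ≤ 8 * p := by
    rintro y ⟨hy0, hy1⟩
    have h1 := hy1.trans (h.tail y hy0)
    rw [Real.exp_le_exp] at h1
    linarith
  obtain ⟨V2, hV2, u, hc2, hnorm, hdiff, hsep2⟩ := round_ex V1 hV1n c (ρ := 200 * S) hp hA
    (by positivity) (by rw [hSdef]; linarith) htail hphi' hsep1
  have hV2c : (0 : ℝ) < V2.card := by
    by_contra hneg
    have : (V2.card : ℝ) = 0 := le_antisymm (not_lt.1 hneg) (by positivity)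
    rw [this, mul_zero] at hc2
    linarith
  have hV2n : V2.Nonempty := by
    rw [← Finset.card_pos]; exact_mod_cast hV2c
  have hint2 : ∫ x, Sup V2 hV2n x ∂μ ≤ S := by
    refine le_trans ?_ hint
    apply integral_mono (Sup_int h hV2n) (Sup_int h hV)
    intro x
    exact Sup_mono_set hV hV2n (hV2.trans hV1) x
  set D := V2.filter (fun v => Good μ (4 * p) (8 * p) (4 * p / 5) V2 u v) with hD
  set W := V2.filter (fun v => ¬ Good μ (4 * p) (8 * p) (4 * p / 5) V2 u v) with hW
  have hg := good_few h hV2n u (S := S) hp hA hS (by rw [hSdef]; linarith) hint2 hnorm hdiff D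
    (Finset.filter_subset _ _) (fun v hv => (Finset.mem_filter.1 hv).2)
  have hb := bad_count h V2 u (s := 4 * p) (σ := 8 * p) (r := ⌊p / 5⌋₊) (by positivity)
    (by positivity) hnorm (by
      intro v hv w hw hvw
      obtain ⟨y, hy, hy2⟩ := hsep2 v hv w hw hvw
      exact ⟨y, hy, by linarith⟩) W (Finset.filter_subset _ _)
    (fun v hv => (Finset.mem_filter.1 hv).2)
  have hDW : (D.card : ℝ) + W.card = V2.card := by
    have := Finset.card_filter_add_card_filter_not (s := V2)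
      (fun v => Good μ (4 * p) (8 * p) (4 * p / 5) V2 u v)
    exact_mod_cast this
  have hr : ((⌊p / 5⌋₊ : ℕ) : ℝ) ≤ p / 5 := Nat.floor_le (by positivity)
  have hW2 : (W.card : ℝ) ≤ Real.exp (10 * p) := by
    refine hb.trans (Real.exp_le_exp.2 ?_)
    nlinarith
  have hV2W : (V2.card : ℝ) ≤ 2 * Real.exp (10 * p) := by linarith
  have h2 : (2 : ℝ) ≤ Real.exp 1 := by
    have := Real.add_one_le_exp (1 : ℝ)
    linarith
  have h2r : (2 : ℝ) ^ ⌊p / 5⌋₊ ≤ Real.exp (p / 5) := by
    calc (2 : ℝ) ^ ⌊p / 5⌋₊ ≤ Real.exp 1 ^ ⌊p / 5⌋₊ := pow_le_pow_left₀ (by norm_num) h2 _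
      _ = Real.exp ((⌊p / 5⌋₊ : ℕ) : ℝ) := by rw [← Real.exp_nat_mul, mul_one]
      _ ≤ _ := Real.exp_le_exp.2 hr
  have hV1W : (V1.card : ℝ) ≤ Real.exp (p / 5) * (Real.exp p * Real.exp (10 * p)) := by
    refine hc2.trans ?_
    have h3 : (2 : ℝ) * Real.exp (10 * p) ≤ Real.exp p * Real.exp (10 * p) := by
      apply mul_le_mul_of_nonneg_right _ (Real.exp_pos _).le
      exact h2.trans (Real.exp_le_exp.2 (by linarith))
    exact mul_le_mul h2r (hV2W.trans h3) (by positivity) (Real.exp_pos _).le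
  have hfin : Real.exp (-120 * p) * Real.exp (140 * p) ≤
      Real.exp (p / 5) * (Real.exp p * Real.exp (10 * p)) :=
    (mul_le_mul_of_nonneg_left hcard (Real.exp_pos _).le).trans (hc1.trans hV1W)
  rw [← Real.exp_add, ← Real.exp_add, ← Real.exp_add, Real.exp_le_exp] at hfin
  linarith

end Pool.Agent.H57.SM
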