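import Pool.Agent.H57.SM.Defs

/-!
# T05: exponential moments
-/

set_option autoImplicit false

open MeasureTheory Finset Set
open scoped ENNReal

namespace Pool.Agent.H57.SM

private lemma t05_meas_cosh {n : ℕ} (t : Fin n → ℝ) (i : Fin n) :
    Measurable fun x : Fin n → ℝ => ENNReal.ofReal (Real.cosh (t i * x i)) :=
  ENNReal.measurable_ofReal.comp (Real.continuous_cosh.measurable.comp (by fun_prop))

private lemma t05_integral {τ : ℝ} (h0 : 0 ≤ τ) (h1 : τ < 1 / 2) :
    ∫⁻ u in Ioi (0 : ℝ), ENNReal.ofReal (Real.exp (-u / 2)) * ENNReal.ofReal (τ * Real.sinh (τ * u)) ≤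
      ENNReal.ofReal ((1 - 4 * τ ^ 2)⁻¹ - 1) := by
  have e : ∀ u : ℝ, Real.exp (-u / 2) * (τ * Real.sinh (τ * u)) =
      τ / 2 * Real.exp ((τ - 1 / 2) * u) - τ / 2 * Real.exp ((-τ - 1 / 2) * u) := by
    intro u
    rw [Real.sinh_eq, show (τ - 1 / 2) * u = -u / 2 + τ * u by ring,
      show (-τ - 1 / 2) * u = -u / 2 + -(τ * u) by ring, Real.exp_add, Real.exp_add]
    ring
  have i1 : IntegrableOn (fun u : ℝ => τ / 2 * Real.exp ((τ - 1 / 2) * u)) (Ioi 0) :=
    (integrableOn_exp_mul_Ioi (by linarith) 0).const_mul _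
  have i2 : IntegrableOn (fun u : ℝ => τ / 2 * Real.exp ((-τ - 1 / 2) * u)) (Ioi 0) :=
    (integrableOn_exp_mul_Ioi (by linarith) 0).const_mul _
  have hint : IntegrableOn (fun u : ℝ => Real.exp (-u / 2) * (τ * Real.sinh (τ * u))) (Ioi 0) := by
    simp_rw [e]
    exact i1.sub i2
  have hval : ∫ u in Ioi (0 : ℝ), Real.exp (-u / 2) * (τ * Real.sinh (τ * u)) =
      (1 - 4 * τ ^ 2)⁻¹ - 1 := by
    simp_rw [e]
    rw [integral_sub i1 i2, integral_const_mul, integral_const_mul,
      integral_exp_mul_Ioi (by linarith) 0, integral_exp_mul_Ioi (by linarith) 0]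
    have a1 : 1 - 2 * τ ≠ 0 := by
      intro h
      linarith
    have a2 : 1 + 2 * τ ≠ 0 := by
      intro h
      linarith
    simp only [mul_zero, Real.exp_zero]
    have e1 : -1 / (τ - 1 / 2) = 2 * (1 - 2 * τ)⁻¹ := by
      have h3 : τ - 1 / 2 ≠ 0 := by
        intro h
        linarith
      rw [← div_eq_mul_inv, div_eq_div_iff h3 a1]
      ring
    have e2 : -1 / (-τ - 1 / 2) = 2 * (1 + 2 * τ)⁻¹ := by
      have h3 : -τ - 1 / 2 ≠ 0 := by
        intro h
        linarith
      rw [← div_eq_mul_inv, div_eq_div_iff h3 a2]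
      ring
    rw [e1, e2, show 1 - 4 * τ ^ 2 = (1 - 2 * τ) * (1 + 2 * τ) by ring, mul_inv]
    have hA := inv_mul_cancel₀ a1
    have hB := inv_mul_cancel₀ a2
    linear_combination (-τ * (1 - 2 * τ)⁻¹ - 1) * hB +
      (τ * (1 + 2 * τ)⁻¹ - (1 + 2 * τ)⁻¹ * (1 + 2 * τ)) * hA
  calc ∫⁻ u in Ioi (0 : ℝ), ENNReal.ofReal (Real.exp (-u / 2)) *
        ENNReal.ofReal (τ * Real.sinh (τ * u))
      = ∫⁻ u in Ioi (0 : ℝ), ENNReal.ofReal (Real.exp (-u / 2) * (τ * Real.sinh (τ * u))) := by
        refine lintegral_congr fun u => ?_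
        rw [ENNReal.ofReal_mul (Real.exp_pos _).le]
    _ = ENNReal.ofReal (∫ u in Ioi (0 : ℝ), Real.exp (-u / 2) * (τ * Real.sinh (τ * u))) := by
        rw [ofReal_integral_eq_lintegral_ofReal hint]
        filter_upwards [ae_restrict_mem measurableSet_Ioi] with u hu
        have : 0 ≤ Real.sinh (τ * u) := Real.sinh_nonneg_iff.2 (mul_nonneg h0 (le_of_lt hu))
        positivity
    _ ≤ _ := by rw [hval]

/-- one coordinate -/
private lemma t05_one {Ω : Type*} [MeasurableSpace Ω] (ν : Measure Ω) {X : Ω → ℝ}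
    (hX : Measurable X) {τ : ℝ} (h1 : |τ| < 1 / 2) {K : ℝ≥0∞}
    (hK : ∀ u : ℝ, 0 ≤ u → ν {x | u ≤ |X x|} ≤ K * ENNReal.ofReal (Real.exp (-u / 2))) :
    ∫⁻ x, ENNReal.ofReal (Real.cosh (τ * X x)) ∂ν ≤ K * ENNReal.ofReal ((1 - 4 * τ ^ 2)⁻¹) := by
  have hpos : 0 < 1 - 4 * τ ^ 2 := by
    have : τ ^ 2 = |τ| ^ 2 := (sq_abs τ).symm
    rw [this]
    nlinarith [abs_nonneg τ]
  have h0 : ν Set.univ ≤ K := by
    have := hK 0 le_rfl
    simpa using this
  have key : ∫⁻ x, ENNReal.ofReal (Real.cosh (τ * X x) - 1) ∂ν ≤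
      K * ENNReal.ofReal ((1 - 4 * τ ^ 2)⁻¹ - 1) := by
    have lc := lintegral_comp_eq_lintegral_meas_le_mul ν
      (f := fun x => |X x|) (g := fun u => |τ| * Real.sinh (|τ| * u))
      (Filter.Eventually.of_forall fun x => abs_nonneg _) (hX.abs).aemeasurable
      (fun t _ => (Continuous.intervalIntegrable (by fun_prop) _ _))
      (by
        filter_upwards [ae_restrict_mem measurableSet_Ioi] with u hu
        have : 0 ≤ Real.sinh (|τ| * u) :=
          Real.sinh_nonneg_iff.2 (mul_nonneg (abs_nonneg _) (le_of_lt hu))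
        positivity)
    have hcosh : ∀ x, ∫ u in (0 : ℝ)..|X x|, |τ| * Real.sinh (|τ| * u) =
        Real.cosh (τ * X x) - 1 := by
      intro x
      have hd : ∀ u ∈ uIcc (0 : ℝ) |X x|,
          HasDerivAt (fun u => Real.cosh (|τ| * u)) (|τ| * Real.sinh (|τ| * u)) u := by
        intro u _
        have := ((hasDerivAt_id u).const_mul |τ|).cosh
        simpa [mul_comm] using this
      rw [intervalIntegral.integral_eq_sub_of_hasDerivAt hd
        (Continuous.intervalIntegrable (by fun_prop) _ _)]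
      rw [mul_zero, Real.cosh_zero, ← abs_mul, Real.cosh_abs]
    simp_rw [hcosh] at lc
    rw [lc]
    calc ∫⁻ u in Ioi (0 : ℝ), ν {x | u ≤ |X x|} * ENNReal.ofReal (|τ| * Real.sinh (|τ| * u))
        ≤ ∫⁻ u in Ioi (0 : ℝ), K * (ENNReal.ofReal (Real.exp (-u / 2)) *
            ENNReal.ofReal (|τ| * Real.sinh (|τ| * u))) := by
          refine setLIntegral_mono' measurableSet_Ioi fun u hu => ?_
          rw [← mul_assoc]
          gcongr
          exact hK u (le_of_lt hu)
      _ = K * ∫⁻ u in Ioi (0 : ℝ), ENNReal.ofReal (Real.exp (-u / 2)) *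
            ENNReal.ofReal (|τ| * Real.sinh (|τ| * u)) := by
          rw [lintegral_const_mul]
          fun_prop
      _ ≤ K * ENNReal.ofReal ((1 - 4 * τ ^ 2)⁻¹ - 1) := by
          gcongr
          have := t05_integral (abs_nonneg τ) h1
          rwa [sq_abs] at this
  have hge : 0 ≤ (1 - 4 * τ ^ 2)⁻¹ - 1 := by
    rw [sub_nonneg]
    exact (one_le_inv₀ hpos).2 (by nlinarith [sq_nonneg τ])
  calc ∫⁻ x, ENNReal.ofReal (Real.cosh (τ * X x)) ∂ν
      = ∫⁻ x, (1 + ENNReal.ofReal (Real.cosh (τ * X x) - 1)) ∂ν := by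
        refine lintegral_congr fun x => ?_
        rw [← ENNReal.ofReal_one, ← ENNReal.ofReal_add zero_le_one
          (by linarith [Real.one_le_cosh (τ * X x)])]
        congr 1
        ring
    _ = ν Set.univ + ∫⁻ x, ENNReal.ofReal (Real.cosh (τ * X x) - 1) ∂ν := by
        rw [lintegral_add_left measurable_const]
        simp
    _ ≤ K + K * ENNReal.ofReal ((1 - 4 * τ ^ 2)⁻¹ - 1) := add_le_add h0 key
    _ = K * ENNReal.ofReal ((1 - 4 * τ ^ 2)⁻¹) := by
        nth_rewrite 1 [← mul_one K]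
        rw [← mul_add, ← ENNReal.ofReal_one, ← ENNReal.ofReal_add zero_le_one hge]
        congr 2
        ring

private lemma t05_ind {n : ℕ} {μ : Measure (Fin n → ℝ)} (h : Rdy μ) (t : Fin n → ℝ)
    (ht : ∀ i, |t i| < 1 / 2) (J : Finset (Fin n)) :
    ∀ y : Fin n → ℝ, (∀ i, 0 ≤ y i) →
      ∫⁻ x in {x | ∀ l, l ∉ J → y l ≤ |x l|},
          ∏ i ∈ J, ENNReal.ofReal (Real.cosh (t i * x i)) ∂μ ≤
        (∏ i ∈ J, ENNReal.ofReal ((1 - 4 * t i ^ 2)⁻¹)) *
          ENNReal.ofReal (Real.exp (-(∑ l ∈ Finset.univ \ J, y l) / 2)) := by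
  have := h.prob
  induction J using Finset.induction_on with
  | empty =>
    intro y hy
    simp only [Finset.notMem_empty, not_false_eq_true, forall_const, Finset.prod_empty,
      lintegral_const, one_mul, Finset.sdiff_empty, MeasurableSet.univ, Measure.restrict_apply,
      Set.univ_inter]
    have h1 := h.tail y hy
    rw [← ENNReal.ofReal_toReal (measure_ne_top μ {x | ∀ l, y l ≤ |x l|})]
    exact ENNReal.ofReal_le_ofReal h1
  | @insert a J ha ih =>
    intro y hy
    have hS : MeasurableSet {x : Fin n → ℝ | ∀ l, l ∉ insert a J → y l ≤ |x l|} := by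
      have : {x : Fin n → ℝ | ∀ l, l ∉ insert a J → y l ≤ |x l|} =
          ⋂ l, ⋂ _ : l ∉ insert a J, {x | y l ≤ |x l|} := by
        ext x
        simp
      rw [this]
      exact MeasurableSet.iInter fun l => MeasurableSet.iInter fun _ =>
        measurableSet_le measurable_const (measurable_pi_apply l).abs
    have hF : Measurable fun x : Fin n → ℝ => ∏ i ∈ J, ENNReal.ofReal (Real.cosh (t i * x i)) :=
      Finset.measurable_fun_prod _ fun i _ => t05_meas_cosh t i
    set ν : Measure (Fin n → ℝ) :=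
      (μ.restrict {x | ∀ l, l ∉ insert a J → y l ≤ |x l|}).withDensity
        (fun x => ∏ i ∈ J, ENNReal.ofReal (Real.cosh (t i * x i))) with hν
    have hsum : ∀ u : ℝ, ∑ l ∈ Finset.univ \ J, Function.update y a u l =
        (∑ l ∈ Finset.univ \ insert a J, y l) + u := by
      intro u
      have e : Finset.univ \ J = insert a (Finset.univ \ insert a J) := by
        ext l
        by_cases hl : l = a
        · subst hl
          simp [ha]
        · simp [hl]
      rw [e, Finset.sum_insert (by simp)]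
      rw [Function.update_self, add_comm]
      congr 1
      refine Finset.sum_congr rfl fun l hl => ?_
      have : l ≠ a := by
        rintro rfl
        simp at hl
      rw [Function.update_of_ne this]
    have hK : ∀ u : ℝ, 0 ≤ u → ν {x | u ≤ |x a|} ≤
        ((∏ i ∈ J, ENNReal.ofReal ((1 - 4 * t i ^ 2)⁻¹)) *
          ENNReal.ofReal (Real.exp (-(∑ l ∈ Finset.univ \ insert a J, y l) / 2))) *
          ENNReal.ofReal (Real.exp (-u / 2)) := by
      intro u hu
      have hm : MeasurableSet {x : Fin n → ℝ | u ≤ |x a|} :=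
        measurableSet_le measurable_const (measurable_pi_apply a).abs
      have h1 := ih (Function.update y a u) (by
        intro i
        by_cases hi : i = a
        · subst hi
          simpa using hu
        · rw [Function.update_of_ne hi]
          exact hy i)
      rw [hsum u] at h1
      have h2 : ν {x | u ≤ |x a|} = ∫⁻ x in {x | ∀ l, l ∉ J → Function.update y a u l ≤ |x l|},
          ∏ i ∈ J, ENNReal.ofReal (Real.cosh (t i * x i)) ∂μ := by
        rw [hν, withDensity_apply _ hm, Measure.restrict_restrict hm]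
        congr 2
        ext x
        simp only [Set.mem_inter_iff, Set.mem_ofPred_eq, Finset.mem_insert, not_or]
        constructor
        · rintro ⟨h3, h4⟩ l hl
          by_cases hla : l = a
          · subst hla
            simpa using h3
          · rw [Function.update_of_ne hla]
            exact h4 l ⟨hla, hl⟩
        · intro h3
          refine ⟨by simpa using h3 a ha, fun l hl => ?_⟩
          have := h3 l hl.2
          rwa [Function.update_of_ne hl.1] at this
      rw [h2]
      refine h1.trans (le_of_eq ?_)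
      rw [mul_assoc, ← ENNReal.ofReal_mul (Real.exp_pos _).le, ← Real.exp_add]
      congr 3
      ring
    have hone := t05_one ν (measurable_pi_apply a) (ht a) hK
    have heq : ∫⁻ x in {x | ∀ l, l ∉ insert a J → y l ≤ |x l|},
          ∏ i ∈ insert a J, ENNReal.ofReal (Real.cosh (t i * x i)) ∂μ =
        ∫⁻ x, ENNReal.ofReal (Real.cosh (t a * x a)) ∂ν := by
      rw [hν, lintegral_withDensity_eq_lintegral_mul _ hF (t05_meas_cosh t a)]
      refine lintegral_congr fun x => ?_
      rw [Finset.prod_insert ha, Pi.mul_apply, mul_comm]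
    rw [heq]
    refine hone.trans (le_of_eq ?_)
    rw [Finset.prod_insert ha]
    ring

private lemma t05_sum_cosh {n : ℕ} (a : Fin n → ℝ) :
    ∑ ε : Fin n → Bool, Real.cosh (∑ i, sg (ε i) * a i) = 2 ^ n * ∏ i, Real.cosh (a i) := by
  have hexp : ∀ c : Fin n → ℝ, ∑ ε : Fin n → Bool, Real.exp (∑ i, sg (ε i) * c i) =
      2 ^ n * ∏ i, Real.cosh (c i) := by
    intro c
    have h1 := Finset.prod_univ_sum (fun _ : Fin n => (Finset.univ : Finset Bool))
      (fun i b => Real.exp (sg b * c i))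
    rw [Fintype.piFinset_univ] at h1
    have h2 : ∀ ε : Fin n → Bool, Real.exp (∑ i, sg (ε i) * c i) =
        ∏ i, Real.exp (sg (ε i) * c i) := fun ε => Real.exp_sum _ _
    simp_rw [h2]
    rw [← h1]
    have h3 : ∀ i : Fin n, ∑ b : Bool, Real.exp (sg b * c i) = 2 * Real.cosh (c i) := by
      intro i
      rw [Fintype.sum_bool, Real.cosh_eq]
      simp [sg]
      ring
    simp_rw [h3]
    rw [Finset.prod_mul_distrib]
    simp
  have h4 := hexp a
  have h5 := hexp fun i => -a i
  simp only [Real.cosh_neg, mul_neg, Finset.sum_neg_distrib] at h5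
  have h6 : ∀ ε : Fin n → Bool, Real.cosh (∑ i, sg (ε i) * a i) =
      (Real.exp (∑ i, sg (ε i) * a i) + Real.exp (-∑ i, sg (ε i) * a i)) / 2 :=
    fun ε => Real.cosh_eq _
  simp_rw [h6]
  rw [← Finset.sum_div, Finset.sum_add_distrib, h4, h5]
  ring

theorem cosh_bd {n : ℕ} {μ : Measure (Fin n → ℝ)} (h : Rdy μ) (t : Fin n → ℝ)
    (ht : ∀ i, |t i| < 1 / 2) :
    ∫⁻ x, ENNReal.ofReal (Real.cosh (∑ i, t i * x i)) ∂μ ≤
      ENNReal.ofReal (∏ i, (1 - 4 * t i ^ 2)⁻¹) := by
  have := h.prob
  have hpos : ∀ i, 0 < 1 - 4 * t i ^ 2 := by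
    intro i
    have h1 := ht i
    have : t i ^ 2 = |t i| ^ 2 := (sq_abs (t i)).symm
    rw [this]
    nlinarith [abs_nonneg (t i)]
  have h1 := t05_ind h t ht Finset.univ (fun _ => 0) (fun _ => le_rfl)
  simp only [Finset.mem_univ, not_true_eq_false, false_implies, implies_true, Set.ofPred_true,
    Measure.restrict_univ, Finset.sdiff_self, Finset.sum_empty, neg_zero, zero_div, Real.exp_zero,
    ENNReal.ofReal_one, mul_one] at h1
  rw [← ENNReal.ofReal_prod_of_nonneg (fun i _ => (inv_pos.2 (hpos i)).le)] at h1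
  refine le_trans (le_of_eq ?_) h1
  have hmc : Measurable fun x : Fin n → ℝ => ENNReal.ofReal (Real.cosh (∑ i, t i * x i)) :=
    ENNReal.measurable_ofReal.comp (Real.continuous_cosh.measurable.comp (by fun_prop))
  have hε : ∀ ε : Fin n → Bool,
      ∫⁻ x, ENNReal.ofReal (Real.cosh (∑ i, sg (ε i) * (t i * x i))) ∂μ =
        ∫⁻ x, ENNReal.ofReal (Real.cosh (∑ i, t i * x i)) ∂μ := by
    intro ε
    have hmeas : Measurable fun (x : Fin n → ℝ) (i : Fin n) => sg (ε i) * x i := by fun_prop
    conv_rhs => rw [← h.sgn ε]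
    rw [lintegral_map hmc hmeas]
    refine lintegral_congr fun x => ?_
    congr 2
    refine Finset.sum_congr rfl fun i _ => ?_
    ring
  have hsum : ∑ ε : Fin n → Bool,
      ∫⁻ x, ENNReal.ofReal (Real.cosh (∑ i, sg (ε i) * (t i * x i))) ∂μ =
        2 ^ n * ∫⁻ x, ∏ i, ENNReal.ofReal (Real.cosh (t i * x i)) ∂μ := by
    rw [← lintegral_finsetSum]
    · rw [← lintegral_const_mul]
      · refine lintegral_congr fun x => ?_
        rw [← ENNReal.ofReal_sum_of_nonneg (fun ε _ => (Real.cosh_pos _).le),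
          t05_sum_cosh (fun i => t i * x i), ENNReal.ofReal_mul (by positivity),
          ENNReal.ofReal_prod_of_nonneg (fun i _ => (Real.cosh_pos _).le)]
        congr 1
        rw [ENNReal.ofReal_pow (by norm_num)]
        norm_num
      · exact Finset.measurable_fun_prod _ fun i _ => t05_meas_cosh t i
    · intro ε _
      exact ENNReal.measurable_ofReal.comp (Real.continuous_cosh.measurable.comp (by fun_prop))
  simp_rw [hε] at hsum
  rw [Finset.sum_const, Finset.card_univ, Fintype.card_fun, Fintype.card_bool, Fintype.card_fin,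
    nsmul_eq_mul, Nat.cast_pow] at hsum
  have h2 : ((2 : ℕ) : ℝ≥0∞) ^ n ≠ 0 := by simp
  have h3 : ((2 : ℕ) : ℝ≥0∞) ^ n ≠ ∞ := by simp
  exact (ENNReal.mul_right_inj h2 h3).1 hsum

theorem rdy_memLp {n : ℕ} {μ : Measure (Fin n → ℝ)} (h : Rdy μ) (t : Fin n → ℝ) {p : ℝ}
    (hp : 0 < p) : MemLp (fun x => ∑ i, t i * x i) (ENNReal.ofReal p) μ := by
  have := h.prob
  -- a small multiple of `t`
  set M : ℝ := 1 + ∑ i, |t i| with hM
  have hM1 : 1 ≤ M := by
    have : 0 ≤ ∑ i, |t i| := Finset.sum_nonneg fun i _ => abs_nonneg _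
    linarith
  have hti : ∀ i, |t i| ≤ M := by
    intro i
    have : |t i| ≤ ∑ i, |t i| :=
      Finset.single_le_sum (f := fun i => |t i|) (fun i _ => abs_nonneg _) (Finset.mem_univ i)
    linarith
  set lam : ℝ := 1 / (4 * M) with hlam
  have hlam0 : 0 < lam := by positivity
  have hsm : ∀ i, |lam * t i| < 1 / 2 := by
    intro i
    rw [abs_mul, abs_of_pos hlam0, hlam, div_mul_eq_mul_div, one_mul, div_lt_iff₀ (by positivity)]
    linarith [hti i]
  have hc := cosh_bd h (fun i => lam * t i) hsm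
  obtain ⟨N, hN⟩ := exists_nat_ge p
  set C : ℝ := 1 + 2 * (N.factorial : ℝ) / lam ^ N with hC
  have hC0 : 0 ≤ C := by positivity
  have hbd : ∀ y : ℝ, |y| ^ p ≤ C * Real.cosh (lam * y) := by
    intro y
    have h1 : |y| ^ p ≤ 1 + |y| ^ N := by
      rcases le_total |y| 1 with hy | hy
      · have : |y| ^ p ≤ 1 := Real.rpow_le_one (abs_nonneg _) hy hp.le
        have : 0 ≤ |y| ^ N := by positivity
        linarith
      · have : |y| ^ p ≤ |y| ^ (N : ℝ) := Real.rpow_le_rpow_of_exponent_le hy hN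
        rw [Real.rpow_natCast] at this
        linarith
    have h2 : (lam * |y|) ^ N / (N.factorial : ℝ) ≤ Real.exp (lam * |y|) :=
      Real.pow_div_factorial_le_exp _ (by positivity) N
    have h3 : Real.exp (lam * |y|) ≤ 2 * Real.cosh (lam * y) := by
      have : Real.cosh (lam * y) = Real.cosh (lam * |y|) := by
        rw [← Real.cosh_abs (lam * y), abs_mul, abs_of_pos hlam0]
      rw [this, Real.cosh_eq]
      have := Real.exp_pos (-(lam * |y|))
      linarith
    have h4 : |y| ^ N ≤ 2 * (N.factorial : ℝ) / lam ^ N * Real.cosh (lam * y) := by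
      have hf : (0 : ℝ) < N.factorial := by positivity
      have h5 : (lam * |y|) ^ N ≤ 2 * Real.cosh (lam * y) * N.factorial := by
        rw [div_le_iff₀ hf] at h2
        nlinarith
      rw [mul_pow] at h5
      have hl : 0 < lam ^ N := by positivity
      rw [div_mul_eq_mul_div, le_div_iff₀ hl]
      nlinarith
    have h6 := Real.one_le_cosh (lam * y)
    rw [hC]
    nlinarith
  have hmeas : Measurable fun x : Fin n → ℝ => ∑ i, t i * x i := by fun_prop
  refine ⟨hmeas.aestronglyMeasurable, ?_⟩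
  have hp0 : ENNReal.ofReal p ≠ 0 := by
    rw [Ne, ENNReal.ofReal_eq_zero, not_le]
    exact hp
  rw [eLpNorm_lt_top_iff_lintegral_rpow_enorm_lt_top hp0 ENNReal.ofReal_ne_top,
    ENNReal.toReal_ofReal hp.le]
  calc ∫⁻ x, ‖∑ i, t i * x i‖ₑ ^ p ∂μ
      ≤ ∫⁻ x, ENNReal.ofReal C * ENNReal.ofReal (Real.cosh (∑ i, lam * t i * x i)) ∂μ := by
        refine lintegral_mono fun x => ?_
        rw [← ENNReal.ofReal_mul hC0, ← ofReal_norm,
          ENNReal.ofReal_rpow_of_nonneg (norm_nonneg _) hp.le, Real.norm_eq_abs]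
        refine ENNReal.ofReal_le_ofReal ?_
        have := hbd (∑ i, t i * x i)
        rw [Finset.mul_sum] at this
        simp_rw [← mul_assoc] at this
        exact this
    _ = ENNReal.ofReal C * ∫⁻ x, ENNReal.ofReal (Real.cosh (∑ i, lam * t i * x i)) ∂μ := by
        rw [lintegral_const_mul]
        exact ENNReal.measurable_ofReal.comp (Real.continuous_cosh.measurable.comp (by fun_prop))
    _ < ∞ := ENNReal.mul_lt_top ENNReal.ofReal_lt_top (lt_of_le_of_lt hc ENNReal.ofReal_lt_top)

end Pool.Agent.H57.SM
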