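import Mathlib

/-!
# Sudakov minoration for unconditional log-concave vectors: definitions

Coordinates are indexed by `Fin n`, random signs by `Fin n → Bool`.
-/

set_option autoImplicit false

open MeasureTheory Finset
open scoped ENNReal

namespace Pool.Agent.H57.SM

/-- sign of a Boolean: `true ↦ 1`, `false ↦ -1` -/
def sg (b : Bool) : ℝ := if b then 1 else -1

/-- expectation under the product (signed) measure on `{±1}^n` with mean vector `β` -/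
noncomputable def Eb {n : ℕ} (β : Fin n → ℝ) (F : (Fin n → Bool) → ℝ) : ℝ :=
  ∑ ε : Fin n → Bool, (∏ i, (1 + sg (ε i) * β i) / 2) * F ε

/-- expectation over uniform independent signs -/
noncomputable def Es {n : ℕ} (F : (Fin n → Bool) → ℝ) : ℝ := Eb (fun _ => 0) F

/-- `E_ε sup_{v,w ∈ T} Σ_i (v-w)_i ε_i ≤ R`, in the form of a majorant -/
def BB {n : ℕ} (T : Finset (Fin n → ℝ)) (R : ℝ) : Prop :=
  ∃ H : (Fin n → Bool) → ℝ,
    (∀ ε, ∀ v ∈ T, ∀ w ∈ T, ∑ i, (v i - w i) * sg (ε i) ≤ H ε) ∧ Es H ≤ R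

/-- the function `x² / (1 + |x|)` -/
noncomputable def phi (x : ℝ) : ℝ := x ^ 2 / (1 + |x|)

/-- orthant tail `P(|X_i| ≥ y_i for all i)` -/
noncomputable def G {n : ℕ} (μ : Measure (Fin n → ℝ)) (y : Fin n → ℝ) : ℝ :=
  μ.real {x | ∀ i, y i ≤ |x i|}

/-- level set of the orthant tail -/
def KK {n : ℕ} (μ : Measure (Fin n → ℝ)) (s : ℝ) : Set (Fin n → ℝ) :=
  {y | (∀ i, 0 ≤ y i) ∧ Real.exp (-s) ≤ G μ y}

/-- `|x| / 20` belongs to `Q` after putting at most `k` coordinates to zero -/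
def Near {n : ℕ} (Q : Set (Fin n → ℝ)) (k : ℕ) (x : Fin n → ℝ) : Prop :=
  ∃ I : Finset (Fin n), I.card ≤ k ∧ (fun i => if i ∈ I then 0 else |x i| / 20) ∈ Q

/-- down-closed (towards `0`, in the orthant) -/
def Down {n : ℕ} (Q : Set (Fin n → ℝ)) : Prop :=
  ∀ x ∈ Q, ∀ y : Fin n → ℝ, (∀ i, 0 ≤ y i ∧ y i ≤ x i) → y ∈ Q

/-- the properties of the law of `X` which are used by the counting argument -/
structure Rdy {n : ℕ} (μ : Measure (Fin n → ℝ)) : Prop where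
  prob : IsProbabilityMeasure μ
  sgn : ∀ ε : Fin n → Bool, μ.map (fun x i => sg (ε i) * x i) = μ
  conc : ∀ y y' : Fin n → ℝ, (∀ i, 0 ≤ y i) → (∀ i, 0 ≤ y' i) →
    ∀ a b : ℝ, 0 < a → 0 < b → a + b = 1 →
      G μ y ^ a * G μ y' ^ b ≤ G μ (fun i => a * y i + b * y' i)
  tail : ∀ y : Fin n → ℝ, (∀ i, 0 ≤ y i) → G μ y ≤ Real.exp (-(∑ i, y i) / 2)
  half : ∀ i, 1 / 2 ≤ μ.real {x | 1 ≤ |x i|}
  rat : ∀ Q : Set (Fin n → ℝ), MeasurableSet Q → Down Q →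
    1 / 2 ≤ μ.real {x | (fun i => |x i|) ∈ Q} →
      ∀ k : ℕ, μ.real {x | ¬ Near Q k x} ≤ 2 ^ 20 * Real.exp (-4 * (k + 1))

/-- `sup_{v,w ∈ T} Σ (v-w)_i x_i` -/
noncomputable def Sup {n : ℕ} (T : Finset (Fin n → ℝ)) (hT : T.Nonempty) (x : Fin n → ℝ) : ℝ :=
  T.sup' hT fun v => T.sup' hT fun w => ∑ i, (v i - w i) * x i

/-- `E_ε sup_{v,w ∈ T} Σ (v-w)_i ε_i x_i` -/
noncomputable def RR {n : ℕ} (T : Finset (Fin n → ℝ)) (hT : T.Nonempty) (x : Fin n → ℝ) : ℝ :=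
  Es fun ε => Sup T hT fun i => sg (ε i) * x i

/-- the `L^p(μ)` norm of `Σ t_i x_i` -/
noncomputable def nrm {n : ℕ} (μ : Measure (Fin n → ℝ)) (p : ℝ) (t : Fin n → ℝ) : ℝ≥0∞ :=
  eLpNorm (fun x => ∑ i, t i * x i) (ENNReal.ofReal p) μ

/-- weight of the coordinates of `a` at which `a` and `b` differ -/
noncomputable def Mw {n : ℕ} (y : Fin n → ℝ) (a b : Fin n → ℤ) : ℝ :=
  ∑ i, if a i = b i then 0 else |(a i : ℝ)| * y i

/-- `v` is good: some profile `y` of probability `≥ e^{-s}` separates `u v` from all but a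
fraction `e^{-σ}` of the other points -/
def Good {n : ℕ} (μ : Measure (Fin n → ℝ)) (s σ Δ : ℝ) (V : Finset (Fin n → ℝ))
    (u : (Fin n → ℝ) → Fin n → ℤ) (v : Fin n → ℝ) : Prop :=
  ∃ y ∈ KK μ s, (({w ∈ V | Mw y (u v) (u w) < Δ}.card : ℕ) : ℝ) < Real.exp (-σ) * V.card

/-- nice density: log-concave, even in every coordinate, integral `1`, and
`P(|X_i| < a, |X_j| < b) = O(ab)` -/
structure UD {n : ℕ} (f : (Fin n → ℝ) → ℝ≥0∞) : Prop where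
  meas : Measurable f
  lc : ∀ x y : Fin n → ℝ, ∀ a b : ℝ, 0 < a → 0 < b → a + b = 1 →
    f x ^ a * f y ^ b ≤ f (fun i => a * x i + b * y i)
  ev : ∀ x : Fin n → ℝ, ∀ ε : Fin n → ℝ, (∀ i, ε i = 1 ∨ ε i = -1) → f (fun i => ε i * x i) = f x
  int : ∫⁻ x, f x = 1
  pair : ∃ C : ℝ, 0 ≤ C ∧ ∀ i j, i ≠ j → ∀ a b : ℝ, 0 ≤ a → 0 ≤ b →
    ∫⁻ x in {x | |x i| < a ∧ |x j| < b}, f x ≤ ENNReal.ofReal (C * a * b)

/-- the measure with density `f` -/
noncomputable def mf {n : ℕ} (f : (Fin n → ℝ) → ℝ≥0∞) : Measure (Fin n → ℝ) :=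
  volume.withDensity f

/-- the open positive orthant -/
def Orth (n : ℕ) : Set (Fin n → ℝ) := {x | ∀ i, 0 < x i}

/-- `exp (4 d(Q, x))`, `d` = the least number of coordinates which have to be put to zero -/
noncomputable def wt {n : ℕ} (Q : Set (Fin n → ℝ)) (x : Fin n → ℝ) : ℝ≥0∞ :=
  ⨅ I : Finset (Fin n), ⨅ _ : (fun i => if i ∈ I then 0 else x i / 20) ∈ Q,
    ENNReal.ofReal (Real.exp (4 * (I.card : ℝ)))

/-- unconditional log-concave laws -/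
structure ULC {n : ℕ} (μ : Measure (Fin n → ℝ)) : Prop where
  prob : IsProbabilityMeasure μ
  lc : ∀ K L : Set (Fin n → ℝ), IsCompact K → IsCompact L → ∀ t : ℝ, t ∈ Set.Ioo (0 : ℝ) 1 →
    μ K ^ t * μ L ^ (1 - t) ≤ μ {z | ∃ x ∈ K, ∃ y ∈ L, z = fun i => t * x i + (1 - t) * y i}
  sgn : ∀ ε : Fin n → Bool, μ.map (fun x i => sg (ε i) * x i) = μ

/-- the density of `X + e U`, `U` uniform on `[-1,1]^n` -/
noncomputable def fs {n : ℕ} (μ : Measure (Fin n → ℝ)) (e : ℝ) (x : Fin n → ℝ) : ℝ≥0∞ :=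
  μ {y | ∀ i, |x i - y i| ≤ e} / ENNReal.ofReal ((2 * e) ^ n)

end Pool.Agent.H57.SM
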