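import Pool.Agent.H57.SM.Stage

set_option autoImplicit false

open MeasureTheory Finset Set
open scoped ENNReal

namespace Pool.Agent.H57.SM

theorem t04_base {n : ℕ} (T : Finset (Fin n → ℝ)) {R q : ℝ} (hR : 0 < R)
    (hq : 1 ≤ q) (hq2 : q < 2) (hB : BB T R) {t0 : Fin n → ℝ} (ht0 : t0 ∈ T) :
    ∀ t ∈ T, ∑ i, phi (q / (100 * R) * (t i - t0 i)) ≤ q := by
  intro t ht
  obtain ⟨H, hH, hE⟩ := hB
  have h1 := Es_abs (fun i => t i - t0 i)
  have h2 : Es (fun ε => |∑ i, (t i - t0 i) * sg (ε i)|) ≤ Es H := by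
    apply Es_mono
    intro ε
    rw [abs_le]
    constructor
    · have := hH ε t0 ht0 t ht
      have h3 : ∑ i, (t0 i - t i) * sg (ε i) = -∑ i, (t i - t0 i) * sg (ε i) := by
        rw [← Finset.sum_neg_distrib]; apply Finset.sum_congr rfl; intro i _; ring
      linarith
    · exact hH ε t ht t0 ht0
  have h3 : 0 ≤ Es (fun ε => |∑ i, (t i - t0 i) * sg (ε i)|) := by
    unfold Es
    apply Eb_nonneg
    · intro i; simp
    · intro ε; exact abs_nonneg _
  have h4 : (Es (fun ε => |∑ i, (t i - t0 i) * sg (ε i)|)) ^ 2 ≤ R ^ 2 :=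
    pow_le_pow_left₀ h3 (h2.trans hE) 2
  have h5 : ∑ i, (t i - t0 i) ^ 2 ≤ 3 * R ^ 2 := h1.trans (by linarith)
  calc ∑ i, phi (q / (100 * R) * (t i - t0 i))
      ≤ ∑ i, (q / (100 * R)) ^ 2 * (t i - t0 i) ^ 2 := by
        apply Finset.sum_le_sum; intro i _
        refine (t03_phi_sq _).trans (le_of_eq ?_); ring
    _ = (q / (100 * R)) ^ 2 * ∑ i, (t i - t0 i) ^ 2 := (Finset.mul_sum _ _ _).symm
    _ ≤ (q / (100 * R)) ^ 2 * (3 * R ^ 2) := mul_le_mul_of_nonneg_left h5 (by positivity)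
    _ = 3 * q ^ 2 / 10000 := by field_simp; norm_num
    _ ≤ q := by nlinarith

theorem loc {n : ℕ} (T : Finset (Fin n → ℝ)) (hT : T.Nonempty) {R q : ℝ} (hR : 0 < R)
    (hq : 1 ≤ q) (hB : BB T R) :
    ∃ c : Fin n → ℝ, ∃ T' ⊆ T, Real.exp (-120 * q) * T.card ≤ T'.card ∧
      ∀ t ∈ T', ∑ i, phi (q / (100 * R) * (t i - c i)) ≤ q := by
  have key : ∀ m : ℕ, ∀ q : ℝ, 1 ≤ q → q < 2 ^ (m + 1) →
      ∃ c : Fin n → ℝ, ∃ T' ⊆ T, Real.exp (-120 * q) * T.card ≤ T'.card ∧
        ∀ t ∈ T', ∑ i, phi (q / (100 * R) * (t i - c i)) ≤ q := by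
    intro m
    induction m with
    | zero =>
      intro q hq hq2
      obtain ⟨t0, ht0⟩ := hT
      refine ⟨t0, T, Finset.Subset.refl _, ?_, t04_base T hR hq (by simpa using hq2) hB ht0⟩
      have h1 : Real.exp (-120 * q) ≤ 1 := by
        rw [← Real.exp_zero]; exact Real.exp_le_exp.2 (by linarith)
      have h2 : (0 : ℝ) ≤ T.card := by positivity
      nlinarith
    | succ m ih =>
      intro q hq hq2
      rcases lt_or_ge q 2 with hlt | hge
      · obtain ⟨t0, ht0⟩ := hT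
        refine ⟨t0, T, Finset.Subset.refl _, ?_, t04_base T hR hq hlt hB ht0⟩
        have h1 : Real.exp (-120 * q) ≤ 1 := by
          rw [← Real.exp_zero]; exact Real.exp_le_exp.2 (by linarith)
        have h2 : (0 : ℝ) ≤ T.card := by positivity
        nlinarith
      · obtain ⟨c, T', hT', hc1, hc2⟩ := ih (q / 2) (by linarith) (by
          rw [pow_succ] at hq2; linarith)
        have hTc : (0 : ℝ) < T.card := by exact_mod_cast hT.card_pos
        have hT'c : (0 : ℝ) < T'.card := lt_of_lt_of_le (mul_pos (Real.exp_pos _) hTc) hc1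
        have hT'ne : T'.Nonempty := by rw [← Finset.card_pos]; exact_mod_cast hT'c
        obtain ⟨c', T'', hT'', h1, h2⟩ := stage T' hT'ne hR hq (BB_mono hT' hB) c (by
          intro t ht
          have h3 := hc2 t ht
          have h4 : q / 2 / (100 * R) = q / (200 * R) := by field_simp; norm_num
          rw [h4] at h3
          linarith)
        refine ⟨c', T'', hT''.trans hT', ?_, h2⟩
        calc Real.exp (-120 * q) * T.card
            = Real.exp (-60 * q) * (Real.exp (-120 * (q / 2)) * T.card) := by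
              rw [← mul_assoc, ← Real.exp_add]; ring_nf
          _ ≤ Real.exp (-60 * q) * T'.card := mul_le_mul_of_nonneg_left hc1 (Real.exp_pos _).le
          _ ≤ _ := h1
  obtain ⟨m, hm⟩ := pow_unbounded_of_one_lt q (one_lt_two (α := ℝ))
  exact key m q hq (hm.trans (pow_lt_pow_right₀ one_lt_two (Nat.lt_succ_self m)))

end Pool.Agent.H57.SM
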