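import Pool.Agent.H57.SM.Anti

set_option autoImplicit false

open MeasureTheory Finset Set
open scoped ENNReal

namespace Pool.Agent.H57.SM

theorem t19b_lint {n : ℕ} (a : Fin n → ℝ) (ha : ∀ i, 0 < a i) {F : (Fin n → ℝ) → ℝ≥0∞}
    (hF : Measurable F) :
    ∫⁻ y, F y = ENNReal.ofReal (∏ i, a i) * ∫⁻ x : Fin n → ℝ, F (fun i => a i * x i) := by
  have hdet : (Matrix.diagonal a).det = ∏ i, a i := Matrix.det_diagonal
  have hpos : 0 < ∏ i, a i := Finset.prod_pos fun i _ => ha i
  have hne : (Matrix.diagonal a).det ≠ 0 := by rw [hdet]; exact hpos.ne'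
  have h1 := Real.smul_map_diagonal_volume_pi hne
  have hL : Measurable (⇑(Matrix.toLin' (Matrix.diagonal a))) :=
    (LinearMap.continuous_of_finiteDimensional _).measurable
  conv_lhs => rw [← h1]
  rw [lintegral_smul_measure, lintegral_map hF hL, hdet, abs_of_pos hpos, smul_eq_mul]
  congr 1
  refine lintegral_congr fun x => ?_
  congr 1
  funext i
  rw [Matrix.toLin'_apply, Matrix.mulVec_diagonal]

theorem t19b_one {n : ℕ} {f : (Fin n → ℝ) → ℝ≥0∞} (h : UD f)
    (hm : ∀ i, (mf f).real {x | |x i| < 1} = 1 / 2) (i : Fin n) {a : ℝ} (ha : 0 ≤ a)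
    (ha1 : a ≤ 1) : a / 2 ≤ (mf f).real {x | |x i| < a} := by
  classical
  have hprob := ud_prob h
  rcases ha.eq_or_lt with h0 | hpos
  · rw [← h0]; simp
  have hE : ∀ b : ℝ, MeasurableSet {x : Fin n → ℝ | |x i| < b} := fun b =>
    measurableSet_lt (measurable_pi_apply i).abs measurable_const
  set c : Fin n → ℝ := fun j => if j = i then a else 1 with hc
  have hcpos : ∀ j, 0 < c j := by
    intro j
    simp only [hc]
    split_ifs
    · exact hpos
    · norm_num
  have hprod : ∏ j, c j = a := by
    simp only [hc]
    rw [Finset.prod_ite_eq' Finset.univ i (fun _ => a)]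
    simp
  have h1 : mf f {x | |x i| < a} = ∫⁻ x, {x : Fin n → ℝ | |x i| < a}.indicator f x := by
    unfold mf
    rw [withDensity_apply _ (hE a), lintegral_indicator (hE a)]
  have h2 : mf f {x | |x i| < 1} = ∫⁻ x, {x : Fin n → ℝ | |x i| < 1}.indicator f x := by
    unfold mf
    rw [withDensity_apply _ (hE 1), lintegral_indicator (hE 1)]
  have h3 : ENNReal.ofReal a * mf f {x | |x i| < 1} ≤ mf f {x | |x i| < a} := by
    rw [h1, t19b_lint c hcpos (h.meas.indicator (hE a)), hprod, h2]
    gcongr with x
    by_cases hx : |x i| < 1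
    · rw [Set.indicator_of_mem (show x ∈ {x : Fin n → ℝ | |x i| < 1} from hx),
        Set.indicator_of_mem]
      · apply ud_anti h
        intro j
        rw [abs_mul]
        simp only [hc]
        split_ifs
        · rw [abs_of_pos hpos]
          exact mul_le_of_le_one_left (abs_nonneg _) ha1
        · simp
      · show |c i * x i| < a
        simp only [hc, if_true]
        rw [abs_mul, abs_of_pos hpos]
        exact mul_lt_of_lt_one_right hpos hx
    · rw [Set.indicator_of_notMem (show x ∉ {x : Fin n → ℝ | |x i| < 1} from hx)]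
      exact zero_le
  have h4 := ENNReal.toReal_mono (measure_ne_top _ _) h3
  rw [ENNReal.toReal_mul, ENNReal.toReal_ofReal ha] at h4
  have h5 := hm i
  unfold Measure.real at h5 ⊢
  rw [h5] at h4
  linarith

theorem ud_tail {n : ℕ} {f : (Fin n → ℝ) → ℝ≥0∞} (h : UD f)
    (hm : ∀ i, (mf f).real {x | |x i| < 1} = 1 / 2) (y : Fin n → ℝ) (hy : ∀ i, 0 ≤ y i) :
    G (mf f) y ≤ Real.exp (-(∑ i, y i) / 2) := by
  classical
  have hprob := ud_prob h
  obtain ⟨C, hC, hpair⟩ := h.pair
  set C' : ℝ := ∑ i, ∑ j, C * y i * y j with hC'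
  have hC'0 : 0 ≤ C' := by
    apply Finset.sum_nonneg; intro i _
    apply Finset.sum_nonneg; intro j _
    exact mul_nonneg (mul_nonneg hC (hy i)) (hy j)
  set Y : ℝ := ∑ i, y i with hY
  have hY0 : 0 ≤ Y := Finset.sum_nonneg fun i _ => hy i
  have hyY : ∀ i, y i ≤ Y := fun i =>
    Finset.single_le_sum (f := y) (fun i _ => hy i) (Finset.mem_univ i)
  -- small multiples
  have key : ∀ l : ℝ, 0 < l → l * (Y + 1) ≤ 1 →
      G (mf f) (fun i => l * y i) ≤ 1 - l / 2 * Y + C' * l ^ 2 := by
    intro l hl hl1
    set E : Fin n → Set (Fin n → ℝ) := fun i => {x | |x i| < l * y i} with hE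
    have hEm : ∀ i, MeasurableSet (E i) := fun i =>
      measurableSet_lt (measurable_pi_apply i).abs measurable_const
    have hEi : ∀ i, l * y i / 2 ≤ (mf f).real (E i) := by
      intro i
      apply t19b_one h hm i (mul_nonneg hl.le (hy i))
      have := hyY i
      nlinarith
    have hEij : ∀ i j, i ≠ j → (mf f).real (E i ∩ E j) ≤ C * (l * y i) * (l * y j) := by
      intro i j hij
      have h1 := hpair i j hij (l * y i) (l * y j) (mul_nonneg hl.le (hy i))
        (mul_nonneg hl.le (hy j))
      have h2 : mf f (E i ∩ E j) = ∫⁻ x in {x | |x i| < l * y i ∧ |x j| < l * y j}, f x := by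
        unfold mf
        rw [withDensity_apply _ ((hEm i).inter (hEm j))]
        rfl
      rw [← h2] at h1
      have h3 : 0 ≤ C * (l * y i) * (l * y j) :=
        mul_nonneg (mul_nonneg hC (mul_nonneg hl.le (hy i))) (mul_nonneg hl.le (hy j))
      exact ENNReal.toReal_le_of_le_ofReal h3 h1
    set g : (Fin n → ℝ) → Fin n → ℝ := fun x i => (E i).indicator (fun _ => (1 : ℝ)) x with hg
    have hgi : ∀ i, Integrable (fun x => g x i) (mf f) := fun i =>
      (integrable_const (1 : ℝ)).indicator (hEm i)
    have hgint : ∀ i, ∫ x, g x i ∂(mf f) = (mf f).real (E i) := by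
      intro i
      simp only [hg]
      rw [integral_indicator (hEm i)]
      simp
    have hg2 : ∀ i j, (fun x => g x i * g x j) = (E i ∩ E j).indicator (fun _ => (1 : ℝ)) := by
      intro i j
      funext x
      show (E i).indicator (fun _ => (1 : ℝ)) x * (E j).indicator (fun _ => (1 : ℝ)) x = _
      by_cases hxi : x ∈ E i
      · by_cases hxj : x ∈ E j
        · rw [Set.indicator_of_mem hxi, Set.indicator_of_mem hxj,
            Set.indicator_of_mem (show x ∈ E i ∩ E j from ⟨hxi, hxj⟩), mul_one]
        · rw [Set.indicator_of_notMem hxj,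
            Set.indicator_of_notMem (show x ∉ E i ∩ E j from fun hh => hxj hh.2), mul_zero]
      · rw [Set.indicator_of_notMem hxi,
          Set.indicator_of_notMem (show x ∉ E i ∩ E j from fun hh => hxi hh.1), zero_mul]
    have hg2i : ∀ i j, Integrable (fun x => g x i * g x j) (mf f) := by
      intro i j
      rw [hg2]
      exact (integrable_const (1 : ℝ)).indicator ((hEm i).inter (hEm j))
    have hg2int : ∀ i j, ∫ x, g x i * g x j ∂(mf f) = (mf f).real (E i ∩ E j) := by
      intro i j
      rw [hg2, integral_indicator ((hEm i).inter (hEm j))]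
      simp
    set S : Set (Fin n → ℝ) := {x | ∀ i, l * y i ≤ |x i|} with hS
    have hSm : MeasurableSet S := by
      have : S = ⋂ i, (E i)ᶜ := by
        ext x
        simp only [hS, hE, Set.mem_iInter, Set.mem_compl_iff, Set.mem_ofPred_eq, not_lt]
      rw [this]
      exact MeasurableSet.iInter fun i => (hEm i).compl
    -- pointwise Bonferroni
    have hpt : ∀ x, S.indicator (fun _ => (1 : ℝ)) x ≤
        1 - ∑ i, g x i + ∑ i, ∑ j ∈ Finset.univ.erase i, g x i * g x j := by
      intro x
      have hg01 : ∀ i, g x i = 0 ∨ g x i = 1 := by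
        intro i
        simp only [hg, Set.indicator]
        split_ifs
        · right; rfl
        · left; rfl
      have hgg : ∀ i, g x i * g x i = g x i := by
        intro i
        rcases hg01 i with h | h <;> rw [h] <;> norm_num
      set m : ℝ := ∑ i, g x i with hmdef
      have h1 : ∑ i, ∑ j ∈ Finset.univ.erase i, g x i * g x j = m ^ 2 - m := by
        have h2 : ∀ i, ∑ j ∈ Finset.univ.erase i, g x i * g x j = g x i * m - g x i := by
          intro i
          have := Finset.sum_erase_eq_sub (s := Finset.univ) (f := fun j => g x i * g x j)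
            (Finset.mem_univ i)
          rw [this, ← Finset.mul_sum, hgg]
        simp_rw [h2]
        rw [Finset.sum_sub_distrib, ← Finset.sum_mul]
        ring
      rw [h1]
      by_cases hx : x ∈ S
      · have hz : ∀ i, g x i = 0 := by
          intro i
          simp only [hg]
          apply Set.indicator_of_notMem
          intro hxi
          have h3 := hx i
          have h4 : |x i| < l * y i := hxi
          linarith
        have hm0 : m = 0 := by
          rw [hmdef]
          exact Finset.sum_eq_zero fun i _ => hz i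
        rw [Set.indicator_of_mem hx, hm0]
        norm_num
      · rw [Set.indicator_of_notMem hx]
        have : 0 ≤ (m - 1) ^ 2 := sq_nonneg _
        nlinarith
    have hint : (mf f).real S ≤ ∫ x, (1 - ∑ i, g x i +
        ∑ i, ∑ j ∈ Finset.univ.erase i, g x i * g x j) ∂(mf f) := by
      have h1 : (mf f).real S = ∫ x, S.indicator (fun _ => (1 : ℝ)) x ∂(mf f) := by
        rw [integral_indicator hSm]; simp
      rw [h1]
      apply integral_mono ((integrable_const (1 : ℝ)).indicator hSm)
      · apply Integrable.add
        · exact (integrable_const (1 : ℝ)).sub (integrable_finsetSum _ fun i _ => hgi i)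
        · exact integrable_finsetSum _ fun i _ => integrable_finsetSum _ fun j _ => hg2i i j
      · intro x
        exact hpt x
    have hval : ∫ x, (1 - ∑ i, g x i +
        ∑ i, ∑ j ∈ Finset.univ.erase i, g x i * g x j) ∂(mf f) =
        1 - ∑ i, (mf f).real (E i) +
          ∑ i, ∑ j ∈ Finset.univ.erase i, (mf f).real (E i ∩ E j) := by
      rw [integral_add, integral_sub, integral_finsetSum, integral_finsetSum]
      · simp only [hgint]
        rw [integral_const]
        simp only [probReal_univ, smul_eq_mul, mul_one]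
        congr 1
        apply Finset.sum_congr rfl
        intro i _
        rw [integral_finsetSum _ fun j _ => hg2i i j]
        exact Finset.sum_congr rfl fun j _ => hg2int i j
      · intro i _
        exact integrable_finsetSum _ fun j _ => hg2i i j
      · intro i _
        exact hgi i
      · exact integrable_const _
      · exact integrable_finsetSum _ fun i _ => hgi i
      · exact (integrable_const (1 : ℝ)).sub (integrable_finsetSum _ fun i _ => hgi i)
      · exact integrable_finsetSum _ fun i _ => integrable_finsetSum _ fun j _ => hg2i i j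
    have h5 : l / 2 * Y ≤ ∑ i, (mf f).real (E i) := by
      rw [hY, Finset.mul_sum]
      apply Finset.sum_le_sum
      intro i _
      have := hEi i
      linarith
    have h6 : ∑ i, ∑ j ∈ Finset.univ.erase i, (mf f).real (E i ∩ E j) ≤ C' * l ^ 2 := by
      rw [hC', Finset.sum_mul]
      apply Finset.sum_le_sum
      intro i _
      rw [Finset.sum_mul]
      calc ∑ j ∈ Finset.univ.erase i, (mf f).real (E i ∩ E j) ≤
          ∑ j ∈ Finset.univ.erase i, C * y i * y j * l ^ 2 := by
            apply Finset.sum_le_sum
            intro j hj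
            have hij : i ≠ j := (Finset.ne_of_mem_erase hj).symm
            refine (hEij i j hij).trans (le_of_eq (by ring))
        _ ≤ ∑ j, C * y i * y j * l ^ 2 := by
            apply Finset.sum_le_sum_of_subset_of_nonneg (Finset.subset_univ _)
            intro j _ _
            exact mul_nonneg (mul_nonneg (mul_nonneg hC (hy i)) (hy j)) (sq_nonneg _)
    have h7 : G (mf f) (fun i => l * y i) = (mf f).real S := rfl
    rw [h7]
    linarith
  -- conclusion
  have hG0 : G (mf f) (fun _ => 0) = 1 := by
    unfold G
    have : {x : Fin n → ℝ | ∀ i, (0 : ℝ) ≤ |x i|} = Set.univ := by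
      ext x; simp
    rw [this]
    exact probReal_univ
  rcases (show 0 ≤ G (mf f) y from measureReal_nonneg).eq_or_lt with hz | hpos
  · rw [← hz]; exact (Real.exp_pos _).le
  rw [← Real.log_le_iff_le_exp hpos]
  apply le_of_forall_pos_le_add
  intro ε hε
  -- choose a small multiple
  set l : ℝ := min (1 / (Y + 2)) (ε / (C' + 1)) with hl
  have hlpos : 0 < l := by
    rw [hl]; apply lt_min <;> positivity
  have hl1 : l ≤ 1 / (Y + 2) := min_le_left _ _
  have hl2 : l ≤ ε / (C' + 1) := min_le_right _ _
  have hl3 : l * (Y + 2) ≤ 1 := by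
    rwa [le_div_iff₀ (by positivity)] at hl1
  have hl4 : l * (C' + 1) ≤ ε := by
    rwa [le_div_iff₀ (by positivity)] at hl2
  have hllt : l < 1 := by nlinarith
  have h1 := key l hlpos (by nlinarith)
  have h2 := ud_conc h y (fun _ => 0) hy (fun _ => le_rfl) l (1 - l) hlpos (by linarith) (by ring)
  rw [hG0, Real.one_rpow, mul_one] at h2
  have h3 : (fun i => l * y i + (1 - l) * 0) = fun i => l * y i := by
    funext i; ring
  rw [h3] at h2
  have h4 : 0 < G (mf f) y ^ l := Real.rpow_pos_of_pos hpos _
  have h5 : l * Real.log (G (mf f) y) ≤ G (mf f) (fun i => l * y i) - 1 := by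
    rw [← Real.log_rpow hpos]
    have h6 := Real.log_le_log h4 h2
    exact h6.trans (Real.log_le_sub_one_of_pos (h4.trans_le h2))
  have h7 : l * Real.log (G (mf f) y) ≤ l * (-Y / 2 + C' * l) := by
    nlinarith
  have h8 := le_of_mul_le_mul_left h7 hlpos
  nlinarith

end Pool.Agent.H57.SM
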