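import Pool.Agent.H57.SM.Tr2
import Pool.Agent.H57.SM.OrthF

set_option autoImplicit false

open MeasureTheory Finset Set
open scoped ENNReal

namespace Pool.Agent.H57.SM

/-! ## T22 Three.lean -/


theorem t22_orth_meas (n : ℕ) : MeasurableSet (Orth n) := by
  have : Orth n = Set.univ.pi fun _ => Ioi 0 := by
    ext x; simp [Orth]
  rw [this]
  exact MeasurableSet.univ_pi fun _ => measurableSet_Ioi

theorem t22_zero_meas {n : ℕ} (I : Finset (Fin n)) :
    Measurable (fun x : Fin n → ℝ => fun i => if i ∈ I then (0 : ℝ) else x i / 20) := by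
  rw [measurable_pi_iff]
  intro i
  by_cases h : i ∈ I
  · simp [h]
  · simp only [h, if_false]
    fun_prop

theorem t22_wt_meas {n : ℕ} {Q : Set (Fin n → ℝ)} (hQ : MeasurableSet Q) :
    Measurable (wt Q) := by
  unfold wt
  apply Measurable.iInf
  intro I
  classical
  have h1 : (fun x : Fin n → ℝ => ⨅ _ : (fun i => if i ∈ I then 0 else x i / 20) ∈ Q,
      ENNReal.ofReal (Real.exp (4 * (I.card : ℝ)))) =
      fun x => if x ∈ (fun x : Fin n → ℝ => fun i => if i ∈ I then (0 : ℝ) else x i / 20) ⁻¹' Q
        then ENNReal.ofReal (Real.exp (4 * (I.card : ℝ))) else ⊤ := by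
    funext x
    by_cases hx : (fun i => if i ∈ I then 0 else x i / 20) ∈ Q
    · simp [hx]
    · simp [hx]
  rw [h1]
  exact Measurable.ite (t22_zero_meas I hQ) measurable_const measurable_const

theorem t22_cons_meas (n : ℕ) (s : ℝ) :
    Measurable (fun x : Fin n → ℝ => (Fin.cons s x : Fin (n + 1) → ℝ)) :=
  (UncA.measurable_cons n).comp (measurable_const.prodMk measurable_id)

theorem t22_wt_le {n : ℕ} {Q : Set (Fin n → ℝ)} {x : Fin n → ℝ} (I : Finset (Fin n))
    (h : (fun i => if i ∈ I then 0 else x i / 20) ∈ Q) :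
    wt Q x ≤ ENNReal.ofReal (Real.exp (4 * (I.card : ℝ))) := by
  unfold wt
  exact iInf₂_le I h

/-- one more coordinate costs at most a factor `e^4` -/
theorem t22_wt_cons {n : ℕ} {Q : Set (Fin (n + 1) → ℝ)} (hD : Down Q) {X x : ℝ}
    (hX : 0 < X) (hx : 0 < x) {X' : Fin n → ℝ} (hX' : ∀ i, 0 < X' i) :
    wt Q (Fin.cons X X') ≤ (if 20 * x < X then ENNReal.ofReal (Real.exp 4) else 1) *
      wt {x' : Fin n → ℝ | (Fin.cons x x' : Fin (n + 1) → ℝ) ∈ Q} X' := by
  classical
  have hc0 : (if 20 * x < X then ENNReal.ofReal (Real.exp 4) else 1) ≠ 0 := by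
    split_ifs
    · simp [Real.exp_pos]
    · simp
  have hct : (if 20 * x < X then ENNReal.ofReal (Real.exp 4) else 1) ≠ ⊤ := by
    split_ifs <;> simp
  conv_rhs => unfold wt
  rw [ENNReal.mul_iInf_of_ne hc0 hct]
  refine le_iInf fun I => ?_
  rw [ENNReal.mul_iInf_of_ne hc0 hct]
  refine le_iInf fun hI => ?_
  have hI' : (Fin.cons x (fun i => if i ∈ I then 0 else X' i / 20) : Fin (n + 1) → ℝ) ∈ Q := hI
  by_cases h : 20 * x < X
  · rw [if_pos h]
    have hmem : (fun i => if i ∈ insert 0 (I.image Fin.succ) then (0 : ℝ) else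
        (Fin.cons X X' : Fin (n + 1) → ℝ) i / 20) ∈ Q := by
      refine hD _ hI' _ fun i => ?_
      refine Fin.cases ?_ (fun j => ?_) i
      · simp [hx.le]
      · by_cases hj : j ∈ I
        · simp [hj]
        · have : ¬ (j.succ ∈ insert (0 : Fin (n + 1)) (I.image Fin.succ)) := by
            simp [hj, Fin.succ_ne_zero]
          rw [if_neg this]
          simp only [Fin.cons_succ, if_neg hj]
          have := hX' j
          constructor
          · positivity
          · exact le_refl _
    refine (t22_wt_le _ hmem).trans ?_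
    rw [← ENNReal.ofReal_mul (Real.exp_pos _).le, ← Real.exp_add]
    apply ENNReal.ofReal_le_ofReal
    apply Real.exp_le_exp.mpr
    have h1 : (insert (0 : Fin (n + 1)) (I.image Fin.succ)).card ≤ I.card + 1 :=
      (Finset.card_insert_le _ _).trans (by
        gcongr
        exact Finset.card_image_le)
    have h2 : ((insert (0 : Fin (n + 1)) (I.image Fin.succ)).card : ℝ) ≤ I.card + 1 := by
      exact_mod_cast h1
    linarith
  · rw [if_neg h, one_mul]
    have hmem : (fun i => if i ∈ (I.image Fin.succ) then (0 : ℝ) else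
        (Fin.cons X X' : Fin (n + 1) → ℝ) i / 20) ∈ Q := by
      refine hD _ hI' _ fun i => ?_
      refine Fin.cases ?_ (fun j => ?_) i
      · have : ¬ ((0 : Fin (n + 1)) ∈ I.image Fin.succ) := by
          simp [Fin.succ_ne_zero]
        rw [if_neg this]
        simp only [Fin.cons_zero]
        constructor
        · positivity
        · push Not at h
          linarith
      · by_cases hj : j ∈ I
        · simp [hj]
        · have : ¬ (j.succ ∈ (I.image Fin.succ)) := by
            simp [hj]
          rw [if_neg this]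
          simp only [Fin.cons_succ, if_neg hj]
          have := hX' j
          constructor
          · positivity
          · exact le_refl _
    refine (t22_wt_le _ hmem).trans ?_
    apply ENNReal.ofReal_le_ofReal
    apply Real.exp_le_exp.mpr
    have h2 : ((I.image Fin.succ).card : ℝ) ≤ I.card := by
      exact_mod_cast Finset.card_image_le
    linarith

theorem three (n : ℕ) (Q : Set (Fin n → ℝ)) (hQ : MeasurableSet Q) (hD : Down Q)
    (g1 g2 g3 : (Fin n → ℝ) → ℝ≥0∞) (m1 : Measurable g1) (m2 : Measurable g2)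
    (m3 : Measurable g3)
    (a2 : ∀ x y : Fin n → ℝ, (∀ i, 0 < x i ∧ x i ≤ y i) → g2 y ≤ g2 x)
    (a3 : ∀ x y : Fin n → ℝ, (∀ i, 0 < x i ∧ x i ≤ y i) → g3 y ≤ g3 x)
    (H : ∀ X x : Fin n → ℝ, (∀ i, 0 < X i) → (∀ i, 0 < x i) →
      g1 X ^ (1 / 21 : ℝ) * g2 x ^ (20 / 21 : ℝ) ≤ g3 (fun i => 1 / 21 * X i + 20 / 21 * x i)) :
    (∫⁻ x in Orth n, wt Q x * g1 x) ^ (1 / 21 : ℝ) *
      (∫⁻ x in Orth n ∩ Q, g2 x) ^ (20 / 21 : ℝ) ≤ ∫⁻ x in Orth n, g3 x := by
  induction n with
  | zero =>
    have h1 : Orth 0 = univ := by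
      ext x; simp [Orth]
    have h2 : ∀ f : (Fin 0 → ℝ) → ℝ≥0∞, ∫⁻ x, f x = f (fun i => i.elim0) := by
      intro f
      rw [lintegral_unique]
      have : volume (univ : Set (Fin 0 → ℝ)) = 1 := by
        rw [volume_pi, Measure.pi_univ]; simp
      rw [this, mul_one]
      exact congrArg f (funext fun i => i.elim0)
    rw [h1, Measure.restrict_univ, Set.univ_inter, h2, h2, ← lintegral_indicator hQ, h2]
    by_cases hq : (fun i : Fin 0 => (i.elim0 : ℝ)) ∈ Q
    · have h3 := H (fun i => i.elim0) (fun i => i.elim0) (fun i => i.elim0) (fun i => i.elim0)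
      have h4 : (fun i : Fin 0 => 1 / 21 * (i.elim0 : ℝ) + 20 / 21 * (i.elim0 : ℝ)) =
        fun i => i.elim0 := funext fun i => i.elim0
      rw [h4] at h3
      rw [indicator_of_mem hq]
      have h5 : wt Q (fun i : Fin 0 => (i.elim0 : ℝ)) ≤ 1 := by
        refine (t22_wt_le ∅ ?_).trans ?_
        · rw [show (fun i : Fin 0 => if i ∈ (∅ : Finset (Fin 0)) then (0 : ℝ) else i.elim0 / 20) =
            fun i => i.elim0 from funext fun i => i.elim0]
          exact hq
        · simp
      refine le_trans ?_ h3
      gcongr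
      calc _ ≤ 1 * g1 (fun i => i.elim0) := by gcongr
        _ = _ := one_mul _
    · rw [indicator_of_notMem hq, ENNReal.zero_rpow_of_pos (by norm_num), mul_zero]
      exact zero_le
  | succ n ih =>
    have hwm := t22_wt_meas hQ
    have hOQ : MeasurableSet (Orth (n + 1) ∩ Q) := (t22_orth_meas _).inter hQ
    have e1 : ∫⁻ x in Orth (n + 1), wt Q x * g1 x = ∫⁻ s in Ioi (0 : ℝ), ∫⁻ x in Orth n,
        wt Q (Fin.cons s x) * g1 (Fin.cons s x) :=
      UncA.lint_succ n (hwm.mul m1)
    have e2 : ∫⁻ x in Orth (n + 1) ∩ Q, g2 x = ∫⁻ s in Ioi (0 : ℝ), ∫⁻ x in Orth n,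
        Q.indicator g2 (Fin.cons s x) := by
      have e2' := UncA.lint_succ n (m2.indicator hQ)
      change _ = ∫⁻ s in Ioi (0 : ℝ), ∫⁻ x in {x : Fin n → ℝ | ∀ i, 0 < x i},
        Q.indicator g2 (Fin.cons s x)
      rw [← e2']
      change _ = ∫⁻ x in Orth (n + 1), _
      rw [setLIntegral_indicator hQ, Set.inter_comm]
    have e3 : ∫⁻ x in Orth (n + 1), g3 x = ∫⁻ s in Ioi (0 : ℝ), ∫⁻ x in Orth n,
        g3 (Fin.cons s x) :=
      UncA.lint_succ n m3
    rw [e1, e2, e3]
    apply tr2
    · exact Measurable.lintegral_prod_right' ((hwm.mul m1).comp (UncA.measurable_cons n))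
    · exact Measurable.lintegral_prod_right' ((m2.indicator hQ).comp (UncA.measurable_cons n))
    · exact Measurable.lintegral_prod_right' (m3.comp (UncA.measurable_cons n))
    · intro s hs t ht hst
      apply setLIntegral_mono' (t22_orth_meas n)
      intro x hx
      by_cases hq : (Fin.cons t x : Fin (n + 1) → ℝ) ∈ Q
      · have hq' : (Fin.cons s x : Fin (n + 1) → ℝ) ∈ Q := by
          refine hD _ hq _ fun i => ?_
          refine Fin.cases ?_ (fun j => ?_) i
          · simpa using ⟨le_of_lt hs, hst⟩
          · simpa using (hx j).le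
        rw [indicator_of_mem hq, indicator_of_mem hq']
        apply a2
        intro i
        refine Fin.cases ?_ (fun j => ?_) i
        · simpa using ⟨hs, hst⟩
        · simpa using (hx j)
      · rw [indicator_of_notMem hq]
        exact zero_le
    · intro s hs t ht hst
      apply setLIntegral_mono' (t22_orth_meas n)
      intro x hx
      apply a3
      intro i
      refine Fin.cases ?_ (fun j => ?_) i
      · simpa using ⟨hs, hst⟩
      · simpa using (hx j)
    · intro X x hX hx
      set c : ℝ≥0∞ := (if 20 * x < X then ENNReal.ofReal (Real.exp 4) else 1) with hc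
      have hQx : MeasurableSet {x' : Fin n → ℝ | (Fin.cons x x' : Fin (n + 1) → ℝ) ∈ Q} :=
        t22_cons_meas n x hQ
      have hI := ih {x' : Fin n → ℝ | (Fin.cons x x' : Fin (n + 1) → ℝ) ∈ Q} hQx
        (by
          intro u hu v hv
          refine hD _ hu _ fun i => ?_
          refine Fin.cases ?_ (fun j => ?_) i
          · simpa using hx.le
          · simpa using hv j)
        (fun y => g1 (Fin.cons X y)) (fun y => g2 (Fin.cons x y))
        (fun y => g3 (Fin.cons (1 / 21 * X + 20 / 21 * x) y))
        (m1.comp (t22_cons_meas n _)) (m2.comp (t22_cons_meas n _)) (m3.comp (t22_cons_meas n _))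
        (by
          intro u v huv
          apply a2
          intro i
          refine Fin.cases ?_ (fun j => ?_) i
          · simpa using hx
          · simpa using huv j)
        (by
          intro u v huv
          apply a3
          intro i
          refine Fin.cases ?_ (fun j => ?_) i
          · have : 0 < 1 / 21 * X + 20 / 21 * x := by positivity
            simpa using this
          · simpa using huv j)
        (by
          intro U u hU hu
          have h3 := H (Fin.cons X U) (Fin.cons x u) (by
              intro i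
              refine Fin.cases ?_ (fun j => ?_) i
              · simpa using hX
              · simpa using hU j) (by
              intro i
              refine Fin.cases ?_ (fun j => ?_) i
              · simpa using hx
              · simpa using hu j)
          convert h3 using 2
          funext i
          refine Fin.cases ?_ (fun j => ?_) i
          · simp
          · simp)
      have hA : ∫⁻ y in Orth n, wt Q (Fin.cons X y) * g1 (Fin.cons X y) ≤
          c * ∫⁻ y in Orth n, wt {x' : Fin n → ℝ | (Fin.cons x x' : Fin (n + 1) → ℝ) ∈ Q} y *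
            g1 (Fin.cons X y) := by
        have hmm : Measurable (fun y : Fin n → ℝ =>
            wt {x' : Fin n → ℝ | (Fin.cons x x' : Fin (n + 1) → ℝ) ∈ Q} y *
              g1 (Fin.cons X y)) :=
          (t22_wt_meas hQx).mul (m1.comp (t22_cons_meas n _))
        rw [← lintegral_const_mul _ hmm]
        apply setLIntegral_mono' (t22_orth_meas n)
        intro y hy
        rw [← mul_assoc]
        gcongr
        exact t22_wt_cons hD hX hx hy
      have hB : ∫⁻ y in Orth n, Q.indicator g2 (Fin.cons x y) =
          ∫⁻ y in Orth n ∩ {x' : Fin n → ℝ | (Fin.cons x x' : Fin (n + 1) → ℝ) ∈ Q},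
            g2 (Fin.cons x y) := by
        rw [Set.inter_comm, ← setLIntegral_indicator hQx]
        rfl
      have hcc : c ^ (1 / 21 : ℝ) =
          (if 20 * x < X then ENNReal.ofReal (Real.exp (4 / 21)) else 1) := by
        rw [hc]
        split_ifs
        · rw [ENNReal.ofReal_rpow_of_pos (Real.exp_pos _), ← Real.exp_mul]
          congr 2
          norm_num
        · simp
      rw [hB, ← hcc]
      calc _ ≤ (c * ∫⁻ y in Orth n,
              wt {x' : Fin n → ℝ | (Fin.cons x x' : Fin (n + 1) → ℝ) ∈ Q} y *
              g1 (Fin.cons X y)) ^ (1 / 21 : ℝ) * _ := by gcongr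
        _ = c ^ (1 / 21 : ℝ) * ((∫⁻ y in Orth n,
              wt {x' : Fin n → ℝ | (Fin.cons x x' : Fin (n + 1) → ℝ) ∈ Q} y *
              g1 (Fin.cons X y)) ^ (1 / 21 : ℝ) *
              (∫⁻ y in Orth n ∩ {x' : Fin n → ℝ | (Fin.cons x x' : Fin (n + 1) → ℝ) ∈ Q},
                g2 (Fin.cons x y)) ^ (20 / 21 : ℝ)) := by
          rw [ENNReal.mul_rpow_of_nonneg _ _ (by norm_num), mul_assoc]
        _ ≤ _ := by gcongr

end Pool.Agent.H57.SM
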