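import Pool.Agent.H57.SM.Defs
import Pool.Agent.H57.SM.Anti
import Pool.Agent.H57.SM.Tail
import Pool.Agent.H57.SM.Three

/-!
# The distance inequality for densities, T23
-/

set_option autoImplicit false

open MeasureTheory Finset Set
open scoped ENNReal

namespace Pool.Agent.H57.SM

theorem t23_near_meas {n : ℕ} {Q : Set (Fin n → ℝ)} (hQ : MeasurableSet Q) (k : ℕ) :
    MeasurableSet {x : Fin n → ℝ | ¬ Near Q k x} := by
  have e : {x : Fin n → ℝ | Near Q k x} = ⋃ I ∈ {I : Finset (Fin n) | I.card ≤ k},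
      (fun (x : Fin n → ℝ) (i : Fin n) => if i ∈ I then 0 else |x i| / 20) ⁻¹' Q := by
    ext x
    constructor
    · rintro ⟨I, hI, hx⟩
      exact mem_biUnion hI hx
    · intro hx
      obtain ⟨I, hI, hx⟩ := mem_iUnion₂.1 hx
      exact ⟨I, hI, hx⟩
  have hm : MeasurableSet {x : Fin n → ℝ | Near Q k x} := by
    rw [e]
    refine MeasurableSet.biUnion (Set.to_countable _) fun I _ => ?_
    refine MeasurableSet.preimage hQ ?_
    refine measurable_pi_lambda _ fun i => ?_
    by_cases hi : i ∈ I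
    · simp only [hi, if_true]; exact measurable_const
    · simp only [hi, if_false]
      exact ((measurable_pi_apply i).norm).div_const 20
  exact hm.compl

theorem t23_near_abs {n : ℕ} (Q : Set (Fin n → ℝ)) (k : ℕ) (x : Fin n → ℝ) :
    Near Q k (fun i => |x i|) ↔ Near Q k x := by
  simp only [Near, abs_abs]

theorem t23_wt {n : ℕ} {Q : Set (Fin n → ℝ)} {k : ℕ} {x : Fin n → ℝ} (hx : x ∈ Orth n)
    (h : ¬ Near Q k x) : ENNReal.ofReal (Real.exp (4 * (k + 1))) ≤ wt Q x := by
  refine le_iInf fun I => le_iInf fun hI => ?_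
  refine ENNReal.ofReal_le_ofReal (Real.exp_le_exp.2 ?_)
  have hk : k < I.card := by
    by_contra hcon
    refine h ⟨I, not_lt.1 hcon, ?_⟩
    have : (fun i => if i ∈ I then 0 else |x i| / 20) = fun i => if i ∈ I then 0 else x i / 20 := by
      funext i
      rw [abs_of_pos (hx i)]
    rw [this]
    exact hI
  have : (k : ℝ) + 1 ≤ I.card := by exact_mod_cast hk
  linarith

theorem ud_rat {n : ℕ} {f : (Fin n → ℝ) → ℝ≥0∞} (h : UD f) (Q : Set (Fin n → ℝ))
    (hQ : MeasurableSet Q) (hD : Down Q) (hQ2 : 1 / 2 ≤ (mf f).real {x | (fun i => |x i|) ∈ Q})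
    (k : ℕ) : (mf f).real {x | ¬ Near Q k x} ≤ 2 ^ 20 * Real.exp (-4 * (k + 1)) := by
  have hprob := ud_prob h
  have hanti : ∀ x y : Fin n → ℝ, (∀ i, 0 < x i ∧ x i ≤ y i) → f y ≤ f x := fun x y hxy =>
    ud_anti h fun i => by
      rw [abs_of_pos (hxy i).1, abs_of_pos ((hxy i).1.trans_le (hxy i).2)]
      exact (hxy i).2
  have h3 := three n Q hQ hD f f f h.meas h.meas h.meas hanti hanti
    (fun X x _ _ => h.lc X x (1 / 21) (20 / 21) (by norm_num) (by norm_num) (by norm_num))
  set c : ℝ≥0∞ := 2 ^ n with hc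
  have hc0 : c ≠ 0 := by positivity
  have hct : c ≠ ∞ := by simp [hc]
  -- total mass
  have e1 : c * ∫⁻ x in Orth n, f x = 1 := by
    have := ud_orth h (F := fun _ => 1) measurable_const
    simp only [one_mul, lintegral_const, measure_univ, mul_one] at this
    exact this.symm
  -- the set `Q`
  have e2 : (mf f) {x | (fun i => |x i|) ∈ Q} = c * ∫⁻ x in Orth n ∩ Q, f x := by
    have hF : Measurable (Q.indicator (1 : (Fin n → ℝ) → ℝ≥0∞)) := measurable_one.indicator hQ
    have := ud_orth h (F := Q.indicator 1) hF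
    have habs : Measurable (fun (x : Fin n → ℝ) (i : Fin n) => |x i|) :=
      measurable_pi_lambda _ fun i => (measurable_pi_apply i).norm
    have e3 : ∫⁻ x, (Q.indicator (1 : (Fin n → ℝ) → ℝ≥0∞)) (fun i => |x i|) ∂(mf f) =
        (mf f) {x | (fun i => |x i|) ∈ Q} := by
      have e4 : (fun x : Fin n → ℝ => (Q.indicator (1 : (Fin n → ℝ) → ℝ≥0∞)) (fun i => |x i|)) =
          ({x : Fin n → ℝ | (fun i => |x i|) ∈ Q}).indicator 1 := by
        funext x
        by_cases hx : (fun i => |x i|) ∈ Q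
        · rw [Set.indicator_of_mem hx, Set.indicator_of_mem (s := {x : Fin n → ℝ |
            (fun i => |x i|) ∈ Q}) hx]; rfl
        · rw [Set.indicator_of_notMem hx, Set.indicator_of_notMem (s := {x : Fin n → ℝ |
            (fun i => |x i|) ∈ Q}) hx]
      rw [e4]
      exact lintegral_indicator_one (habs hQ)
    rw [e3] at this
    rw [this]
    congr 1
    have e5 : (fun x : Fin n → ℝ => Q.indicator (1 : (Fin n → ℝ) → ℝ≥0∞) x * f x) =
        Q.indicator f := by
      funext x
      by_cases hx : x ∈ Q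
      · rw [Set.indicator_of_mem hx, Set.indicator_of_mem hx, Pi.one_apply, one_mul]
      · rw [Set.indicator_of_notMem hx, Set.indicator_of_notMem hx, zero_mul]
    rw [e5, lintegral_indicator hQ, Measure.restrict_restrict hQ, Set.inter_comm]
  -- the exceptional set
  set N : Set (Fin n → ℝ) := {x | ¬ Near Q k x} with hN
  have hNm : MeasurableSet N := t23_near_meas hQ k
  have e6 : (mf f) N = c * ∫⁻ x in Orth n, N.indicator 1 x * f x := by
    have := ud_orth h (F := N.indicator 1) (measurable_one.indicator hNm)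
    rw [← this]
    have e7 : (fun x : Fin n → ℝ => (N.indicator (1 : (Fin n → ℝ) → ℝ≥0∞)) (fun i => |x i|)) =
        N.indicator 1 := by
      funext x
      by_cases hx : x ∈ N
      · have hx2 : (fun i => |x i|) ∈ N := fun hh => hx ((t23_near_abs Q k x).1 hh)
        rw [Set.indicator_of_mem hx, Set.indicator_of_mem hx2]; rfl
      · have hx2 : (fun i => |x i|) ∉ N := fun hh => hx fun hh2 => hh ((t23_near_abs Q k x).2 hh2)
        rw [Set.indicator_of_notMem hx, Set.indicator_of_notMem hx2]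
    rw [e7, lintegral_indicator_one hNm]
  have e8 : (mf f) N ≤ ENNReal.ofReal (Real.exp (-4 * (k + 1))) *
      (c * ∫⁻ x in Orth n, wt Q x * f x) := by
    rw [e6, mul_left_comm]
    refine mul_le_mul_right ?_ c
    rw [← lintegral_const_mul' _ _ ENNReal.ofReal_ne_top]
    have hOm : MeasurableSet (Orth n) := by
      have : Orth n = Set.pi Set.univ fun _ : Fin n => Set.Ioi (0 : ℝ) := by
        ext x; simp [Orth]
      rw [this]
      exact MeasurableSet.univ_pi fun _ => measurableSet_Ioi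
    refine setLIntegral_mono' hOm fun x hx => ?_
    by_cases hxN : x ∈ N
    · rw [Set.indicator_of_mem hxN, Pi.one_apply, ← mul_assoc]
      refine mul_le_mul_left ?_ _
      calc (1 : ℝ≥0∞) = ENNReal.ofReal (Real.exp (-4 * (k + 1))) *
            ENNReal.ofReal (Real.exp (4 * (k + 1))) := by
            rw [← ENNReal.ofReal_mul (Real.exp_pos _).le, ← Real.exp_add]
            norm_num
        _ ≤ _ := mul_le_mul_right (t23_wt hx hxN) _
    · rw [Set.indicator_of_notMem hxN, zero_mul]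
      exact bot_le
  -- the three function inequality
  set M : ℝ≥0∞ := c * ∫⁻ x in Orth n, wt Q x * f x with hM
  have h4 : M ^ (1 / 21 : ℝ) * (1 / 2 : ℝ≥0∞) ^ (20 / 21 : ℝ) ≤ 1 := by
    have h5 : (1 / 2 : ℝ≥0∞) ≤ c * ∫⁻ x in Orth n ∩ Q, f x := by
      rw [← e2]
      have := ENNReal.ofReal_le_ofReal hQ2
      rw [ofReal_measureReal] at this
      refine le_trans (le_of_eq ?_) this
      rw [one_div, one_div, ENNReal.ofReal_inv_of_pos (by norm_num), ENNReal.ofReal_ofNat]
    calc M ^ (1 / 21 : ℝ) * (1 / 2 : ℝ≥0∞) ^ (20 / 21 : ℝ)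
        ≤ M ^ (1 / 21 : ℝ) * (c * ∫⁻ x in Orth n ∩ Q, f x) ^ (20 / 21 : ℝ) :=
          mul_le_mul_right (ENNReal.rpow_le_rpow h5 (by norm_num)) _
      _ = c * ((∫⁻ x in Orth n, wt Q x * f x) ^ (1 / 21 : ℝ) *
            (∫⁻ x in Orth n ∩ Q, f x) ^ (20 / 21 : ℝ)) := by
          rw [hM, ENNReal.mul_rpow_of_nonneg _ _ (by norm_num),
            ENNReal.mul_rpow_of_nonneg _ _ (by norm_num), mul_mul_mul_comm,
            ← ENNReal.rpow_add _ _ hc0 hct]
          norm_num
      _ ≤ c * ∫⁻ x in Orth n, f x := mul_le_mul_right h3 _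
      _ = 1 := e1
  have h6 : M ≤ 2 ^ 20 := by
    have h7 := ENNReal.rpow_le_rpow h4 (by norm_num : (0 : ℝ) ≤ 21)
    rw [ENNReal.mul_rpow_of_nonneg _ _ (by norm_num), ← ENNReal.rpow_mul, ← ENNReal.rpow_mul,
      ENNReal.one_rpow] at h7
    norm_num at h7
    have h8 : M * (1 / 2 : ℝ≥0∞) ^ 20 ≤ 1 := by
      refine le_trans (le_of_eq ?_) h7
      congr 1
      norm_num
      try rfl
    have h9 : M = M * (1 / 2 : ℝ≥0∞) ^ 20 * 2 ^ 20 := by
      rw [mul_assoc, ← mul_pow, one_div, ENNReal.inv_mul_cancel (by norm_num) (by norm_num),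
        one_pow, mul_one]
    rw [h9]
    calc M * (1 / 2 : ℝ≥0∞) ^ 20 * 2 ^ 20 ≤ 1 * 2 ^ 20 := mul_le_mul_left h8 _
      _ = 2 ^ 20 := one_mul _
  have h10 : (mf f) N ≤ ENNReal.ofReal (2 ^ 20 * Real.exp (-4 * (k + 1))) := by
    refine e8.trans ?_
    rw [mul_comm (2 ^ 20 : ℝ), ENNReal.ofReal_mul (Real.exp_pos _).le]
    refine mul_le_mul_right (h6.trans (le_of_eq ?_)) _
    rw [ENNReal.ofReal_pow (by norm_num)]
    norm_num
  have := ENNReal.toReal_mono ENNReal.ofReal_ne_top h10
  rwa [ENNReal.toReal_ofReal (by positivity)] at this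

theorem ud_rdy {n : ℕ} {f : (Fin n → ℝ) → ℝ≥0∞} (h : UD f)
    (hm : ∀ i, (mf f).real {x | |x i| < 1} = 1 / 2) : Rdy (mf f) where
  prob := ud_prob h
  sgn := ud_sgn h
  conc := fun y y' hy hy' a b ha hb hab => ud_conc h y y' hy hy' a b ha hb hab
  tail := fun y hy => ud_tail h hm y hy
  half := fun i => by
    have hprob := ud_prob h
    have hms : MeasurableSet {x : Fin n → ℝ | |x i| < 1} :=
      measurableSet_lt ((measurable_pi_apply i).norm) measurable_const
    have e : {x : Fin n → ℝ | 1 ≤ |x i|} = {x : Fin n → ℝ | |x i| < 1}ᶜ := by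
      ext x; simp
    rw [e, measureReal_compl hms, hm i]
    norm_num
  rat := fun Q hQ hD hQ2 k => ud_rat h Q hQ hD hQ2 k

end Pool.Agent.H57.SM
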