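import Pool.Agent.H57.SM.Core
import Pool.Agent.H57.SM.Rat

/-!
# Coordinatewise scaling
-/

set_option autoImplicit false

open MeasureTheory Finset Set
open scoped ENNReal

namespace Pool.Agent.H57.SM

theorem t24_lint {n : ℕ} (a : Fin n → ℝ) (ha : ∀ i, 0 < a i) {F : (Fin n → ℝ) → ℝ≥0∞}
    (hF : Measurable F) :
    ∫⁻ y, F y = ENNReal.ofReal (∏ i, a i) * ∫⁻ x : Fin n → ℝ, F (fun i => a i * x i) := by
  have hdet : (Matrix.diagonal a).det = ∏ i, a i := Matrix.det_diagonal
  have hpos : 0 < ∏ i, a i := Finset.prod_pos fun i _ => ha i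
  have hne : (Matrix.diagonal a).det ≠ 0 := by rw [hdet]; exact hpos.ne'
  have h1 := Real.smul_map_diagonal_volume_pi hne
  have hL : Measurable (⇑(Matrix.toLin' (Matrix.diagonal a))) :=
    (LinearMap.continuous_of_finiteDimensional _).measurable
  conv_lhs => rw [← h1]
  rw [lintegral_smul_measure, lintegral_map hF hL, hdet, abs_of_pos hpos, smul_eq_mul]
  congr 1
  refine lintegral_congr fun x => ?_
  congr 1
  funext i
  rw [Matrix.toLin'_apply, Matrix.mulVec_diagonal]

theorem t24_set {n : ℕ} (a : Fin n → ℝ) (ha : ∀ i, 0 < a i) {f : (Fin n → ℝ) → ℝ≥0∞}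
    (hf : Measurable f) {s : Set (Fin n → ℝ)} (hs : MeasurableSet s) :
    ∫⁻ y in s, f y = ∫⁻ x in {x : Fin n → ℝ | (fun i => a i * x i) ∈ s},
      ENNReal.ofReal (∏ i, a i) * f (fun i => a i * x i) := by
  have hm : Measurable (fun x : Fin n → ℝ => (fun i => a i * x i : Fin n → ℝ)) :=
    by fun_prop
  have hs' : MeasurableSet {x : Fin n → ℝ | (fun i => a i * x i) ∈ s} := hs.preimage hm
  have hcomp : Measurable (fun x : Fin n → ℝ => s.indicator f (fun i => a i * x i)) :=
    (hf.indicator hs).comp hm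
  rw [← lintegral_indicator hs, t24_lint a ha (hf.indicator hs), ← lintegral_indicator hs',
    ← lintegral_const_mul _ hcomp]
  refine lintegral_congr fun x => ?_
  by_cases hx : (fun i => a i * x i) ∈ s
  · rw [Set.indicator_of_mem hx, Set.indicator_of_mem (show x ∈ {x : Fin n → ℝ |
      (fun i => a i * x i) ∈ s} from hx)]
  · rw [Set.indicator_of_notMem hx, Set.indicator_of_notMem (show x ∉ {x : Fin n → ℝ |
      (fun i => a i * x i) ∈ s} from hx), mul_zero]

theorem ud_scale {n : ℕ} {f : (Fin n → ℝ) → ℝ≥0∞} (h : UD f) (a : Fin n → ℝ)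
    (ha : ∀ i, 0 < a i) :
    UD (fun x => ENNReal.ofReal (∏ i, a i) * f (fun i => a i * x i)) ∧
    mf (fun x => ENNReal.ofReal (∏ i, a i) * f (fun i => a i * x i)) =
      (mf f).map (fun x i => x i / a i) := by
  have hpos : 0 < ∏ i, a i := Finset.prod_pos fun i _ => ha i
  have hm : Measurable (fun x : Fin n → ℝ => (fun i => a i * x i : Fin n → ℝ)) :=
    by fun_prop
  set c : ℝ≥0∞ := ENNReal.ofReal (∏ i, a i) with hc
  have hc0 : c ≠ 0 := by rw [hc, Ne, ENNReal.ofReal_eq_zero, not_le]; exact hpos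
  have hct : c ≠ ∞ := ENNReal.ofReal_ne_top
  refine ⟨⟨(h.meas.comp hm).const_mul c, ?_, ?_, ?_, ?_⟩, ?_⟩
  · intro x y s t hs ht hst
    rw [ENNReal.mul_rpow_of_nonneg _ _ hs.le, ENNReal.mul_rpow_of_nonneg _ _ ht.le]
    have h1 : c ^ s * c ^ t = c := by
      rw [← ENNReal.rpow_add _ _ hc0 hct, hst, ENNReal.rpow_one]
    have h2 := h.lc (fun i => a i * x i) (fun i => a i * y i) s t hs ht hst
    have h3 : (fun i => s * (a i * x i) + t * (a i * y i)) =
        fun i => a i * (s * x i + t * y i) := by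
      funext i; ring
    rw [h3] at h2
    calc c ^ s * f (fun i => a i * x i) ^ s * (c ^ t * f (fun i => a i * y i) ^ t)
        = (c ^ s * c ^ t) * (f (fun i => a i * x i) ^ s * f (fun i => a i * y i) ^ t) := by ring
      _ ≤ c * f (fun i => a i * (s * x i + t * y i)) := by
          rw [h1]
          exact mul_le_mul_right h2 c
  · intro x ε hε
    have h1 := h.ev (fun i => a i * x i) ε hε
    have h2 : (fun i => ε i * (a i * x i)) = fun i => a i * (ε i * x i) := by
      funext i; ring
    rw [h2] at h1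
    rw [h1]
  · have hcomp : Measurable (fun x : Fin n → ℝ => f (fun i => a i * x i)) := h.meas.comp hm
    rw [lintegral_const_mul _ hcomp, ← t24_lint a ha h.meas]
    exact h.int
  · obtain ⟨C, hC, hp⟩ := h.pair
    refine ⟨C * (∑ i, a i) ^ 2, by positivity, ?_⟩
    intro i j hij s t hs ht
    have hms : MeasurableSet {y : Fin n → ℝ | |y i| < a i * s ∧ |y j| < a j * t} := by
      refine MeasurableSet.inter ?_ ?_
      · exact measurableSet_lt (measurable_pi_apply i).abs measurable_const
      · exact measurableSet_lt (measurable_pi_apply j).abs measurable_const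
    have h1 := t24_set a ha h.meas hms
    have h2 : {x : Fin n → ℝ | (fun i => a i * x i) ∈
        {y : Fin n → ℝ | |y i| < a i * s ∧ |y j| < a j * t}} =
        {x | |x i| < s ∧ |x j| < t} := by
      ext x
      change (|a i * x i| < a i * s ∧ |a j * x j| < a j * t) ↔ (|x i| < s ∧ |x j| < t)
      rw [abs_mul, abs_mul, abs_of_pos (ha i), abs_of_pos (ha j), mul_lt_mul_iff_right₀ (ha i),
        mul_lt_mul_iff_right₀ (ha j)]
    rw [h2] at h1
    rw [← h1]
    refine (hp i j hij (a i * s) (a j * t) (mul_nonneg (ha i).le hs)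
      (mul_nonneg (ha j).le ht)).trans ?_
    apply ENNReal.ofReal_le_ofReal
    have h3 : a i ≤ ∑ i, a i := Finset.single_le_sum (fun k _ => (ha k).le) (Finset.mem_univ i)
    have h4 : a j ≤ ∑ i, a i := Finset.single_le_sum (fun k _ => (ha k).le) (Finset.mem_univ j)
    have h5 : a i * a j ≤ (∑ i, a i) ^ 2 := by
      rw [pow_two]
      exact mul_le_mul h3 h4 (ha j).le ((ha i).le.trans h3)
    calc C * (a i * s) * (a j * t) = (a i * a j) * (C * s * t) := by ring
      _ ≤ (∑ i, a i) ^ 2 * (C * s * t) := mul_le_mul_of_nonneg_right h5 (by positivity)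
      _ = C * (∑ i, a i) ^ 2 * s * t := by ring
  · have hd : Measurable (fun x : Fin n → ℝ => (fun i => x i / a i : Fin n → ℝ)) :=
      by fun_prop
    ext s hs
    rw [Measure.map_apply hd hs, mf, mf, withDensity_apply _ hs, withDensity_apply _ (hd hs),
      t24_set a ha h.meas (hd hs)]
    congr 2
    ext x
    have : (fun i => a i * x i / a i) = x := by
      funext i
      rw [mul_div_cancel_left₀ _ (ha i).ne']
    change x ∈ s ↔ (fun i => a i * x i / a i) ∈ s
    rw [this]

theorem t24_prob {n : ℕ} {f : (Fin n → ℝ) → ℝ≥0∞} (h : UD f) : IsProbabilityMeasure (mf f) :=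
  ⟨by rw [mf, withDensity_apply _ MeasurableSet.univ, Measure.restrict_univ]; exact h.int⟩

theorem ud_median {n : ℕ} {f : (Fin n → ℝ) → ℝ≥0∞} (h : UD f) (i : Fin n) :
    ∃ a : ℝ, 0 < a ∧ (mf f).real {x | |x i| < a} = 1 / 2 := by
  have hprob := t24_prob h
  have hms : ∀ a : ℝ, MeasurableSet {x : Fin n → ℝ | |x i| < a} := fun a =>
    measurableSet_lt (measurable_pi_apply i).abs measurable_const
  have hnull : ∀ a : ℝ, ∀ᵐ x ∂(mf f), |x i| ≠ a := by
    intro a
    have h1 : ∀ c : ℝ, (volume : Measure (Fin n → ℝ)) {x | x i = c} = 0 := fun c =>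
      Measure.pi_hyperplane (fun _ => (volume : Measure ℝ)) i c
    have h2 : (mf f) {x | ¬ |x i| ≠ a} = 0 := by
      apply withDensity_absolutelyContinuous volume f
      refine measure_mono_null (t := {x | x i = a} ∪ {x | x i = -a}) ?_
        (measure_union_null (h1 a) (h1 (-a)))
      intro x hx
      have hx' : |x i| = a := not_not.1 hx
      rcases abs_choice (x i) with h3 | h3
      · exact Or.inl (by rw [← hx', h3]; rfl)
      · right
        change x i = -a
        rw [← hx', h3, neg_neg]
    exact h2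
  have hφ : ∀ a : ℝ, (mf f).real {x | |x i| < a} =
      ∫ x, ({x : Fin n → ℝ | |x i| < a}).indicator (fun _ => (1 : ℝ)) x ∂(mf f) := by
    intro a
    rw [integral_indicator (hms a), setIntegral_const, smul_eq_mul, mul_one]
  have hcont : Continuous (fun a : ℝ => (mf f).real {x | |x i| < a}) := by
    rw [continuous_iff_continuousAt]
    intro a₀
    rw [show (fun a : ℝ => (mf f).real {x | |x i| < a}) = fun a =>
      ∫ x, ({x : Fin n → ℝ | |x i| < a}).indicator (fun _ => (1 : ℝ)) x ∂(mf f) from funext hφ]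
    refine continuousAt_of_dominated (bound := fun _ => 1) ?_ ?_ (integrable_const 1) ?_
    · exact Filter.Eventually.of_forall fun a =>
        ((measurable_const.indicator (hms a)).aestronglyMeasurable)
    · refine Filter.Eventually.of_forall fun a => Filter.Eventually.of_forall fun x => ?_
      rw [Real.norm_of_nonneg (Set.indicator_nonneg (fun _ _ => zero_le_one) x)]
      exact Set.indicator_le_self' (fun _ _ => zero_le_one) x
    · filter_upwards [hnull a₀] with x hx
      rcases lt_or_gt_of_ne hx with hlt | hgt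
      · have h1 : (fun a : ℝ => ({x : Fin n → ℝ | |x i| < a}).indicator (fun _ => (1 : ℝ)) x)
            =ᶠ[nhds a₀] fun _ => 1 := by
          filter_upwards [lt_mem_nhds hlt] with a ha
          exact Set.indicator_of_mem (show x ∈ {x : Fin n → ℝ | |x i| < a} from ha) _
        exact continuousAt_const.congr h1.symm
      · have h1 : (fun a : ℝ => ({x : Fin n → ℝ | |x i| < a}).indicator (fun _ => (1 : ℝ)) x)
            =ᶠ[nhds a₀] fun _ => 0 := by
          filter_upwards [gt_mem_nhds hgt] with a ha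
          exact Set.indicator_of_notMem (show x ∉ {x : Fin n → ℝ | |x i| < a} from
            not_lt.2 (le_of_lt ha)) _
        exact continuousAt_const.congr h1.symm
  have h0 : (mf f).real {x | |x i| < (0 : ℝ)} = 0 := by
    have : {x : Fin n → ℝ | |x i| < (0 : ℝ)} = ∅ := by
      ext x
      simp
    rw [this]
    exact measureReal_empty
  obtain ⟨m, hm⟩ : ∃ m : ℕ, 1 / 2 < (mf f).real {x | |x i| < (m : ℝ)} := by
    have hmono : Monotone (fun m : ℕ => {x : Fin n → ℝ | |x i| < (m : ℝ)}) := by
      intro p q hpq x hx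
      have : (p : ℝ) ≤ q := by exact_mod_cast hpq
      exact lt_of_lt_of_le hx this
    have ht := tendsto_measure_iUnion_atTop (μ := mf f) hmono
    have hU : (⋃ m : ℕ, {x : Fin n → ℝ | |x i| < (m : ℝ)}) = Set.univ := by
      rw [Set.eq_univ_iff_forall]
      intro x
      obtain ⟨m, hm⟩ := exists_nat_gt |x i|
      exact Set.mem_iUnion.2 ⟨m, hm⟩
    rw [hU, measure_univ] at ht
    have h1 := (ht.eventually (lt_mem_nhds (show (ENNReal.ofReal (1 / 2)) < 1 by
      rw [← ENNReal.ofReal_one]
      exact (ENNReal.ofReal_lt_ofReal_iff one_pos).2 (by norm_num)))).exists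
    obtain ⟨m, hm⟩ := h1
    refine ⟨m, ?_⟩
    exact (ENNReal.ofReal_lt_iff_lt_toReal (by norm_num) (measure_ne_top _ _)).1 hm
  have h1 := intermediate_value_Icc (Nat.cast_nonneg (α := ℝ) m) hcont.continuousOn
  obtain ⟨a, ha, hae⟩ := h1 (show (1 / 2 : ℝ) ∈ Set.Icc _ _ from
    ⟨by beta_reduce; rw [h0]; norm_num, hm.le⟩)
  refine ⟨a, ?_, hae⟩
  rcases lt_or_eq_of_le ha.1 with h2 | h2
  · exact h2
  · exfalso
    beta_reduce at hae
    rw [← h2, h0] at hae
    norm_num at hae

theorem t24_Sup {n : ℕ} (a : Fin n → ℝ) (ha : ∀ i, 0 < a i) (V : Finset (Fin n → ℝ))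
    (hV : V.Nonempty) (V' : Finset (Fin n → ℝ)) (hV' : V'.Nonempty)
    (h : V' = V.image (fun v i => a i * v i)) (x : Fin n → ℝ) :
    Sup V' hV' (fun i => x i / a i) = Sup V hV x := by
  have key : ∀ v w : Fin n → ℝ, ∑ i, (a i * v i - a i * w i) * (x i / a i) =
      ∑ i, (v i - w i) * x i := by
    intro v w
    refine Finset.sum_congr rfl fun i _ => ?_
    have := (ha i).ne'
    field_simp
  subst h
  apply le_antisymm
  · apply Sup_le
    intro v' hv' w' hw'
    obtain ⟨v, hv, rfl⟩ := Finset.mem_image.1 hv'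
    obtain ⟨w, hw, rfl⟩ := Finset.mem_image.1 hw'
    rw [key]
    exact le_Sup hV x hv hw
  · apply Sup_le
    intro v hv w hw
    rw [← key]
    exact le_Sup hV' (fun i => x i / a i) (Finset.mem_image_of_mem _ hv)
      (Finset.mem_image_of_mem _ hw)

theorem ud_core {n : ℕ} {f : (Fin n → ℝ) → ℝ≥0∞} (h : UD f) {p A : ℝ} (hp : 10 ≤ p)
    (hA : 0 < A) (V : Finset (Fin n → ℝ)) (hV : V.Nonempty)
    (hsep : ∀ v ∈ V, ∀ w ∈ V, v ≠ w → ENNReal.ofReal A ≤ nrm (mf f) p (fun i => v i - w i))
    (hcard : Real.exp (140 * p) ≤ V.card) :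
    A / 3000000 ≤ ∫ x, Sup V hV x ∂(mf f) := by
  choose a ha hmed using fun i => ud_median h i
  obtain ⟨hUD, hmap⟩ := ud_scale h a ha
  have hd : Measurable (fun x : Fin n → ℝ => (fun i => x i / a i : Fin n → ℝ)) :=
    by fun_prop
  have hrdy : Rdy ((mf f).map (fun x i => x i / a i)) := by
    rw [← hmap]
    refine ud_rdy hUD fun i => ?_
    rw [hmap]
    have hms : MeasurableSet {x : Fin n → ℝ | |x i| < 1} :=
      measurableSet_lt (measurable_pi_apply i).abs measurable_const
    rw [measureReal_def, Measure.map_apply hd hms, ← measureReal_def, ← hmed i]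
    congr 1
    ext x
    change |x i / a i| < 1 ↔ |x i| < a i
    rw [abs_div, abs_of_pos (ha i), div_lt_one (ha i)]
  set V' : Finset (Fin n → ℝ) := V.image (fun v i => a i * v i) with hV'def
  have hV' : V'.Nonempty := hV.image _
  have hinj : Function.Injective (fun (v : Fin n → ℝ) i => a i * v i) := by
    intro v w hvw
    funext i
    exact mul_left_cancel₀ (ha i).ne' (congrFun hvw i)
  have hcard' : V'.card = V.card := Finset.card_image_of_injective V hinj
  have hcore := core hrdy hp hA V' hV' ?_ (by rw [hcard']; exact hcard)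
  · rw [integral_map hd.aemeasurable (Sup_cont hV').aestronglyMeasurable] at hcore
    have h1 : (fun x : Fin n → ℝ => Sup V' hV' (fun i => x i / a i)) = fun x => Sup V hV x :=
      funext fun x => t24_Sup a ha V hV V' hV' rfl x
    rwa [h1] at hcore
  · intro v' hv' w' hw' hne
    obtain ⟨v, hv, rfl⟩ := Finset.mem_image.1 hv'
    obtain ⟨w, hw, rfl⟩ := Finset.mem_image.1 hw'
    have hvw : v ≠ w := fun h => hne (by rw [h])
    refine (hsep v hv w hw hvw).trans (le_of_eq ?_)
    have hlin : Continuous (fun x : Fin n → ℝ => ∑ i, (a i * v i - a i * w i) * x i) := by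
      fun_prop
    unfold nrm
    rw [eLpNorm_map_measure hlin.aestronglyMeasurable hd.aemeasurable]
    congr 1
    funext x
    change _ = ∑ i, (a i * v i - a i * w i) * (x i / a i)
    refine Finset.sum_congr rfl fun i _ => ?_
    have := (ha i).ne'
    field_simp

end Pool.Agent.H57.SM
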