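import Pool.Agent.H57.SM.Bern
import Pool.Agent.H57.SM.Pig

set_option autoImplicit false

open MeasureTheory Finset Set
open scoped ENNReal

namespace Pool.Agent.H57.SM

/-! ### the function phi -/

theorem t03_phi_nonneg (x : ℝ) : 0 ≤ phi x := by
  unfold phi; positivity

theorem t03_phi_sq (x : ℝ) : phi x ≤ x ^ 2 := by
  unfold phi
  have h : 0 ≤ |x| := abs_nonneg x
  rw [div_le_iff₀ (by positivity)]
  nlinarith [sq_nonneg x, mul_nonneg (sq_nonneg x) h]

theorem t03_phi_abs (x : ℝ) : phi x ≤ |x| := by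
  unfold phi
  have h : 0 ≤ |x| := abs_nonneg x
  rw [div_le_iff₀ (by positivity), ← sq_abs]
  nlinarith

theorem t03_phi_two (x : ℝ) : phi (2 * x) ≤ 4 * phi x := by
  unfold phi
  have h : 0 ≤ |x| := abs_nonneg x
  rw [abs_mul, abs_two, ← mul_div_assoc, div_le_div_iff₀ (by positivity) (by positivity)]
  nlinarith [sq_nonneg x, mul_nonneg (sq_nonneg x) h]

theorem t03_phi_mono {x y : ℝ} (h : |x| ≤ |y|) : phi x ≤ phi y := by
  unfold phi
  have hx : 0 ≤ |x| := abs_nonneg x
  rw [← sq_abs x, ← sq_abs y, div_le_div_iff₀ (by positivity) (by positivity)]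
  nlinarith [mul_nonneg hx (abs_nonneg y), mul_nonneg (mul_nonneg hx (abs_nonneg y)) (sub_nonneg.2 h),
    mul_nonneg (add_nonneg hx (abs_nonneg y)) (sub_nonneg.2 h)]

theorem t03_three {x : ℝ} (h : 1 / 2 ≤ |x|) : |x| ≤ 3 * phi x := by
  unfold phi
  rw [← sq_abs x, ← mul_div_assoc, le_div_iff₀ (by positivity)]
  nlinarith

theorem t03_sixth {x : ℝ} (h : 1 / 2 ≤ |x|) : 1 / 6 ≤ phi x := by
  have h1 := t03_three h
  linarith

/-! ### the clipping function -/

noncomputable def t03_b (x : ℝ) : ℝ := if |x| < 1 / 2 then x else if 0 ≤ x then 1 else -1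

theorem t03_b_abs (x : ℝ) : |t03_b x| ≤ 1 := by
  unfold t03_b
  split_ifs with h h'
  · linarith
  · simp
  · simp

theorem t03_b_sq (x : ℝ) : t03_b x ^ 2 ≤ 6 * phi x := by
  unfold t03_b
  split_ifs with h h'
  · unfold phi
    have h0 : 0 ≤ |x| := abs_nonneg x
    rw [← mul_div_assoc, le_div_iff₀ (by positivity)]
    nlinarith [sq_nonneg x, mul_nonneg (sq_nonneg x) h0]
  · have := t03_sixth (not_lt.1 h); linarith
  · have := t03_sixth (not_lt.1 h); linarith

theorem t03_b_mono : Monotone t03_b := by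
  intro x y hxy
  unfold t03_b
  by_cases hx : |x| < 1 / 2 <;> by_cases hy : |y| < 1 / 2
  · simp only [hx, hy, if_true]; exact hxy
  · have hx' := abs_lt.1 hx
    simp only [hx, hy, if_true, if_false]
    split_ifs with h
    · linarith
    · push Not at h
      have : |y| = -y := abs_of_neg h
      exfalso; apply hy; rw [this]; linarith
  · have hy' := abs_lt.1 hy
    simp only [hx, hy, if_true, if_false]
    split_ifs with h
    · have : |x| = x := abs_of_nonneg h
      exfalso; apply hx; rw [this]; linarith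
    · linarith
  · simp only [hx, hy, if_false]
    split_ifs with h1 h2 <;> linarith

theorem t03_off {u v : ℝ} (hv : |v| < 1 / 2) :
    phi (u - v) ≤ 2 * ((u - v) * (t03_b u - t03_b v)) := by
  have hbv : t03_b v = v := by unfold t03_b; rw [if_pos hv]
  have hv' := abs_lt.1 hv
  by_cases hu : |u| < 1 / 2
  · have hbu : t03_b u = u := by unfold t03_b; rw [if_pos hu]
    rw [hbu, hbv]
    have := t03_phi_sq (u - v)
    nlinarith [sq_nonneg (u - v)]
  · have h1 := t03_phi_abs (u - v)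
    have hbu : t03_b u = if 0 ≤ u then 1 else -1 := by unfold t03_b; rw [if_neg hu]
    rw [hbu, hbv]
    push Not at hu
    split_ifs with h
    · rw [abs_of_nonneg h] at hu
      rw [abs_of_nonneg (by linarith)] at h1
      nlinarith
    · push Not at h
      rw [abs_of_neg h] at hu
      rw [abs_of_nonpos (by linarith)] at h1
      nlinarith

/-! ### the random majorant -/

/-- the majorant attached to a mean vector `β` -/
noncomputable def t03_H {n : ℕ} (β : Fin n → ℝ) (H : (Fin n → Bool) → ℝ) (ε : Fin n → Bool) : ℝ :=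
  2 * Eb (fun i => -β i / 2 + 1 / 2 * sg (ε i)) H

theorem t03_abs {n : ℕ} {β : Fin n → ℝ} (hβ : ∀ i, |β i| ≤ 1) (ε : Fin n → Bool) (i : Fin n) :
    |-β i / 2 + 1 / 2 * sg (ε i)| ≤ 1 := by
  have h1 := abs_le.1 (hβ i)
  have h2 := abs_le.1 (sg_abs (ε i)).le
  rw [abs_le]; constructor <;> linarith

theorem t03_H_maj {n : ℕ} {β : Fin n → ℝ} (hβ : ∀ i, |β i| ≤ 1) {H : (Fin n → Bool) → ℝ}
    {T : Finset (Fin n → ℝ)}
    (hH : ∀ ε, ∀ v ∈ T, ∀ w ∈ T, ∑ i, (v i - w i) * sg (ε i) ≤ H ε) (ε : Fin n → Bool)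
    {v w : Fin n → ℝ} (hv : v ∈ T) (hw : w ∈ T) :
    ∑ i, (v i - w i) * (sg (ε i) - β i) ≤ t03_H β H ε := by
  have h1 := Eb_mono (t03_abs hβ ε) (F := fun η => ∑ i, (v i - w i) * sg (η i)) (H := H)
    (fun η => hH η v hv w hw)
  rw [Eb_lin] at h1
  unfold t03_H
  calc ∑ i, (v i - w i) * (sg (ε i) - β i)
      = 2 * ∑ i, (v i - w i) * (-β i / 2 + 1 / 2 * sg (ε i)) := by
        rw [Finset.mul_sum]; apply Finset.sum_congr rfl; intro i _; ring
    _ ≤ _ := by linarith

theorem t03_H_mean {n : ℕ} (β : Fin n → ℝ) (H : (Fin n → Bool) → ℝ) :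
    Eb β (t03_H β H) = 2 * Es H := by
  unfold t03_H
  rw [Eb_mul, Eb_comp (fun i => -β i / 2) (fun _ => 1 / 2) β H]
  unfold Es
  congr 2
  funext i; ring

theorem t03_H_nonneg {n : ℕ} {β : Fin n → ℝ} (hβ : ∀ i, |β i| ≤ 1) {H : (Fin n → Bool) → ℝ}
    (hH : ∀ ε, 0 ≤ H ε) (ε : Fin n → Bool) : 0 ≤ t03_H β H ε := by
  unfold t03_H
  have := Eb_nonneg (t03_abs hβ ε) hH
  linarith

open Classical in
/-- the event `H_t ≤ 8R` has uniform probability at least `9/16 e^{-6q}` -/
theorem t03_prob {n : ℕ} {β : Fin n → ℝ} (hβ : ∀ i, |β i| ≤ 1) {H : (Fin n → Bool) → ℝ}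
    (hH : ∀ ε, 0 ≤ H ε) {R q : ℝ} (hR : 0 < R) (hE : Es H ≤ R) (hq : ∑ i, β i ^ 2 ≤ 6 * q) :
    9 / 16 * Real.exp (-6 * q) ≤ Es (fun ε => if t03_H β H ε ≤ 8 * R then 1 else 0) := by
  set F : (Fin n → Bool) → ℝ := fun ε => if t03_H β H ε ≤ 8 * R then 1 else 0 with hF
  have h1 : 3 / 4 ≤ Eb β F := by
    have h2 : Eb β (fun ε => 1 + (-1 / (8 * R)) * t03_H β H ε) ≤ Eb β F := by
      apply Eb_mono hβ
      intro ε
      rw [hF]
      have h0 := t03_H_nonneg hβ hH ε
      simp only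
      split_ifs with h
      · have : -1 / (8 * R) * t03_H β H ε ≤ 0 := by
          apply mul_nonpos_of_nonpos_of_nonneg _ h0
          apply div_nonpos_of_nonpos_of_nonneg <;> linarith
        linarith
      · push Not at h
        rw [neg_div, neg_mul, one_div, inv_mul_eq_div]
        have : 1 ≤ t03_H β H ε / (8 * R) := by
          rw [le_div_iff₀ (by positivity)]; linarith
        linarith
    rw [Eb_add, Eb_const, Eb_mul, t03_H_mean] at h2
    have h3 : -1 / (8 * R) * (2 * Es H) ≥ -1 / 4 := by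
      rw [neg_div, neg_mul, one_div, inv_mul_eq_div, ge_iff_le, neg_div, neg_le_neg_iff,
        div_le_iff₀ (by positivity)]
      linarith
    linarith
  have h2 := Eb_dens β F
  have h3 : (fun ε => F ε ^ 2) = F := by
    funext ε; rw [hF]; simp only; split_ifs <;> norm_num
  rw [h3] at h2
  have h4 : 9 / 16 ≤ (Eb β F) ^ 2 := by nlinarith
  have h5 : ∏ i, (1 + β i ^ 2) ≤ Real.exp (6 * q) := by
    calc ∏ i, (1 + β i ^ 2) ≤ ∏ i, Real.exp (β i ^ 2) := by
          apply Finset.prod_le_prod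
          · intro i _; positivity
          · intro i _; linarith [Real.add_one_le_exp (β i ^ 2)]
      _ = Real.exp (∑ i, β i ^ 2) := (Real.exp_sum _ _).symm
      _ ≤ Real.exp (6 * q) := Real.exp_le_exp.2 hq
  have h6 : 0 ≤ Es F := by
    unfold Es
    apply Eb_nonneg
    · intro i; simp
    · intro ε; rw [hF]; simp only; split_ifs <;> norm_num
  have h7 : 9 / 16 ≤ Real.exp (6 * q) * Es F :=
    h4.trans (h2.trans (mul_le_mul_of_nonneg_right h5 h6))
  have h8 : Real.exp (-6 * q) * Real.exp (6 * q) = 1 := by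
    rw [← Real.exp_add]; simp
  have h9 : 0 < Real.exp (-6 * q) := Real.exp_pos _
  calc 9 / 16 * Real.exp (-6 * q) ≤ Real.exp (6 * q) * Es F * Real.exp (-6 * q) :=
        mul_le_mul_of_nonneg_right h7 h9.le
    _ = Real.exp (-6 * q) * Real.exp (6 * q) * Es F := by ring
    _ = Es F := by rw [h8, one_mul]

open Classical in
/-- averaging: some `ε` works for many points -/
theorem t03_avg {n : ℕ} {α : Type*} (T : Finset α) (E : α → (Fin n → Bool) → Prop) {δ : ℝ}
    (h : ∀ t ∈ T, δ ≤ Es (fun ε => if E t ε then 1 else 0)) :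
    ∃ ε, δ * T.card ≤ (({t ∈ T | E t ε}.card : ℕ) : ℝ) := by
  by_contra hcon
  push Not at hcon
  have h1 : Es (fun ε => ∑ t ∈ T, (if E t ε then (1 : ℝ) else 0)) =
      ∑ t ∈ T, Es (fun ε => if E t ε then (1 : ℝ) else 0) := by
    unfold Es; exact Eb_sum T _ (fun t ε => if E t ε then (1 : ℝ) else 0)
  have h2 : δ * T.card ≤ Es (fun ε => ∑ t ∈ T, (if E t ε then (1 : ℝ) else 0)) := by
    rw [h1]
    calc δ * T.card = ∑ _t ∈ T, δ := by rw [Finset.sum_const, nsmul_eq_mul]; ring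
      _ ≤ _ := Finset.sum_le_sum h
  rw [Es_eq] at h2
  have h3 : ∀ ε : Fin n → Bool, ∑ t ∈ T, (if E t ε then (1 : ℝ) else 0) < δ * T.card := by
    intro ε
    have := hcon ε
    rw [Finset.sum_ite, Finset.sum_const_zero, Finset.sum_const, add_zero, nsmul_eq_mul, mul_one]
    exact this
  have h4 : ∑ ε : Fin n → Bool, ∑ t ∈ T, (if E t ε then (1 : ℝ) else 0) <
      ∑ _ε : Fin n → Bool, δ * T.card :=
    Finset.sum_lt_sum_of_nonempty Finset.univ_nonempty (fun ε _ => h3 ε)
  rw [Finset.sum_const, nsmul_eq_mul, Finset.card_univ, Fintype.card_fun, Fintype.card_bool,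
    Fintype.card_fin] at h4
  push_cast at h4
  have h5 : (0 : ℝ) < (1 / 2) ^ n := by positivity
  have h6 : ((1 : ℝ) / 2) ^ n * 2 ^ n = 1 := by rw [← mul_pow]; norm_num
  have h7 := mul_lt_mul_of_pos_left h4 h5
  rw [← mul_assoc, h6, one_mul] at h7
  linarith

open Classical in
theorem stage {n : ℕ} (T : Finset (Fin n → ℝ)) (hT : T.Nonempty) {R q : ℝ} (hR : 0 < R)
    (hq : 1 ≤ q) (hB : BB T R) (c : Fin n → ℝ)
    (hc : ∀ t ∈ T, ∑ i, phi (q / (200 * R) * (t i - c i)) ≤ q) :
    ∃ c' : Fin n → ℝ, ∃ T' ⊆ T, Real.exp (-60 * q) * T.card ≤ T'.card ∧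
      ∀ t ∈ T', ∑ i, phi (q / (100 * R) * (t i - c' i)) ≤ q := by
  obtain ⟨H, hH, hE⟩ := hB
  obtain ⟨t00, ht00⟩ := hT
  have hH0 : ∀ ε, 0 ≤ H ε := by
    intro ε
    have := hH ε t00 ht00 t00 ht00
    simpa using this
  set lam : ℝ := q / (200 * R) with hlam
  have hlam0 : 0 < lam := by positivity
  set U : (Fin n → ℝ) → Fin n → ℝ := fun t i => lam * (t i - c i) with hU
  set β : (Fin n → ℝ) → Fin n → ℝ := fun t i => t03_b (U t i) with hβ
  have hβ1 : ∀ t i, |β t i| ≤ 1 := fun t i => t03_b_abs _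
  have hβ2 : ∀ t ∈ T, ∑ i, β t i ^ 2 ≤ 6 * q := by
    intro t ht
    calc ∑ i, β t i ^ 2 ≤ ∑ i, 6 * phi (U t i) := Finset.sum_le_sum fun i _ => t03_b_sq _
      _ = 6 * ∑ i, phi (U t i) := (Finset.mul_sum _ _ _).symm
      _ ≤ 6 * q := by linarith [hc t ht]
  obtain ⟨ε, hε⟩ := t03_avg T (fun t ε => t03_H (β t) H ε ≤ 8 * R)
    (fun t ht => t03_prob (hβ1 t) hH0 hR hE (hβ2 t ht))
  set T1 : Finset (Fin n → ℝ) := {t ∈ T | t03_H (β t) H ε ≤ 8 * R} with hT1
  have hT1sub : T1 ⊆ T := Finset.filter_subset _ _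
  have hTc : (0 : ℝ) < T.card := by exact_mod_cast Finset.card_pos.2 ⟨t00, ht00⟩
  have hT1c : (0 : ℝ) < T1.card := lt_of_lt_of_le (by positivity) hε
  have hT1ne : T1.Nonempty := by
    rw [← Finset.card_pos]; exact_mod_cast hT1c
  -- pairs
  have hpair : ∀ t ∈ T1, ∀ s ∈ T1,
      ∑ i, (U t i - U s i) * (β t i - β s i) ≤ 2 * q / 25 := by
    intro t ht s hs
    have ht' := Finset.mem_filter.1 ht
    have hs' := Finset.mem_filter.1 hs
    have h1 := (t03_H_maj (hβ1 t) hH ε hs'.1 ht'.1).trans ht'.2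
    have h2 := (t03_H_maj (hβ1 s) hH ε ht'.1 hs'.1).trans hs'.2
    have h3 : ∑ i, (t i - s i) * (β t i - β s i) ≤ 16 * R := by
      calc ∑ i, (t i - s i) * (β t i - β s i)
          = ∑ i, (s i - t i) * (sg (ε i) - β t i) + ∑ i, (t i - s i) * (sg (ε i) - β s i) := by
            rw [← Finset.sum_add_distrib]; apply Finset.sum_congr rfl; intro i _; ring
        _ ≤ 16 * R := by linarith
    have h4 : ∑ i, (U t i - U s i) * (β t i - β s i) =
        lam * ∑ i, (t i - s i) * (β t i - β s i) := by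
      rw [Finset.mul_sum]; apply Finset.sum_congr rfl; intro i _; simp only [hU]; ring
    rw [h4]
    calc lam * ∑ i, (t i - s i) * (β t i - β s i) ≤ lam * (16 * R) :=
          mul_le_mul_of_nonneg_left h3 hlam0.le
      _ = 2 * q / 25 := by rw [hlam]; field_simp; ring
  have hnn : ∀ t s : Fin n → ℝ, ∀ i, 0 ≤ (U t i - U s i) * (β t i - β s i) := by
    intro t s i
    rcases le_total (U t i) (U s i) with h | h
    · exact mul_nonneg_of_nonpos_of_nonpos (sub_nonpos.2 h) (sub_nonpos.2 (t03_b_mono h))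
    · exact mul_nonneg (sub_nonneg.2 h) (sub_nonneg.2 (t03_b_mono h))
  obtain ⟨t0, ht0⟩ := hT1ne
  set J : Finset (Fin n) := {i | 1 / 2 ≤ |U t0 i|} with hJ
  have hJc : (J.card : ℝ) ≤ 6 * q := by
    have h1 : (J.card : ℝ) * (1 / 6) ≤ ∑ i ∈ J, phi (U t0 i) := by
      rw [← nsmul_eq_mul, ← Finset.sum_const]
      apply Finset.sum_le_sum
      intro i hi
      exact t03_sixth (Finset.mem_filter.1 hi).2
    have h2 : ∑ i ∈ J, phi (U t0 i) ≤ ∑ i, phi (U t0 i) :=
      Finset.sum_le_sum_of_subset_of_nonneg (Finset.subset_univ _) fun i _ _ => t03_phi_nonneg _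
    have h3 := hc t0 (hT1sub ht0)
    simp only [hU] at h2 h1
    linarith
  have hoff : ∀ t ∈ T1, ∑ i ∈ Jᶜ, phi (2 * (U t i - U t0 i)) ≤ 16 * q / 25 := by
    intro t ht
    calc ∑ i ∈ Jᶜ, phi (2 * (U t i - U t0 i))
        ≤ ∑ i ∈ Jᶜ, 8 * ((U t i - U t0 i) * (β t i - β t0 i)) := by
          apply Finset.sum_le_sum
          intro i hi
          have h1 : |U t0 i| < 1 / 2 := by
            by_contra h; push Not at h
            exact (Finset.mem_compl.1 hi) (Finset.mem_filter.2 ⟨Finset.mem_univ _, h⟩)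
          have h2 := t03_phi_two (U t i - U t0 i)
          have h3 := t03_off (u := U t i) h1
          simp only [hβ]
          linarith
      _ ≤ ∑ i, 8 * ((U t i - U t0 i) * (β t i - β t0 i)) :=
          Finset.sum_le_sum_of_subset_of_nonneg (Finset.subset_univ _)
            fun i _ _ => mul_nonneg (by norm_num) (hnn t t0 i)
      _ = 8 * ∑ i, (U t i - U t0 i) * (β t i - β t0 i) := (Finset.mul_sum _ _ _).symm
      _ ≤ 16 * q / 25 := by linarith [hpair t ht t0 ht0]
  -- pigeonhole on J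
  set k : (Fin n → ℝ) → Fin n → ℤ := fun t i => ⌊8 * U t i⌋ with hk
  have hksum : ∀ t ∈ T1, ∑ i ∈ J, |k t i| ≤ (⌊54 * q⌋₊ : ℤ) := by
    intro t ht
    have h1 : ∀ i ∈ J, |((k t i : ℤ) : ℝ)| ≤ 8 * |U t i| + 1 := by
      intro i _
      have ha := Int.floor_le (8 * U t i)
      have hb := Int.lt_floor_add_one (8 * U t i)
      have hc1 := neg_abs_le (U t i)
      have hc2 := le_abs_self (U t i)
      rw [abs_le]; simp only [hk]; constructor <;> linarith
    have h2 : ∀ i ∈ J, |U t i| ≤ 3 * phi (U t i) + 1 / 2 := by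
      intro i _
      rcases le_or_gt (1 / 2) |U t i| with h | h
      · have := t03_three h; linarith
      · have := t03_phi_nonneg (U t i); linarith
    have h3 : ∑ i ∈ J, |((k t i : ℤ) : ℝ)| ≤ 54 * q := by
      calc ∑ i ∈ J, |((k t i : ℤ) : ℝ)| ≤ ∑ i ∈ J, (24 * phi (U t i) + 5) := by
            apply Finset.sum_le_sum; intro i hi
            linarith [h1 i hi, h2 i hi]
        _ = 24 * ∑ i ∈ J, phi (U t i) + 5 * J.card := by
            rw [Finset.sum_add_distrib, ← Finset.mul_sum, Finset.sum_const, nsmul_eq_mul]; ring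
        _ ≤ 24 * q + 5 * (6 * q) := by
            have h4 : ∑ i ∈ J, phi (U t i) ≤ ∑ i, phi (U t i) :=
              Finset.sum_le_sum_of_subset_of_nonneg (Finset.subset_univ _)
                fun i _ _ => t03_phi_nonneg _
            have h5 : ∑ i, phi (U t i) ≤ q := hc t (hT1sub ht)
            linarith
        _ = 54 * q := by ring
    have h4 : ((∑ i ∈ J, |k t i| : ℤ) : ℝ) ≤ 54 * q := by
      push_cast; exact h3
    have h5 : 0 ≤ ∑ i ∈ J, |k t i| := Finset.sum_nonneg fun i _ => abs_nonneg _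
    have h6 : (∑ i ∈ J, |k t i|).toNat ≤ ⌊54 * q⌋₊ := by
      apply Nat.le_floor
      have h7 : (((∑ i ∈ J, |k t i|).toNat : ℤ) : ℝ) = ((∑ i ∈ J, |k t i| : ℤ) : ℝ) := by
        rw [Int.toNat_of_nonneg h5]
      have h8 : (((∑ i ∈ J, |k t i|).toNat : ℕ) : ℝ) = ((∑ i ∈ J, |k t i| : ℤ) : ℝ) := by
        rw [← h7, Int.cast_natCast]
      rw [h8]; exact h4
    calc ∑ i ∈ J, |k t i| = ((∑ i ∈ J, |k t i|).toNat : ℤ) := (Int.toNat_of_nonneg h5).symm
      _ ≤ _ := by exact_mod_cast h6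
  obtain ⟨T', hT', hT'ne, hT'c, hT'k⟩ := pigeon J T1 ⟨t0, ht0⟩ k ⌊54 * q⌋₊ hksum
  obtain ⟨t1, ht1⟩ := hT'ne
  refine ⟨fun i => if i ∈ J then c i + k t1 i / (8 * lam) else t0 i, T', hT'.trans hT1sub, ?_, ?_⟩
  · -- the loss
    have h1 : ((⌊54 * q⌋₊ + 2 * J.card : ℕ) : ℝ) ≤ 66 * q := by
      push_cast
      have := Nat.floor_le (show 0 ≤ 54 * q by linarith)
      linarith
    have h2 : (2 : ℝ) ^ (⌊54 * q⌋₊ + 2 * J.card) ≤ Real.exp (47 * q) := by
      have h3 : Real.log 2 < 0.6931471808 := Real.log_two_lt_d9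
      calc (2 : ℝ) ^ (⌊54 * q⌋₊ + 2 * J.card)
          = Real.exp (Real.log 2 * ((⌊54 * q⌋₊ + 2 * J.card : ℕ) : ℝ)) := by
            rw [← Real.rpow_natCast, Real.rpow_def_of_pos (by norm_num)]
        _ ≤ Real.exp (47 * q) := by
            apply Real.exp_le_exp.2
            have h4 : 0 < Real.log 2 := Real.log_pos (by norm_num)
            nlinarith
    have h3 : Real.exp (-q) ≤ 9 / 16 := by
      have h4 : Real.exp (-q) ≤ Real.exp (-1) := Real.exp_le_exp.2 (by linarith)
      have h5 : Real.exp (-1) ≤ 9 / 16 := by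
        rw [Real.exp_neg]
        have h6 : (16 : ℝ) / 9 ≤ Real.exp 1 := by
          have := Real.add_one_le_exp (1 : ℝ); linarith
        calc (Real.exp 1)⁻¹ ≤ (16 / 9 : ℝ)⁻¹ := inv_anti₀ (by norm_num) h6
          _ = 9 / 16 := by norm_num
      linarith
    have h4 : 9 / 16 * Real.exp (-6 * q) * T.card ≤ Real.exp (47 * q) * T'.card :=
      hε.trans (hT'c.trans (mul_le_mul_of_nonneg_right h2 (by positivity)))
    have h5 : Real.exp (-q) * Real.exp (-6 * q) * T.card ≤ Real.exp (47 * q) * T'.card :=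
      le_trans (mul_le_mul_of_nonneg_right (mul_le_mul_of_nonneg_right h3
        (Real.exp_pos _).le) hTc.le) h4
    have h6 := mul_le_mul_of_nonneg_left h5 (Real.exp_pos (-53 * q)).le
    have h7 : Real.exp (-53 * q) * (Real.exp (-q) * Real.exp (-6 * q) * T.card) =
        Real.exp (-60 * q) * T.card := by
      rw [← mul_assoc, ← mul_assoc, ← Real.exp_add, ← Real.exp_add]; ring_nf
    have h8 : Real.exp (-53 * q) * (Real.exp (47 * q) * T'.card) =
        Real.exp (-6 * q) * T'.card := by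
      rw [← mul_assoc, ← Real.exp_add]; ring_nf
    rw [h7, h8] at h6
    have h9 : Real.exp (-6 * q) ≤ 1 := by
      rw [← Real.exp_zero]; exact Real.exp_le_exp.2 (by linarith)
    have h10 : (0 : ℝ) ≤ T'.card := by positivity
    nlinarith
  · intro t ht
    have hlam2 : q / (100 * R) = 2 * lam := by rw [hlam]; field_simp; norm_num
    rw [← Finset.sum_add_sum_compl J]
    have h1 : ∑ i ∈ J, phi (q / (100 * R) * (t i - if i ∈ J then c i + k t1 i / (8 * lam)
        else t0 i)) ≤ 3 / 10 * q := by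
      calc ∑ i ∈ J, phi (q / (100 * R) * (t i - if i ∈ J then c i + k t1 i / (8 * lam)
            else t0 i)) ≤ ∑ _i ∈ J, 1 / 20 := by
            apply Finset.sum_le_sum
            intro i hi
            rw [if_pos hi, hlam2]
            have h2 : k t1 i = k t i := hT'k t1 ht1 t ht i hi
            have h3 : 2 * lam * (t i - (c i + k t1 i / (8 * lam))) =
                2 * U t i - ⌊8 * U t i⌋ / 4 := by
              rw [h2]; simp only [hU, hk]; field_simp; ring
            rw [h3]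
            have ha := Int.floor_le (8 * U t i)
            have hb := Int.lt_floor_add_one (8 * U t i)
            have h4 : |2 * U t i - ⌊8 * U t i⌋ / 4| ≤ |(1 / 4 : ℝ)| := by
              rw [abs_of_nonneg (by linarith), abs_of_pos (by norm_num)]; linarith
            refine (t03_phi_mono h4).trans ?_
            unfold phi
            rw [abs_of_pos (by norm_num : (0 : ℝ) < 1 / 4)]; norm_num
        _ = J.card * (1 / 20) := by rw [Finset.sum_const, nsmul_eq_mul]
        _ ≤ 3 / 10 * q := by linarith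
    have h2 : ∑ i ∈ Jᶜ, phi (q / (100 * R) * (t i - if i ∈ J then c i + k t1 i / (8 * lam)
        else t0 i)) ≤ 16 * q / 25 := by
      refine le_trans (le_of_eq ?_) (hoff t (hT' ht))
      apply Finset.sum_congr rfl
      intro i hi
      rw [if_neg (Finset.mem_compl.1 hi), hlam2]
      congr 1
      simp only [hU]; ring
    linarith

end Pool.Agent.H57.SM
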