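import Pool.Agent.H57.SM.Defs

/-!
# T20: a one-dimensional transport inequality
-/

set_option autoImplicit false

open MeasureTheory Set Filter Topology
open scoped ENNReal

namespace Pool.Agent.H57.SM

/-- the inverse of the primitive -/
theorem t20_inverse {G : ℝ → ℝ} (c : Continuous G) (p : ∀ x, 0 < G x)
    (i : IntegrableOn G (Ioi 0)) :
    ∃ B : ℝ → ℝ, (∀ y, y ≤ 0 → B y = 0) ∧
      (∀ y, 0 < y → y < ∫ x in Ioi 0, G x → 0 < B y ∧ ∫ x in (0 : ℝ)..B y, G x = y) ∧
      (∀ x, 0 < x → 0 < ∫ t in (0 : ℝ)..x, G t ∧ ∫ t in (0 : ℝ)..x, G t < ∫ x in Ioi 0, G x ∧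
        B (∫ t in (0 : ℝ)..x, G t) = x) ∧
      (∀ y y', 0 < y → y < y' → y' < ∫ x in Ioi 0, G x → B y < B y') ∧
      ∀ y, 0 < y → y < ∫ x in Ioi 0, G x → HasDerivAt B (G (B y))⁻¹ y := by
  classical
  set M := ∫ x in Ioi 0, G x with hM
  let A : ℝ → ℝ := fun x => ∫ t in (0 : ℝ)..x, G t
  have hAd : ∀ x, HasDerivAt A (G x) x := fun x =>
    (c.integral_hasStrictDerivAt 0 x).hasDerivAt
  have hAm : StrictMono A := strictMono_of_deriv_pos fun x => by
    rw [(hAd x).deriv]; exact p x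
  have hAc : Continuous A := continuous_iff_continuousAt.2 fun x => (hAd x).continuousAt
  have hA0 : A 0 = 0 := intervalIntegral.integral_same
  have hAt : Tendsto A atTop (𝓝 M) := intervalIntegral_tendsto_integral_Ioi 0 i tendsto_id
  have hAM : ∀ x, A x < M := by
    intro x
    have h1 : A x < A (x + 1) := hAm (by linarith)
    have h2 : A (x + 1) ≤ M := hAm.monotone.ge_of_tendsto hAt _
    linarith
  have hex : ∀ y, 0 < y → y < M → ∃ X, 0 < X ∧ A X = y := by
    intro y hy hyM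
    obtain ⟨Y, hY⟩ := ((hAt.eventually (lt_mem_nhds hyM)).and (eventually_gt_atTop 0)).exists
    obtain ⟨X, hX, hXy⟩ := intermediate_value_Icc hY.2.le hAc.continuousOn
      (show y ∈ Icc (A 0) (A Y) from ⟨by rw [hA0]; exact hy.le, hY.1.le⟩)
    refine ⟨X, lt_of_le_of_ne hX.1 ?_, hXy⟩
    rintro rfl
    rw [hA0] at hXy
    linarith
  let B : ℝ → ℝ := fun y => if h : 0 < y ∧ y < M then (hex y h.1 h.2).choose else 0
  have hB : ∀ y, 0 < y → y < M → 0 < B y ∧ A (B y) = y := by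
    intro y hy hyM
    have : B y = (hex y hy hyM).choose := dif_pos ⟨hy, hyM⟩
    rw [this]
    exact (hex y hy hyM).choose_spec
  have hApos : ∀ x, 0 < x → 0 < A x := by
    intro x hx
    have h1 := hAm hx
    rw [hA0] at h1
    exact h1
  have hBinv : ∀ x, 0 < x → B (A x) = x := by
    intro x hx
    exact hAm.injective (hB _ (hApos x hx) (hAM x)).2
  have hBm : ∀ y y', 0 < y → y < y' → y' < M → B y < B y' := by
    intro y y' hy hyy hyM
    have h1 := (hB y hy (hyy.trans hyM)).2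
    have h2 := (hB y' (hy.trans hyy) hyM).2
    rw [← hAm.lt_iff_lt, h1, h2]
    exact hyy
  refine ⟨B, ?_, hB, ?_, hBm, ?_⟩
  · intro y hy
    exact dif_neg (fun h => absurd h.1 (not_lt.2 hy))
  · intro x hx
    exact ⟨hApos x hx, hAM x, hBinv x hx⟩
  · intro y hy hyM
    have hcont : ContinuousAt B y := by
      apply StrictMonoOn.continuousAt_of_image_mem_nhds (s := Ioo 0 M)
      · intro a ha b hb hab
        exact hBm a b ha.1 hab hb.2
      · exact Ioo_mem_nhds hy hyM
      · have : B '' Ioo 0 M = Ioi 0 := by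
          ext x
          constructor
          · rintro ⟨a, ha, rfl⟩
            exact (hB a ha.1 ha.2).1
          · intro hx
            exact ⟨A x, ⟨hApos x hx, hAM x⟩, hBinv x hx⟩
        rw [this]
        exact Ioi_mem_nhds (hB y hy hyM).1
    apply HasDerivAt.of_local_left_inverse hcont (hAd (B y)) (p _).ne'
    filter_upwards [Ioo_mem_nhds hy hyM] with z hz
    exact (hB z hz.1 hz.2).2

theorem tr1 {G1 G2 : ℝ → ℝ} (c1 : Continuous G1) (c2 : Continuous G2) (p1 : ∀ x, 0 < G1 x)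
    (p2 : ∀ x, 0 < G2 x) (i1 : IntegrableOn G1 (Ioi 0)) (i2 : IntegrableOn G2 (Ioi 0))
    {G3 : ℝ → ℝ≥0∞} (m3 : Measurable G3) (a3 : AntitoneOn G3 (Ioi 0))
    (H : ∀ X x, 0 < X → 0 < x → ENNReal.ofReal (G1 X ^ (1 / 21 : ℝ) * G2 x ^ (20 / 21 : ℝ)) ≤
      (if 20 * x < X then ENNReal.ofReal (Real.exp (4 / 21)) else 1) *
        G3 (1 / 21 * X + 20 / 21 * x)) :
    ENNReal.ofReal ((∫ x in Ioi 0, G1 x) ^ (1 / 21 : ℝ) * (∫ x in Ioi 0, G2 x) ^ (20 / 21 : ℝ)) ≤
      ∫⁻ x in Ioi 0, G3 x := by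
  obtain ⟨B, hB0, hB, hBinv, hBm, hBd⟩ := t20_inverse c1 p1 i1
  obtain ⟨_, -, -, hA2, -, -⟩ := t20_inverse c2 p2 i2
  set M1 := ∫ x in Ioi 0, G1 x with hM1
  set M2 := ∫ x in Ioi 0, G2 x with hM2
  have hM1p : 0 < M1 := lt_trans (hBinv 1 one_pos).1 (hBinv 1 one_pos).2.1
  have hM2p : 0 < M2 := lt_trans (hA2 1 one_pos).1 (hA2 1 one_pos).2.1
  set m := M1 / M2 with hm
  have hmp : 0 < m := div_pos hM1p hM2p
  let A2 : ℝ → ℝ := fun x => m * ∫ t in (0 : ℝ)..x, G2 t
  have hA2d : ∀ x, HasDerivAt A2 (m * G2 x) x := fun x =>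
    ((c2.integral_hasStrictDerivAt 0 x).hasDerivAt).const_mul m
  have hA2m : StrictMono A2 := strictMono_of_deriv_pos fun x => by
    rw [(hA2d x).deriv]; exact mul_pos hmp (p2 x)
  have hA2p : ∀ x, 0 < x → 0 < A2 x := fun x hx => mul_pos hmp (hA2 x hx).1
  have hA2M : ∀ x, 0 < x → A2 x < M1 := by
    intro x hx
    have := mul_lt_mul_of_pos_left (hA2 x hx).2.1 hmp
    calc A2 x < m * M2 := this
      _ = M1 := by rw [hm]; field_simp
  have hA20 : A2 0 = 0 := by simp [A2]
  have hA2n : ∀ x, x ≤ 0 → A2 x ≤ 0 := fun x hx => by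
    rw [← hA20]; exact hA2m.monotone hx
  let T : ℝ → ℝ := fun x => B (A2 x)
  have hTn : ∀ x, x ≤ 0 → T x = 0 := fun x hx => hB0 _ (hA2n x hx)
  have hTp : ∀ x, 0 < x → 0 < T x := fun x hx => (hB _ (hA2p x hx) (hA2M x hx)).1
  have hTm : ∀ x y, 0 < x → x < y → T x < T y := fun x y hx hxy =>
    hBm _ _ (hA2p x hx) (hA2m hxy) (hA2M y (hx.trans hxy))
  have hTmono : Monotone T := by
    intro x y hxy
    rcases le_or_gt x 0 with hx | hx
    · rw [hTn x hx]
      rcases le_or_gt y 0 with hy | hy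
      · rw [hTn y hy]
      · exact (hTp y hy).le
    · rcases hxy.eq_or_lt with rfl | h
      · exact le_rfl
      · exact (hTm x y hx h).le
  let T' : ℝ → ℝ := fun x => (G1 (T x))⁻¹ * (m * G2 x)
  have hTd : ∀ x, 0 < x → HasDerivAt T (T' x) x := by
    intro x hx
    exact (hBd _ (hA2p x hx) (hA2M x hx)).comp x (hA2d x)
  have hT'p : ∀ x, 0 < T' x := fun x => mul_pos (inv_pos.2 (p1 _)) (mul_pos hmp (p2 x))
  have hTsurj : ∀ X, 0 < X → ∃ x, 0 < x ∧ T x = X := by
    intro X hX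
    obtain ⟨h1, h2, h3⟩ := hBinv X hX
    have h4 : Tendsto A2 atTop (𝓝 M1) := by
      have := (intervalIntegral_tendsto_integral_Ioi 0 i2 tendsto_id).const_mul m
      have h5 : m * ∫ x in Ioi 0, G2 x = M1 := by
        rw [← hM2, hm]; field_simp
      rw [h5] at this
      exact this
    have hAc : Continuous A2 := continuous_iff_continuousAt.2 fun x => (hA2d x).continuousAt
    obtain ⟨Y, hY⟩ := ((h4.eventually (lt_mem_nhds h2)).and (eventually_gt_atTop 0)).exists
    obtain ⟨x, hx, hxy⟩ := intermediate_value_Icc hY.2.le hAc.continuousOn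
      (show (∫ t in (0 : ℝ)..X, G1 t) ∈ Icc (A2 0) (A2 Y) from
        ⟨by rw [hA20]; exact h1.le, hY.1.le⟩)
    refine ⟨x, lt_of_le_of_ne hx.1 ?_, ?_⟩
    · rintro rfl
      rw [hA20] at hxy
      rw [← hxy] at h1
      exact lt_irrefl _ h1
    · change B (A2 x) = X
      rw [hxy, h3]
  have hTmeas : Measurable T := hTmono.measurable
  have hT'meas : Measurable T' :=
    ((c1.measurable.comp hTmeas).inv).mul (c2.measurable.const_mul m)
  let z : ℝ → ℝ := fun x => 1 / 21 * T x + 20 / 21 * x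
  let z' : ℝ → ℝ := fun x => 1 / 21 * T' x + 20 / 21
  have hzmeas : Measurable z := (hTmeas.const_mul _).add (measurable_id.const_mul _)
  have hz'p : ∀ x, 0 < z' x := fun x => by
    have := hT'p x
    change 0 < 1 / 21 * T' x + 20 / 21
    positivity
  have hzd : ∀ x, 0 < x → HasDerivAt z (z' x) x := by
    intro x hx
    have h1 := ((hTd x hx).const_mul (1 / 21)).add ((hasDerivAt_id x).const_mul (20 / 21 : ℝ))
    have h2 : HasDerivAt z (1 / 21 * T' x + 20 / 21 * 1) x := h1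
    rwa [mul_one] at h2
  have hzm : ∀ x y, 0 < x → x < y → z x < z y := by
    intro x y hx hxy
    have := hTm x y hx hxy
    change 1 / 21 * T x + 20 / 21 * x < 1 / 21 * T y + 20 / 21 * y
    linarith
  have hzp : ∀ x, 0 < x → 0 < z x := by
    intro x hx
    have := hTp x hx
    change 0 < 1 / 21 * T x + 20 / 21 * x
    positivity
  let F : ℝ → ℝ≥0∞ := fun x => G3 (z x)
  have hFmeas : Measurable F := m3.comp hzmeas
  have hFa : ∀ x y, 0 < x → x ≤ y → F y ≤ F x := by
    intro x y hx hxy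
    apply a3 (hzp x hx) (hzp y (hx.trans_le hxy))
    rcases hxy.eq_or_lt with rfl | h
    · exact le_rfl
    · exact (hzm x y hx h).le
  let O : Set ℝ := {x | 0 < x ∧ 20 * x < T x}
  have hOmeas : MeasurableSet O :=
    (measurableSet_lt measurable_const measurable_id).inter
      (measurableSet_lt (measurable_id.const_mul 20) hTmeas)
  have hOsub : O ⊆ Ioi 0 := fun x hx => hx.1
  -- the key inequality
  have key : 20 * ∫⁻ x in O, F x ≤ ∫⁻ x in O, ENNReal.ofReal (T' x) * F x := by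
    have h1 : ∫⁻ x in T '' O, F (x / 20) = ∫⁻ x in O, ENNReal.ofReal |T' x| * F (T x / 20) := by
      apply lintegral_image_eq_lintegral_abs_deriv_mul hOmeas
        (fun x hx => (hTd x hx.1).hasDerivWithinAt)
        (g := fun x => F (x / 20))
      intro x hx y hy hxy
      rcases lt_trichotomy x y with h | h | h
      · exact absurd hxy (hTm x y hx.1 h).ne
      · exact h
      · exact absurd hxy (hTm y x hy.1 h).ne'
    have h2 : ∫⁻ x in (fun x : ℝ => 20 * x) '' O, F (x / 20) =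
        ∫⁻ x in O, ENNReal.ofReal |(20 : ℝ)| * F (20 * x / 20) := by
      apply lintegral_image_eq_lintegral_abs_deriv_mul hOmeas
        (fun x hx => by
          simpa using ((hasDerivAt_id x).const_mul (20 : ℝ)).hasDerivWithinAt)
        (g := fun x => F (x / 20))
      intro x hx y hy hxy
      simpa using hxy
    have h3 : (fun x : ℝ => 20 * x) '' O ⊆ T '' O := by
      rintro _ ⟨x, hx, rfl⟩
      obtain ⟨w, hw, hTw⟩ := hTsurj (20 * x) (by have := hx.1; positivity)
      have h4 : w < x := by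
        by_contra hcon
        rw [not_lt] at hcon
        have := hTmono hcon
        rw [hTw] at this
        have := hx.2
        linarith
      exact ⟨w, ⟨hw, by rw [hTw]; linarith⟩, hTw⟩
    calc 20 * ∫⁻ x in O, F x = ∫⁻ x in O, 20 * F x := (lintegral_const_mul _ hFmeas).symm
      _ = ∫⁻ x in (fun x : ℝ => 20 * x) '' O, F (x / 20) := by
          rw [h2]
          apply setLIntegral_congr_fun hOmeas
          intro x hx
          have h5 : (20 : ℝ) * x / 20 = x := by ring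
          simp only
          rw [h5, abs_of_pos (by norm_num : (0 : ℝ) < 20)]
          congr 1
          simp
      _ ≤ ∫⁻ x in T '' O, F (x / 20) := lintegral_mono_set h3
      _ = ∫⁻ x in O, ENNReal.ofReal |T' x| * F (T x / 20) := h1
      _ ≤ ∫⁻ x in O, ENNReal.ofReal (T' x) * F x := by
          apply setLIntegral_mono' hOmeas
          intro x hx
          rw [abs_of_pos (hT'p x)]
          apply mul_le_mul_right
          apply hFa x _ hx.1
          have := hx.2
          linarith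
  -- pointwise inequalities
  have hpt : ∀ x, 0 < x → ENNReal.ofReal (m ^ (1 / 21 : ℝ) * G2 x) ≤
      (if 20 * x < T x then ENNReal.ofReal (Real.exp (4 / 21)) else 1) *
        (ENNReal.ofReal (T' x ^ (1 / 21 : ℝ)) * F x) := by
    intro x hx
    have h1 := H (T x) x (hTp x hx) hx
    have h2 : m ^ (1 / 21 : ℝ) * G2 x =
        T' x ^ (1 / 21 : ℝ) * (G1 (T x) ^ (1 / 21 : ℝ) * G2 x ^ (20 / 21 : ℝ)) := by
      have hg1 := p1 (T x)
      have hg2 := p2 x
      change _ = ((G1 (T x))⁻¹ * (m * G2 x)) ^ (1 / 21 : ℝ) * _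
      rw [Real.mul_rpow (inv_pos.2 hg1).le (mul_pos hmp hg2).le, Real.mul_rpow hmp.le hg2.le,
        Real.inv_rpow hg1.le]
      have h3 : G2 x ^ (1 / 21 : ℝ) * G2 x ^ (20 / 21 : ℝ) = G2 x := by
        rw [← Real.rpow_add hg2]
        norm_num
      have h4 : (G1 (T x) ^ (1 / 21 : ℝ))⁻¹ * G1 (T x) ^ (1 / 21 : ℝ) = 1 :=
        inv_mul_cancel₀ (Real.rpow_pos_of_pos hg1 _).ne'
      calc m ^ (1 / 21 : ℝ) * G2 x = m ^ (1 / 21 : ℝ) * (G2 x ^ (1 / 21 : ℝ) *
            G2 x ^ (20 / 21 : ℝ)) * ((G1 (T x) ^ (1 / 21 : ℝ))⁻¹ * G1 (T x) ^ (1 / 21 : ℝ)) := by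
            rw [h3, h4, mul_one]
        _ = _ := by ring
    rw [h2, ENNReal.ofReal_mul (Real.rpow_nonneg (hT'p x).le _)]
    calc ENNReal.ofReal (T' x ^ (1 / 21 : ℝ)) *
          ENNReal.ofReal (G1 (T x) ^ (1 / 21 : ℝ) * G2 x ^ (20 / 21 : ℝ))
        ≤ ENNReal.ofReal (T' x ^ (1 / 21 : ℝ)) *
          ((if 20 * x < T x then ENNReal.ofReal (Real.exp (4 / 21)) else 1) *
            G3 (1 / 21 * T x + 20 / 21 * x)) := by gcongr
      _ = _ := by ring
  have hamgm : ∀ s : ℝ, 0 < s → s ^ (1 / 21 : ℝ) ≤ 1 / 21 * s + 20 / 21 := by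
    intro s hs
    have := Real.geom_mean_le_arith_mean2_weighted (w₁ := 1 / 21) (w₂ := 20 / 21) (p₁ := s)
      (p₂ := 1) (by norm_num) (by norm_num) hs.le (by norm_num) (by norm_num)
    simpa using this
  have hamgm2 : ∀ s : ℝ, 0 < s → Real.exp (4 / 21) * s ^ (1 / 21 : ℝ) ≤
      1 / 42 * s + 30 / 21 := by
    intro s hs
    have h1 := Real.geom_mean_le_arith_mean2_weighted (w₁ := 1 / 21) (w₂ := 20 / 21)
      (p₁ := s / 2) (p₂ := 3 / 2) (by norm_num) (by norm_num) (by positivity) (by norm_num)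
      (by norm_num)
    have h2 : Real.exp (4 / 21) * s ^ (1 / 21 : ℝ) ≤
        (s / 2) ^ (1 / 21 : ℝ) * (3 / 2 : ℝ) ^ (20 / 21 : ℝ) := by
      rw [Real.div_rpow hs.le (by norm_num)]
      have h3 : Real.exp (4 / 21) * (2 : ℝ) ^ (1 / 21 : ℝ) ≤ (3 / 2 : ℝ) ^ (20 / 21 : ℝ) := by
        have h4 : Real.exp (4 / 21) = (Real.exp 4) ^ (1 / 21 : ℝ) := by
          rw [← Real.exp_mul]
          congr 1
          norm_num
        have h5 : (3 / 2 : ℝ) ^ (20 / 21 : ℝ) = ((3 / 2 : ℝ) ^ (20 : ℕ)) ^ (1 / 21 : ℝ) := by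
          rw [← Real.rpow_natCast, ← Real.rpow_mul (by norm_num)]
          congr 1
          norm_num
        rw [h4, h5, ← Real.mul_rpow (Real.exp_pos _).le (by norm_num)]
        apply Real.rpow_le_rpow (by positivity) _ (by norm_num)
        have h6 : Real.exp 4 = Real.exp 1 ^ 4 := by
          rw [← Real.exp_nat_mul]
          norm_num
        have h7 := Real.exp_one_lt_d9
        rw [h6]
        have h8 : Real.exp 1 ^ 4 ≤ (3 : ℝ) ^ 4 :=
          pow_le_pow_left₀ (Real.exp_pos _).le (by linarith) 4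
        norm_num at h8 ⊢
        linarith
      have h9 : 0 < (2 : ℝ) ^ (1 / 21 : ℝ) := Real.rpow_pos_of_pos (by norm_num) _
      have h10 : 0 < s ^ (1 / 21 : ℝ) := Real.rpow_pos_of_pos hs _
      rw [div_mul_eq_mul_div, le_div_iff₀ h9]
      calc Real.exp (4 / 21) * s ^ (1 / 21 : ℝ) * (2 : ℝ) ^ (1 / 21 : ℝ) =
          s ^ (1 / 21 : ℝ) * (Real.exp (4 / 21) * (2 : ℝ) ^ (1 / 21 : ℝ)) := by ring
        _ ≤ _ := mul_le_mul_of_nonneg_left h3 h10.le
    calc _ ≤ _ := h2
      _ ≤ _ := h1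
      _ = _ := by ring
  have hoff : ∀ x ∈ Ioi (0 : ℝ) \ O, ENNReal.ofReal (m ^ (1 / 21 : ℝ) * G2 x) ≤
      ENNReal.ofReal (z' x) * F x := by
    intro x hx
    have h1 := hpt x hx.1
    have h2 : ¬ 20 * x < T x := fun h => hx.2 ⟨hx.1, h⟩
    rw [if_neg h2, one_mul] at h1
    refine h1.trans ?_
    gcongr
    exact hamgm _ (hT'p x)
  have hon : ∀ x ∈ O, ENNReal.ofReal (m ^ (1 / 21 : ℝ) * G2 x) ≤
      ENNReal.ofReal (1 / 42) * (ENNReal.ofReal (T' x) * F x) + ENNReal.ofReal (30 / 21) * F x := by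
    intro x hx
    have h1 := hpt x hx.1
    rw [if_pos hx.2, ← mul_assoc, ← ENNReal.ofReal_mul (Real.exp_pos _).le] at h1
    refine h1.trans ?_
    rw [← mul_assoc, ← add_mul, ← ENNReal.ofReal_mul (by norm_num),
      ← ENNReal.ofReal_add (by have := hT'p x; positivity) (by norm_num)]
    gcongr
    exact hamgm2 _ (hT'p x)
  -- the change of variables for `z`
  have hcv : ∫⁻ x in Ioi (0 : ℝ), ENNReal.ofReal (z' x) * F x ≤ ∫⁻ x in Ioi 0, G3 x := by
    have h1 : ∫⁻ x in z '' Ioi 0, G3 x = ∫⁻ x in Ioi 0, ENNReal.ofReal |z' x| * G3 (z x) := by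
      apply lintegral_image_eq_lintegral_abs_deriv_mul measurableSet_Ioi
        (fun x hx => (hzd x hx).hasDerivWithinAt)
      intro x hx y hy hxy
      rcases lt_trichotomy x y with h | h | h
      · exact absurd hxy (hzm x y hx h).ne
      · exact h
      · exact absurd hxy (hzm y x hy h).ne'
    calc ∫⁻ x in Ioi (0 : ℝ), ENNReal.ofReal (z' x) * F x =
        ∫⁻ x in Ioi 0, ENNReal.ofReal |z' x| * G3 (z x) := by
          apply lintegral_congr
          intro x
          rw [abs_of_pos (hz'p x)]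
      _ = ∫⁻ x in z '' Ioi 0, G3 x := h1.symm
      _ ≤ _ := lintegral_mono_set (by
          rintro _ ⟨x, hx, rfl⟩
          exact hzp x hx)
  -- left side
  have hleft : ENNReal.ofReal (M1 ^ (1 / 21 : ℝ) * M2 ^ (20 / 21 : ℝ)) =
      ∫⁻ x in Ioi (0 : ℝ), ENNReal.ofReal (m ^ (1 / 21 : ℝ) * G2 x) := by
    rw [← ofReal_integral_eq_lintegral_ofReal (i2.const_mul _)
      (ae_of_all _ fun x => (mul_pos (Real.rpow_pos_of_pos hmp _) (p2 x)).le),
      integral_const_mul]
    congr 1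
    change _ = m ^ (1 / 21 : ℝ) * M2
    rw [hm, Real.div_rpow hM1p.le hM2p.le, div_mul_eq_mul_div,
      eq_div_iff (Real.rpow_pos_of_pos hM2p _).ne', mul_assoc, ← Real.rpow_add hM2p]
    have h6 : (20 / 21 + 1 / 21 : ℝ) = 1 := by norm_num
    rw [h6, Real.rpow_one]
  have hsplit : ∀ f : ℝ → ℝ≥0∞, ∫⁻ x in Ioi (0 : ℝ), f x =
      (∫⁻ x in O, f x) + ∫⁻ x in Ioi (0 : ℝ) \ O, f x := by
    intro f
    have h1 := lintegral_inter_add_sdiff (μ := volume) f (Ioi 0) hOmeas
    rw [inter_eq_self_of_subset_right hOsub] at h1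
    exact h1.symm
  rw [hleft]
  refine le_trans ?_ hcv
  rw [hsplit, hsplit]
  have hT'F : Measurable fun x => ENNReal.ofReal (T' x) * F x := hT'meas.ennreal_ofReal.mul hFmeas
  refine add_le_add ?_ (setLIntegral_mono' (measurableSet_Ioi.diff hOmeas) hoff)
  calc ∫⁻ x in O, ENNReal.ofReal (m ^ (1 / 21 : ℝ) * G2 x)
      ≤ ∫⁻ x in O, (ENNReal.ofReal (1 / 42) * (ENNReal.ofReal (T' x) * F x) +
          ENNReal.ofReal (30 / 21) * F x) := setLIntegral_mono' hOmeas hon
    _ = ENNReal.ofReal (1 / 42) * (∫⁻ x in O, ENNReal.ofReal (T' x) * F x) +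
          ENNReal.ofReal (30 / 21) * ∫⁻ x in O, F x := by
        rw [lintegral_add_left (hT'F.const_mul _), lintegral_const_mul _ hT'F,
          lintegral_const_mul _ hFmeas]
    _ ≤ ENNReal.ofReal (1 / 21) * (∫⁻ x in O, ENNReal.ofReal (T' x) * F x) +
          ENNReal.ofReal (20 / 21) * ∫⁻ x in O, F x := by
        have e1 : ENNReal.ofReal (30 / 21) = ENNReal.ofReal (1 / 42) * 20 +
            ENNReal.ofReal (20 / 21) := by
          rw [show (20 : ℝ≥0∞) = ENNReal.ofReal 20 by simp, ← ENNReal.ofReal_mul (by norm_num),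
            ← ENNReal.ofReal_add (by norm_num) (by norm_num)]
          congr 1
          norm_num
        have e2 : ENNReal.ofReal (1 / 21) = ENNReal.ofReal (1 / 42) + ENNReal.ofReal (1 / 42) := by
          rw [← ENNReal.ofReal_add (by norm_num) (by norm_num)]
          congr 1
          norm_num
        rw [e1, e2, add_mul, add_mul, ← add_assoc]
        gcongr ?_ + _
        gcongr _ + ?_
        rw [mul_assoc]
        gcongr
    _ = ∫⁻ x in O, ENNReal.ofReal (z' x) * F x := by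
        rw [← lintegral_const_mul _ hT'F, ← lintegral_const_mul _ hFmeas,
          ← lintegral_add_left (hT'F.const_mul _)]
        apply lintegral_congr
        intro x
        change _ = ENNReal.ofReal (1 / 21 * T' x + 20 / 21) * F x
        rw [ENNReal.ofReal_add (mul_nonneg (by norm_num) (hT'p x).le) (by norm_num), add_mul,
          ENNReal.ofReal_mul (p := 1 / 21) (q := T' x) (by norm_num), mul_assoc]

end Pool.Agent.H57.SM
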