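import Pool.Agent.H57.SM.Defs
import Pool.Agent.H57.SM.Tr1

/-!
# The one-dimensional transport inequality for measurable functions

`tr2` is obtained from `tr1` (continuous positive functions) by truncation and averaging.
-/

set_option autoImplicit false

open MeasureTheory Set
open scoped ENNReal

namespace Pool.Agent.H57.SM

theorem t21_pow {a b c : ℝ} (ha : 0 ≤ a) (hb : 0 ≤ b) (hc : 0 ≤ c) :
    a ^ (1 / 21 : ℝ) * b ^ (20 / 21 : ℝ) ≤ c ↔ a * b ^ 20 ≤ c ^ 21 := by
  have e : (a ^ (1 / 21 : ℝ) * b ^ (20 / 21 : ℝ)) ^ 21 = a * b ^ 20 := by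
    rw [mul_pow]
    congr 1
    · rw [← Real.rpow_natCast, ← Real.rpow_mul ha]; norm_num
    · rw [← Real.rpow_natCast, ← Real.rpow_natCast, ← Real.rpow_mul hb]; norm_num
  rw [← e, pow_le_pow_iff_left₀ (by positivity) hc (by norm_num)]

/-- averages over an interval -/
theorem t21_avg {g : ℝ → ℝ} (hg : Integrable g) {X h w C : ℝ} (hh : 0 < h)
    (hC : ∀ t ∈ Icc (X - h) X, g t * w ≤ C) : (∫ t in (X - h)..X, g t) / h * w ≤ C := by
  have hle : X - h ≤ X := by linarith
  have h1 : ∫ t in (X - h)..X, g t * w ≤ ∫ t in (X - h)..X, C :=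
    intervalIntegral.integral_mono_on hle (hg.mul_const w).intervalIntegrable
      intervalIntegrable_const hC
  rw [intervalIntegral.integral_mul_const, intervalIntegral.integral_const, smul_eq_mul] at h1
  have h2 : X - (X - h) = h := by ring
  rw [h2] at h1
  rw [div_mul_eq_mul_div, div_le_iff₀ hh]
  linarith

theorem t21_avg0 {g : ℝ → ℝ} (h0 : ∀ t, 0 ≤ g t) {X h : ℝ} (hh : 0 < h) :
    0 ≤ (∫ t in (X - h)..X, g t) / h := by
  have hle : X - h ≤ X := by linarith
  have := intervalIntegral.integral_nonneg hle (fun t _ => h0 t) (μ := volume)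
  positivity

theorem t21_cont {g : ℝ → ℝ} (hg : Integrable g) (h : ℝ) :
    Continuous (fun X => (∫ t in (X - h)..X, g t) / h) := by
  have hP : Continuous (fun X => ∫ t in (0:ℝ)..X, g t) :=
    intervalIntegral.continuous_primitive (fun a b => hg.intervalIntegrable) 0
  have e : (fun X => (∫ t in (X - h)..X, g t) / h) =
      fun X => ((∫ t in (0:ℝ)..X, g t) - ∫ t in (0:ℝ)..(X - h), g t) / h := by
    funext X
    rw [intervalIntegral.integral_interval_sub_left hg.intervalIntegrable hg.intervalIntegrable]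
  rw [e]
  have hP2 : Continuous (fun X => ∫ t in (0:ℝ)..(X - h), g t) :=
    hP.comp (continuous_id.sub continuous_const)
  exact (hP.sub hP2).div_const h

/-- the pointwise inequality for the smoothed functions -/
theorem t21_pt {u1 u2 B K c k X x : ℝ} (hu1 : 0 ≤ u1) (hu2 : 0 ≤ u2) {η : ℝ} (hη : 0 < η)
    (hη1 : η ≤ 1) (hB : 0 ≤ B) (hB1 : u1 ≤ B * Real.exp (-X)) (hB2 : u2 ≤ B * Real.exp (-x))
    (hc : 1 ≤ c) (hk : u1 ^ (1 / 21 : ℝ) * u2 ^ (20 / 21 : ℝ) ≤ c * k)
    (hK : K = (B ^ (1 / 21 : ℝ) + B ^ (20 / 21 : ℝ) + 1) * η) :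
    (u1 + η ^ 21 * Real.exp (-X)) ^ (1 / 21 : ℝ) * (u2 + η ^ 21 * Real.exp (-x)) ^ (20 / 21 : ℝ) ≤
      c * (k + K * Real.exp (-(1 / 21 * X + 20 / 21 * x))) := by
  have q1 : (u1 + η ^ 21 * Real.exp (-X)) ^ (1 / 21 : ℝ) ≤
      u1 ^ (1 / 21 : ℝ) + η * Real.exp (-X / 21) := by
    refine (Real.rpow_add_le_add_rpow hu1 (by positivity) (by norm_num) (by norm_num)).trans ?_
    gcongr
    apply le_of_eq
    rw [Real.mul_rpow (by positivity) (by positivity), ← Real.rpow_natCast, ← Real.rpow_mul hη.le,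
      ← Real.exp_mul]
    norm_num
    left; ring_nf
  have q2 : (u2 + η ^ 21 * Real.exp (-x)) ^ (20 / 21 : ℝ) ≤
      u2 ^ (20 / 21 : ℝ) + η ^ 20 * Real.exp (-(20 / 21 * x)) := by
    refine (Real.rpow_add_le_add_rpow hu2 (by positivity) (by norm_num) (by norm_num)).trans ?_
    gcongr
    apply le_of_eq
    rw [Real.mul_rpow (by positivity) (by positivity), ← Real.rpow_natCast, ← Real.rpow_natCast,
      ← Real.rpow_mul hη.le, ← Real.exp_mul]
    norm_num
    left; ring_nf
  have r1 : u1 ^ (1 / 21 : ℝ) ≤ B ^ (1 / 21 : ℝ) * Real.exp (-X / 21) := by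
    refine (Real.rpow_le_rpow hu1 hB1 (by norm_num)).trans (le_of_eq ?_)
    rw [Real.mul_rpow hB (by positivity), ← Real.exp_mul]
    ring_nf
  have r2 : u2 ^ (20 / 21 : ℝ) ≤ B ^ (20 / 21 : ℝ) * Real.exp (-(20 / 21 * x)) := by
    refine (Real.rpow_le_rpow hu2 hB2 (by norm_num)).trans (le_of_eq ?_)
    rw [Real.mul_rpow hB (by positivity), ← Real.exp_mul]
    ring_nf
  have hE : Real.exp (-(1 / 21 * X + 20 / 21 * x)) =
      Real.exp (-X / 21) * Real.exp (-(20 / 21 * x)) := by
    rw [← Real.exp_add]; ring_nf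
  have n1 : 0 ≤ u1 ^ (1 / 21 : ℝ) := by positivity
  have n2 : 0 ≤ u2 ^ (20 / 21 : ℝ) := by positivity
  have nB1 : 0 ≤ B ^ (1 / 21 : ℝ) := by positivity
  have nB2 : 0 ≤ B ^ (20 / 21 : ℝ) := by positivity
  set a := u1 ^ (1 / 21 : ℝ)
  set b := u2 ^ (20 / 21 : ℝ)
  set p := Real.exp (-X / 21)
  set q := Real.exp (-(20 / 21 * x))
  set b1 := B ^ (1 / 21 : ℝ)
  set b2 := B ^ (20 / 21 : ℝ)
  have hp : 0 < p := Real.exp_pos _
  have hq : 0 < q := Real.exp_pos _
  have hη20 : η ^ 20 ≤ η := by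
    calc η ^ 20 ≤ η ^ 1 := pow_le_pow_of_le_one hη.le hη1 (by norm_num)
      _ = η := pow_one η
  have hη21 : η * η ^ 20 ≤ η := by
    calc η * η ^ 20 = η ^ 21 := by ring
      _ ≤ η ^ 1 := pow_le_pow_of_le_one hη.le hη1 (by norm_num)
      _ = η := pow_one η
  calc _ ≤ (a + η * p) * (b + η ^ 20 * q) := by
        apply mul_le_mul q1 q2 (by positivity) (by positivity)
    _ = a * b + a * (η ^ 20 * q) + η * p * b + (η * η ^ 20) * (p * q) := by ring
    _ ≤ c * k + (b1 * p) * (η * q) + η * p * (b2 * q) + η * (p * q) := by gcongr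
    _ = c * k + K * (p * q) := by rw [hK]; ring
    _ ≤ c * k + c * (K * (p * q)) := by
        have : 0 ≤ K * (p * q) := by rw [hK]; positivity
        nlinarith
    _ = _ := by rw [hE]; ring

theorem t21_fub {G : ℝ → ℝ≥0∞} (m : Measurable G) {h : ℝ} (hh : 0 < h) (a : ℝ) :
    ∫⁻ X in Ioi a, ∫⁻ t in Ioc (X - h) X, (Ioi a).indicator G t =
      ENNReal.ofReal h * ∫⁻ x in Ioi a, G x := by
  have mi : Measurable ((Ioi a).indicator G) := m.indicator measurableSet_Ioi
  have e1 : ∫⁻ X in Ioi a, ∫⁻ t in Ioc (X - h) X, (Ioi a).indicator G t =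
      ∫⁻ X, ∫⁻ t, (Ioc (X - h) X).indicator ((Ioi a).indicator G) t := by
    rw [← lintegral_indicator measurableSet_Ioi]
    apply lintegral_congr
    intro X
    by_cases hX : X ∈ Ioi a
    · rw [indicator_of_mem hX, lintegral_indicator measurableSet_Ioc]
    · rw [indicator_of_notMem hX]
      symm
      rw [lintegral_eq_zero_iff (mi.indicator measurableSet_Ioc)]
      apply Filter.Eventually.of_forall
      intro t
      by_cases ht : t ∈ Ioc (X - h) X
      · rw [indicator_of_mem ht, indicator_of_notMem]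
        · rfl
        · intro hta
          apply hX
          exact lt_of_lt_of_le hta ht.2
      · rw [indicator_of_notMem ht]; rfl
  rw [e1, lintegral_lintegral_swap]
  · have e2 : ∀ t, ∫⁻ X, (Ioc (X - h) X).indicator ((Ioi a).indicator G) t =
        ENNReal.ofReal h * (Ioi a).indicator G t := by
      intro t
      have : (fun X => (Ioc (X - h) X).indicator ((Ioi a).indicator G) t) =
          (Ico t (t + h)).indicator (fun _ => (Ioi a).indicator G t) := by
        funext X
        by_cases hX : t ∈ Ioc (X - h) X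
        · rw [indicator_of_mem hX, indicator_of_mem (show X ∈ Ico t (t + h) from
            ⟨hX.2, by have := hX.1; linarith⟩)]
        · rw [indicator_of_notMem hX, indicator_of_notMem]
          intro h3
          apply hX
          exact ⟨by have := h3.2; linarith, h3.1⟩
      rw [this, lintegral_indicator measurableSet_Ico, setLIntegral_const, Real.volume_Ico, mul_comm]
      congr 2
      ring
    rw [lintegral_congr e2, lintegral_const_mul _ mi, lintegral_indicator measurableSet_Ioi]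
  · apply Measurable.aemeasurable
    have : (Function.uncurry fun X t => (Ioc (X - h) X).indicator ((Ioi a).indicator G) t) =
        ({p : ℝ × ℝ | p.1 - h < p.2} ∩ {p : ℝ × ℝ | p.2 ≤ p.1}).indicator
          (fun p => (Ioi a).indicator G p.2) := by
      funext p
      rcases p with ⟨X, t⟩
      by_cases hX : t ∈ Ioc (X - h) X
      · rw [indicator_of_mem (show (X, t) ∈ {p : ℝ × ℝ | p.1 - h < p.2} ∩
          {p : ℝ × ℝ | p.2 ≤ p.1} from ⟨hX.1, hX.2⟩)]
        simp only [Function.uncurry]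
        rw [indicator_of_mem hX]
      · rw [indicator_of_notMem (show (X, t) ∉ {p : ℝ × ℝ | p.1 - h < p.2} ∩
          {p : ℝ × ℝ | p.2 ≤ p.1} from fun h3 => hX ⟨h3.1, h3.2⟩)]
        simp only [Function.uncurry]
        rw [indicator_of_notMem hX]
    rw [this]
    apply (mi.comp measurable_snd).indicator
    exact (measurableSet_lt (measurable_fst.sub_const h) measurable_snd).inter
      (measurableSet_le measurable_snd measurable_fst)

/-- integrability of the real version -/
theorem t21_int {G : ℝ → ℝ≥0∞} (m : Measurable G) {N : ℕ} (b : ∀ x, G x ≤ N)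
    (s : ∀ x, (N : ℝ) < x → G x = 0) : Integrable (fun t => ((Ioi 0).indicator G t).toReal) := by
  apply integrable_toReal_of_lintegral_ne_top (m.indicator measurableSet_Ioi).aemeasurable
  apply ne_of_lt
  calc ∫⁻ t, (Ioi 0).indicator G t ≤ ∫⁻ t, (Ioc 0 (N:ℝ)).indicator (fun _ => (N : ℝ≥0∞)) t := by
        apply lintegral_mono
        intro t
        by_cases ht : t ∈ Ioi (0:ℝ)
        · rw [indicator_of_mem ht]
          by_cases h2 : (N : ℝ) < t
          · rw [s t h2]; exact zero_le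
          · rw [indicator_of_mem (show t ∈ Ioc (0:ℝ) N from ⟨ht, not_lt.1 h2⟩)]
            exact b t
        · rw [indicator_of_notMem ht]; exact zero_le
    _ = N * volume (Ioc (0:ℝ) N) := by
        rw [lintegral_indicator measurableSet_Ioc, setLIntegral_const]
    _ < ∞ := by
        rw [Real.volume_Ioc]
        exact ENNReal.mul_lt_top (ENNReal.natCast_lt_top N) ENNReal.ofReal_lt_top

theorem t21_ofR {G : ℝ → ℝ≥0∞} (m : Measurable G) {N : ℕ} (b : ∀ x, G x ≤ N)
    (s : ∀ x, (N : ℝ) < x → G x = 0) {h : ℝ} (hh : 0 < h) (X : ℝ) :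
    ENNReal.ofReal ((∫ t in (X - h)..X, ((Ioi 0).indicator G t).toReal) / h) =
      (∫⁻ t in Ioc (X - h) X, (Ioi 0).indicator G t) / ENNReal.ofReal h := by
  have hi := t21_int m b s
  have mi : Measurable ((Ioi (0:ℝ)).indicator G) := m.indicator measurableSet_Ioi
  rw [ENNReal.ofReal_div_of_pos hh, intervalIntegral.integral_of_le (by linarith)]
  congr 1
  rw [ofReal_integral_eq_lintegral_ofReal hi.integrableOn]
  · apply lintegral_congr
    intro t
    apply ENNReal.ofReal_toReal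
    by_cases ht : t ∈ Ioi (0:ℝ)
    · rw [indicator_of_mem ht]
      exact ne_top_of_le_ne_top (ENNReal.natCast_ne_top N) (b t)
    · rw [indicator_of_notMem ht]; exact ENNReal.zero_ne_top
  · apply Filter.Eventually.of_forall
    intro t
    exact ENNReal.toReal_nonneg

/-- lower bound for the integral of the averages -/
theorem t21_low {G : ℝ → ℝ≥0∞} (m : Measurable G) {N : ℕ} (b : ∀ x, G x ≤ N)
    (s : ∀ x, (N : ℝ) < x → G x = 0) {h : ℝ} (hh : 0 < h) {a : ℝ} (ha : 0 ≤ a) :
    ∫⁻ x in Ioi a, G x ≤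
      ∫⁻ X in Ioi a, ENNReal.ofReal ((∫ t in (X - h)..X, ((Ioi 0).indicator G t).toReal) / h) := by
  have h0 : ENNReal.ofReal h ≠ 0 := by simpa using hh
  calc ∫⁻ x in Ioi a, G x = (ENNReal.ofReal h * ∫⁻ x in Ioi a, G x) / ENNReal.ofReal h := by
        rw [mul_comm, ENNReal.mul_div_cancel_right h0 ENNReal.ofReal_ne_top]
    _ = (∫⁻ X in Ioi a, ∫⁻ t in Ioc (X - h) X, (Ioi a).indicator G t) / ENNReal.ofReal h := by
        rw [t21_fub m hh a]
    _ ≤ (∫⁻ X in Ioi a, ∫⁻ t in Ioc (X - h) X, (Ioi 0).indicator G t) / ENNReal.ofReal h := by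
        apply ENNReal.div_le_div_right
        apply lintegral_mono
        intro X
        apply lintegral_mono
        intro t
        exact indicator_le_indicator_of_subset (Ioi_subset_Ioi ha) (fun _ => zero_le) t
    _ = ∫⁻ X in Ioi a, ENNReal.ofReal ((∫ t in (X - h)..X,
          ((Ioi 0).indicator G t).toReal) / h) := by
        rw [lintegral_congr (fun X => t21_ofR m b s hh X)]
        simp_rw [div_eq_mul_inv]
        rw [lintegral_mul_const']
        exact ENNReal.inv_ne_top.2 h0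

theorem t21_shift (F : ℝ → ℝ≥0∞) (h : ℝ) :
    ∫⁻ x in Ioi 0, F (x + h) = ∫⁻ x in Ioi h, F x := by
  rw [← lintegral_indicator measurableSet_Ioi, ← lintegral_indicator measurableSet_Ioi,
    ← lintegral_add_right_eq_self ((Ioi h).indicator F) h]
  apply lintegral_congr
  intro x
  by_cases hx : 0 < x
  · rw [indicator_of_mem (show x ∈ Ioi (0:ℝ) from hx),
      indicator_of_mem (show x + h ∈ Ioi h by simpa using hx)]
  · rw [indicator_of_notMem (show x ∉ Ioi (0:ℝ) from hx),
      indicator_of_notMem (show x + h ∉ Ioi h by simpa using hx)]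

theorem t21_dec {G : ℝ → ℝ≥0∞} (m : Measurable G) {N : ℕ} (b : ∀ x, G x ≤ N)
    (s : ∀ x, (N : ℝ) < x → G x = 0) {h : ℝ} (hh : 0 < h) (hh1 : h ≤ 1) (X : ℝ) :
    (∫ t in (X - h)..X, ((Ioi 0).indicator G t).toReal) / h ≤
      N * Real.exp (N + 1) * Real.exp (-X) := by
  have hi := t21_int m b s
  have hN : ∀ t, ((Ioi (0:ℝ)).indicator G t).toReal ≤ N := by
    intro t
    apply ENNReal.toReal_le_of_le_ofReal (by positivity)
    rw [ENNReal.ofReal_natCast]
    by_cases ht : t ∈ Ioi (0:ℝ)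
    · rw [indicator_of_mem ht]; exact b t
    · rw [indicator_of_notMem ht]; exact zero_le
  have hz : ∀ t, (N : ℝ) < t → ((Ioi (0:ℝ)).indicator G t).toReal = 0 := by
    intro t ht
    rw [indicator_of_mem (show t ∈ Ioi (0:ℝ) from lt_of_le_of_lt (Nat.cast_nonneg N) ht), s t ht]
    rfl
  by_cases hX : (N : ℝ) + 1 < X
  · have h1 : (∫ t in (X - h)..X, ((Ioi 0).indicator G t).toReal) / h * 1 ≤ 0 := by
      apply t21_avg hi hh
      intro t ht
      rw [hz t (by have := ht.1; linarith)]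
      simp
    rw [mul_one] at h1
    exact h1.trans (by positivity)
  · have h1 : (∫ t in (X - h)..X, ((Ioi 0).indicator G t).toReal) / h * 1 ≤ N := by
      apply t21_avg hi hh
      intro t _
      rw [mul_one]
      exact hN t
    rw [mul_one] at h1
    apply h1.trans
    rw [mul_assoc, ← Real.exp_add]
    have h2 : (1:ℝ) ≤ Real.exp (N + 1 + -X) := by
      rw [Real.one_le_exp_iff]; push Not at hX; linarith
    nlinarith [Nat.cast_nonneg (α := ℝ) N]

theorem t21_bdd {N : ℕ} {G1 G2 G3 : ℝ → ℝ≥0∞} (m1 : Measurable G1) (m2 : Measurable G2)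
    (m3 : Measurable G3) (a2 : AntitoneOn G2 (Ioi 0)) (a3 : AntitoneOn G3 (Ioi 0))
    (b1 : ∀ x, G1 x ≤ N) (b2 : ∀ x, G2 x ≤ N) (b3 : ∀ x, G3 x ≤ N)
    (s1 : ∀ x, (N : ℝ) < x → G1 x = 0) (s2 : ∀ x, (N : ℝ) < x → G2 x = 0)
    (H : ∀ X x, 0 < X → 0 < x → G1 X ^ (1 / 21 : ℝ) * G2 x ^ (20 / 21 : ℝ) ≤
      (if 20 * x < X then ENNReal.ofReal (Real.exp (4 / 21)) else 1) *
        G3 (1 / 21 * X + 20 / 21 * x))
    {h η : ℝ} (hh : 0 < h) (hh1 : h ≤ 1) (hη : 0 < η) (hη1 : η ≤ 1) :
    (∫⁻ x in Ioi 0, G1 x) ^ (1 / 21 : ℝ) * (∫⁻ x in Ioi h, G2 x) ^ (20 / 21 : ℝ) ≤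
      (∫⁻ x in Ioi 0, G3 x) + (ENNReal.ofReal (N * h / 21) + ENNReal.ofReal
        (((N * Real.exp (N + 1)) ^ (1 / 21 : ℝ) + (N * Real.exp (N + 1)) ^ (20 / 21 : ℝ) + 1) *
          η)) := by
  obtain ⟨B, hBd⟩ : ∃ B : ℝ, B = N * Real.exp (N + 1) := ⟨_, rfl⟩
  obtain ⟨K, hKd⟩ : ∃ K : ℝ, K = (B ^ (1 / 21 : ℝ) + B ^ (20 / 21 : ℝ) + 1) * η := ⟨_, rfl⟩
  rw [← hBd, ← hKd]
  have hB : 0 ≤ B := by rw [hBd]; positivity
  have hK : 0 ≤ K := by rw [hKd]; positivity
  have hi1 := t21_int m1 b1 s1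
  have hi2 := t21_int m2 b2 s2
  obtain ⟨g1, hg1⟩ : ∃ g : ℝ → ℝ, g = fun t => ((Ioi 0).indicator G1 t).toReal := ⟨_, rfl⟩
  obtain ⟨g2, hg2⟩ : ∃ g : ℝ → ℝ, g = fun t => ((Ioi 0).indicator G2 t).toReal := ⟨_, rfl⟩
  have g1nn : ∀ t, 0 ≤ g1 t := by intro t; rw [hg1]; exact ENNReal.toReal_nonneg
  have g2nn : ∀ t, 0 ≤ g2 t := by intro t; rw [hg2]; exact ENNReal.toReal_nonneg
  have d1 : ∀ X, (∫ t in (X - h)..X, g1 t) / h ≤ B * Real.exp (-X) := by
    intro X; rw [hg1, hBd]; exact t21_dec m1 b1 s1 hh hh1 X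
  have d2 : ∀ X, (∫ t in (X - h)..X, g2 t) / h ≤ B * Real.exp (-X) := by
    intro X; rw [hg2, hBd]; exact t21_dec m2 b2 s2 hh hh1 X
  have l1 : ∫⁻ x in Ioi 0, G1 x ≤
      ∫⁻ X in Ioi 0, ENNReal.ofReal ((∫ t in (X - h)..X, g1 t) / h) := by
    rw [hg1]; exact t21_low m1 b1 s1 hh le_rfl
  have l2 : ∫⁻ x in Ioi h, G2 x ≤
      ∫⁻ X in Ioi h, ENNReal.ofReal ((∫ t in (X - h)..X, g2 t) / h) := by
    rw [hg2]; exact t21_low m2 b2 s2 hh hh.le
  rw [← hg1] at hi1
  rw [← hg2] at hi2
  -- the functions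
  obtain ⟨u1, hu1⟩ : ∃ u : ℝ → ℝ, u = fun X => (∫ t in (X - h)..X, g1 t) / h := ⟨_, rfl⟩
  obtain ⟨u2, hu2⟩ : ∃ u : ℝ → ℝ, u = fun X => (∫ t in (X - h)..X, g2 t) / h := ⟨_, rfl⟩
  have cu1 : Continuous u1 := by rw [hu1]; exact t21_cont hi1 h
  have cu2 : Continuous u2 := by rw [hu2]; exact t21_cont hi2 h
  have u1nn : ∀ X, 0 ≤ u1 X := by intro X; rw [hu1]; exact t21_avg0 g1nn hh
  have u2nn : ∀ X, 0 ≤ u2 X := by intro X; rw [hu2]; exact t21_avg0 g2nn hh
  have e1 : ∀ X, u1 X ≤ B * Real.exp (-X) := by intro X; rw [hu1]; exact d1 X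
  have e2 : ∀ x, u2 (x + h) ≤ B * Real.exp (-x) := by
    intro x
    rw [hu2]
    refine (d2 (x + h)).trans ?_
    gcongr
    linarith
  have l1' : ∫⁻ x in Ioi 0, G1 x ≤ ∫⁻ X in Ioi 0, ENNReal.ofReal (u1 X) := by
    rw [hu1]; exact l1
  have l2' : ∫⁻ x in Ioi h, G2 x ≤ ∫⁻ x in Ioi 0, ENNReal.ofReal (u2 (x + h)) := by
    rw [t21_shift (fun x => ENNReal.ofReal (u2 x)) h, hu2]; exact l2
  obtain ⟨k3, hk3⟩ : ∃ k : ℝ → ℝ,
    k = fun z => if z ≤ h / 21 then (N : ℝ) else (G3 (z - h / 21)).toReal := ⟨_, rfl⟩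
  have k3nn : ∀ z, 0 ≤ k3 z := by
    intro z; rw [hk3]; dsimp only; split_ifs
    · positivity
    · exact ENNReal.toReal_nonneg
  have k3m : Measurable k3 := by
    rw [hk3]
    apply Measurable.ite measurableSet_Iic measurable_const
    exact (m3.comp (measurable_id.sub_const _)).ennreal_toReal
  have k3a : AntitoneOn k3 (Ioi 0) := by
    intro z hz w hw hzw
    rw [hk3]; dsimp only
    have top : ∀ y, G3 y ≠ ∞ := fun y => ne_top_of_le_ne_top (ENNReal.natCast_ne_top N) (b3 y)
    split_ifs with c1 c2 c2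
    · exact le_rfl
    · exact absurd (hzw.trans c1) c2
    · apply ENNReal.toReal_le_of_le_ofReal (by positivity)
      rw [ENNReal.ofReal_natCast]; exact b3 _
    · apply ENNReal.toReal_mono (top _)
      push Not at c1 c2
      exact a3 (show z - h / 21 ∈ Ioi (0:ℝ) by rw [mem_Ioi]; linarith)
        (show w - h / 21 ∈ Ioi (0:ℝ) by rw [mem_Ioi]; linarith) (by linarith)
  -- key pointwise inequality
  have key : ∀ X x, 0 < X → 0 < x → u1 X ^ (1 / 21 : ℝ) * u2 (x + h) ^ (20 / 21 : ℝ) ≤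
      (if 20 * x < X then Real.exp (4 / 21) else 1) * k3 (1 / 21 * X + 20 / 21 * x) := by
    intro X x hX hx
    obtain ⟨c, hc⟩ : ∃ c : ℝ, c = if 20 * x < X then Real.exp (4 / 21) else 1 := ⟨_, rfl⟩
    obtain ⟨z, hz⟩ : ∃ z : ℝ, z = 1 / 21 * X + 20 / 21 * x := ⟨_, rfl⟩
    rw [← hc, ← hz]
    have hc0 : 0 < c := by rw [hc]; split_ifs <;> positivity
    have hck : 0 ≤ c * k3 z := mul_nonneg hc0.le (k3nn z)
    rw [t21_pow (u1nn X) (u2nn _) hck]
    have hu2g : u2 (x + h) ≤ g2 x := by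
      have : (∫ t in ((x + h) - h)..(x + h), g2 t) / h * 1 ≤ g2 x := by
        apply t21_avg hi2 hh
        intro t ht
        have ht1 : x ≤ t := by have := ht.1; linarith
        rw [mul_one, hg2]
        dsimp only
        rw [indicator_of_mem (show x ∈ Ioi (0:ℝ) from hx),
          indicator_of_mem (show t ∈ Ioi (0:ℝ) from lt_of_lt_of_le hx ht1)]
        apply ENNReal.toReal_mono (ne_top_of_le_ne_top (ENNReal.natCast_ne_top N) (b2 x))
        exact a2 hx (lt_of_lt_of_le hx ht1) ht1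
      rw [mul_one] at this
      rw [hu2]
      exact this
    have h1 : u1 X * g2 x ^ 20 ≤ (c * k3 z) ^ 21 := by
      rw [hu1]
      apply t21_avg hi1 hh
      intro t ht
      by_cases ht0 : 0 < t
      · rw [← t21_pow (g1nn t) (g2nn x) hck]
        have hH := H t x ht0 hx
        have hG1 : G1 t = ENNReal.ofReal (g1 t) := by
          rw [hg1]; dsimp only
          rw [indicator_of_mem (show t ∈ Ioi (0:ℝ) from ht0), ENNReal.ofReal_toReal
            (ne_top_of_le_ne_top (ENNReal.natCast_ne_top N) (b1 t))]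
        have hG2 : G2 x = ENNReal.ofReal (g2 x) := by
          rw [hg2]; dsimp only
          rw [indicator_of_mem (show x ∈ Ioi (0:ℝ) from hx), ENNReal.ofReal_toReal
            (ne_top_of_le_ne_top (ENNReal.natCast_ne_top N) (b2 x))]
        have hG3 : G3 (1 / 21 * t + 20 / 21 * x) ≤ ENNReal.ofReal (k3 z) := by
          rw [hk3]; dsimp only
          split_ifs with hzh
          · rw [ENNReal.ofReal_natCast]; exact b3 _
          · rw [ENNReal.ofReal_toReal (ne_top_of_le_ne_top (ENNReal.natCast_ne_top N) (b3 _))]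
            push Not at hzh
            have := ht.1
            apply a3 (show z - h / 21 ∈ Ioi (0:ℝ) by rw [mem_Ioi]; linarith)
              (show 1 / 21 * t + 20 / 21 * x ∈ Ioi (0:ℝ) by rw [mem_Ioi]; positivity)
            rw [hz]; linarith
        have hcc : (if 20 * x < t then ENNReal.ofReal (Real.exp (4 / 21)) else 1) ≤
            ENNReal.ofReal c := by
          have h1c : 1 ≤ c := by
            rw [hc]; split_ifs
            · rw [Real.one_le_exp_iff]; norm_num
            · exact le_rfl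
          split_ifs with c1
          · have : 20 * x < X := lt_of_lt_of_le c1 ht.2
            rw [hc, if_pos this]
          · rw [ENNReal.one_le_ofReal]; exact h1c
        have hH2 : ENNReal.ofReal (g1 t ^ (1 / 21 : ℝ) * g2 x ^ (20 / 21 : ℝ)) ≤
            ENNReal.ofReal (c * k3 z) := by
          rw [ENNReal.ofReal_mul (by have := g1nn t; positivity), ENNReal.ofReal_mul hc0.le,
            ← ENNReal.ofReal_rpow_of_nonneg (g1nn t) (by norm_num),
            ← ENNReal.ofReal_rpow_of_nonneg (g2nn x) (by norm_num), ← hG1, ← hG2]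
          exact hH.trans (mul_le_mul' hcc hG3)
        exact (ENNReal.ofReal_le_ofReal_iff hck).1 hH2
      · have : g1 t = 0 := by
          rw [hg1]; dsimp only
          rw [indicator_of_notMem (show t ∉ Ioi (0:ℝ) from ht0)]; rfl
        rw [this, zero_mul]
        positivity
    calc u1 X * u2 (x + h) ^ 20 ≤ u1 X * g2 x ^ 20 := by
          have := u1nn X
          have := u2nn (x + h)
          gcongr
      _ ≤ _ := h1
  -- application of tr1
  have he0 : ∀ x : ℝ, 0 < η ^ 21 * Real.exp (-x) := fun x => by positivity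
  have cR1 : Continuous (fun X => u1 X + η ^ 21 * Real.exp (-X)) := by fun_prop
  have cR2 : Continuous (fun x => u2 (x + h) + η ^ 21 * Real.exp (-x)) := by fun_prop
  have iexp : IntegrableOn (fun x : ℝ => Real.exp (-x)) (Ioi 0) := by
    have := integrableOn_exp_neg_Ioi 0
    exact this
  have iB : IntegrableOn (fun x : ℝ => (B + η ^ 21) * Real.exp (-x)) (Ioi 0) :=
    iexp.const_mul _
  have iR1 : IntegrableOn (fun X => u1 X + η ^ 21 * Real.exp (-X)) (Ioi 0) := by
    refine Integrable.mono' iB cR1.aestronglyMeasurable ?_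
    apply Filter.Eventually.of_forall
    intro X
    rw [Real.norm_of_nonneg (by have := u1nn X; have := he0 X; linarith)]
    have := e1 X
    nlinarith
  have iR2 : IntegrableOn (fun x => u2 (x + h) + η ^ 21 * Real.exp (-x)) (Ioi 0) := by
    refine Integrable.mono' iB cR2.aestronglyMeasurable ?_
    apply Filter.Eventually.of_forall
    intro x
    rw [Real.norm_of_nonneg (by have := u2nn (x + h); have := he0 x; linarith)]
    have := e2 x
    nlinarith
  have main := tr1 (G3 := fun z => ENNReal.ofReal (k3 z + K * Real.exp (-z))) cR1 cR2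
    (fun X => by have := u1nn X; have := he0 X; linarith)
    (fun x => by have := u2nn (x + h); have := he0 x; linarith) iR1 iR2
    (by
      apply Measurable.ennreal_ofReal
      exact k3m.add ((Real.measurable_exp.comp measurable_neg).const_mul K))
    (by
      intro z hz w hw hzw
      dsimp only
      apply ENNReal.ofReal_le_ofReal
      have := k3a hz hw hzw
      gcongr)
    (by
      intro X x hX hx
      obtain ⟨c, hc⟩ : ∃ c : ℝ, c = if 20 * x < X then Real.exp (4 / 21) else 1 := ⟨_, rfl⟩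
      have h1c : 1 ≤ c := by
        rw [hc]; split_ifs
        · rw [Real.one_le_exp_iff]; norm_num
        · exact le_rfl
      have hce : (if 20 * x < X then ENNReal.ofReal (Real.exp (4 / 21)) else 1) =
          ENNReal.ofReal c := by
        rw [hc]; split_ifs <;> simp
      have hk := key X x hX hx
      rw [← hc] at hk
      rw [hce, ← ENNReal.ofReal_mul (by linarith)]
      apply ENNReal.ofReal_le_ofReal
      exact t21_pt (u1nn X) (u2nn _) hη hη1 hB (e1 X) (e2 x) h1c hk hKd)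
  have f1 : ∫⁻ x in Ioi 0, G1 x ≤
      ENNReal.ofReal (∫ X in Ioi 0, (u1 X + η ^ 21 * Real.exp (-X))) := by
    rw [ofReal_integral_eq_lintegral_ofReal iR1]
    · refine l1'.trans (lintegral_mono fun X => ENNReal.ofReal_le_ofReal ?_)
      have := he0 X; linarith
    · apply Filter.Eventually.of_forall
      intro X
      have := u1nn X; have := he0 X
      simp only [Pi.zero_apply]
      linarith
  have f2 : ∫⁻ x in Ioi h, G2 x ≤
      ENNReal.ofReal (∫ x in Ioi 0, (u2 (x + h) + η ^ 21 * Real.exp (-x))) := by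
    rw [ofReal_integral_eq_lintegral_ofReal iR2]
    · refine l2'.trans (lintegral_mono fun X => ENNReal.ofReal_le_ofReal ?_)
      have := he0 X; linarith
    · apply Filter.Eventually.of_forall
      intro x
      have := u2nn (x + h); have := he0 x
      simp only [Pi.zero_apply]
      linarith
  have i1nn : 0 ≤ ∫ X in Ioi 0, (u1 X + η ^ 21 * Real.exp (-X)) := by
    apply integral_nonneg
    intro X
    have := u1nn X; have := he0 X
    simp only [Pi.zero_apply]
    linarith
  have i2nn : 0 ≤ ∫ x in Ioi 0, (u2 (x + h) + η ^ 21 * Real.exp (-x)) := by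
    apply integral_nonneg
    intro x
    have := u2nn (x + h); have := he0 x
    simp only [Pi.zero_apply]
    linarith
  have fin : ∫⁻ z in Ioi (0:ℝ), ENNReal.ofReal (k3 z + K * Real.exp (-z)) ≤
      (∫⁻ x in Ioi 0, G3 x) + (ENNReal.ofReal (N * h / 21) + ENNReal.ofReal K) := by
    have s1 : ∫⁻ z in Ioi (0:ℝ), ENNReal.ofReal (k3 z + K * Real.exp (-z)) =
        (∫⁻ z in Ioi (0:ℝ), ENNReal.ofReal (k3 z)) +
          ∫⁻ z in Ioi (0:ℝ), ENNReal.ofReal (K * Real.exp (-z)) := by
      rw [← lintegral_add_left k3m.ennreal_ofReal]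
      apply lintegral_congr
      intro z
      exact ENNReal.ofReal_add (k3nn z) (by positivity)
    have s2 : ∫⁻ z in Ioi (0:ℝ), ENNReal.ofReal (K * Real.exp (-z)) = ENNReal.ofReal K := by
      rw [← ofReal_integral_eq_lintegral_ofReal (iexp.const_mul K)]
      · congr 1
        rw [integral_const_mul, integral_exp_neg_Ioi_zero, mul_one]
      · apply Filter.Eventually.of_forall
        intro z
        simp only [Pi.zero_apply]
        positivity
    have s3 : ∫⁻ z in Ioi (0:ℝ), ENNReal.ofReal (k3 z) ≤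
        ENNReal.ofReal (N * h / 21) + ∫⁻ x in Ioi 0, G3 x := by
      have hsp : Ioi (0:ℝ) ⊆ Ioc 0 (h / 21) ∪ Ioi (h / 21) := by
        intro z hz
        by_cases hzh : z ≤ h / 21
        · left; exact ⟨hz, hzh⟩
        · right; exact not_le.1 hzh
      calc _ ≤ ∫⁻ z in Ioc 0 (h / 21) ∪ Ioi (h / 21), ENNReal.ofReal (k3 z) :=
            lintegral_mono_set hsp
        _ ≤ (∫⁻ z in Ioc 0 (h / 21), ENNReal.ofReal (k3 z)) +
            ∫⁻ z in Ioi (h / 21), ENNReal.ofReal (k3 z) := lintegral_union_le _ _ _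
        _ ≤ _ := by
            refine add_le_add ?_ ?_
            · calc _ ≤ ∫⁻ z in Ioc 0 (h / 21), (N : ℝ≥0∞) := by
                    apply setLIntegral_mono measurable_const
                    intro z hz
                    rw [hk3]; dsimp only
                    rw [if_pos hz.2, ENNReal.ofReal_natCast]
                _ = _ := by
                    rw [setLIntegral_const, Real.volume_Ioc, ← ENNReal.ofReal_natCast,
                      ← ENNReal.ofReal_mul (by positivity)]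
                    congr 1
                    ring
            · rw [← t21_shift (fun z => ENNReal.ofReal (k3 z)) (h / 21)]
              apply setLIntegral_mono m3
              intro x hx
              rw [hk3]; dsimp only
              rw [if_neg (by have : 0 < x := hx; linarith), add_sub_cancel_right]
              exact ENNReal.ofReal_toReal_le
    rw [s1, s2]
    calc _ ≤ (ENNReal.ofReal (N * h / 21) + ∫⁻ x in Ioi 0, G3 x) + ENNReal.ofReal K := by gcongr
      _ = _ := by ring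
  calc _ ≤ ENNReal.ofReal (∫ X in Ioi 0, (u1 X + η ^ 21 * Real.exp (-X))) ^ (1 / 21 : ℝ) *
        ENNReal.ofReal (∫ x in Ioi 0, (u2 (x + h) + η ^ 21 * Real.exp (-x))) ^ (20 / 21 : ℝ) := by
        gcongr
    _ = _ := by
        rw [ENNReal.ofReal_rpow_of_nonneg i1nn (by norm_num),
          ENNReal.ofReal_rpow_of_nonneg i2nn (by norm_num),
          ← ENNReal.ofReal_mul (by positivity)]
    _ ≤ _ := main
    _ ≤ _ := fin

theorem t21_lim {N : ℕ} {G1 G2 G3 : ℝ → ℝ≥0∞} (m1 : Measurable G1) (m2 : Measurable G2)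
    (m3 : Measurable G3) (a2 : AntitoneOn G2 (Ioi 0)) (a3 : AntitoneOn G3 (Ioi 0))
    (b1 : ∀ x, G1 x ≤ N) (b2 : ∀ x, G2 x ≤ N) (b3 : ∀ x, G3 x ≤ N)
    (s1 : ∀ x, (N : ℝ) < x → G1 x = 0) (s2 : ∀ x, (N : ℝ) < x → G2 x = 0)
    (H : ∀ X x, 0 < X → 0 < x → G1 X ^ (1 / 21 : ℝ) * G2 x ^ (20 / 21 : ℝ) ≤
      (if 20 * x < X then ENNReal.ofReal (Real.exp (4 / 21)) else 1) *
        G3 (1 / 21 * X + 20 / 21 * x)) :
    (∫⁻ x in Ioi 0, G1 x) ^ (1 / 21 : ℝ) * (∫⁻ x in Ioi 0, G2 x) ^ (20 / 21 : ℝ) ≤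
      ∫⁻ x in Ioi 0, G3 x := by
  obtain ⟨C, hC⟩ : ∃ C : ℝ, C = (N * Real.exp (N + 1)) ^ (1 / 21 : ℝ) +
    (N * Real.exp (N + 1)) ^ (20 / 21 : ℝ) + 1 := ⟨_, rfl⟩
  have hb : ∀ n : ℕ, (∫⁻ x in Ioi 0, G1 x) ^ (1 / 21 : ℝ) *
      (∫⁻ x in Ioi (1 / ((n : ℝ) + 1)), G2 x) ^ (20 / 21 : ℝ) ≤
      (∫⁻ x in Ioi 0, G3 x) + (ENNReal.ofReal (N * (1 / ((n : ℝ) + 1)) / 21) +
        ENNReal.ofReal (C * (1 / ((n : ℝ) + 1)))) := by
    intro n
    have hp : (0:ℝ) < 1 / ((n : ℝ) + 1) := by positivity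
    have h1 : 1 / ((n : ℝ) + 1) ≤ 1 := by
      rw [div_le_one (by positivity)]
      have : (0:ℝ) ≤ n := Nat.cast_nonneg n
      linarith
    rw [hC]
    exact t21_bdd m1 m2 m3 a2 a3 b1 b2 b3 s1 s2 H hp h1 hp h1
  have hlim : Filter.Tendsto (fun n : ℕ => 1 / ((n : ℝ) + 1)) Filter.atTop (nhds 0) :=
    tendsto_one_div_add_atTop_nhds_zero_nat
  have r1 : Filter.Tendsto (fun n : ℕ => (∫⁻ x in Ioi 0, G3 x) +
      (ENNReal.ofReal (N * (1 / ((n : ℝ) + 1)) / 21) + ENNReal.ofReal (C * (1 / ((n : ℝ) + 1)))))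
      Filter.atTop (nhds (∫⁻ x in Ioi 0, G3 x)) := by
    have t1 : Filter.Tendsto (fun n : ℕ => ENNReal.ofReal (N * (1 / ((n : ℝ) + 1)) / 21))
        Filter.atTop (nhds 0) := by
      have := (hlim.const_mul (N : ℝ)).div_const 21
      rw [mul_zero, zero_div] at this
      have h2 := (ENNReal.continuous_ofReal.tendsto 0).comp this
      rw [ENNReal.ofReal_zero] at h2
      exact h2
    have t2 : Filter.Tendsto (fun n : ℕ => ENNReal.ofReal (C * (1 / ((n : ℝ) + 1))))
        Filter.atTop (nhds 0) := by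
      have := hlim.const_mul C
      rw [mul_zero] at this
      have h2 := (ENNReal.continuous_ofReal.tendsto 0).comp this
      rw [ENNReal.ofReal_zero] at h2
      exact h2
    have t3 := (tendsto_const_nhds (x := ∫⁻ x in Ioi 0, G3 x) (f := Filter.atTop)).add (t1.add t2)
    rw [add_zero, add_zero] at t3
    exact t3
  have l1 : Filter.Tendsto (fun n : ℕ => ∫⁻ x in Ioi (1 / ((n : ℝ) + 1)), G2 x) Filter.atTop
      (nhds (∫⁻ x in Ioi 0, G2 x)) := by
    have hU : (⋃ n : ℕ, Ioi (1 / ((n : ℝ) + 1))) = Ioi (0 : ℝ) := by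
      ext x
      simp only [mem_iUnion, mem_Ioi]
      constructor
      · rintro ⟨n, hn⟩
        exact lt_trans (by positivity) hn
      · intro hx
        exact exists_nat_one_div_lt hx
    have hm : Monotone (fun n : ℕ => Ioi (1 / ((n : ℝ) + 1))) := by
      intro a b hab
      apply Ioi_subset_Ioi
      apply one_div_le_one_div_of_le (by positivity)
      have : (a : ℝ) ≤ b := by exact_mod_cast hab
      linarith
    have h1 := tendsto_measure_iUnion_atTop (μ := volume.withDensity G2) hm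
    rw [hU] at h1
    rw [withDensity_apply _ measurableSet_Ioi] at h1
    refine h1.congr ?_
    intro n
    rw [Function.comp, withDensity_apply _ measurableSet_Ioi]
  have hG1 : ∫⁻ x in Ioi 0, G1 x ≠ ∞ := by
    apply ne_of_lt
    calc ∫⁻ x in Ioi 0, G1 x = ∫⁻ x, (Ioi 0).indicator G1 x :=
          (lintegral_indicator measurableSet_Ioi _).symm
      _ ≤ ∫⁻ t, (Ioc 0 (N:ℝ)).indicator (fun _ => (N : ℝ≥0∞)) t := by
          apply lintegral_mono
          intro t
          by_cases ht : t ∈ Ioi (0:ℝ)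
          · rw [indicator_of_mem ht]
            by_cases h2 : (N : ℝ) < t
            · rw [s1 t h2]; exact zero_le
            · rw [indicator_of_mem (show t ∈ Ioc (0:ℝ) N from ⟨ht, not_lt.1 h2⟩)]
              exact b1 t
          · rw [indicator_of_notMem ht]; exact zero_le
      _ = N * volume (Ioc (0:ℝ) N) := by
          rw [lintegral_indicator measurableSet_Ioc, setLIntegral_const]
      _ < ∞ := by
          rw [Real.volume_Ioc]
          exact ENNReal.mul_lt_top (ENNReal.natCast_lt_top N) ENNReal.ofReal_lt_top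
  have l2 : Filter.Tendsto (fun n : ℕ => (∫⁻ x in Ioi 0, G1 x) ^ (1 / 21 : ℝ) *
      (∫⁻ x in Ioi (1 / ((n : ℝ) + 1)), G2 x) ^ (20 / 21 : ℝ)) Filter.atTop
      (nhds ((∫⁻ x in Ioi 0, G1 x) ^ (1 / 21 : ℝ) * (∫⁻ x in Ioi 0, G2 x) ^ (20 / 21 : ℝ))) := by
    apply ENNReal.Tendsto.const_mul
    · exact l1.ennrpow_const _
    · right
      exact ENNReal.rpow_ne_top_of_nonneg (by norm_num) hG1
  exact le_of_tendsto_of_tendsto' l2 r1 hb

/-- truncation -/
noncomputable def t21_tr (N : ℕ) (G : ℝ → ℝ≥0∞) (x : ℝ) : ℝ≥0∞ :=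
  if x ≤ N then min (G x) N else 0

theorem t21_tr_meas (N : ℕ) {G : ℝ → ℝ≥0∞} (m : Measurable G) : Measurable (t21_tr N G) :=
  Measurable.ite measurableSet_Iic (m.min measurable_const) measurable_const

theorem t21_tr_le (N : ℕ) (G : ℝ → ℝ≥0∞) (x : ℝ) : t21_tr N G x ≤ N := by
  unfold t21_tr; split_ifs
  · exact min_le_right _ _
  · exact zero_le

theorem t21_tr_mono (G : ℝ → ℝ≥0∞) (x : ℝ) : Monotone (fun N => t21_tr N G x) := by
  intro a b hab
  have hab' : (a : ℝ) ≤ b := by exact_mod_cast hab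
  dsimp only
  unfold t21_tr
  split_ifs with c1 c2 c2
  · exact min_le_min_left _ (by exact_mod_cast hab)
  · exact absurd (c1.trans hab') c2
  · exact zero_le
  · exact le_rfl

theorem t21_tr_sup (G : ℝ → ℝ≥0∞) (x : ℝ) : ⨆ N, t21_tr N G x = G x := by
  apply le_antisymm
  · apply iSup_le
    intro N
    unfold t21_tr; split_ifs
    · exact min_le_left _ _
    · exact zero_le
  · obtain ⟨M, hM⟩ := exists_nat_ge x
    apply le_of_forall_lt
    intro c hc
    obtain ⟨K, hK⟩ := ENNReal.exists_nat_gt (ne_top_of_lt hc)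
    refine lt_of_lt_of_le ?_ (le_iSup _ (max M K))
    unfold t21_tr
    rw [if_pos (hM.trans (by exact_mod_cast le_max_left M K))]
    rw [lt_min_iff]
    refine ⟨hc, hK.trans_le ?_⟩
    exact_mod_cast le_max_right M K

theorem t21_tr_lim {G : ℝ → ℝ≥0∞} (m : Measurable G) :
    Filter.Tendsto (fun N => ∫⁻ x in Ioi 0, t21_tr N G x) Filter.atTop
      (nhds (∫⁻ x in Ioi 0, G x)) := by
  have h1 : ∫⁻ x in Ioi 0, G x = ⨆ N, ∫⁻ x in Ioi 0, t21_tr N G x := by
    rw [← lintegral_iSup (fun N => t21_tr_meas N m)]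
    · apply lintegral_congr
      intro x
      exact (t21_tr_sup G x).symm
    · intro a b hab x
      exact t21_tr_mono G x hab
  rw [h1]
  apply tendsto_atTop_iSup
  intro a b hab
  apply lintegral_mono
  intro x
  exact t21_tr_mono G x hab

theorem tr2 {G1 G2 G3 : ℝ → ℝ≥0∞} (m1 : Measurable G1) (m2 : Measurable G2) (m3 : Measurable G3)
    (a2 : AntitoneOn G2 (Ioi 0)) (a3 : AntitoneOn G3 (Ioi 0))
    (H : ∀ X x, 0 < X → 0 < x → G1 X ^ (1 / 21 : ℝ) * G2 x ^ (20 / 21 : ℝ) ≤
      (if 20 * x < X then ENNReal.ofReal (Real.exp (4 / 21)) else 1) *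
        G3 (1 / 21 * X + 20 / 21 * x)) :
    (∫⁻ x in Ioi 0, G1 x) ^ (1 / 21 : ℝ) * (∫⁻ x in Ioi 0, G2 x) ^ (20 / 21 : ℝ) ≤
      ∫⁻ x in Ioi 0, G3 x := by
  have hb : ∀ N : ℕ, (∫⁻ x in Ioi 0, t21_tr N G1 x) ^ (1 / 21 : ℝ) *
      (∫⁻ x in Ioi 0, t21_tr N G2 x) ^ (20 / 21 : ℝ) ≤ ∫⁻ x in Ioi 0, G3 x := by
    intro N
    have h3 := t21_lim (N := N) (G3 := fun x => min (G3 x) N) (t21_tr_meas N m1)
      (t21_tr_meas N m2) (m3.min measurable_const)
      (by
        intro x hx y hy hxy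
        unfold t21_tr
        split_ifs with c1 c2 c2
        · exact min_le_min_right _ (a2 hx hy hxy)
        · exact absurd (hxy.trans c1) c2
        · exact zero_le
        · exact le_rfl)
      (by
        intro x hx y hy hxy
        exact min_le_min_right _ (a3 hx hy hxy))
      (t21_tr_le N G1) (t21_tr_le N G2) (fun x => min_le_right _ _)
      (fun x hx => by unfold t21_tr; rw [if_neg (not_le.2 hx)])
      (fun x hx => by unfold t21_tr; rw [if_neg (not_le.2 hx)])
      (by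
        intro X x hX hx
        obtain ⟨c, hc⟩ : ∃ c : ℝ≥0∞, c =
          if 20 * x < X then ENNReal.ofReal (Real.exp (4 / 21)) else 1 := ⟨_, rfl⟩
        have hH := H X x hX hx
        rw [← hc] at hH ⊢
        have h1c : 1 ≤ c := by
          rw [hc]; split_ifs
          · rw [ENNReal.one_le_ofReal, Real.one_le_exp_iff]; norm_num
          · exact le_rfl
        have q1 : t21_tr N G1 X ≤ min (G1 X) N := by
          unfold t21_tr; split_ifs
          · exact le_rfl
          · exact zero_le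
        have q2 : t21_tr N G2 x ≤ min (G2 x) N := by
          unfold t21_tr; split_ifs
          · exact le_rfl
          · exact zero_le
        have q3 : t21_tr N G1 X ^ (1 / 21 : ℝ) * t21_tr N G2 x ^ (20 / 21 : ℝ) ≤
            G1 X ^ (1 / 21 : ℝ) * G2 x ^ (20 / 21 : ℝ) := by
          gcongr
          · exact q1.trans (min_le_left _ _)
          · exact q2.trans (min_le_left _ _)
        have q4 : t21_tr N G1 X ^ (1 / 21 : ℝ) * t21_tr N G2 x ^ (20 / 21 : ℝ) ≤ N := by
          calc _ ≤ (N : ℝ≥0∞) ^ (1 / 21 : ℝ) * (N : ℝ≥0∞) ^ (20 / 21 : ℝ) := by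
                gcongr
                · exact t21_tr_le N G1 X
                · exact t21_tr_le N G2 x
            _ = (N : ℝ≥0∞) ^ (1 / 21 + 20 / 21 : ℝ) := by
                rw [ENNReal.rpow_add_of_nonneg _ _ (by norm_num) (by norm_num)]
            _ = N := by norm_num
        rcases le_total (G3 (1 / 21 * X + 20 / 21 * x)) N with h4 | h4
        · rw [min_eq_left h4]
          exact q3.trans hH
        · rw [min_eq_right h4]
          calc _ ≤ (N : ℝ≥0∞) := q4
            _ = 1 * N := (one_mul _).symm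
            _ ≤ c * N := by gcongr)
    refine h3.trans (lintegral_mono fun x => min_le_left _ _)
  by_cases z1 : ∫⁻ x in Ioi 0, G1 x = 0
  · rw [z1, ENNReal.zero_rpow_of_pos (by norm_num), zero_mul]; exact zero_le
  by_cases z2 : ∫⁻ x in Ioi 0, G2 x = 0
  · rw [z2, ENNReal.zero_rpow_of_pos (by norm_num), mul_zero]; exact zero_le
  have l : Filter.Tendsto (fun N => (∫⁻ x in Ioi 0, t21_tr N G1 x) ^ (1 / 21 : ℝ) *
      (∫⁻ x in Ioi 0, t21_tr N G2 x) ^ (20 / 21 : ℝ)) Filter.atTop
      (nhds ((∫⁻ x in Ioi 0, G1 x) ^ (1 / 21 : ℝ) * (∫⁻ x in Ioi 0, G2 x) ^ (20 / 21 : ℝ))) := by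
    apply ENNReal.Tendsto.mul
    · exact (t21_tr_lim m1).ennrpow_const _
    · left
      intro h0
      rw [ENNReal.rpow_eq_zero_iff] at h0
      rcases h0 with h0 | h0
      · exact z1 h0.1
      · linarith [h0.2]
    · exact (t21_tr_lim m2).ennrpow_const _
    · left
      intro h0
      rw [ENNReal.rpow_eq_zero_iff] at h0
      rcases h0 with h0 | h0
      · exact z2 h0.1
      · linarith [h0.2]
  exact le_of_tendsto' l hb

end Pool.Agent.H57.SM
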